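import Mathlib

/-!
# FLO-Defs: growth systems, nested spectra, mutations (interface of the project Fl_n)

`r = n - 1`, points of `H^2(Fl_n)` are vectors `t : Fin r → ℂ` (`t = ∑ t_k ω_k`), indices `k : Fin r`
start from `0` (so the `k`-th polygon has `k + 2` vertices, and `L_k ^ j`, `0 ≤ j ≤ k + 1`, occur in the
collection of Orlov).
-/

set_option autoImplicit false

open scoped BigOperators

namespace Pool.Agent.FLO

/-- the height of `u` in the direction `ψ` -/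
noncomputable def ht (ψ : ℝ) (u : ℂ) : ℝ := (u * Complex.exp (-ψ * Complex.I)).re

/-- `t + 2πi μ` -/
noncomputable def tr {r : ℕ} (t : Fin r → ℂ) (μ : Fin r → ℤ) : Fin r → ℂ :=
  fun k => t k + 2 * Real.pi * Complex.I * μ k

/-- the lists obtained from `L` by mutations and changes of sign -/
inductive Mut {K : Type} [AddCommGroup K] (χ : K →+ K →+ ℤ) (L : List K) : List K → Prop
  | refl : Mut χ L L
  | sign (l₁ l₂ : List K) (x : K) : Mut χ L (l₁ ++ x :: l₂) → Mut χ L (l₁ ++ (-x) :: l₂)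
  | right (l₁ l₂ : List K) (x y : K) : Mut χ L (l₁ ++ x :: y :: l₂) →
      Mut χ L (l₁ ++ y :: (x - χ x y • y) :: l₂)
  | left (l₁ l₂ : List K) (x y : K) : Mut χ L (l₁ ++ x :: y :: l₂) →
      Mut χ L (l₁ ++ (y - χ x y • x) :: x :: l₂)

/-- the exponents with `0 ≤ μ_k ≤ k + 1`, `k < r`, and `μ_k = 0` for `k + m < r`, in lexicographic
order (`μ_0` is the most significant one); `box r r` is the whole box -/
def box (r : ℕ) : ℕ → List (Fin r → ℤ)
  | 0 => [0]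
  | m + 1 => (List.range (r - m + 1)).flatMap fun j =>
      (box r m).map fun μ => fun k => if k.val + m + 1 = r then (j : ℤ) else μ k

/-- A growth system: `spec t` is the set of canonical coordinates (eigenvalues of `c_1 •`) at `t`,
`G t ψ h` is the group of the `x` for which the solution `F_x(t, z)` satisfies
`limsup |z| log ‖F_x(t, z)‖ ≤ h` for `z → 0` in the direction `ψ`. -/
structure Growth (r N : ℕ) (K : Type) [AddCommGroup K] where
  χ : K →+ K →+ ℤ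
  spec : (Fin r → ℂ) → Finset ℂ
  G : (Fin r → ℂ) → ℝ → ℝ → AddSubgroup K
  /-- the twists by line bundles -/
  tw : (Fin r → ℤ) → K →+ K
  /-- the duality -/
  dual : K →+ K
  card_le : ∀ t, (spec t).card ≤ N
  /-- a lower semicontinuity of the spectrum -/
  spec_near : ∀ t₀, (spec t₀).card = N → ∀ ε : ℝ, 0 < ε → ∃ δ : ℝ, 0 < δ ∧ ∀ t, ‖t - t₀‖ < δ →
    ∀ u₀ ∈ spec t₀, ∃ u ∈ spec t, ‖u - u₀‖ < ε
  spec_tr : ∀ t μ, spec (tr t μ) = spec t
  tw_zero : ∀ x, tw 0 x = x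
  tw_add : ∀ μ ν x, tw (μ + ν) x = tw μ (tw ν x)
  tw_χ : ∀ μ x y, χ (tw μ x) (tw μ y) = χ x y
  G_tr : ∀ t μ ψ h x, x ∈ G (tr t μ) ψ h ↔ tw μ x ∈ G t ψ h
  G_lip : ∀ t₀ : Fin r → ℂ, ∃ δ C : ℝ, 0 < δ ∧ 0 < C ∧ ∀ t t', ‖t - t₀‖ < δ → ‖t' - t₀‖ < δ →
    ∀ ψ h x, x ∈ G t ψ h → x ∈ G t' ψ (h + C * ‖t' - t‖)
  dual_dual : ∀ x, dual (dual x) = x
  G_dual : ∀ t : Fin r → ℂ, (∀ k, (t k).im = 0) → ∀ h x, x ∈ G t Real.pi h → dual x ∈ G t Real.pi h

/-- `a_j` are the classes of the asymptotic basis at `t` for the line with the direction `φ`, the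
canonical coordinates `u_j` are ordered by their heights. -/
structure IsAsym {r N : ℕ} {K : Type} [AddCommGroup K] (S : Growth r N K) (t : Fin r → ℂ) (φ : ℝ)
    (u : Fin N → ℂ) (a : Fin N → K) : Prop where
  mem : ∀ x, x ∈ S.spec t ↔ ∃ j, u j = x
  mono : ∀ i j, i < j → ht φ (u i) < ht φ (u j)
  gen : ∀ x, ∃ c : Fin N → ℤ, x = ∑ j, c j • a j
  diag : ∀ i, S.χ (a i) (a i) = 1
  lower : ∀ i j, j < i → S.χ (a i) (a j) = 0
  growth : ∀ ψ ∈ Set.Icc φ (φ + Real.pi), ∀ h, ∀ c : Fin N → ℤ,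
    ∑ j, c j • a j ∈ S.G t ψ h ↔ ∀ j, c j ≠ 0 → ht ψ (u j) ≤ h

/-- a growth system with enough asymptotic bases -/
def Growth.Full {r N : ℕ} {K : Type} [AddCommGroup K] (S : Growth r N K) : Prop :=
  ∀ t, (S.spec t).card = N → ∀ φ, (∀ x ∈ S.spec t, ∀ y ∈ S.spec t, x ≠ y → ht φ x ≠ ht φ y) →
    ∃ u a, IsAsym S t φ u a

/-- the phases `arg q_k` in terms of the angles `θ_k`: `q_k = y_k ^ (k + 2) / y_{k - 1} ^ k`,
`θ_k = arg y_k` -/
noncomputable def ph {r : ℕ} (θ : Fin r → ℝ) : Fin r → ℝ := fun k =>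
  ((k.val : ℝ) + 2) * θ k -
    k.val * (if h : 0 < k.val then θ ⟨k.val - 1, lt_of_le_of_lt (Nat.sub_le _ _) k.isLt⟩ else 0)

/-- the point of `H^2` with the logarithmic moduli `ρ` and the angles `θ` -/
noncomputable def pt {r : ℕ} (ρ θ : Fin r → ℝ) : Fin r → ℂ := fun k => ρ k + ph θ k * Complex.I

/-- `x` is an integral multiple of `2π` -/
def IsPer (x : ℝ) : Prop := ∃ m : ℤ, x = 2 * Real.pi * m

/-- The spectrum is nested on the torus of the points with logarithmic moduli `ρ`: the canonical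
coordinates are the values `U θ'` at the angles `θ'` with the same phases, and in first approximation
`U θ = ∑ (k + 2) R_k e^{i θ_k}`. -/
structure Nested {r : ℕ} (spec : (Fin r → ℂ) → Finset ℂ) (N : ℕ) (δ : ℝ) where
  ρ : Fin r → ℝ
  R : Fin r → ℝ
  R_pos : ∀ k, 0 < R k
  U : (Fin r → ℝ) → ℂ
  U_cont : Continuous U
  U_per : ∀ θ θ', (∀ k, IsPer (θ' k - θ k)) → U θ' = U θ
  card : ∀ θ, (spec (pt ρ θ)).card = N
  mem : ∀ θ u, u ∈ spec (pt ρ θ) ↔ ∃ θ', (∀ k, IsPer (ph θ' k - ph θ k)) ∧ U θ' = u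
  approx : ∀ θ θ' k, (∀ i, IsPer (ph θ' i - ph θ i)) → (∀ i < k, IsPer (θ' i - θ i)) →
    ¬ IsPer (θ' k - θ k) →
    ‖U θ' - U θ - ((k.val : ℝ) + 2) * R k *
      (Complex.exp (θ' k * Complex.I) - Complex.exp (θ k * Complex.I))‖ ≤ δ * R k

end Pool.Agent.FLO
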