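import Pool.Agent.FLE.Defs
import Pool.Agent.FLO.Defs

/-!
# FLO-NOut: the output of the asymptotic analysis of the quantum Chevalley matrix (project FLE)
-/

set_option autoImplicit false

open scoped BigOperators

namespace Pool.Agent.FLO

/-- the angles in terms of the phases -/
noncomputable def thet (k : ℕ) (x : ℕ → ℝ) : ℝ :=
  (∑ i ∈ Finset.range (k + 1), ((i : ℝ) + 1) * x i) / (((k : ℝ) + 1) * ((k : ℝ) + 2))

/-- The eigenvalue of `c_1` on `Fl_(r+1)` at the point with the moduli `s k` and the phases `x k` of the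
quantum parameters is a sum of `r` terms of decreasing sizes `ρ k`. -/
def NOut (r : ℕ) (δ : ℝ) : Prop :=
  ∃ ρ s : ℕ → ℝ, (∀ k, 0 < ρ k) ∧ (∀ k, 0 < s k) ∧ (∀ k, ρ (k + 1) ≤ δ * ρ k) ∧
    ∃ g : ℕ → (ℕ → ℝ) → ℂ, (∀ k, Continuous (g k)) ∧
      (∀ k x x', (∀ i ≤ k, IsPer (thet i x' - thet i x)) → g k x' = g k x) ∧
      (∀ k < r, ∀ x, ‖g k x - ((k : ℂ) + 2) * ρ k * Complex.exp (Complex.I * thet k x)‖ ≤ δ * ρ k) ∧
      ∀ x : ℕ → ℝ, ∃ v : Equiv.Perm (Fin (r + 1)) → ℂ, v ≠ 0 ∧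
        (FLE.E r fun k => s k * Complex.exp (Complex.I * x k)).mulVec v =
          (∑ k ∈ Finset.range r, g k x) • v

end Pool.Agent.FLO
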