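import Pool.Agent.FLO.GInst

/-!
# FLO-A1: multiplication of classes in `K`-theory (proved, helper77)
-/

set_option autoImplicit false
set_option linter.unusedSectionVars false

open scoped BigOperators

namespace Pool.Agent.FLO

open Pool.Agent.FLG Pool.Agent.FLG.Flag

variable {ι V V' : Type} [Fintype ι] [AddCommGroup V] [Module ℂ V] [AddCommGroup V'] [Module ℂ V']
  {P : RootPairing ι ℂ V V'} [P.IsCrystallographic] (b : P.Base) [P.IsRootSystem] [P.IsReduced]
  [Fintype P.weylGroup] [DecidableEq P.weylGroup]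

/-- the operator of multiplication by `ch x` -/
noncomputable def mch (x : KClass P) : Matrix P.weylGroup P.weylGroup ℂ :=
  x.sum fun ν m => (m : ℂ) • NormedSpace.exp (cup b ν.1)

/-- the product of two classes -/
noncomputable def mulK (x y : KClass P) : KClass P := x.sum fun ν m => m • tws ν y

/-- the class of the structure sheaf -/
noncomputable def oneK : KClass P := Finsupp.single ⟨0, fun i => ⟨0, by simp⟩⟩ 1

private theorem a1_chern (x : KClass P) (u : P.weylGroup) :
    chern b x u = x.sum fun μ m => (m : ℂ) * NormedSpace.exp (cup b μ.1) u 1 := rfl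

private theorem a1_ch_smul (m : ℤ) (x : KClass P) : chern b (m • x) = (m : ℂ) • chern b x := by
  have h1 := map_zsmul (chHom b) m x
  have h2 : chern b (m • x) = m • chern b x := h1
  rw [h2, Int.cast_smul_eq_zsmul]

private theorem a1_mch (x : KClass P) :
    mch b x = ∑ ν ∈ x.support, ((x ν : ℤ) : ℂ) • NormedSpace.exp (cup b ν.1) := rfl

private theorem a1_mulK (x y : KClass P) : mulK x y = ∑ ν ∈ x.support, x ν • tws ν y := rfl

theorem ch_mulK (x y : KClass P) : chern b (mulK x y) = (mch b x).mulVec (chern b y) := by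
  have h1 : chern b (mulK x y) = ∑ ν ∈ x.support, chern b (x ν • tws ν y) := by
    rw [a1_mulK]
    exact map_sum (chHom b) _ _
  rw [h1, a1_mch, Matrix.sum_mulVec]
  refine Finset.sum_congr rfl (fun ν _ => ?_)
  rw [a1_ch_smul, ch_tws, Matrix.smul_mulVec]

private theorem a1_cup_zero : cup b (0 : V) = 0 := by
  have h1 := cup_lin b 0 0 (0 : V) (0 : V)
  simpa using h1

theorem ch_one : chern b (oneK : KClass P) = Pi.single 1 1 := by
  funext u
  rw [a1_chern]
  unfold oneK
  rw [Finsupp.sum_single_index]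
  · change ((1 : ℤ) : ℂ) * NormedSpace.exp (cup b (0 : V)) u 1 = _
    rw [a1_cup_zero, NormedSpace.exp_zero, Int.cast_one, one_mul, Matrix.one_apply,
      Pi.single_apply]
  · rw [Int.cast_zero, zero_mul]

theorem ch_eq (x : KClass P) : chern b x = (mch b x).mulVec (chern b oneK) := by
  funext u
  rw [ch_one, a1_chern, a1_mch, Matrix.sum_mulVec, Finset.sum_apply]
  unfold Finsupp.sum
  refine Finset.sum_congr rfl (fun ν _ => ?_)
  rw [Matrix.smul_mulVec, Pi.smul_apply, smul_eq_mul, Matrix.mulVec_single_one]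
  rfl

private theorem a1_exp_comm (h h' : V) :
    Commute (NormedSpace.exp (cup b h)) (NormedSpace.exp (cup b h')) := by
  have hc : Commute (cup b h) (cup b h') := cup_comm' b h h'
  have h1 := Matrix.exp_add_of_commute _ _ hc
  have h2 := Matrix.exp_add_of_commute _ _ hc.symm
  rw [add_comm, h1] at h2
  exact h2

theorem mch_comm (x y : KClass P) : mch b x * mch b y = mch b y * mch b x := by
  have h1 : Commute (mch b x) (mch b y) := by
    rw [a1_mch, a1_mch]
    refine Commute.sum_left _ _ _ (fun ν _ => Commute.sum_right _ _ _ (fun ν' _ => ?_))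
    exact ((a1_exp_comm b ν.1 ν'.1).smul_left _).smul_right _
  exact h1

private theorem a1_euler_zero_left (z : KClass P) : euler b 0 z = 0 := by
  unfold euler
  exact Finsupp.sum_zero_index

private theorem a1_euler_zero_right (z : KClass P) : euler b z 0 = 0 := by
  obtain ⟨Q, hQ⟩ := euler_ch b
  have h1 : chern b (0 : KClass P) = 0 := map_zero (chHom b)
  rw [hQ, h1, Matrix.mulVec_zero, dotProduct_zero]

private theorem a1_euler_add_left (x y z : KClass P) :
    euler b (x + y) z = euler b x z + euler b y z := by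
  obtain ⟨Q, hQ⟩ := euler_ch b
  have h1 : chern b (x + y) = chern b x + chern b y := map_add (chHom b) x y
  rw [hQ, hQ, hQ, h1, add_dotProduct]

private theorem a1_euler_add_right (x y z : KClass P) :
    euler b z (x + y) = euler b z x + euler b z y := by
  obtain ⟨Q, hQ⟩ := euler_ch b
  have h1 : chern b (x + y) = chern b x + chern b y := map_add (chHom b) x y
  rw [hQ, hQ, hQ, h1, Matrix.mulVec_add, dotProduct_add]

private theorem a1_euler_smul_left (m : ℤ) (x z : KClass P) :
    euler b (m • x) z = m * euler b x z := by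
  obtain ⟨Q, hQ⟩ := euler_ch b
  rw [hQ, hQ, a1_ch_smul, smul_dotProduct, smul_eq_mul]

private theorem a1_euler_smul_right (m : ℤ) (x z : KClass P) :
    euler b z (m • x) = m * euler b z x := by
  obtain ⟨Q, hQ⟩ := euler_ch b
  rw [hQ, hQ, a1_ch_smul, Matrix.mulVec_smul, dotProduct_smul, smul_eq_mul]

private theorem a1_mulK_add (x y z : KClass P) : mulK (x + y) z = mulK x z + mulK y z := by
  unfold mulK
  exact Finsupp.sum_add_index' (fun ν => zero_smul _ _) (fun ν m n => add_smul _ _ _)

private theorem a1_mulK_single (ν : {μ : V // ∀ i, ∃ n : ℤ, P.coroot' i μ = n}) (m : ℤ)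
    (z : KClass P) : mulK (Finsupp.single ν m) z = m • tws ν z := by
  unfold mulK
  exact Finsupp.sum_single_index (zero_smul _ _)

private theorem a1_dlK_add (x y : KClass P) : dlK (x + y) = dlK x + dlK y := by
  unfold dlK
  exact Finsupp.mapDomain_add

/-- the opposite weight -/
private def a1_neg (ν : {μ : V // ∀ i, ∃ n : ℤ, P.coroot' i μ = n}) :
    {μ : V // ∀ i, ∃ n : ℤ, P.coroot' i μ = n} :=
  ⟨-ν.1, fun i => by
    obtain ⟨m, hm⟩ := ν.2 i
    exact ⟨-m, by rw [map_neg, hm]; push_cast; ring⟩⟩

private theorem a1_dlK_single (ν : {μ : V // ∀ i, ∃ n : ℤ, P.coroot' i μ = n}) (m : ℤ) :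
    dlK (Finsupp.single ν m : KClass P) = Finsupp.single (a1_neg ν) m := by
  unfold dlK
  exact Finsupp.mapDomain_single

private theorem a1_tws_neg (ν : {μ : V // ∀ i, ∃ n : ℤ, P.coroot' i μ = n}) (z : KClass P) :
    tws ν (tws (a1_neg ν) z) = z := by
  unfold tws
  rw [← Finsupp.mapDomain_comp]
  refine Eq.trans ?_ Finsupp.mapDomain_id
  congr 1
  funext ξ
  apply Subtype.ext
  change ξ.1 + -ν.1 + ν.1 = ξ.1
  abel

theorem euler_adj (x y z : KClass P) :
    euler b (mulK x y) z = euler b y (mulK (dlK x) z) := by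
  induction x using Finsupp.induction_linear with
  | zero =>
    have h1 : mulK (0 : KClass P) y = 0 := Finsupp.sum_zero_index
    have h2 : dlK (0 : KClass P) = 0 := Finsupp.mapDomain_zero
    have h3 : mulK (0 : KClass P) z = 0 := Finsupp.sum_zero_index
    rw [h1, h2, h3, a1_euler_zero_left, a1_euler_zero_right]
  | add f g hf hg =>
    rw [a1_mulK_add, a1_euler_add_left, hf, hg, a1_dlK_add, a1_mulK_add, a1_euler_add_right]
  | single ν m =>
    rw [a1_mulK_single, a1_dlK_single, a1_mulK_single, a1_euler_smul_left,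
      a1_euler_smul_right, ← euler_tws b ν y (tws (a1_neg ν) z), a1_tws_neg]

private theorem a1_pow_deg (h : V) (n : ℕ) : ∀ u v : P.weylGroup,
    (cup b h ^ n) u v ≠ 0 → len b u = len b v + n := by
  induction n with
  | zero =>
    intro u v huv
    rw [pow_zero, Matrix.one_apply] at huv
    by_cases h1 : u = v
    · rw [h1, add_zero]
    · rw [if_neg h1] at huv
      exact absurd rfl huv
  | succ n ih =>
    intro u v huv
    rw [pow_succ, Matrix.mul_apply] at huv
    obtain ⟨w, _, hw⟩ := Finset.exists_ne_zero_of_sum_ne_zero huv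
    have h1 := ih u w (left_ne_zero_of_mul hw)
    have h2 := cup_deg b (right_ne_zero_of_mul hw)
    omega

private theorem a1_exp_sum (h : V) : ∃ K : ℕ, NormedSpace.exp (cup b h) =
    ∑ n ∈ Finset.range (K + 1), ((n.factorial : ℚ)⁻¹) • cup b h ^ n := by
  refine ⟨Finset.univ.sup (len b), ?_⟩
  rw [NormedSpace.exp_eq_tsum_rat]
  refine tsum_eq_sum (fun n hn => ?_)
  have h1 : cup b h ^ n = 0 := by
    ext u v
    rw [Matrix.zero_apply]
    by_contra hne
    have h2 := a1_pow_deg b h n u v hne
    have h3 : len b u ≤ Finset.univ.sup (len b) := Finset.le_sup (Finset.mem_univ u)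
    rw [Finset.mem_range] at hn
    omega
  rw [h1, smul_zero]

private theorem a1_exp_tri (h : V) {u v : P.weylGroup} (hne : NormedSpace.exp (cup b h) u v ≠ 0) :
    u = v ∨ len b v < len b u := by
  obtain ⟨K, hK⟩ := a1_exp_sum b h
  rw [hK, Matrix.sum_apply] at hne
  obtain ⟨n, _, hn⟩ := Finset.exists_ne_zero_of_sum_ne_zero hne
  rw [Matrix.smul_apply] at hn
  have h1 : (cup b h ^ n) u v ≠ 0 := by
    intro h0
    rw [h0, smul_zero] at hn
    exact hn rfl
  rcases Nat.eq_zero_or_pos n with h2 | h2
  · left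
    rw [h2, pow_zero, Matrix.one_apply] at h1
    by_contra h3
    rw [if_neg h3] at h1
    exact h1 rfl
  · right
    have h3 := a1_pow_deg b h n u v h1
    omega

private theorem a1_exp_diag (h : V) (u : P.weylGroup) : NormedSpace.exp (cup b h) u u = 1 := by
  obtain ⟨K, hK⟩ := a1_exp_sum b h
  rw [hK, Matrix.sum_apply, Finset.sum_eq_single 0]
  · rw [Matrix.smul_apply, pow_zero, Matrix.one_apply_eq]
    simp
  · intro n _ hn
    have h1 : (cup b h ^ n) u u = 0 := by
      by_contra h0
      have h2 := a1_pow_deg b h n u u h0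
      omega
    rw [Matrix.smul_apply, h1, smul_zero]
  · intro h0
    exact absurd (Finset.mem_range.2 (Nat.succ_pos K)) h0

theorem mch_tri {x : KClass P} {u v : P.weylGroup} (h : mch b x u v ≠ 0) :
    u = v ∨ len b v < len b u := by
  rw [a1_mch, Matrix.sum_apply] at h
  obtain ⟨ν, _, hν⟩ := Finset.exists_ne_zero_of_sum_ne_zero h
  rw [Matrix.smul_apply] at hν
  refine a1_exp_tri b ν.1 (fun h0 => hν ?_)
  rw [h0, smul_zero]

theorem mch_diag (x : KClass P) : ∃ m : ℤ, ∀ u, mch b x u u = m := by
  refine ⟨∑ ν ∈ x.support, x ν, fun u => ?_⟩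
  rw [a1_mch, Matrix.sum_apply, Int.cast_sum]
  refine Finset.sum_congr rfl (fun ν _ => ?_)
  rw [Matrix.smul_apply, a1_exp_diag, smul_eq_mul, mul_one]

theorem span_ch : Submodule.span ℂ (Set.range fun x : KClass P => chern b x) = ⊤ := by
  obtain ⟨t, -, ht⟩ := dense_flag b 0 one_pos
  obtain ⟨φ, hφ⟩ := exists_admS (small b t)
  obtain ⟨M, -⟩ := exists_data_small' b t ht hφ
  obtain ⟨v, hv, -⟩ := final_flag b t (Zs_std b t) M
  have h1 : Submodule.span ℂ (Set.range fun j => chern b (v j)) = ⊤ := by
    refine hv.independent.span_eq_top_of_card_eq_finrank' ?_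
    rw [Fintype.card_fin, Module.finrank_fintype_fun_eq_card]
  rw [eq_top_iff, ← h1]
  refine Submodule.span_mono ?_
  rintro _ ⟨j, rfl⟩
  exact ⟨v j, rfl⟩

end Pool.Agent.FLO
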