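import Pool.Agent.FLO.TA3

/-!
# FLO-A2: the box of exponents and the dimension formula of Weyl
-/

set_option autoImplicit false
set_option linter.unusedSectionVars false

open scoped BigOperators

namespace Pool.Agent.FLO

open Pool.Agent.FLG Pool.Agent.FLG.Flag

/-- one step of the box -/
private def a2st {r : ℕ} (m : ℕ) (j : ℕ) (μ : Fin r → ℤ) : Fin r → ℤ :=
  fun k => if k.val + m + 1 = r then (j : ℤ) else μ k

private theorem a2_box_succ (r m : ℕ) : box r (m + 1) =
    (List.range (r - m + 1)).flatMap fun j => (box r m).map (a2st m j) := by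
  rw [box, bind_pure_comp]
  exact List.flatMap_map _ _ _

theorem mem_box {r m : ℕ} (hm : m ≤ r) (μ : Fin r → ℤ) : μ ∈ box r m ↔
    (∀ k, 0 ≤ μ k ∧ μ k ≤ (k.val : ℤ) + 1) ∧ ∀ k : Fin r, k.val + m < r → μ k = 0 := by
  induction m generalizing μ with
  | zero =>
    show μ ∈ [(0 : Fin r → ℤ)] ↔ _
    rw [List.mem_singleton]
    constructor
    · rintro rfl
      refine ⟨fun k => ⟨le_refl _, ?_⟩, fun k _ => rfl⟩
      show (0 : ℤ) ≤ (k.val : ℤ) + 1
      omega
    · rintro ⟨-, h⟩
      funext k
      exact h k (by have := k.isLt; omega)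
  | succ m ih =>
    have hm' : m ≤ r := by omega
    rw [a2_box_succ, List.mem_flatMap]
    constructor
    · rintro ⟨j, hj, hμ⟩
      rw [List.mem_range] at hj
      obtain ⟨ν, hν, rfl⟩ := List.mem_map.1 hμ
      obtain ⟨h1, h2⟩ := (ih hm' ν).1 hν
      constructor
      · intro k
        unfold a2st
        split_ifs with h
        · constructor <;> omega
        · exact h1 k
      · intro k hk
        unfold a2st
        rw [if_neg (by omega)]
        exact h2 k (by omega)
    · rintro ⟨h1, h2⟩
      have hk0 : r - 1 - m < r := by omega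
      refine ⟨(μ ⟨r - 1 - m, hk0⟩).toNat, ?_, ?_⟩
      · rw [List.mem_range]
        have h3 := h1 ⟨r - 1 - m, hk0⟩
        have h4 : ((⟨r - 1 - m, hk0⟩ : Fin r).val : ℤ) = ((r - 1 - m : ℕ) : ℤ) := rfl
        rw [h4] at h3
        omega
      · rw [List.mem_map]
        refine ⟨a2st m 0 μ, (ih hm' _).2 ⟨?_, ?_⟩, ?_⟩
        · intro k
          unfold a2st
          split_ifs with h
          · constructor
            · exact le_refl _
            · push_cast
              omega
          · exact h1 k
        · intro k hk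
          unfold a2st
          split_ifs with h
          · rfl
          · exact h2 k (by omega)
        · funext k
          unfold a2st
          split_ifs with h
          · have hk : k = ⟨r - 1 - m, hk0⟩ := Fin.ext (by show k.val = r - 1 - m; omega)
            rw [← hk]
            exact Int.toNat_of_nonneg (h1 k).1
          · rfl

theorem box_head {r m : ℕ} (hm : m ≤ r) : ∃ L, box r m = 0 :: L ∧ ∀ μ ∈ L, μ ≠ 0 := by
  induction m with
  | zero => exact ⟨[], rfl, fun μ hμ => absurd hμ (by simp)⟩
  | succ m ih =>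
    have hm' : m ≤ r := by omega
    have hk0 : r - 1 - m < r := by omega
    obtain ⟨L, hL1, hL2⟩ := ih hm'
    refine ⟨L.map (a2st m 0) ++ ((List.range (r - m)).map Nat.succ).flatMap
      fun j => (box r m).map (a2st m j), ?_, ?_⟩
    · rw [a2_box_succ, List.range_succ_eq_map, List.flatMap_cons]
      have h1 : (box r m).map (a2st m 0) = 0 :: L.map (a2st m 0) := by
        rw [hL1, List.map_cons]
        congr 1
        funext k
        unfold a2st
        split_ifs with h
        · rfl
        · rfl
      rw [h1]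
      rfl
    · intro μ hμ
      rw [List.mem_append] at hμ
      rcases hμ with hμ | hμ
      · obtain ⟨ν, hν, rfl⟩ := List.mem_map.1 hμ
        have h3 : ν ∈ box r m := by rw [hL1]; exact List.mem_cons_of_mem _ hν
        have h4 := ((mem_box hm' ν).1 h3).2
        have h5 : a2st m 0 ν = ν := by
          funext k
          unfold a2st
          split_ifs with h
          · rw [h4 k (by omega)]
            rfl
          · rfl
        rw [h5]
        exact hL2 ν hν
      · obtain ⟨j, hj, hμ⟩ := List.mem_flatMap.1 hμ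
        obtain ⟨i, hi, rfl⟩ := List.mem_map.1 hj
        obtain ⟨ν, hν, rfl⟩ := List.mem_map.1 hμ
        intro h
        have h1 := congrFun h ⟨r - 1 - m, hk0⟩
        unfold a2st at h1
        rw [if_pos (by show r - 1 - m + m + 1 = r; omega)] at h1
        have h2 : ((Nat.succ i : ℕ) : ℤ) = 0 := h1
        omega

variable {ι V V' : Type} [Fintype ι] [AddCommGroup V] [Module ℂ V] [AddCommGroup V'] [Module ℂ V']
  {P : RootPairing ι ℂ V V'} [P.IsCrystallographic] (b : P.Base) [P.IsRootSystem] [P.IsReduced]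
  [Fintype P.weylGroup] [DecidableEq P.weylGroup]
  {r : ℕ} {e : Fin r ≃ b.support} {ω : Fin r → V}
  (he : ∀ i j : Fin r, P.pairing (e i) (e j) = (cA i j : ℂ)) (hω : IsFund b e ω)

theorem weyl_zero : weyl b (0 : V) = 1 := by
  obtain ⟨D, ⟨m⟩⟩ := exists_model P b
  unfold weyl
  refine Finset.prod_eq_one fun i hi => ?_
  rw [smul_zero, zero_add]
  refine div_self ?_
  rw [m.ch_ctr' i]
  have h1 := RS.two_le_L (m.mem_pos.1 hi)
  intro h2
  have h3 : D.L (m.v i) = 0 := by exact_mod_cast h2
  omega

include he hω in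
theorem weyl_box {μ : Fin r → ℤ} (hμ : μ ∈ box r r) (h0 : μ ≠ 0) :
    weyl b (-tp ω fun k => (μ k : ℂ)) = 0 := by
  have hb := ((mem_box (le_refl r) μ).1 hμ).1
  have hex : ∃ k : ℕ, ∃ hk : k < r, μ ⟨k, hk⟩ ≠ 0 := by
    by_contra hcon
    push Not at hcon
    exact h0 (funext fun k => hcon k.val k.isLt)
  classical
  obtain ⟨hk, hne⟩ := Nat.find_spec hex
  have hmin := fun j (hj : j < Nat.find hex) => Nat.find_min hex hj
  generalize Nat.find hex = k at hk hne hmin
  obtain ⟨d, hd⟩ : ∃ d : ℕ, μ ⟨k, hk⟩ = d := ⟨(μ ⟨k, hk⟩).toNat, (Int.toNat_of_nonneg (hb _).1).symm⟩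
  have hd1 : 1 ≤ d := by
    rw [hd] at hne
    by_contra h
    apply hne
    have : d = 0 := by omega
    rw [this]
    rfl
  have hd2 : d ≤ k + 1 := by
    have h3 := (hb ⟨k, hk⟩).2
    rw [hd] at h3
    have h4 : ((⟨k, hk⟩ : Fin r).val : ℤ) = (k : ℤ) := rfl
    rw [h4] at h3
    omega
  obtain ⟨i, hi, hri⟩ := root_int b he hω (a := k + 1 - d) (c := k + 1) (by omega) (by omega)
  unfold weyl
  refine Finset.prod_eq_zero hi ?_
  have e1 : P.coroot' i (tp ω fun k => (μ k : ℂ)) = (d : ℂ) := by
    rw [hri, Finset.sum_eq_single k]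
    · unfold xt
      rw [dif_pos hk]
      show ((μ ⟨k, hk⟩ : ℤ) : ℂ) = (d : ℂ)
      rw [hd, Int.cast_natCast]
    · intro j hj hjk
      rw [Finset.mem_Ico] at hj
      have hjk' : j < k := by omega
      have h5 := hmin j hjk'
      push Not at h5
      unfold xt
      split_ifs with h6
      · show ((μ ⟨j, h6⟩ : ℤ) : ℂ) = 0
        rw [h5 h6, Int.cast_zero]
      · rfl
    · intro h
      exfalso
      apply h
      rw [Finset.mem_Ico]
      constructor <;> omega
  have e2 : P.coroot' i (c₁ b) = 2 * (d : ℂ) := by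
    rw [c1_tp b he hω, hri]
    have h7 : ∀ j ∈ Finset.Ico (k + 1 - d) (k + 1), xt (r := r) (fun _ => (2 : ℂ)) j = 2 := by
      intro j hj
      rw [Finset.mem_Ico] at hj
      unfold xt
      rw [dif_pos (by omega)]
    rw [Finset.sum_congr rfl h7, Finset.sum_const, Nat.card_Ico, nsmul_eq_mul]
    have h8 : k + 1 - (k + 1 - d) = d := by omega
    rw [h8, mul_comm]
  rw [map_add, map_nsmul, map_neg, e1, e2]
  have e3 : (2 : ℕ) • (-(d : ℂ)) + 2 * (d : ℂ) = 0 := by
    rw [nsmul_eq_mul]
    push_cast
    ring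
  rw [e3, zero_div]

end Pool.Agent.FLO
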