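import Mathlib

/-!
# FLO-A3T: triangular matrices with square `± 1`

Strictly triangular perturbation of an integer: induction on the height.
-/

set_option autoImplicit false

open scoped BigOperators

namespace Pool.Agent.FLO

/-- a matrix which is an integer plus a strictly triangular part, with square `± 1`, is `± 1` -/
theorem tri_sq {κ : Type} [Fintype κ] [DecidableEq κ] (f : κ → ℕ) {M : Matrix κ κ ℂ} {m : ℤ}
    (h1 : ∀ u v, M u v ≠ 0 → u = v ∨ f v < f u) (h2 : ∀ u, M u u = m) {s : ℂ}
    (hs : s = 1 ∨ s = -1) (h3 : M * M = s • (1 : Matrix κ κ ℂ)) [Nonempty κ] :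
    M = 1 ∨ M = -1 := by
  obtain ⟨u0⟩ := ‹Nonempty κ›
  have hdiag : ∀ u, (M * M) u u = (m : ℂ) * m := by
    intro u
    rw [Matrix.mul_apply, Finset.sum_eq_single u, h2]
    · intro k _ hk
      by_contra hne
      have h4 : M u k ≠ 0 := left_ne_zero_of_mul hne
      have h5 : M k u ≠ 0 := right_ne_zero_of_mul hne
      rcases h1 u k h4 with h | h
      · exact hk h.symm
      · rcases h1 k u h5 with h' | h'
        · exact hk h'
        · omega
    · intro h
      exact absurd (Finset.mem_univ u) h
  have hm : (m : ℂ) * m = s := by
    rw [← hdiag u0, h3]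
    simp
  have hmz : m * m = 1 := by
    rcases hs with rfl | rfl
    · exact_mod_cast hm
    · have h4 : m * m = -1 := by exact_mod_cast hm
      nlinarith [mul_self_nonneg m]
  have hm0 : (m : ℂ) ≠ 0 := by
    intro h
    have h4 : m = 0 := by exact_mod_cast h
    rw [h4] at hmz
    exact absurd hmz (by norm_num)
  have hoff : ∀ d u v, u ≠ v → f u ≤ f v + d → M u v = 0 := by
    intro d
    induction d with
    | zero =>
      intro u v huv h
      by_contra hne
      rcases h1 u v hne with h' | h'
      · exact huv h'
      · omega
    | succ d ih =>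
      intro u v huv hd
      by_contra hne
      have h6 : (M * M) u v = 2 * m * M u v := by
        rw [Matrix.mul_apply, Finset.sum_eq_add u v huv, h2, h2]
        · ring
        · intro k _ hk
          by_contra hne2
          have h4 : M u k ≠ 0 := left_ne_zero_of_mul hne2
          have h5 : M k v ≠ 0 := right_ne_zero_of_mul hne2
          have h7 : f v < f k := by
            rcases h1 k v h5 with h' | h'
            · exact absurd h' hk.2
            · exact h'
          exact h4 (ih u k (fun h => hk.1 h.symm) (by omega))
        · intro h
          exact absurd (Finset.mem_univ u) h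
        · intro h
          exact absurd (Finset.mem_univ v) h
      rw [h3, Matrix.smul_apply, Matrix.one_apply_ne huv, smul_zero] at h6
      have h8 : (2 : ℂ) * m ≠ 0 := mul_ne_zero two_ne_zero hm0
      exact (mul_ne_zero h8 hne) h6.symm
  have hM : ∀ u v, M u v = if u = v then (m : ℂ) else 0 := by
    intro u v
    by_cases huv : u = v
    · subst huv
      rw [if_pos rfl, h2]
    · rw [if_neg huv]
      exact hoff (f u) u v huv (by omega)
  rcases mul_self_eq_one_iff.1 hmz with h | h
  · left
    ext u v
    rw [hM, h, Matrix.one_apply]
    simp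
  · right
    ext u v
    rw [hM, h, Matrix.neg_apply, Matrix.one_apply]
    split_ifs <;> simp

end Pool.Agent.FLO
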