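import Pool.Agent.FLO.A3M
import Pool.Agent.FLO.A3T

/-!
# FLO-A3: the class `w` is `± [O]` (proved, helper37)
-/

set_option autoImplicit false
set_option linter.unusedSectionVars false

open scoped BigOperators

namespace Pool.Agent.FLO

open Pool.Agent.FLG Pool.Agent.FLG.Flag

variable {ι V V' : Type} [Fintype ι] [AddCommGroup V] [Module ℂ V] [AddCommGroup V'] [Module ℂ V']
  {P : RootPairing ι ℂ V V'} [P.IsCrystallographic] (b : P.Base) [P.IsRootSystem] [P.IsReduced]
  [Fintype P.weylGroup] [DecidableEq P.weylGroup]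
  {r : ℕ} {e : Fin r ≃ b.support} {ω : Fin r → V}
  (he : ∀ i j : Fin r, P.pairing (e i) (e j) = (cA i j : ℂ)) (hω : IsFund b e ω)

include he in
theorem unit_of_box {w : Kc b} (hd : duK b w = w ∨ duK b w = -w)
    (hexc : Exc (chiK b) ((box r r).map fun μ => twK b hω μ w))
    (hgen : ∀ x : Kc b, x ∈ AddSubgroup.closure {y | y ∈ (box r r).map fun μ => twK b hω μ w}) :
    w = toK b oneK ∨ w = -toK b oneK := by
  have hp := ch_dl_mul b he hω hexc hgen
  -- the dual
  obtain ⟨s, hs, hdual⟩ : ∃ s : ℂ, (s = 1 ∨ s = -1) ∧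
      chern b (dlK (rep b w)) = s • chern b (rep b w) := by
    have h1 : (duK b w : P.weylGroup → ℂ) = chern b (dlK (rep b w)) := by
      have h2 := duK_toK b (rep b w)
      rw [toK_rep] at h2
      exact congrArg Subtype.val h2
    rcases hd with h | h
    · refine ⟨1, Or.inl rfl, ?_⟩
      rw [← h1, h, one_smul, ch_rep]
    · refine ⟨-1, Or.inr rfl, ?_⟩
      rw [← h1, h, neg_one_smul, ch_rep]
      rfl
  have hss : s * s = 1 := by
    rcases hs with rfl | rfl <;> norm_num
  have he' : (mch b (rep b w) * mch b (rep b w)).mulVec (chern b oneK) = s • chern b oneK := by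
    have h1 : chern b (mulK (dlK (rep b w)) (rep b w)) =
        s • (mch b (rep b w) * mch b (rep b w)).mulVec (chern b oneK) := by
      rw [ch_mulK, ch_eq b (rep b w), Matrix.mulVec_mulVec, mch_comm, ← Matrix.mulVec_mulVec,
        ← ch_eq b (dlK (rep b w)), hdual, Matrix.mulVec_smul, ch_eq b (rep b w),
        Matrix.mulVec_mulVec]
    rw [hp] at h1
    calc (mch b (rep b w) * mch b (rep b w)).mulVec (chern b oneK)
        = (s * s) • (mch b (rep b w) * mch b (rep b w)).mulVec (chern b oneK) := by
          rw [hss, one_smul]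
      _ = s • chern b oneK := by rw [mul_smul, ← h1]
  have hz : ∀ z : KClass P, (mch b (rep b w) * mch b (rep b w)).mulVec (chern b z) =
      s • chern b z := by
    intro z
    have hc : mch b (rep b w) * mch b (rep b w) * mch b z =
        mch b z * (mch b (rep b w) * mch b (rep b w)) := by
      rw [mul_assoc, mch_comm b (rep b w) z, ← mul_assoc, mch_comm b (rep b w) z, mul_assoc]
    rw [ch_eq b z, Matrix.mulVec_mulVec, hc, ← Matrix.mulVec_mulVec, he', Matrix.mulVec_smul]
  have hall : ∀ v : P.weylGroup → ℂ, (mch b (rep b w) * mch b (rep b w)).mulVec v = s • v := by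
    intro v
    have hv : v ∈ Submodule.span ℂ (Set.range fun x : KClass P => chern b x) := by
      rw [span_ch]; trivial
    induction hv using Submodule.span_induction with
    | mem v hv =>
      obtain ⟨z, rfl⟩ := hv
      exact hz z
    | zero => rw [Matrix.mulVec_zero, smul_zero]
    | add x y _ _ hx hy => rw [Matrix.mulVec_add, hx, hy, smul_add]
    | smul a x _ hx => rw [Matrix.mulVec_smul, hx, smul_comm]
  have hM2 : mch b (rep b w) * mch b (rep b w) = s • (1 : Matrix P.weylGroup P.weylGroup ℂ) := by
    ext u v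
    have h1 := congrFun (hall (Pi.single v 1)) u
    rw [Matrix.mulVec_single_one] at h1
    rw [Matrix.smul_apply]
    simpa [Matrix.one_apply, Pi.single_apply] using h1
  obtain ⟨m, hm⟩ := mch_diag b (rep b w)
  have hchx : chern b (rep b w) = (mch b (rep b w)).mulVec (chern b oneK) := ch_eq b _
  have htri : mch b (rep b w) = 1 ∨ mch b (rep b w) = -1 :=
    tri_sq (len b) (M := mch b (rep b w)) (fun u v h => mch_tri b h) hm hs hM2
  rcases htri with h | h
  · left
    rw [h, Matrix.one_mulVec] at hchx
    rw [← toK_rep b w]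
    exact Subtype.ext hchx
  · right
    rw [h, Matrix.neg_mulVec, Matrix.one_mulVec] at hchx
    rw [← toK_rep b w]
    exact Subtype.ext hchx

end Pool.Agent.FLO
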