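import Pool.Agent.FLO.Defs

/-!
# Mutations of exceptional lists

`K` is an abelian group with a bilinear form `χ : K × K → ℤ`.
-/

set_option autoImplicit false

namespace Pool.Agent.FLO

variable {K : Type} [AddCommGroup K] {χ : K →+ K →+ ℤ}

/-- numerically exceptional lists -/
def Exc (χ : K →+ K →+ ℤ) (l : List K) : Prop :=
  l.Pairwise (fun x y => χ y x = 0) ∧ ∀ x ∈ l, χ x x = 1

theorem Mut.trans {l m r : List K} (h : Mut χ l m) (h' : Mut χ m r) : Mut χ l r := by
  induction h' with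
  | refl => exact h
  | sign l₁ l₂ x _ ih => exact Mut.sign l₁ l₂ x ih
  | right l₁ l₂ x y _ ih => exact Mut.right l₁ l₂ x y ih
  | left l₁ l₂ x y _ ih => exact Mut.left l₁ l₂ x y ih

theorem Mut.mid {l m : List K} (h : Mut χ l m) (p q : List K) :
    Mut χ (p ++ l ++ q) (p ++ m ++ q) := by
  induction h with
  | refl => exact Mut.refl
  | sign l₁ l₂ x _ ih =>
    have := Mut.sign (χ := χ) (L := p ++ l ++ q) (p ++ l₁) (l₂ ++ q) x (by simpa using ih)
    simpa using this
  | right l₁ l₂ x y _ ih =>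
    have := Mut.right (χ := χ) (L := p ++ l ++ q) (p ++ l₁) (l₂ ++ q) x y (by simpa using ih)
    simpa using this
  | left l₁ l₂ x y _ ih =>
    have := Mut.left (χ := χ) (L := p ++ l ++ q) (p ++ l₁) (l₂ ++ q) x y (by simpa using ih)
    simpa using this

theorem Mut.append {l l' r r' : List K} (h : Mut χ l l') (h' : Mut χ r r') :
    Mut χ (l ++ r) (l' ++ r') := by
  have h1 := h.mid [] r
  have h2 := h'.mid l' []
  simp only [List.nil_append, List.append_nil] at h1 h2
  exact h1.trans h2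

theorem Mut.cons {l l' : List K} (x : K) (h : Mut χ l l') : Mut χ (x :: l) (x :: l') := by
  simpa using Mut.append (Mut.refl (L := [x])) h

theorem Mut.neg_cons (x : K) (l : List K) : Mut χ (x :: l) ((-x) :: l) :=
  Mut.sign [] l x Mut.refl

/-- an additive map which preserves `χ` maps mutations to mutations -/
theorem Mut.map {l m : List K} (h : Mut χ l m) (f : K →+ K) (hf : ∀ x y, χ (f x) (f y) = χ x y) :
    Mut χ (l.map f) (m.map f) := by
  induction h with
  | refl => exact Mut.refl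
  | sign l₁ l₂ x _ ih =>
    have := Mut.sign (χ := χ) (L := l.map f) (l₁.map f) (l₂.map f) (f x) (by simpa using ih)
    simpa using this
  | right l₁ l₂ x y _ ih =>
    have := Mut.right (χ := χ) (L := l.map f) (l₁.map f) (l₂.map f) (f x) (f y) (by simpa using ih)
    simpa [hf] using this
  | left l₁ l₂ x y _ ih =>
    have := Mut.left (χ := χ) (L := l.map f) (l₁.map f) (l₂.map f) (f x) (f y) (by simpa using ih)
    simpa [hf] using this

theorem exc_append {l r : List K} : Exc χ (l ++ r) ↔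
    Exc χ l ∧ Exc χ r ∧ ∀ x ∈ l, ∀ y ∈ r, χ y x = 0 := by
  simp only [Exc, List.pairwise_append, List.mem_append]
  constructor
  · rintro ⟨⟨h1, h2, h3⟩, h4⟩
    exact ⟨⟨h1, fun x hx => h4 x (Or.inl hx)⟩, ⟨h2, fun x hx => h4 x (Or.inr hx)⟩, h3⟩
  · rintro ⟨⟨h1, h1'⟩, ⟨h2, h2'⟩, h3⟩
    refine ⟨⟨h1, h2, h3⟩, ?_⟩
    rintro x (hx | hx)
    · exact h1' x hx
    · exact h2' x hx

theorem exc_cons {x : K} {r : List K} : Exc χ (x :: r) ↔
    χ x x = 1 ∧ Exc χ r ∧ ∀ y ∈ r, χ y x = 0 := by
  have := exc_append (χ := χ) (l := [x]) (r := r)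
  simp only [List.singleton_append, List.mem_singleton, forall_eq] at this
  rw [this]
  simp [Exc]

theorem exc_sign {l r : List K} {x : K} (hl : Exc χ (l ++ x :: r)) : Exc χ (l ++ (-x) :: r) := by
  rw [exc_append, exc_cons] at hl ⊢
  obtain ⟨h1, ⟨hxx, hr, hx⟩, hlr⟩ := hl
  simp only [List.mem_cons, forall_eq_or_imp] at hlr
  refine ⟨h1, ⟨by simpa using hxx, hr, fun w hw => by simp [hx w hw]⟩, ?_⟩
  intro w hw
  simp only [List.mem_cons, forall_eq_or_imp]
  exact ⟨by simp [(hlr w hw).1], (hlr w hw).2⟩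

theorem exc_right {l r : List K} {x y : K} (hl : Exc χ (l ++ x :: y :: r)) :
    Exc χ (l ++ y :: (x - χ x y • y) :: r) ∧ χ y (x - χ x y • y) = - χ x y := by
  rw [exc_append, exc_cons, exc_cons] at hl
  obtain ⟨h1, ⟨hxx, ⟨hyy, hr, hry⟩, hx⟩, hlr⟩ := hl
  simp only [List.mem_cons, forall_eq_or_imp] at hx hlr
  have hz : χ y (x - χ x y • y) = - χ x y := by
    rw [map_sub, map_zsmul, hyy, hx.1]; simp
  refine ⟨?_, hz⟩
  rw [exc_append, exc_cons, exc_cons]
  refine ⟨h1, ⟨hyy, ⟨?_, hr, ?_⟩, ?_⟩, ?_⟩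
  · simp [map_sub, map_zsmul, hyy, hx.1, hxx]
  · intro w hw
    rw [map_sub, map_zsmul, hry w hw, hx.2 w hw]; simp
  · simp only [List.mem_cons, forall_eq_or_imp]
    refine ⟨?_, hry⟩
    simp [map_sub, map_zsmul, hyy]
  · intro w hw
    simp only [List.mem_cons, forall_eq_or_imp]
    refine ⟨(hlr w hw).2.1, ?_, (hlr w hw).2.2⟩
    simp [map_sub, map_zsmul, (hlr w hw).1, (hlr w hw).2.1]

theorem exc_left {l r : List K} {x y : K} (hl : Exc χ (l ++ x :: y :: r)) :
    Exc χ (l ++ (y - χ x y • x) :: x :: r) ∧ χ (y - χ x y • x) x = - χ x y := by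
  rw [exc_append, exc_cons, exc_cons] at hl
  obtain ⟨h1, ⟨hxx, ⟨hyy, hr, hry⟩, hx⟩, hlr⟩ := hl
  simp only [List.mem_cons, forall_eq_or_imp] at hx hlr
  have hz : χ (y - χ x y • x) x = - χ x y := by
    rw [map_sub, map_zsmul, AddMonoidHom.sub_apply, AddMonoidHom.smul_apply, hxx, hx.1]; simp
  refine ⟨?_, hz⟩
  rw [exc_append, exc_cons, exc_cons]
  refine ⟨h1, ⟨?_, ⟨hxx, hr, hx.2⟩, ?_⟩, ?_⟩
  · simp [map_sub, map_zsmul, hyy, hx.1, hxx]
  · simp only [List.mem_cons, forall_eq_or_imp]
    refine ⟨?_, ?_⟩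
    · simp [map_sub, map_zsmul, hxx]
    · intro w hw
      rw [map_sub, map_zsmul, hry w hw, hx.2 w hw]; simp
  · intro w hw
    simp only [List.mem_cons, forall_eq_or_imp]
    refine ⟨?_, (hlr w hw).1, (hlr w hw).2.2⟩
    simp [map_sub, map_zsmul, (hlr w hw).1, (hlr w hw).2.1]

theorem Mut.exc {l m : List K} (h : Mut χ l m) (hl : Exc χ l) : Exc χ m := by
  induction h with
  | refl => exact hl
  | sign l₁ l₂ x _ ih => exact exc_sign ih
  | right l₁ l₂ x y _ ih => exact (exc_right ih).1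
  | left l₁ l₂ x y _ ih => exact (exc_left ih).1

theorem Mut.symm {l m : List K} (h : Mut χ l m) (hl : Exc χ l) : Mut χ m l := by
  induction h with
  | refl => exact Mut.refl
  | sign l₁ l₂ x hm ih =>
    have := Mut.sign (χ := χ) l₁ l₂ (-x) (Mut.refl (χ := χ) (L := l₁ ++ (-x) :: l₂))
    rw [neg_neg] at this
    exact this.trans ih
  | right l₁ l₂ x y hm ih =>
    have h1 := exc_right (hm.exc hl)
    have := Mut.left (χ := χ) l₁ l₂ y (x - χ x y • y) Mut.refl
    rw [h1.2] at this
    have h2 : x - χ x y • y - -(χ x y) • y = x := by simp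
    rw [h2] at this
    exact this.trans ih
  | left l₁ l₂ x y hm ih =>
    have h1 := exc_left (hm.exc hl)
    have := Mut.right (χ := χ) l₁ l₂ (y - χ x y • x) x Mut.refl
    rw [h1.2] at this
    have h2 : y - χ x y • x - -(χ x y) • x = y := by simp
    rw [h2] at this
    exact this.trans ih

/-- move an element to the front by right mutations -/
theorem mut_move (l r : List K) (y : K) :
    Mut χ (l ++ y :: r) (y :: (l.map fun x => x - χ x y • y) ++ r) := by
  induction l using List.reverseRecOn generalizing r with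
  | nil => exact Mut.refl
  | append_singleton l x ih =>
    have h1 := Mut.right (χ := χ) l r x y Mut.refl
    have h2 := ih ((x - χ x y • y) :: r)
    have h3 := h1.trans h2
    simpa using h3

/-- lists which agree up to signs -/
theorem mut_of_signs {ι : Type} (l : List ι) (a b : ι → K) (h : ∀ i ∈ l, b i = a i ∨ b i = - a i) :
    Mut χ (l.map a) (l.map b) := by
  induction l with
  | nil => exact Mut.refl
  | cons i l ih =>
    have h1 := ih fun j hj => h j (List.mem_cons_of_mem _ hj)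
    have h2 : Mut χ (a i :: l.map a) (b i :: l.map a) := by
      rcases h i (by simp) with h | h
      · rw [h]; exact Mut.refl
      · rw [h]; exact Mut.neg_cons _ _
    simpa using h2.trans (h1.cons (b i))

end Pool.Agent.FLO
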