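import Pool.Agent.FLO.A1
import Pool.Agent.FLO.A2
import Pool.Agent.FLO.DMut

/-!
# FLO-A3M: `w^* w = 1` (proved, helper37)
-/

set_option autoImplicit false
set_option linter.unusedSectionVars false

open scoped BigOperators

namespace Pool.Agent.FLO

open Pool.Agent.FLG Pool.Agent.FLG.Flag

variable {ι V V' : Type} [Fintype ι] [AddCommGroup V] [Module ℂ V] [AddCommGroup V'] [Module ℂ V']
  {P : RootPairing ι ℂ V V'} [P.IsCrystallographic] (b : P.Base) [P.IsRootSystem] [P.IsReduced]
  [Fintype P.weylGroup] [DecidableEq P.weylGroup]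
  {r : ℕ} {e : Fin r ≃ b.support} {ω : Fin r → V}
  (he : ∀ i j : Fin r, P.pairing (e i) (e j) = (cA i j : ℂ)) (hω : IsFund b e ω)

private theorem ch_mulK_comm (x y : KClass P) : chern b (mulK x y) = chern b (mulK y x) := by
  rw [ch_mulK, ch_mulK, ch_eq b x, ch_eq b y, Matrix.mulVec_mulVec, Matrix.mulVec_mulVec,
    mch_comm]

private theorem tws_one (ν : {μ : V // ∀ i, ∃ n : ℤ, P.coroot' i μ = n}) :
    tws ν (oneK : KClass P) = Finsupp.single ν 1 := by
  unfold tws oneK
  rw [Finsupp.mapDomain_single]
  congr 1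
  apply Subtype.ext
  exact zero_add _

private theorem mch_tws_one (ν : {μ : V // ∀ i, ∃ n : ℤ, P.coroot' i μ = n}) :
    mch b (tws ν (oneK : KClass P)) = NormedSpace.exp (cup b ν.1) := by
  rw [tws_one]
  unfold mch
  rw [Finsupp.sum_single_index (by simp)]
  simp

private theorem ch_mul_line (x : KClass P) (ν : {μ : V // ∀ i, ∃ n : ℤ, P.coroot' i μ = n}) :
    chern b (mulK x (tws ν oneK)) = chern b (tws ν x) := by
  rw [ch_mulK_comm, ch_mulK, mch_tws_one, ch_tws]

private theorem euler_line (ν : {μ : V // ∀ i, ∃ n : ℤ, P.coroot' i μ = n}) :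
    euler b (tws ν oneK) (oneK : KClass P) = weyl b (-ν.1) := by
  rw [tws_one]
  unfold euler oneK
  rw [Finsupp.sum_single_index (by simp), Finsupp.sum_single_index (by simp)]
  simp

private theorem tp_zero' : tp ω (fun k => (((0 : Fin r → ℤ) k : ℤ) : ℂ)) = 0 := by
  rw [tp_apply]
  simp

include he in
/-- `w^* w = 1` -/
theorem ch_dl_mul {w : Kc b}
    (hexc : Exc (chiK b) ((box r r).map fun μ => twK b hω μ w))
    (hgen : ∀ x : Kc b, x ∈ AddSubgroup.closure {y | y ∈ (box r r).map fun μ => twK b hω μ w}) :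
    chern b (mulK (dlK (rep b w)) (rep b w)) = chern b oneK := by
  classical
  obtain ⟨L, hL, hL0⟩ := box_head (le_refl r)
  have hw0 : twK b hω 0 w = w := (flg b hω).tw_zero w
  obtain ⟨Q, hQ⟩ := euler_ch b
  -- the values of the Euler form on the line bundles of the box
  have key : ∀ μ ∈ box r r, euler b (tws (wt b hω μ) oneK) (mulK (dlK (rep b w)) (rep b w)) =
      euler b (tws (wt b hω μ) oneK) oneK := by
    intro μ hμ
    have h1 : euler b (tws (wt b hω μ) oneK) (mulK (dlK (rep b w)) (rep b w)) =
        ((chiK b (twK b hω μ w) w : ℤ) : ℂ) := by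
      rw [← euler_adj, euler_congr b (ch_mul_line b (rep b w) (wt b hω μ)) rfl, ← chiK_toK,
        ← twK_toK, toK_rep]
    have h2 : euler b (tws (wt b hω μ) oneK) oneK = weyl b (-tp ω fun k => (μ k : ℂ)) :=
      euler_line b _
    rw [h1, h2]
    rw [hL, List.map_cons, exc_cons] at hexc
    obtain ⟨e1, -, e2⟩ := hexc
    rw [hw0] at e1 e2
    by_cases h0 : μ = 0
    · subst h0
      rw [hw0, e1, tp_zero', neg_zero, weyl_zero, Int.cast_one]
    · have hμL : μ ∈ L := by
        have h3 := hμ
        rw [hL, List.mem_cons] at h3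
        exact h3.resolve_left h0
      rw [e2 _ (List.mem_map_of_mem hμL), weyl_box b he hω hμ h0, Int.cast_zero]
  -- the classes of the line bundles of the box span
  set S : Submodule ℂ (P.weylGroup → ℂ) :=
    Submodule.span ℂ {v | ∃ μ ∈ box r r, v = chern b (tws (wt b hω μ) oneK)} with hS
  have hmap : Submodule.map (mch b (rep b w)).mulVecLin S = ⊤ := by
    rw [eq_top_iff, ← span_ch b, Submodule.span_le]
    rintro _ ⟨x, rfl⟩
    show chern b x ∈ Submodule.map (mch b (rep b w)).mulVecLin S
    have h1 : ∀ y : Kc b, y ∈ AddSubgroup.closure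
        {y | y ∈ (box r r).map fun μ => twK b hω μ w} →
        (y : P.weylGroup → ℂ) ∈ Submodule.map (mch b (rep b w)).mulVecLin S := by
      intro y hy
      induction hy using AddSubgroup.closure_induction with
      | mem y hy =>
        obtain ⟨μ, hμ, rfl⟩ := List.mem_map.1 hy
        refine ⟨chern b (tws (wt b hω μ) oneK), Submodule.subset_span ⟨μ, hμ, rfl⟩, ?_⟩
        rw [Matrix.mulVecLin_apply, ← ch_mulK, ch_mul_line, ch_tws, ch_rep]
        rfl
      | zero => exact Submodule.zero_mem _
      | add x y _ _ hx hy => exact Submodule.add_mem _ hx hy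
      | neg x _ hx => exact Submodule.neg_mem _ hx
    exact h1 (toK b x) (hgen _)
  have hStop : S = ⊤ := by
    apply Submodule.eq_top_of_finrank_eq
    apply le_antisymm (Submodule.finrank_le S)
    have h1 : Module.finrank ℂ (Submodule.map (mch b (rep b w)).mulVecLin S) ≤
        Module.finrank ℂ S := Submodule.finrank_map_le _ _
    rw [hmap, finrank_top] at h1
    exact h1
  -- the linear functional
  have hφ : ∀ v : P.weylGroup → ℂ, dotProduct v (Q.mulVec
      (chern b (mulK (dlK (rep b w)) (rep b w)) - chern b oneK)) = 0 := by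
    intro v
    have hv : v ∈ S := by rw [hStop]; trivial
    induction hv using Submodule.span_induction with
    | mem v hv =>
      obtain ⟨μ, hμ, rfl⟩ := hv
      rw [Matrix.mulVec_sub, dotProduct_sub, ← hQ, ← hQ, key μ hμ, sub_self]
    | zero => exact zero_dotProduct _
    | add x y _ _ hx hy => rw [add_dotProduct, hx, hy, add_zero]
    | smul a x _ hx => rw [smul_dotProduct, hx, smul_zero]
  have hsub : chern b (mulK (dlK (rep b w)) (rep b w) - oneK) =
      chern b (mulK (dlK (rep b w)) (rep b w)) - chern b oneK :=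
    map_sub (chHom b) _ _
  have h0 : chern b (mulK (dlK (rep b w)) (rep b w) - oneK) = 0 := by
    apply euler_nondeg b
    intro y
    rw [hQ, hsub]
    exact hφ _
  rw [hsub] at h0
  exact sub_eq_zero.1 h0

end Pool.Agent.FLO
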