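import Pool.Agent.FLO.DFr

/-!
# The box collection; concatenations of sorted lists
-/

set_option autoImplicit false

open scoped BigOperators

namespace Pool.Agent.FLO

variable {r N : ℕ} {K : Type} [AddCommGroup K]

/-- the twists of `w` by the elements of the box -/
noncomputable def bx (S : Growth r N K) (m : ℕ) (w : K) : List K :=
  (box r m).map fun μ => S.tw μ w

theorem box_zero (m : ℕ) : ∀ μ ∈ box r m, ∀ k : Fin r, k.val + m < r → μ k = 0 := by
  induction m with
  | zero =>
    intro μ hμ k _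
    simp only [box, List.mem_singleton] at hμ
    rw [hμ]; rfl
  | succ m ih =>
    intro μ hμ k hk
    simp only [box, List.mem_flatMap, List.mem_map] at hμ
    obtain ⟨j, _, ν, hν, rfl⟩ := hμ
    have hne : ¬ (k.val + m + 1 = r) := by omega
    simp only [if_neg hne]
    exact ih ν hν k (by omega)

theorem bx_zero (S : Growth r N K) (w : K) : bx S 0 w = [w] := by
  simp [bx, box, S.tw_zero]

theorem lift_eq (n : ℕ) : (do let a ← List.range n; pure (a : ℤ)) =
    (List.range n).map (fun i : ℕ => (i : ℤ)) := by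
  simp only [List.pure_def, List.bind_eq_flatMap]
  rw [List.map_eq_flatMap]

theorem bx_succ (S : Growth r N K) {m : ℕ} (k : Fin r) (hk : k.val + m + 1 = r) (w : K) :
    bx S (m + 1) w = ((List.range (k.val + 2)).map (fun i : ℕ => (i : ℤ))).flatMap fun z =>
      (bx S m w).map (S.tw (Pi.single k z)) := by
  have hr : r - m + 1 = k.val + 2 := by omega
  rw [bx, box, lift_eq, List.map_flatMap, hr]
  congr 1
  funext j
  rw [bx, List.map_map, List.map_map]
  refine List.map_congr_left fun μ hμ => ?_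
  simp only [Function.comp_apply]
  rw [← S.tw_add]
  congr 2
  funext l
  rw [Pi.add_apply]
  by_cases hl : l = k
  · subst hl
    rw [if_pos hk, Pi.single_eq_same, box_zero m μ hμ l (by omega), add_zero]
  · have hl' : ¬ (l.val + m + 1 = r) := fun h => hl (Fin.ext (by omega))
    rw [if_neg hl', Pi.single_eq_of_ne hl, zero_add]

theorem Mut.flatMap {χ : K →+ K →+ ℤ} {ι : Type} {J : List ι} {f g : ι → List K}
    (h : ∀ j ∈ J, Mut χ (f j) (g j)) : Mut χ (J.flatMap f) (J.flatMap g) := by
  induction J with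
  | nil => exact Mut.refl
  | cons j J ih =>
    simp only [List.flatMap_cons]
    exact (h j (by simp)).append (ih fun i hi => h i (List.mem_cons_of_mem _ hi))

theorem IsSorted.append {φ : ℝ} {A B : Set ℂ} {l l' : List ℂ} (hl : IsSorted φ A l)
    (hl' : IsSorted φ B l') (h : ∀ x ∈ A, ∀ y ∈ B, ht φ x < ht φ y) :
    IsSorted φ (A ∪ B) (l ++ l') := by
  constructor
  · rw [List.pairwise_append]
    exact ⟨hl.1, hl'.1, fun x hx y hy => h x ((hl.2 x).1 hx) y ((hl'.2 y).1 hy)⟩
  · intro x
    rw [List.mem_append, hl.2, hl'.2]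
    rfl

theorem IsSorted.flatMap {φ : ℝ} {ι : Type} {J : List ι} {A : ι → Set ℂ} {l : ι → List ℂ}
    (hl : ∀ j ∈ J, IsSorted φ (A j) (l j))
    (h : J.Pairwise fun i j => ∀ x ∈ A i, ∀ y ∈ A j, ht φ x < ht φ y) :
    IsSorted φ {x | ∃ j ∈ J, x ∈ A j} (J.flatMap l) := by
  induction J with
  | nil => exact ⟨List.Pairwise.nil, by simp⟩
  | cons j J ih =>
    rw [List.pairwise_cons] at h
    have h1 := ih (fun i hi => hl i (List.mem_cons_of_mem _ hi)) h.2
    have h2 := (hl j (by simp)).append h1 (by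
      rintro x hx y ⟨i, hi, hy⟩
      exact h.1 i hi x hx y hy)
    rw [List.flatMap_cons]
    refine ⟨h2.1, fun x => ?_⟩
    rw [h2.2]
    constructor
    · rintro (hx | ⟨i, hi, hx⟩)
      · exact ⟨j, by simp, hx⟩
      · exact ⟨i, List.mem_cons_of_mem _ hi, hx⟩
    · rintro ⟨i, hi, hx⟩
      rcases List.mem_cons.1 hi with rfl | hi
      · exact Or.inl hx
      · exact Or.inr ⟨i, hi, hx⟩

/-- two sorted lists of the same set for the same frame or for two frames at the same place -/
theorem Fr.mut_same {S : Growth r N K} {t : Fin r → ℂ} {φ : ℝ} {v v' : ℂ → K} (F : Fr S t φ v)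
    (F' : Fr S t φ v') {C : Set ℂ} (hC : ∀ x ∈ C, x ∈ S.spec t) {l l' : List ℂ}
    (hl : IsSorted φ C l) (hl' : IsSorted φ C l') :
    Mut S.χ (l.map v) (l'.map v') ∧ Mut S.χ (l'.map v') (l.map v) :=
  F.mut_le F' le_rfl (by linarith [Real.pi_pos]) hC
    (fun u _ x _ _ h => lt_asymm h.1 h.2) hl hl'

end Pool.Agent.FLO
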