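import Pool.Agent.FLO.Defs

/-!
# Heights
-/

set_option autoImplicit false

open scoped BigOperators

namespace Pool.Agent.FLO

theorem ht_eq (ψ : ℝ) (u : ℂ) : ht ψ u = u.re * Real.cos ψ + u.im * Real.sin ψ := by
  have h1 : Complex.exp (-ψ * Complex.I) = Complex.cos ψ - Complex.sin ψ * Complex.I := by
    rw [Complex.exp_mul_I, Complex.cos_neg, Complex.sin_neg]; ring
  rw [ht, h1, Complex.mul_re, Complex.sub_re, Complex.sub_im, Complex.mul_re, Complex.mul_im,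
    ← Complex.ofReal_cos, ← Complex.ofReal_sin]
  simp only [Complex.ofReal_re, Complex.ofReal_im, Complex.I_re, Complex.I_im]
  ring

theorem ht_add (ψ : ℝ) (u v : ℂ) : ht ψ (u + v) = ht ψ u + ht ψ v := by
  rw [ht_eq, ht_eq, ht_eq, Complex.add_re, Complex.add_im]; ring

theorem ht_sub (ψ : ℝ) (u v : ℂ) : ht ψ (u - v) = ht ψ u - ht ψ v := by
  rw [ht_eq, ht_eq, ht_eq, Complex.sub_re, Complex.sub_im]; ring

theorem ht_neg (ψ : ℝ) (u : ℂ) : ht ψ (-u) = - ht ψ u := by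
  rw [ht_eq, ht_eq, Complex.neg_re, Complex.neg_im]; ring

theorem ht_pi (ψ : ℝ) (u : ℂ) : ht (ψ + Real.pi) u = - ht ψ u := by
  rw [ht_eq, ht_eq, Real.cos_add_pi, Real.sin_add_pi]; ring

theorem ht_half (ψ : ℝ) (u : ℂ) :
    ht (ψ + Real.pi / 2) u = u.im * Real.cos ψ - u.re * Real.sin ψ := by
  rw [ht_eq, Real.cos_add_pi_div_two, Real.sin_add_pi_div_two]; ring

theorem abs_ht_le (ψ : ℝ) (u : ℂ) : |ht ψ u| ≤ ‖u‖ := by
  rw [ht]
  refine (Complex.abs_re_le_norm _).trans ?_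
  rw [norm_mul, show ((-ψ : ℂ)) = ((-ψ : ℝ) : ℂ) by push_cast; rfl, Complex.norm_exp_ofReal_mul_I,
    mul_one]

theorem continuous_ht : Continuous fun p : ℝ × ℂ => ht p.1 p.2 := by
  simp only [ht_eq]
  fun_prop

/-- rotation: `ht` in the direction `ψ + s` -/
theorem ht_rot (ψ s : ℝ) (u : ℂ) :
    ht (ψ + s) u = ht ψ u * Real.cos s + ht (ψ + Real.pi / 2) u * Real.sin s := by
  rw [ht_half, ht_eq, ht_eq, Real.cos_add, Real.sin_add]; ring

theorem ht_sq (ψ : ℝ) (u : ℂ) : ht ψ u ^ 2 + ht (ψ + Real.pi / 2) u ^ 2 = ‖u‖ ^ 2 := by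
  rw [ht_half, ht_eq, Complex.sq_norm, Complex.normSq_apply]
  nlinarith [Real.sin_sq_add_cos_sq ψ]

/-- the condition that the point `u + d` does not lie on the ray which starts at `u` -/
def NoHit (φ : ℝ) (d : ℂ) : Prop := ht φ d ≠ 0 ∨ 0 < ht (φ + Real.pi / 2) d

/-- the directions with `ht φ d ≠ 0` for finitely many `d ≠ 0` are dense -/
theorem exists_adm (D : Finset ℂ) (hD : ∀ d ∈ D, d ≠ 0) (φ₀ ε : ℝ) (hε : 0 < ε) :
    ∃ φ : ℝ, |φ - φ₀| < ε ∧ ∀ d ∈ D, ht φ d ≠ 0 := by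
  -- for every `d` the set of bad `φ` in the interval is finite
  have hfin : ∀ d : ℂ, d ≠ 0 → {φ : ℝ | φ ∈ Set.Ioo φ₀ (φ₀ + min ε 1) ∧ ht φ d = 0}.Finite := by
    intro d hd
    apply Set.Subsingleton.finite
    rintro x ⟨⟨hx1, hx2⟩, hx⟩ y ⟨⟨hy1, hy2⟩, hy⟩
    have h1 : min ε 1 ≤ 1 := min_le_right _ _
    have h2 := ht_rot x (y - x) d
    rw [hx, zero_mul, zero_add, add_sub_cancel, hy] at h2
    have h3 : ht (x + Real.pi / 2) d ≠ 0 := by
      intro h3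
      have h4 := ht_sq x d
      rw [hx, h3] at h4
      have : ‖d‖ = 0 := by nlinarith [norm_nonneg d]
      exact hd (norm_eq_zero.1 this)
    have h5 : Real.sin (y - x) = 0 := by
      rcases mul_eq_zero.1 h2.symm with h | h
      · exact absurd h h3
      · exact h
    have h6 := (Real.sin_eq_zero_iff_of_lt_of_lt (by linarith [Real.pi_gt_three])
      (by linarith [Real.pi_gt_three])).1 h5
    linarith
  have hfin2 : (⋃ d ∈ D, {φ : ℝ | φ ∈ Set.Ioo φ₀ (φ₀ + min ε 1) ∧ ht φ d = 0}).Finite :=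
    Set.Finite.biUnion D.finite_toSet fun d hd => hfin d (hD d hd)
  have hinf : (Set.Ioo φ₀ (φ₀ + min ε 1)).Infinite :=
    Set.Ioo_infinite (by linarith [lt_min hε one_pos])
  obtain ⟨φ, hφ, hφ'⟩ := hinf.exists_notMem_finset (hfin2.toFinset)
  rw [Set.Finite.mem_toFinset] at hφ'
  refine ⟨φ, ?_, fun d hd h0 => hφ' ?_⟩
  · rw [abs_of_pos (by linarith [hφ.1])]
    have := min_le_left ε 1
    linarith [hφ.2]
  · exact Set.mem_biUnion hd ⟨hφ, h0⟩

/-- the directions which separate the heights of finitely many points are dense -/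
theorem exists_adm_spec (D : Finset ℂ) (φ₀ ε : ℝ) (hε : 0 < ε) :
    ∃ φ : ℝ, |φ - φ₀| < ε ∧ ∀ x ∈ D, ∀ y ∈ D, x ≠ y → ht φ x ≠ ht φ y := by
  classical
  obtain ⟨φ, h1, h2⟩ := exists_adm ((D ×ˢ D).image (fun p => p.1 - p.2) \ {0})
    (fun d hd => by simp only [Finset.mem_sdiff, Finset.mem_singleton] at hd; exact hd.2) φ₀ ε hε
  refine ⟨φ, h1, fun x hx y hy hxy h => h2 (x - y) ?_ ?_⟩
  · rw [Finset.mem_sdiff, Finset.mem_singleton, sub_eq_zero]
    exact ⟨Finset.mem_image.2 ⟨(x, y), Finset.mem_product.2 ⟨hx, hy⟩, rfl⟩, hxy⟩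
  · rw [ht_sub, h, sub_self]

/-- heights of two points are never inverted while there is no hit (local form) -/
theorem not_inverted {φ₁ φ₂ : ℝ} {d : ℂ} (h12 : φ₁ ≤ φ₂) (hπ : φ₂ < φ₁ + Real.pi)
    (h : ∀ ψ ∈ Set.Icc φ₁ φ₂, NoHit ψ d) : ¬ (0 < ht φ₁ d ∧ ht φ₂ d < 0) := by
  rintro ⟨h1, h2⟩
  -- the zero of the height between the two directions
  have hcont : Continuous fun ψ : ℝ => ht ψ d :=
    continuous_ht.comp (by fun_prop : Continuous fun ψ : ℝ => (ψ, d))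
  obtain ⟨ψ, hψ, h0⟩ := intermediate_value_Icc' h12 hcont.continuousOn
    (show (0 : ℝ) ∈ Set.Icc (ht φ₂ d) (ht φ₁ d) from ⟨h2.le, h1.le⟩)
  simp only at h0
  rcases h ψ hψ with h3 | h3
  · exact h3 h0
  · have h4 := ht_rot ψ (φ₂ - ψ) d
    rw [h0, zero_mul, zero_add, add_sub_cancel] at h4
    have h5 : 0 ≤ Real.sin (φ₂ - ψ) := Real.sin_nonneg_of_nonneg_of_le_pi (by linarith [hψ.2])
      (by linarith [hψ.1])
    nlinarith

end Pool.Agent.FLO
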