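import Pool.Agent.FLO.DTri
import Pool.Agent.FLO.DHt

/-!
# Frames: asymptotic bases labelled by the canonical coordinates
-/

set_option autoImplicit false

open scoped BigOperators

namespace Pool.Agent.FLO

variable {r N : ℕ} {K : Type} [AddCommGroup K] {S : Growth r N K}

/-- the asymptotic basis at `t` for the direction `φ`, labelled by the canonical coordinates -/
structure Fr (S : Growth r N K) (t : Fin r → ℂ) (φ : ℝ) (v : ℂ → K) : Prop where
  card : (S.spec t).card = N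
  adm : ∀ x ∈ S.spec t, ∀ y ∈ S.spec t, x ≠ y → ht φ x ≠ ht φ y
  gen : ∀ x, ∃ c : ℂ → ℤ, x = ∑ u ∈ S.spec t, c u • v u
  diag : ∀ u ∈ S.spec t, S.χ (v u) (v u) = 1
  lower : ∀ u ∈ S.spec t, ∀ u' ∈ S.spec t, ht φ u < ht φ u' → S.χ (v u') (v u) = 0
  growth : ∀ ψ ∈ Set.Icc φ (φ + Real.pi), ∀ h, ∀ c : ℂ → ℤ,
    ∑ u ∈ S.spec t, c u • v u ∈ S.G t ψ h ↔ ∀ u ∈ S.spec t, c u ≠ 0 → ht ψ u ≤ h

/-- `l` enumerates `C` by increasing heights -/
def IsSorted (φ : ℝ) (C : Set ℂ) (l : List ℂ) : Prop :=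
  l.Pairwise (fun x y => ht φ x < ht φ y) ∧ ∀ x, x ∈ l ↔ x ∈ C

theorem IsAsym.inj {t : Fin r → ℂ} {φ : ℝ} {u : Fin N → ℂ} {a : Fin N → K}
    (h : IsAsym S t φ u a) : Function.Injective u := by
  intro i j hij
  by_contra hne
  rcases lt_or_gt_of_ne hne with hlt | hlt
  · have := h.mono i j hlt
    rw [hij] at this
    exact lt_irrefl _ this
  · have := h.mono j i hlt
    rw [hij] at this
    exact lt_irrefl _ this

theorem IsAsym.spec_eq {t : Fin r → ℂ} {φ : ℝ} {u : Fin N → ℂ} {a : Fin N → K}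
    (h : IsAsym S t φ u a) : S.spec t = Finset.univ.image u := by
  ext x
  rw [h.mem x]
  simp

theorem IsAsym.card_eq {t : Fin r → ℂ} {φ : ℝ} {u : Fin N → ℂ} {a : Fin N → K}
    (h : IsAsym S t φ u a) : (S.spec t).card = N := by
  rw [h.spec_eq, Finset.card_image_of_injective _ h.inj, Finset.card_univ, Fintype.card_fin]

theorem IsAsym.exists_fr {t : Fin r → ℂ} {φ : ℝ} {u : Fin N → ℂ} {a : Fin N → K}
    (h : IsAsym S t φ u a) : ∃ v : ℂ → K, Fr S t φ v ∧ ∀ j, v (u j) = a j := by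
  classical
  let v : ℂ → K := fun x => if hx : ∃ j, u j = x then a hx.choose else 0
  have hv : ∀ j, v (u j) = a j := by
    intro j
    have hx : ∃ i, u i = u j := ⟨j, rfl⟩
    simp only [v, dif_pos hx]
    rw [h.inj hx.choose_spec]
  have hsum : ∀ c : ℂ → ℤ, ∑ x ∈ S.spec t, c x • v x = ∑ j, c (u j) • a j := by
    intro c
    rw [h.spec_eq, Finset.sum_image (fun i _ j _ hij => h.inj hij)]
    exact Finset.sum_congr rfl fun j _ => by rw [hv]
  have hmono : ∀ i j, ht φ (u i) < ht φ (u j) → i < j := by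
    intro i j hij
    by_contra hle
    rcases eq_or_lt_of_le (not_lt.1 hle) with heq | hlt
    · rw [heq] at hij; exact lt_irrefl _ hij
    · exact lt_asymm hij (h.mono j i hlt)
  refine ⟨v, ⟨h.card_eq, ?_, ?_, ?_, ?_, ?_⟩, hv⟩
  · intro x hx y hy hxy
    obtain ⟨i, rfl⟩ := (h.mem x).1 hx
    obtain ⟨j, rfl⟩ := (h.mem y).1 hy
    have hij : i ≠ j := fun e => hxy (by rw [e])
    rcases lt_or_gt_of_ne hij with hlt | hlt
    · exact (h.mono i j hlt).ne
    · exact (h.mono j i hlt).ne'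
  · intro x
    obtain ⟨c, hc⟩ := h.gen x
    let c' : ℂ → ℤ := fun x => if hx : ∃ j, u j = x then c hx.choose else 0
    have hc' : ∀ j, c' (u j) = c j := by
      intro j
      have hx : ∃ i, u i = u j := ⟨j, rfl⟩
      simp only [c', dif_pos hx]
      rw [h.inj hx.choose_spec]
    refine ⟨c', ?_⟩
    rw [hsum, hc]
    exact Finset.sum_congr rfl fun j _ => by rw [hc']
  · intro x hx
    obtain ⟨i, rfl⟩ := (h.mem x).1 hx
    rw [hv]; exact h.diag i
  · intro x hx y hy hxy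
    obtain ⟨i, rfl⟩ := (h.mem x).1 hx
    obtain ⟨j, rfl⟩ := (h.mem y).1 hy
    rw [hv, hv]
    exact h.lower j i (hmono i j hxy)
  · intro ψ hψ x c
    rw [hsum, h.growth ψ hψ x]
    constructor
    · intro h1 y hy hc
      obtain ⟨j, rfl⟩ := (h.mem y).1 hy
      exact h1 j hc
    · intro h1 j hc
      exact h1 (u j) ((h.mem _).2 ⟨j, rfl⟩) hc

theorem Growth.Full.exists_fr (hS : S.Full) {t : Fin r → ℂ} (ht' : (S.spec t).card = N) {φ : ℝ}
    (hφ : ∀ x ∈ S.spec t, ∀ y ∈ S.spec t, x ≠ y → ht φ x ≠ ht φ y) : ∃ v, Fr S t φ v := by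
  obtain ⟨u, a, h⟩ := hS t ht' φ hφ
  obtain ⟨v, hv, _⟩ := h.exists_fr
  exact ⟨v, hv⟩

namespace Fr

variable {t : Fin r → ℂ} {φ : ℝ} {v : ℂ → K}

theorem mem_G (F : Fr S t φ v) {ψ : ℝ} (hψ : ψ ∈ Set.Icc φ (φ + Real.pi)) {u : ℂ}
    (hu : u ∈ S.spec t) {h : ℝ} : v u ∈ S.G t ψ h ↔ ht ψ u ≤ h := by
  classical
  have h1 := F.growth ψ hψ h (fun x => if x = u then 1 else 0)
  have h2 : ∑ x ∈ S.spec t, (if x = u then (1 : ℤ) else 0) • v x = v u := by
    rw [Finset.sum_eq_single u]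
    · simp
    · intro b _ hb; simp [hb]
    · intro h; exact absurd hu h
  rw [h2] at h1
  rw [h1]
  constructor
  · intro h3
    exact h3 u hu (by simp)
  · intro h3 x _ hx
    by_cases hxu : x = u
    · rw [hxu]; exact h3
    · simp [hxu] at hx

theorem coef_zero (F : Fr S t φ v) {c : ℂ → ℤ} (hc : ∑ u ∈ S.spec t, c u • v u = 0) :
    ∀ u ∈ S.spec t, c u = 0 := by
  intro u hu
  by_contra hne
  have h1 := (F.growth φ (Set.left_mem_Icc.2 (by linarith [Real.pi_pos])) (ht φ u - 1) c).1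
    (by rw [hc]; exact zero_mem _) u hu hne
  linarith

theorem coef_eq (F : Fr S t φ v) {c c' : ℂ → ℤ}
    (hc : ∑ u ∈ S.spec t, c u • v u = ∑ u ∈ S.spec t, c' u • v u) :
    ∀ u ∈ S.spec t, c u = c' u := by
  intro u hu
  have h1 := F.coef_zero (c := fun u => c u - c' u) (by
    simp only [sub_smul]
    rw [Finset.sum_sub_distrib, hc, sub_self]) u hu
  linarith

/-- the triangular comparison of the bases for two directions -/
theorem tri (F : Fr S t φ v) {φ' : ℝ} {v' : ℂ → K} (F' : Fr S t φ' v') (h : φ ≤ φ')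
    (h' : φ' ≤ φ + Real.pi) {u : ℂ} (hu : u ∈ S.spec t) :
    ∃ c : ℂ → ℤ, (c u = 1 ∨ c u = -1) ∧ v' u = ∑ x ∈ S.spec t, c x • v x ∧
      ∀ x ∈ S.spec t, c x ≠ 0 → x = u ∨ (ht φ u < ht φ x ∧ ht φ' x < ht φ' u) := by
  classical
  -- all coefficients
  have key : ∀ y ∈ S.spec t, ∃ c : ℂ → ℤ, v' y = ∑ x ∈ S.spec t, c x • v x ∧
      ∀ x ∈ S.spec t, c x ≠ 0 → ht φ y ≤ ht φ x ∧ ht φ' x ≤ ht φ' y := by
    intro y hy
    obtain ⟨c, hc⟩ := F.gen (v' y)
    refine ⟨c, hc, fun x hx hcx => ?_⟩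
    constructor
    · have h1 : v' y ∈ S.G t (φ + Real.pi) (ht (φ + Real.pi) y) :=
        (F'.mem_G (Set.mem_Icc.2 ⟨h', by linarith⟩) hy).2 le_rfl
      rw [hc, F.growth _ (Set.mem_Icc.2 ⟨by linarith [Real.pi_pos], le_rfl⟩)] at h1
      have h2 := h1 x hx hcx
      rw [ht_pi, ht_pi] at h2
      linarith
    · have h1 : v' y ∈ S.G t φ' (ht φ' y) :=
        (F'.mem_G (Set.mem_Icc.2 ⟨le_rfl, by linarith [Real.pi_pos]⟩) hy).2 le_rfl
      rw [hc, F.growth _ (Set.mem_Icc.2 ⟨h, h'⟩)] at h1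
      exact h1 x hx hcx
  have key' : ∃ c : ℂ → ℤ, v u = ∑ x ∈ S.spec t, c x • v' x ∧
      ∀ x ∈ S.spec t, c x ≠ 0 → ht φ' x ≤ ht φ' u := by
    obtain ⟨c, hc⟩ := F'.gen (v u)
    refine ⟨c, hc, fun x hx hcx => ?_⟩
    have h1 : v u ∈ S.G t φ' (ht φ' u) := (F.mem_G (Set.mem_Icc.2 ⟨h, h'⟩) hu).2 le_rfl
    rw [hc, F'.growth _ (Set.mem_Icc.2 ⟨le_rfl, by linarith [Real.pi_pos]⟩)] at h1
    exact h1 x hx hcx
  choose! C hC hC' using key
  obtain ⟨d, hd, hd'⟩ := key'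
  have hstrict : ∀ y ∈ S.spec t, ∀ x ∈ S.spec t, C y x ≠ 0 →
      x = y ∨ (ht φ y < ht φ x ∧ ht φ' x < ht φ' y) := by
    intro y hy x hx hne
    by_cases hxy : x = y
    · exact Or.inl hxy
    · obtain ⟨h1, h2⟩ := hC' y hy x hx hne
      exact Or.inr ⟨lt_of_le_of_ne h1 (F.adm y hy x hx (Ne.symm hxy)),
        lt_of_le_of_ne h2 (F'.adm x hx y hy hxy)⟩
  refine ⟨C u, ?_, hC u hu, fun x hx hne => hstrict u hu x hx hne⟩
  -- the coefficient of `v u` in `v u = ∑ d y • v' y = ∑ d y • ∑ C y x • v x`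
  have h1 : ∑ x ∈ S.spec t, (∑ y ∈ S.spec t, d y * C y x) • v x =
      ∑ x ∈ S.spec t, (if x = u then (1 : ℤ) else 0) • v x := by
    have h2 : ∑ x ∈ S.spec t, (if x = u then (1 : ℤ) else 0) • v x = v u := by
      rw [Finset.sum_eq_single u]
      · simp
      · intro b _ hb; simp [hb]
      · intro h; exact absurd hu h
    rw [h2, hd]
    have h3 : ∀ y ∈ S.spec t, d y • v' y = ∑ x ∈ S.spec t, (d y * C y x) • v x := by
      intro y hy
      rw [hC y hy, Finset.smul_sum]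
      exact Finset.sum_congr rfl fun x _ => by rw [mul_smul]
    rw [Finset.sum_congr rfl h3, Finset.sum_comm]
    exact Finset.sum_congr rfl fun x _ => by rw [Finset.sum_smul]
  have h4 := F.coef_eq h1 u hu
  simp only [if_true] at h4
  rw [Finset.sum_eq_single u] at h4
  · have h5 : IsUnit (C u u) := IsUnit.of_mul_eq_one (d u) (by rw [mul_comm]; exact h4)
    exact Int.isUnit_iff.1 h5
  · intro y hy hyu
    by_contra hne
    have hd0 : d y ≠ 0 := left_ne_zero_of_mul hne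
    have hC0 : C y u ≠ 0 := right_ne_zero_of_mul hne
    have h6 := hd' y hy hd0
    rcases hstrict y hy u hu hC0 with h7 | ⟨_, h7⟩
    · exact hyu h7.symm
    · linarith
  · intro h; exact absurd hu h

theorem exc (F : Fr S t φ v) {C : Set ℂ} (hC : ∀ x ∈ C, x ∈ S.spec t) {l : List ℂ}
    (hl : IsSorted φ C l) : Exc S.χ (l.map v) := by
  constructor
  · rw [List.pairwise_map]
    refine List.Pairwise.imp_of_mem ?_ hl.1
    intro x y hx hy hxy
    exact F.lower x (hC x ((hl.2 x).1 hx)) y (hC y ((hl.2 y).1 hy)) hxy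
  · intro x hx
    obtain ⟨y, hy, rfl⟩ := List.mem_map.1 hx
    exact F.diag y (hC y ((hl.2 y).1 hy))

theorem _root_.Pool.Agent.FLO.IsSorted.nodup {φ : ℝ} {C : Set ℂ} {l : List ℂ}
    (hl : IsSorted φ C l) : l.Nodup :=
  hl.1.imp fun h => fun e => lt_irrefl _ (e ▸ h)

/-- (T1) at a fixed point the part of the list which belongs to a set `C` of canonical coordinates
changes by mutations, if the order of no `u ∈ C` and `x ∉ C` is inverted in the bad sense -/
theorem mut_le (F : Fr S t φ v) {φ' : ℝ} {v' : ℂ → K} (F' : Fr S t φ' v') (h : φ ≤ φ')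
    (h' : φ' ≤ φ + Real.pi) {C : Set ℂ} (hC : ∀ x ∈ C, x ∈ S.spec t)
    (hinv : ∀ u ∈ C, ∀ x ∈ S.spec t, x ∉ C → ¬ (ht φ u < ht φ x ∧ ht φ' x < ht φ' u))
    {l l' : List ℂ} (hl : IsSorted φ C l) (hl' : IsSorted φ' C l') :
    Mut S.χ (l.map v) (l'.map v') ∧ Mut S.χ (l'.map v') (l.map v) := by
  have hperm : l.Perm l' := (List.perm_ext_iff_of_nodup hl.nodup hl'.nodup).2 fun x => by
    rw [hl.2, hl'.2]
  have h1 : Mut S.χ (l.map v) (l'.map v') := by
    refine mut_of_triangular (ht φ) (ht φ') l' l v v' hl.1 hl'.1 hperm (F.exc hC hl)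
      (F'.exc hC hl') ?_
    intro u hu
    have huC : u ∈ C := (hl.2 u).1 hu
    obtain ⟨c, hc1, hc2, hc3⟩ := F.tri F' h h' (hC u huC)
    refine ⟨c u, hc1, ?_⟩
    classical
    rw [hc2, ← Finset.add_sum_erase _ _ (hC u huC), add_sub_cancel_left]
    refine sum_mem fun x hx => ?_
    rw [Finset.mem_erase] at hx
    by_cases hcx : c x = 0
    · rw [hcx, zero_smul]; exact zero_mem _
    · rcases hc3 x hx.2 hcx with h4 | h4
      · exact absurd h4 hx.1
      · have hxl : x ∈ l := by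
          rw [hl.2]
          by_contra hxC
          exact hinv u huC x hx.2 hxC h4
        have hmem : v x ∈ AddSubgroup.closure
            {y | ∃ i ∈ l, ht φ u < ht φ i ∧ ht φ' i < ht φ' u ∧ y = v i} :=
          AddSubgroup.subset_closure ⟨x, hxl, h4.1, h4.2, rfl⟩
        exact zsmul_mem hmem _
  exact ⟨h1, h1.symm (F.exc hC hl)⟩

/-- (T2) for a fixed direction the classes do not change if the point moves a little -/
theorem same {t' : Fin r → ℂ} {v' : ℂ → K} (F : Fr S t φ v) (F' : Fr S t' φ v') {ε : ℝ}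
    (hG : ∀ ψ h x, x ∈ S.G t ψ h → x ∈ S.G t' ψ (h + ε)) {u u' : ℂ} (hu : u ∈ S.spec t)
    (hu' : u' ∈ S.spec t') (hgap : ∀ x ∈ S.spec t', x ≠ u' → ε < |ht φ (x - u)|) :
    v u = v' u' ∨ v u = - v' u' := by
  classical
  obtain ⟨c, hc⟩ := F'.gen (v u)
  have h1 : ∀ x ∈ S.spec t', x ≠ u' → c x = 0 := by
    intro x hx hxu
    by_contra hne
    have h2 : v u ∈ S.G t' φ (ht φ u + ε) :=
      hG _ _ _ ((F.mem_G (Set.mem_Icc.2 ⟨le_rfl, by linarith [Real.pi_pos]⟩) hu).2 le_rfl)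
    have h3 : v u ∈ S.G t' (φ + Real.pi) (ht (φ + Real.pi) u + ε) :=
      hG _ _ _ ((F.mem_G (Set.mem_Icc.2 ⟨by linarith [Real.pi_pos], le_rfl⟩) hu).2 le_rfl)
    rw [hc, F'.growth _ (Set.mem_Icc.2 ⟨le_rfl, by linarith [Real.pi_pos]⟩)] at h2
    rw [hc, F'.growth _ (Set.mem_Icc.2 ⟨by linarith [Real.pi_pos], le_rfl⟩)] at h3
    have h4 := h2 x hx hne
    have h5 := h3 x hx hne
    rw [ht_pi, ht_pi] at h5
    have h6 := hgap x hx hxu
    rw [ht_sub] at h6
    have h7 : |ht φ x - ht φ u| ≤ ε := abs_le.2 ⟨by linarith, by linarith⟩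
    linarith
  rw [Finset.sum_eq_single u' (fun x hx hxu => by rw [h1 x hx hxu, zero_smul])
    (fun h => absurd hu' h)] at hc
  have h8 := F.diag u hu
  rw [hc] at h8
  simp only [map_zsmul, AddMonoidHom.smul_apply, F'.diag u' hu', smul_eq_mul, mul_one] at h8
  have h9 : IsUnit (c u') := IsUnit.of_mul_eq_one (c u') h8
  rcases Int.isUnit_iff.1 h9 with h | h
  · left; rw [hc, h, one_smul]
  · right; rw [hc, h, neg_smul, one_smul]

end Fr

end Pool.Agent.FLO
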