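import Pool.Agent.FLO.DFr

/-!
# The local form of the transport theorem
-/

set_option autoImplicit false

open scoped BigOperators Topology
open Filter

namespace Pool.Agent.FLO

variable {r N : ℕ} {K : Type} [AddCommGroup K] {S : Growth r N K}

theorem noHit_near {φ₀ : ℝ} {d₀ : ℂ} (h : NoHit φ₀ d₀) : ∃ ε : ℝ, 0 < ε ∧ ∀ ψ d, |ψ - φ₀| < ε →
    ‖d - d₀‖ < ε → NoHit ψ d := by
  have hev : ∀ᶠ p : ℝ × ℂ in 𝓝 (φ₀, d₀), NoHit p.1 p.2 := by
    rcases h with h | h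
    · have h1 : ∀ᶠ p : ℝ × ℂ in 𝓝 (φ₀, d₀), ht p.1 p.2 ≠ 0 :=
        continuous_ht.continuousAt.eventually_ne h
      exact h1.mono fun p hp => Or.inl hp
    · have hc : Continuous fun p : ℝ × ℂ => ht (p.1 + Real.pi / 2) p.2 :=
        continuous_ht.comp (by fun_prop : Continuous fun p : ℝ × ℂ => (p.1 + Real.pi / 2, p.2))
      have h1 : ∀ᶠ p : ℝ × ℂ in 𝓝 (φ₀, d₀), 0 < ht (p.1 + Real.pi / 2) p.2 :=
        hc.continuousAt.eventually (lt_mem_nhds (by exact h))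
      exact h1.mono fun p hp => Or.inr hp
  rw [Metric.eventually_nhds_iff] at hev
  obtain ⟨ε, hε, hev⟩ := hev
  refine ⟨ε, hε, fun ψ d h1 h2 => hev (y := (ψ, d)) ?_⟩
  rw [Prod.dist_eq]
  refine max_lt ?_ ?_
  · rwa [Real.dist_eq]
  · rwa [dist_eq_norm]

/-- sorted lists of labels -/
theorem exists_labels {ι : Type} (s : Finset ι) (h : ι → ℝ)
    (hinj : ∀ i ∈ s, ∀ j ∈ s, i ≠ j → h i ≠ h j) :
    ∃ l : List ι, l.Pairwise (fun i j => h i < h j) ∧ ∀ i, i ∈ l ↔ i ∈ s := by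
  classical
  induction s using Finset.induction_on_max_value h with
  | empty => exact ⟨[], List.Pairwise.nil, by simp⟩
  | insert a s ha hmax ih =>
    obtain ⟨l, hl1, hl2⟩ := ih fun i hi j hj hij =>
      hinj i (Finset.mem_insert_of_mem hi) j (Finset.mem_insert_of_mem hj) hij
    refine ⟨l ++ [a], ?_, ?_⟩
    · rw [List.pairwise_append]
      refine ⟨hl1, List.pairwise_singleton _ _, ?_⟩
      intro x hx y hy
      rw [List.mem_singleton] at hy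
      subst hy
      have hxs := (hl2 x).1 hx
      exact lt_of_le_of_ne (hmax x hxs) (hinj x (Finset.mem_insert_of_mem hxs) y
        (Finset.mem_insert_self _ _) fun e => ha (e ▸ hxs))
    · intro i
      rw [List.mem_append, List.mem_singleton, hl2, Finset.mem_insert]
      tauto

theorem Fr.exists_sorted {t : Fin r → ℂ} {φ : ℝ} {v : ℂ → K} (F : Fr S t φ v) {C : Set ℂ}
    (hC : ∀ x ∈ C, x ∈ S.spec t) : ∃ l, IsSorted φ C l := by
  classical
  obtain ⟨l, h1, h2⟩ := exists_labels ((S.spec t).filter (· ∈ C)) (ht φ) (by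
    intro i hi j hj hij
    exact F.adm i (Finset.mem_filter.1 hi).1 j (Finset.mem_filter.1 hj).1 hij)
  refine ⟨l, h1, fun x => ?_⟩
  rw [h2, Finset.mem_filter]
  exact ⟨fun h => h.2, fun h => ⟨hC x h, h⟩⟩

theorem loc (hS : S.Full) {ι : Type} [Finite ι] {t₀ : Fin r → ℂ} (hcard : (S.spec t₀).card = N)
    {u₀ : ι → ℂ} (hinj : Function.Injective u₀) (hmem : ∀ x, x ∈ S.spec t₀ ↔ ∃ i, u₀ i = x)
    (C : Set ι) (φ₀ : ℝ) (hhit : ∀ i ∈ C, ∀ j ∉ C, NoHit φ₀ (u₀ j - u₀ i)) :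
    ∃ L : List K, ∃ ε : ℝ, 0 < ε ∧ ∀ t, ‖t - t₀‖ < ε → ∀ u : ι → ℂ, Function.Injective u →
      (∀ x, x ∈ S.spec t ↔ ∃ i, u i = x) → (∀ i, ‖u i - u₀ i‖ < ε) → ∀ φ, |φ - φ₀| < ε →
      ∀ v, Fr S t φ v → ∀ l, IsSorted φ (u '' C) l →
      Mut S.χ (l.map v) L ∧ Mut S.χ L (l.map v) := by
  classical
  have := Fintype.ofFinite ι
  -- robust form of `hhit`
  have h1 : ∃ ε₁ : ℝ, 0 < ε₁ ∧ ε₁ ≤ 1 ∧ ∀ i ∈ C, ∀ j ∉ C, ∀ ψ d, |ψ - φ₀| < ε₁ →
      ‖d - (u₀ j - u₀ i)‖ < ε₁ → NoHit ψ d := by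
    have h2 : ∀ p : ι × ι, ∃ ε : ℝ, 0 < ε ∧ (p.1 ∈ C → p.2 ∉ C → ∀ ψ d, |ψ - φ₀| < ε →
        ‖d - (u₀ p.2 - u₀ p.1)‖ < ε → NoHit ψ d) := by
      rintro ⟨i, j⟩
      by_cases hi : i ∈ C
      · by_cases hj : j ∈ C
        · exact ⟨1, one_pos, fun _ h => absurd hj h⟩
        · obtain ⟨ε, hε, h⟩ := noHit_near (hhit i hi j hj)
          exact ⟨ε, hε, fun _ _ => h⟩
      · exact ⟨1, one_pos, fun h => absurd h hi⟩
    choose ε hε hε' using h2
    by_cases hne : (Finset.univ : Finset (ι × ι)).Nonempty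
    · refine ⟨min 1 (Finset.univ.inf' hne ε), lt_min one_pos ?_, min_le_left _ _, ?_⟩
      · exact (Finset.lt_inf'_iff hne).2 fun p _ => hε p
      · intro i hi j hj ψ d h3 h4
        have h5 : min 1 (Finset.univ.inf' hne ε) ≤ ε (i, j) :=
          (min_le_right _ _).trans (Finset.inf'_le _ (Finset.mem_univ _))
        exact hε' (i, j) hi hj ψ d (lt_of_lt_of_le h3 h5) (lt_of_lt_of_le h4 h5)
    · refine ⟨1, one_pos, le_rfl, fun i _ j _ => absurd ⟨(i, j), Finset.mem_univ _⟩ hne⟩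
  obtain ⟨ε₁, hε₁, hε₁1, hnh⟩ := h1
  -- an admissible direction near `φ₀`
  obtain ⟨φs, hφs, hadm⟩ := exists_adm_spec (S.spec t₀) φ₀ ε₁ hε₁
  obtain ⟨vs, Fs⟩ := hS.exists_fr hcard hadm
  -- the gap
  have h2 : ∃ g : ℝ, 0 < g ∧ ∀ i j, i ≠ j → g ≤ |ht φs (u₀ i - u₀ j)| := by
    have h3 : ∀ p : ι × ι, ∃ g : ℝ, 0 < g ∧ (p.1 ≠ p.2 → g ≤ |ht φs (u₀ p.1 - u₀ p.2)|) := by
      rintro ⟨i, j⟩
      by_cases hij : i = j
      · exact ⟨1, one_pos, fun h => absurd hij h⟩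
      · refine ⟨|ht φs (u₀ i - u₀ j)|, abs_pos.2 ?_, fun _ => le_rfl⟩
        rw [ht_sub, sub_ne_zero]
        exact hadm _ ((hmem _).2 ⟨i, rfl⟩) _ ((hmem _).2 ⟨j, rfl⟩) fun e => hij (hinj e)
    choose g hg hg' using h3
    by_cases hne : (Finset.univ : Finset (ι × ι)).Nonempty
    · refine ⟨Finset.univ.inf' hne g, (Finset.lt_inf'_iff hne).2 fun p _ => hg p, ?_⟩
      intro i j hij
      exact (Finset.inf'_le _ (Finset.mem_univ (i, j))).trans (hg' (i, j) hij)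
    · exact ⟨1, one_pos, fun i j _ => absurd ⟨(i, j), Finset.mem_univ _⟩ hne⟩
  obtain ⟨g, hg, hgap⟩ := h2
  obtain ⟨lab, hlab1, hlab2⟩ := exists_labels (Finset.univ.filter (· ∈ C) : Finset ι)
    (fun i => ht φs (u₀ i)) (by
      intro i _ j _ hij
      exact hadm _ ((hmem _).2 ⟨i, rfl⟩) _ ((hmem _).2 ⟨j, rfl⟩) fun e => hij (hinj e))
  have hlabC : ∀ i, i ∈ lab ↔ i ∈ C := fun i => by
    rw [hlab2, Finset.mem_filter]; simp
  obtain ⟨δ, Cl, hδ, hCl, hlip⟩ := S.G_lip t₀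
  refine ⟨(lab.map u₀).map vs, min (ε₁ / 2) (min δ (g / (4 * (1 + Cl)))), by positivity, ?_⟩
  intro t ht' u hui hum hclose φ hφ v F l hl
  have he1 : min (ε₁ / 2) (min δ (g / (4 * (1 + Cl)))) ≤ ε₁ / 2 := min_le_left _ _
  have he2 : min (ε₁ / 2) (min δ (g / (4 * (1 + Cl)))) ≤ δ :=
    (min_le_right _ _).trans (min_le_left _ _)
  have he3 : min (ε₁ / 2) (min δ (g / (4 * (1 + Cl)))) ≤ g / (4 * (1 + Cl)) :=
    (min_le_right _ _).trans (min_le_right _ _)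
  set ε := min (ε₁ / 2) (min δ (g / (4 * (1 + Cl)))) with hεdef
  have he4 : 4 * ((1 + Cl) * ε) ≤ g := by
    have := mul_le_mul_of_nonneg_left he3 (by positivity : (0 : ℝ) ≤ 4 * (1 + Cl))
    rw [mul_div_cancel₀ _ (by positivity : (4 * (1 + Cl) : ℝ) ≠ 0)] at this
    linarith
  have hεpos : 0 < ε := by rw [hεdef]; positivity
  have he5 : ε + Cl * ε ≤ g / 4 := by nlinarith
  have he6 : ε ≤ g / 4 := by nlinarith [mul_pos hCl hεpos]
  -- heights of differences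
  have hd : ∀ i j, ‖(u i - u j) - (u₀ i - u₀ j)‖ < 2 * ε := by
    intro i j
    have h3 : (u i - u j) - (u₀ i - u₀ j) = (u i - u₀ i) - (u j - u₀ j) := by ring
    rw [h3]
    calc ‖(u i - u₀ i) - (u j - u₀ j)‖ ≤ ‖u i - u₀ i‖ + ‖u j - u₀ j‖ := norm_sub_le _ _
      _ < 2 * ε := by linarith [hclose i, hclose j]
  have hdh : ∀ i j, |ht φs (u i - u j) - ht φs (u₀ i - u₀ j)| < 2 * ε := by
    intro i j
    rw [← ht_sub]
    exact lt_of_le_of_lt (abs_ht_le _ _) (hd i j)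
  -- the frame at `t` for the direction `φs`
  have hcardt : (S.spec t).card = N := F.card
  have hadmt : ∀ x ∈ S.spec t, ∀ y ∈ S.spec t, x ≠ y → ht φs x ≠ ht φs y := by
    intro x hx y hy hxy e
    obtain ⟨i, rfl⟩ := (hum x).1 hx
    obtain ⟨j, rfl⟩ := (hum y).1 hy
    have hij : i ≠ j := fun e => hxy (by rw [e])
    have h3 := hgap i j hij
    have h4 := hdh i j
    have h5 : ht φs (u i - u j) = 0 := by rw [ht_sub, e, sub_self]
    rw [h5, zero_sub, abs_neg] at h4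
    linarith
  obtain ⟨v₁, F₁⟩ := hS.exists_fr hcardt hadmt
  have hsort : IsSorted φs (u '' C) (lab.map u) := by
    constructor
    · rw [List.pairwise_map]
      refine hlab1.imp ?_
      intro i j hij
      have hne : i ≠ j := fun e => by rw [e] at hij; exact lt_irrefl _ hij
      have h3 := hgap i j hne
      have h4 := hdh i j
      have h5 : ht φs (u₀ i - u₀ j) < 0 := by rw [ht_sub]; linarith
      rw [abs_of_neg h5] at h3
      rw [abs_lt] at h4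
      have h6 : ht φs (u i - u j) < 0 := by linarith
      rw [ht_sub] at h6
      linarith
    · intro x
      simp only [List.mem_map, Set.mem_image, hlabC]
  have hCsub : ∀ x ∈ u '' C, x ∈ S.spec t := by
    rintro x ⟨i, _, rfl⟩
    exact (hum _).2 ⟨i, rfl⟩
  -- (T1)
  have hinv : ∀ φ₁ φ₂ : ℝ, |φ₁ - φ₀| < ε₁ → |φ₂ - φ₀| < ε₁ → φ₁ ≤ φ₂ → ∀ y ∈ u '' C,
      ∀ x ∈ S.spec t, x ∉ u '' C → ¬ (ht φ₁ y < ht φ₁ x ∧ ht φ₂ x < ht φ₂ y) := by
    intro φ₁ φ₂ hφ₁ hφ₂ h12 y hy x hx hxC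
    obtain ⟨i, hi, rfl⟩ := hy
    obtain ⟨j, rfl⟩ := (hum x).1 hx
    have hj : j ∉ C := fun h => hxC ⟨j, h, rfl⟩
    rw [abs_lt] at hφ₁ hφ₂
    have h3 := not_inverted (d := u j - u i) h12 (by linarith [Real.pi_gt_three]) (by
      intro ψ hψ
      refine hnh i hi j hj ψ _ ?_ ?_
      · rw [abs_lt]
        exact ⟨by linarith [hψ.1], by linarith [hψ.2]⟩
      · exact lt_of_lt_of_le (hd j i) (by linarith))
    rintro ⟨h4, h5⟩
    refine h3 ⟨?_, ?_⟩
    · rw [ht_sub]; linarith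
    · rw [ht_sub]; linarith
  have hφ1 : |φ - φ₀| < ε₁ := by linarith
  have hT1 : Mut S.χ (l.map v) ((lab.map u).map v₁) ∧
      Mut S.χ ((lab.map u).map v₁) (l.map v) := by
    have hφ' := abs_lt.1 hφ1
    have hφs' := abs_lt.1 hφs
    rcases le_total φ φs with hle | hle
    · exact F.mut_le F₁ hle (by linarith [Real.pi_gt_three]) hCsub (hinv φ φs hφ1 hφs hle) hl hsort
    · exact (F₁.mut_le F hle (by linarith [Real.pi_gt_three]) hCsub (hinv φs φ hφs hφ1 hle)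
        hsort hl).symm
  -- (T2)
  have hT2 : ∀ i, v₁ (u i) = vs (u₀ i) ∨ v₁ (u i) = - vs (u₀ i) := by
    intro i
    refine F₁.same Fs (ε := Cl * ‖t₀ - t‖) ?_ ((hum _).2 ⟨i, rfl⟩) ((hmem _).2 ⟨i, rfl⟩) ?_
    · intro ψ h x hx
      exact hlip t t₀ (lt_of_lt_of_le ht' he2) (by simpa using hδ) ψ h x hx
    · intro x hx hxi
      obtain ⟨j, rfl⟩ := (hmem x).1 hx
      have hji : j ≠ i := fun e => hxi (by rw [e])
      have h3 := hgap j i hji
      have h4 : |ht φs (u₀ j - u₀ i) - ht φs (u₀ j - u i)| ≤ ε := by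
        rw [← ht_sub]
        refine (abs_ht_le _ _).trans ?_
        have h5 : u₀ j - u₀ i - (u₀ j - u i) = u i - u₀ i := by ring
        rw [h5]
        exact (hclose i).le
      have h6 : |ht φs (u₀ j - u₀ i)| - |ht φs (u₀ j - u i)| ≤ ε :=
        (abs_sub_abs_le_abs_sub _ _).trans h4
      have h7 : ‖t₀ - t‖ < ε := by rw [norm_sub_rev]; exact ht'
      have h8 : Cl * ‖t₀ - t‖ ≤ Cl * ε := mul_le_mul_of_nonneg_left h7.le hCl.le
      linarith
  have h5 : Mut S.χ ((lab.map u).map v₁) ((lab.map u₀).map vs) ∧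
      Mut S.χ ((lab.map u₀).map vs) ((lab.map u).map v₁) := by
    rw [List.map_map, List.map_map]
    constructor
    · refine mut_of_signs lab _ _ fun i _ => ?_
      rcases hT2 i with h | h
      · left; simp [h]
      · right; simp [h]
    · refine mut_of_signs lab _ _ fun i _ => ?_
      rcases hT2 i with h | h
      · left; simp [h]
      · right; simp [h]
  exact ⟨hT1.1.trans h5.1, h5.2.trans hT1.2⟩

end Pool.Agent.FLO
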