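import Pool.Agent.FLO.Defs

/-!
# The phases `ph θ`, the translations, the labels of the spectrum
-/

set_option autoImplicit false

open scoped BigOperators

namespace Pool.Agent.FLO

variable {r : ℕ}

theorem IsPer.zero : IsPer 0 := ⟨0, by simp⟩

theorem IsPer.add {x y : ℝ} (hx : IsPer x) (hy : IsPer y) : IsPer (x + y) := by
  obtain ⟨m, rfl⟩ := hx
  obtain ⟨n, rfl⟩ := hy
  exact ⟨m + n, by push_cast; ring⟩

theorem IsPer.neg {x : ℝ} (hx : IsPer x) : IsPer (-x) := by
  obtain ⟨m, rfl⟩ := hx
  exact ⟨-m, by push_cast; ring⟩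

theorem IsPer.sub {x y : ℝ} (hx : IsPer x) (hy : IsPer y) : IsPer (x - y) := by
  rw [sub_eq_add_neg]; exact hx.add hy.neg

theorem IsPer.int_mul {x : ℝ} (hx : IsPer x) (n : ℤ) : IsPer (n * x) := by
  obtain ⟨m, rfl⟩ := hx
  exact ⟨n * m, by push_cast; ring⟩

theorem IsPer.nat_mul {x : ℝ} (hx : IsPer x) (n : ℕ) : IsPer (n * x) := by
  have := hx.int_mul n
  simpa using this

theorem ph_add (θ θ' : Fin r → ℝ) : ph (θ + θ') = ph θ + ph θ' := by
  ext k
  simp only [ph, Pi.add_apply]
  split_ifs <;> ring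

theorem ph_smul (s : ℝ) (θ : Fin r → ℝ) : ph (s • θ) = s • ph θ := by
  ext k
  simp only [ph, Pi.smul_apply, smul_eq_mul]
  split_ifs <;> ring

theorem ph_zero : ph (0 : Fin r → ℝ) = 0 := by
  have := ph_smul (r := r) 0 0
  simpa using this

theorem ph_neg (θ : Fin r → ℝ) : ph (-θ) = - ph θ := by
  have := ph_smul (-1) θ
  simpa using this

theorem ph_sub (θ θ' : Fin r → ℝ) : ph (θ - θ') = ph θ - ph θ' := by
  rw [sub_eq_add_neg, ph_add, ph_neg, sub_eq_add_neg]

theorem continuous_ph : Continuous (ph : (Fin r → ℝ) → (Fin r → ℝ)) := by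
  refine continuous_pi fun k => ?_
  simp only [ph]
  split_ifs <;> fun_prop

/-- the direction in which only the `k`-th phase changes -/
noncomputable def dir (k : Fin r) : Fin r → ℝ := fun l =>
  if k ≤ l then ((k.val : ℝ) + 1) / (((l.val : ℝ) + 1) * ((l.val : ℝ) + 2)) else 0

theorem dir_lt {k l : Fin r} (h : l < k) : dir k l = 0 := by
  rw [dir, if_neg (not_le.2 h)]

theorem dir_self (k : Fin r) : dir k k = 1 / ((k.val : ℝ) + 2) := by
  rw [dir, if_pos le_rfl]
  field_simp

theorem ph_dir (k : Fin r) : ph (dir k) = Pi.single k 1 := by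
  ext l
  rcases lt_trichotomy l k with h | h | h
  · rw [Pi.single_eq_of_ne h.ne]
    simp only [ph]
    rw [dir_lt h]
    split_ifs with h0
    · rw [dir_lt (lt_of_le_of_lt _ h)]
      · ring
      · exact Nat.sub_le _ _
    · ring
  · subst h
    rw [Pi.single_eq_same]
    simp only [ph]
    rw [dir_self]
    split_ifs with h0
    · rw [dir_lt]
      · field_simp; ring
      · exact Nat.sub_lt h0 one_pos
    · field_simp; ring
  · rw [Pi.single_eq_of_ne h.ne']
    have h0 : 0 < l.val := lt_of_le_of_lt (Nat.zero_le _) h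
    simp only [ph, dif_pos h0]
    rw [dir, if_pos h.le, dir, if_pos]
    · have h1 : ((l.val - 1 : ℕ) : ℝ) = (l.val : ℝ) - 1 := by
        rw [Nat.cast_sub h0]; simp
      simp only [h1]
      have h2 : (l.val : ℝ) ≠ 0 := by exact_mod_cast h0.ne'
      have h3 : (l.val : ℝ) - 1 + 1 ≠ 0 := by simpa using h2
      have h4 : (l.val : ℝ) - 1 + 2 ≠ 0 := by
        have : (l.val : ℝ) - 1 + 2 = l.val + 1 := by ring
        rw [this]; positivity
      field_simp
      ring
    · change k.val ≤ l.val - 1
      have : k.val < l.val := h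
      omega

theorem ph_add_dir (θ : Fin r → ℝ) (s : ℝ) (k : Fin r) :
    ph (θ + s • dir k) = ph θ + Pi.single k s := by
  rw [ph_add, ph_smul, ph_dir]
  congr 1
  ext l
  rw [Pi.smul_apply, smul_eq_mul]
  by_cases h : l = k
  · subst h; simp
  · rw [Pi.single_eq_of_ne h, Pi.single_eq_of_ne h, mul_zero]

/-- the labels -/
abbrev Lab (r : ℕ) : Type := ∀ k : Fin r, Fin (k.val + 2)

/-- the translation of the angles for a label -/
noncomputable def lam (m : Lab r) : Fin r → ℝ := ∑ k, (2 * Real.pi * (m k).val : ℝ) • dir k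

theorem lam_apply (m : Lab r) (l : Fin r) :
    lam m l = ∑ k, (2 * Real.pi * (m k).val : ℝ) * dir k l := by
  rw [lam, Finset.sum_apply]
  rfl

theorem ph_sum {ι : Type} (s : Finset ι) (f : ι → Fin r → ℝ) :
    ph (∑ i ∈ s, f i) = ∑ i ∈ s, ph (f i) := by
  classical
  induction s using Finset.induction_on with
  | empty => simp [ph_zero]
  | insert a s ha ih => rw [Finset.sum_insert ha, Finset.sum_insert ha, ph_add, ih]

theorem ph_lam (m : Lab r) (k : Fin r) : ph (lam m) k = 2 * Real.pi * (m k).val := by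
  rw [lam, ph_sum, Finset.sum_apply]
  rw [Finset.sum_eq_single k]
  · rw [ph_smul, ph_dir]; simp
  · intro l _ hl
    rw [ph_smul, ph_dir, Pi.smul_apply, Pi.single_eq_of_ne (Ne.symm hl), smul_zero]
  · intro h; exact absurd (Finset.mem_univ _) h

theorem lam_congr {m m' : Lab r} {l : Fin r} (h : ∀ k ≤ l, m k = m' k) : lam m l = lam m' l := by
  rw [lam_apply, lam_apply]
  refine Finset.sum_congr rfl fun k _ => ?_
  by_cases hk : k ≤ l
  · rw [h k hk]
  · rw [dir_lt (not_le.1 hk), mul_zero, mul_zero]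

theorem lam_zero {m : Lab r} {l : Fin r} (h : ∀ k ≤ l, m k = 0) : lam m l = 0 := by
  rw [lam_apply]
  refine Finset.sum_eq_zero fun k _ => ?_
  by_cases hk : k ≤ l
  · rw [h k hk]; simp
  · rw [dir_lt (not_le.1 hk), mul_zero]

theorem lam_sub {m m' : Lab r} {l : Fin r} (h : ∀ k < l, m k = m' k) :
    lam m l - lam m' l = 2 * Real.pi * ((m l).val - (m' l).val : ℝ) / ((l.val : ℝ) + 2) := by
  rw [lam_apply, lam_apply, ← Finset.sum_sub_distrib, Finset.sum_eq_single l]
  · rw [dir_self]; ring
  · intro k _ hk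
    rcases lt_or_gt_of_ne hk with h1 | h1
    · rw [h k h1, sub_self]
    · rw [dir_lt h1, mul_zero, mul_zero, sub_self]
  · intro h; exact absurd (Finset.mem_univ _) h

theorem not_isPer_div {n : ℕ} (hn : 0 < n) {a b : ℕ} (ha : a < n) (hb : b < n) (hab : a ≠ b) :
    ¬ IsPer (2 * Real.pi * ((a : ℝ) - b) / n) := by
  rintro ⟨m, hm⟩
  have hpi := Real.pi_pos
  have hn' : (0 : ℝ) < n := by exact_mod_cast hn
  have h1 : (a : ℝ) - b = m * n := by
    field_simp at hm
    linarith
  have h2 : (a : ℤ) - b = m * n := by exact_mod_cast h1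
  rcases lt_trichotomy m 0 with h | h | h
  · nlinarith
  · rw [h] at h2; omega
  · nlinarith

theorem exists_lab (x : Fin r → ℝ) (hx : ∀ i, IsPer (ph x i)) :
    ∃ m : Lab r, ∀ i, IsPer (x i - lam m i) := by
  classical
  have key : ∀ n : ℕ, n ≤ r → ∃ m : Lab r, ∀ i : Fin r, i.val < n → IsPer (x i - lam m i) := by
    intro n
    induction n with
    | zero => exact fun _ => ⟨fun _ => 0, fun i hi => absurd hi (Nat.not_lt_zero _)⟩
    | succ n ih =>
      intro hn
      obtain ⟨m, hm⟩ := ih (by omega)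
      let k : Fin r := ⟨n, by omega⟩
      -- `(n + 2) (x_k - lam_k)` is a multiple of `2π`
      have h1 : IsPer (((n : ℝ) + 2) * (x k - lam m k)) := by
        have h2 : ph (x - lam m) k = ((n : ℝ) + 2) * (x k - lam m k) - n *
            (if h : 0 < n then (x - lam m) ⟨n - 1, by omega⟩ else 0) := by
          simp only [ph, k, Pi.sub_apply]
        have h3 : IsPer (ph (x - lam m) k) := by
          rw [ph_sub, Pi.sub_apply, ph_lam]
          exact (hx k).sub ⟨(m k).val, by push_cast; ring⟩
        have h4 : IsPer ((n : ℝ) *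
            (if h : 0 < n then (x - lam m) ⟨n - 1, by omega⟩ else 0)) := by
          split_ifs with h
          · exact (hm ⟨n - 1, by omega⟩ (Nat.sub_lt h one_pos)).nat_mul n
          · rw [mul_zero]; exact IsPer.zero
        have h5 := h3.add h4
        rw [h2, sub_add_cancel] at h5
        exact h5
      obtain ⟨p, hp⟩ := h1
      -- reduce `p + (n + 2) * stuff`
      let q : ℤ := (p + (m k).val) % ((n : ℤ) + 2)
      have hq0 : 0 ≤ q := Int.emod_nonneg _ (by omega)
      have hq1 : q < (n : ℤ) + 2 := Int.emod_lt_of_pos _ (by omega)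
      let m' : Lab r := Function.update m k ⟨q.toNat, by
        have : q.toNat < n + 2 := by omega
        exact this⟩
      have hm'lt : ∀ l < k, m' l = m l := fun l hl => by
        simp only [m', Function.update_of_ne hl.ne]
      refine ⟨m', fun i hi => ?_⟩
      rcases Nat.lt_succ_iff_lt_or_eq.1 hi with h | h
      · have h6 : lam m' i = lam m i := lam_congr fun l hl => hm'lt l (lt_of_le_of_lt hl h)
        rw [h6]; exact hm i h
      · have hik : i = k := Fin.ext h
        rw [hik]
        have h7 := lam_sub (m := m') (m' := m) (l := k) hm'lt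
        have h8 : (m' k).val = q.toNat := by simp [m']
        have hiv : (k.val : ℝ) = n := rfl
        rw [h8, hiv] at h7
        have hq' : ((q.toNat : ℕ) : ℝ) = (q : ℝ) := by
          have := Int.toNat_of_nonneg hq0
          exact_mod_cast congrArg (Int.cast (R := ℝ)) this
        rw [hq'] at h7
        -- `q = p + m_k - (n + 2) d`
        obtain ⟨d, hd⟩ : ∃ d : ℤ, q = p + (m k).val - ((n : ℤ) + 2) * d :=
          ⟨(p + (m k).val) / ((n : ℤ) + 2), by
            have := Int.emod_add_mul_ediv (p + (m k).val : ℤ) ((n : ℤ) + 2)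
            simp only [q] at *
            linarith⟩
        refine ⟨d, ?_⟩
        have hn2 : (n : ℝ) + 2 ≠ 0 := by positivity
        have h9 : x k - lam m k = 2 * Real.pi * p / ((n : ℝ) + 2) := by
          rw [eq_div_iff hn2, ← hp]; ring
        have h10 : x k - lam m' k = (x k - lam m k) - (lam m' k - lam m k) := by ring
        rw [h10, h9, h7, hd]
        push_cast
        field_simp
        ring
  obtain ⟨m, hm⟩ := key r le_rfl
  exact ⟨m, fun i => hm i i.isLt⟩

/-- the first index where two labels differ -/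
theorem exists_first {m m' : Lab r} (h : m ≠ m') : ∃ k, m k ≠ m' k ∧ ∀ i < k, m i = m' i := by
  classical
  have h1 : ∃ k, m k ≠ m' k := by
    by_contra hne
    push Not at hne
    exact h (funext hne)
  let s : Finset (Fin r) := Finset.univ.filter fun k => m k ≠ m' k
  have hs : s.Nonempty := by
    obtain ⟨k, hk⟩ := h1
    exact ⟨k, by simp [s, hk]⟩
  refine ⟨s.min' hs, ?_, fun i hi => ?_⟩
  · have := s.min'_mem hs
    simpa [s] using this
  · by_contra hne
    have h2 : i ∈ s := by simp [s, hne]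
    exact absurd (s.min'_le i h2) (not_le.2 hi)

end Pool.Agent.FLO
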