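import Pool.Agent.FLO.DHt
import Pool.Agent.FLO.DPh

/-!
# The trigonometry of the regular polygons
-/

set_option autoImplicit false

open scoped BigOperators

namespace Pool.Agent.FLO

theorem ht_exp (φ α : ℝ) : ht φ (Complex.exp (α * Complex.I)) =
    Real.sin (α - (φ - Real.pi / 2)) := by
  rw [ht_eq, Complex.exp_ofReal_mul_I_re, Complex.exp_ofReal_mul_I_im,
    show α - (φ - Real.pi / 2) = (α - φ) + Real.pi / 2 by ring, Real.sin_add_pi_div_two,
    Real.cos_sub]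

theorem ht_half_exp (φ α : ℝ) : ht (φ + Real.pi / 2) (Complex.exp (α * Complex.I)) =
    - Real.cos (α - (φ - Real.pi / 2)) := by
  rw [ht_half, Complex.exp_ofReal_mul_I_re, Complex.exp_ofReal_mul_I_im,
    show α - (φ - Real.pi / 2) = (α - φ) + Real.pi / 2 by ring, Real.cos_add_pi_div_two,
    Real.sin_sub]
  ring

theorem ht_real_mul (φ M : ℝ) (u : ℂ) : ht φ (M * u) = M * ht φ u := by
  rw [ht_eq, ht_eq, Complex.re_ofReal_mul, Complex.im_ofReal_mul]; ring

theorem norm_exp_sub_sq (α β : ℝ) :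
    ‖Complex.exp (β * Complex.I) - Complex.exp (α * Complex.I)‖ ^ 2 =
      2 - 2 * Real.cos (β - α) := by
  rw [Complex.sq_norm, Complex.normSq_apply, Complex.sub_re, Complex.sub_im,
    Complex.exp_ofReal_mul_I_re, Complex.exp_ofReal_mul_I_im, Complex.exp_ofReal_mul_I_re,
    Complex.exp_ofReal_mul_I_im, Real.cos_sub]
  nlinarith [Real.sin_sq_add_cos_sq α, Real.sin_sq_add_cos_sq β]

theorem noHit_of {φ α β M η : ℝ} {x : ℂ} (hM : 0 < M)
    (hx : ‖x - M * (Complex.exp (β * Complex.I) - Complex.exp (α * Complex.I))‖ ≤ η * M)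
    (h : ¬ (|Real.sin (β - (φ - Real.pi / 2)) - Real.sin (α - (φ - Real.pi / 2))| ≤ η ∧
      Real.cos (α - (φ - Real.pi / 2)) - Real.cos (β - (φ - Real.pi / 2)) ≤ η)) :
    NoHit φ x := by
  by_contra hn
  rw [NoHit, not_or, not_not, not_lt] at hn
  obtain ⟨h1, h2⟩ := hn
  refine h ⟨?_, ?_⟩
  · have h3 := (abs_ht_le φ _).trans hx
    rw [ht_sub, h1, ht_real_mul, ht_sub, ht_exp, ht_exp, zero_sub, abs_neg, abs_mul,
      abs_of_pos hM, mul_comm] at h3
    exact le_of_mul_le_mul_right h3 hM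
  · have h3 := (abs_le.1 ((abs_ht_le (φ + Real.pi / 2) _).trans hx)).1
    rw [ht_sub, ht_real_mul, ht_sub, ht_half_exp, ht_half_exp] at h3
    have h4 : M * (Real.cos (α - (φ - Real.pi / 2)) - Real.cos (β - (φ - Real.pi / 2))) ≤
        M * η := by nlinarith
    exact le_of_mul_le_mul_left h4 hM

theorem ht_pos_of {φ α β M η : ℝ} {x : ℂ} (hM : 0 < M)
    (hx : ‖x - M * (Complex.exp (β * Complex.I) - Complex.exp (α * Complex.I))‖ ≤ η * M)
    (h : η < Real.sin (β - (φ - Real.pi / 2)) - Real.sin (α - (φ - Real.pi / 2))) :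
    0 < ht φ x := by
  have h3 := (abs_le.1 ((abs_ht_le φ _).trans hx)).1
  rw [ht_sub, ht_real_mul, ht_sub, ht_exp, ht_exp] at h3
  nlinarith

theorem core_window {a b η : ℝ} (ha : |a| ≤ Real.pi / 2) (hη : 4 * η < 2 - 2 * Real.cos (b - a)) :
    ¬ (|Real.sin b - Real.sin a| ≤ η ∧ Real.cos a - Real.cos b ≤ η) := by
  rintro ⟨h1, h2⟩
  have hη0 : 0 ≤ η := (abs_nonneg _).trans h1
  have hc : 0 ≤ Real.cos a := Real.cos_nonneg_of_mem_Icc ⟨by linarith [(abs_le.1 ha).1],
    (abs_le.1 ha).2⟩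
  have hc1 := Real.cos_le_one a
  have hs1 := Real.neg_one_le_sin a
  have hs2 := Real.sin_le_one a
  have h3 : 2 - 2 * Real.cos (b - a) =
      2 * (Real.cos a * (Real.cos a - Real.cos b)) +
        2 * (Real.sin a * (Real.sin a - Real.sin b)) := by
    rw [Real.cos_sub]
    nlinarith [Real.sin_sq_add_cos_sq a]
  have h4 : Real.cos a * (Real.cos a - Real.cos b) ≤ η := by
    calc Real.cos a * (Real.cos a - Real.cos b) ≤ Real.cos a * η :=
        mul_le_mul_of_nonneg_left h2 hc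
      _ ≤ 1 * η := mul_le_mul_of_nonneg_right hc1 hη0
      _ = η := one_mul _
  have h5 : Real.sin a * (Real.sin a - Real.sin b) ≤ η := by
    calc Real.sin a * (Real.sin a - Real.sin b) ≤ |Real.sin a * (Real.sin a - Real.sin b)| :=
        le_abs_self _
      _ = |Real.sin a| * |Real.sin b - Real.sin a| := by rw [abs_mul, abs_sub_comm (Real.sin a)]
      _ ≤ 1 * η := mul_le_mul (Real.abs_sin_le_one a) h1 (abs_nonneg _) zero_le_one
      _ = η := one_mul _
  linarith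

theorem sin_le_cos_of {κ y : ℝ} (hκ : 0 ≤ κ) (hy : |y| ≤ Real.pi / 2 - κ) :
    Real.sin κ ≤ Real.cos y := by
  rw [← Real.cos_abs y, ← Real.cos_pi_div_two_sub]
  exact Real.cos_le_cos_of_nonneg_of_le_pi (abs_nonneg _) (by linarith [Real.pi_pos]) hy

theorem sin_le_sin_of {κ y : ℝ} (hκ : 0 ≤ κ) (h1 : κ ≤ y) (h2 : y ≤ Real.pi - κ) :
    Real.sin κ ≤ Real.sin y := by
  have h := sin_le_cos_of (κ := κ) (y := Real.pi / 2 - y) hκ (abs_le.2 ⟨by linarith, by linarith⟩)
  rwa [Real.cos_pi_div_two_sub] at h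

theorem core_arc {a b η κ s : ℝ} (hκ : 0 < κ) (hs0 : 0 ≤ s) (hs : s ≤ Real.pi / 2)
    (ha1 : κ - s ≤ a) (ha2 : a ≤ Real.pi - κ - s) (hb1 : -Real.pi + κ - s ≤ b) (hb2 : b ≤ -κ - s)
    (hη : 4 * η < 2 - 2 * Real.cos (b - a)) (hη2 : η < 2 * Real.sin κ ^ 2) :
    ¬ (|Real.sin b - Real.sin a| ≤ η ∧ Real.cos a - Real.cos b ≤ η) := by
  by_cases ha : a ≤ Real.pi / 2
  · exact core_window (abs_le.2 ⟨by linarith, ha⟩) hη
  · push Not at ha
    rintro ⟨h1, _⟩
    have h2 := (abs_le.1 h1).1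
    have h3 : Real.sin a - Real.sin b =
        2 * Real.sin ((a - b) / 2) * Real.cos ((a + b) / 2) := Real.sin_sub_sin a b
    have hκ2 : κ ≤ Real.pi / 2 := by linarith
    have hsk : 0 < Real.sin κ := Real.sin_pos_of_pos_of_lt_pi hκ (by linarith [Real.pi_pos])
    have h4 : Real.sin κ ≤ Real.sin ((a - b) / 2) :=
      sin_le_sin_of hκ.le (by linarith) (by linarith)
    have h5 : Real.sin κ ≤ Real.cos ((a + b) / 2) :=
      sin_le_cos_of hκ.le (abs_le.2 ⟨by linarith, by linarith⟩)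
    have h6 : Real.sin κ ^ 2 ≤ Real.sin ((a - b) / 2) * Real.cos ((a + b) / 2) := by
      rw [sq]; exact mul_le_mul h4 h5 hsk.le (hsk.le.trans h4)
    nlinarith

theorem core_arc' {a b η κ s : ℝ} (hκ : 0 < κ) (hs0 : 0 ≤ s) (hs : s ≤ Real.pi / 2)
    (ha1 : -Real.pi + κ + s ≤ a) (ha2 : a ≤ -κ + s) (hb1 : κ + s ≤ b) (hb2 : b ≤ Real.pi - κ + s)
    (hη : 4 * η < 2 - 2 * Real.cos (b - a)) (hη2 : η < 2 * Real.sin κ ^ 2) :
    ¬ (|Real.sin b - Real.sin a| ≤ η ∧ Real.cos a - Real.cos b ≤ η) := by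
  have h := core_arc (a := -a) (b := -b) (η := η) (κ := κ) (s := s) hκ hs0 hs (by linarith)
    (by linarith) (by linarith) (by linarith) (by
      rw [show -b - -a = -(b - a) by ring, Real.cos_neg]; exact hη) hη2
  rintro ⟨h1, h2⟩
  refine h ⟨?_, ?_⟩
  · rw [Real.sin_neg, Real.sin_neg, show -Real.sin b - -Real.sin a = -(Real.sin b - Real.sin a) by
      ring, abs_neg]
    exact h1
  · rw [Real.cos_neg, Real.cos_neg]; exact h2

/-- the vertices of a regular polygon have a distance of at least `4 / n` -/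
theorem chord {n : ℕ} (hn : 2 ≤ n) {y : ℝ} (h : IsPer ((n : ℝ) * y)) (hy : ¬ IsPer y) :
    16 / (n : ℝ) ^ 2 ≤ 2 - 2 * Real.cos y := by
  obtain ⟨p, hp⟩ := h
  have hn0 : (0 : ℝ) < n := by exact_mod_cast (by omega : 0 < n)
  have hpi := Real.pi_pos
  let q : ℤ := p % n
  have hq0 : 0 ≤ q := Int.emod_nonneg _ (by omega)
  have hq1 : q < n := Int.emod_lt_of_pos _ (by omega)
  have hpq : p = q + n * (p / n) := (Int.emod_add_mul_ediv p n).symm
  have hyq : y = 2 * Real.pi * q / n + (p / n : ℤ) * (2 * Real.pi) := by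
    have h1 : (n : ℝ) * y = 2 * Real.pi * (q + n * (p / n : ℤ)) := by
      rw [hp]
      congr 1
      exact_mod_cast hpq
    field_simp
    linarith
  have hq : 0 < q := by
    rcases hq0.lt_or_eq with h | h
    · exact h
    · exfalso
      apply hy
      refine ⟨p / n, ?_⟩
      rw [hyq, ← h]
      push_cast
      ring
  have h1 : Real.cos y = Real.cos (2 * Real.pi * q / n) := by
    rw [hyq, Real.cos_add_int_mul_two_pi]
  have h2 : Real.cos (2 * Real.pi * q / n) = 1 - 2 * Real.sin (Real.pi * q / n) ^ 2 := by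
    rw [show 2 * Real.pi * q / n = 2 * (Real.pi * q / n) by ring, Real.cos_two_mul,
      ← Real.sin_sq_add_cos_sq (Real.pi * q / n)]
    ring
  have hq' : (1 : ℝ) ≤ q := by exact_mod_cast hq
  have hq'' : (q : ℝ) ≤ n - 1 := by
    have : q ≤ n - 1 := by omega
    exact_mod_cast this
  have h3 : Real.sin (Real.pi / n) ≤ Real.sin (Real.pi * q / n) := by
    refine sin_le_sin_of (by positivity) ?_ ?_
    · exact div_le_div_of_nonneg_right (by nlinarith) hn0.le
    · rw [le_sub_iff_add_le, ← add_div, div_le_iff₀ hn0]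
      nlinarith
  have h4 : 2 / (n : ℝ) ≤ Real.sin (Real.pi / n) := by
    have h5 : Real.pi / n ≤ Real.pi / 2 := by
      apply div_le_div_of_nonneg_left hpi.le two_pos
      exact_mod_cast hn
    have h6 := Real.mul_le_sin (x := Real.pi / n) (by positivity) h5
    have h7 : 2 / Real.pi * (Real.pi / n) = 2 / (n : ℝ) := by field_simp
    rwa [h7] at h6
  have h5 : 0 < 2 / (n : ℝ) := by positivity
  have h6 : (2 / (n : ℝ)) ^ 2 ≤ Real.sin (Real.pi * q / n) ^ 2 :=
    pow_le_pow_left₀ h5.le (h4.trans h3) 2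
  rw [h1, h2]
  have h7 : 16 / (n : ℝ) ^ 2 = 4 * (2 / (n : ℝ)) ^ 2 := by field_simp; ring
  rw [h7]
  linarith

end Pool.Agent.FLO
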