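import Pool.Agent.FLO.DLoc

/-!
# Transport along paths, and on the whole separable locus
-/

set_option autoImplicit false

open scoped BigOperators Topology
open Filter

namespace Pool.Agent.FLO

variable {r N : ℕ} {K : Type} [AddCommGroup K] {S : Growth r N K}

/-- `L` represents the lists of the part `C` of the spectrum at `t` for all directions near `φ` -/
def Rep (S : Growth r N K) (t : Fin r → ℂ) (φ : ℝ) (C : Set ℂ) (L : List K) : Prop :=
  ∃ ε : ℝ, 0 < ε ∧ ∀ φ', |φ' - φ| < ε → ∀ v, Fr S t φ' v → ∀ l, IsSorted φ' C l →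
    Mut S.χ (l.map v) L ∧ Mut S.χ L (l.map v)

theorem Rep.rel (hS : S.Full) {t : Fin r → ℂ} (hcard : (S.spec t).card = N) {φ : ℝ} {C : Set ℂ}
    (hC : ∀ x ∈ C, x ∈ S.spec t) {L L' : List K} (h : Rep S t φ C L) (h' : Rep S t φ C L') :
    Mut S.χ L L' ∧ Mut S.χ L' L := by
  obtain ⟨ε, hε, h⟩ := h
  obtain ⟨ε', hε', h'⟩ := h'
  obtain ⟨φ', h1, h2⟩ := exists_adm_spec (S.spec t) φ (min ε ε') (lt_min hε hε')
  obtain ⟨v, F⟩ := hS.exists_fr hcard h2
  obtain ⟨l, hl⟩ := F.exists_sorted hC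
  obtain ⟨h3, h4⟩ := h φ' (lt_of_lt_of_le h1 (min_le_left _ _)) v F l hl
  obtain ⟨h5, h6⟩ := h' φ' (lt_of_lt_of_le h1 (min_le_right _ _)) v F l hl
  exact ⟨h4.trans h5, h6.trans h3⟩

theorem Rep.mono {t : Fin r → ℂ} {φ : ℝ} {C : Set ℂ} {L L' : List K} (h : Rep S t φ C L)
    (h1 : Mut S.χ L L') (h2 : Mut S.χ L' L) : Rep S t φ C L' := by
  obtain ⟨ε, hε, h⟩ := h
  refine ⟨ε, hε, fun φ' h3 v F l hl => ?_⟩
  obtain ⟨h4, h5⟩ := h φ' h3 v F l hl
  exact ⟨h4.trans h1, h2.trans h5⟩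

theorem transport (hS : S.Full) {ι : Type} [Finite ι] {t : ℝ → Fin r → ℂ} {φ : ℝ → ℝ}
    {u : ℝ → ι → ℂ} {C : Set ι} (ht : ContinuousOn t (Set.Icc 0 1))
    (hφ : ContinuousOn φ (Set.Icc 0 1)) (hu : ContinuousOn u (Set.Icc 0 1))
    (hcard : ∀ s ∈ Set.Icc (0 : ℝ) 1, (S.spec (t s)).card = N)
    (hinj : ∀ s ∈ Set.Icc (0 : ℝ) 1, Function.Injective (u s))
    (hmem : ∀ s ∈ Set.Icc (0 : ℝ) 1, ∀ x, x ∈ S.spec (t s) ↔ ∃ i, u s i = x)
    (hhit : ∀ s ∈ Set.Icc (0 : ℝ) 1, ∀ i ∈ C, ∀ j ∉ C, NoHit (φ s) (u s j - u s i))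
    {v₀ v₁ : ℂ → K} {l₀ l₁ : List ℂ} (F₀ : Fr S (t 0) (φ 0) v₀) (F₁ : Fr S (t 1) (φ 1) v₁)
    (hl₀ : IsSorted (φ 0) (u 0 '' C) l₀) (hl₁ : IsSorted (φ 1) (u 1 '' C) l₁) :
    Mut S.χ (l₀.map v₀) (l₁.map v₁) ∧ Mut S.χ (l₁.map v₁) (l₀.map v₀) := by
  have := Fintype.ofFinite ι
  have hsub : ∀ s ∈ Set.Icc (0 : ℝ) 1, ∀ x ∈ u s '' C, x ∈ S.spec (t s) := by
    rintro s hs x ⟨i, _, rfl⟩
    exact (hmem s hs _).2 ⟨i, rfl⟩
  -- local representatives
  have hloc : ∀ s₀ ∈ Set.Icc (0 : ℝ) 1, ∃ L, ∀ᶠ s in 𝓝[Set.Icc 0 1] s₀,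
      s ∈ Set.Icc (0 : ℝ) 1 → Rep S (t s) (φ s) (u s '' C) L := by
    intro s₀ hs₀
    obtain ⟨L, ε, hε, hL⟩ := loc hS (hcard s₀ hs₀) (hinj s₀ hs₀) (hmem s₀ hs₀) C (φ s₀)
      (hhit s₀ hs₀)
    refine ⟨L, ?_⟩
    have h1 : ∀ᶠ s in 𝓝[Set.Icc 0 1] s₀, ‖t s - t s₀‖ < ε := by
      have := (ht s₀ hs₀).eventually (Metric.ball_mem_nhds _ hε)
      simpa [dist_eq_norm] using this
    have h2 : ∀ᶠ s in 𝓝[Set.Icc 0 1] s₀, |φ s - φ s₀| < ε / 2 := by
      have := (hφ s₀ hs₀).eventually (Metric.ball_mem_nhds _ (half_pos hε))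
      simpa [Real.dist_eq] using this
    have h3 : ∀ᶠ s in 𝓝[Set.Icc 0 1] s₀, ‖u s - u s₀‖ < ε := by
      have := (hu s₀ hs₀).eventually (Metric.ball_mem_nhds _ hε)
      simpa [dist_eq_norm] using this
    filter_upwards [h1, h2, h3] with s h1 h2 h3 hs
    refine ⟨ε / 2, half_pos hε, fun φ' h4 v F l hl => ?_⟩
    refine hL (t s) h1 (u s) (hinj s hs) (hmem s hs) (fun i => ?_) φ' ?_ v F l hl
    · exact lt_of_le_of_lt (by simpa using norm_le_pi_norm (u s - u s₀) i) h3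
    · calc |φ' - φ s₀| = |(φ' - φ s) + (φ s - φ s₀)| := by ring_nf
        _ ≤ |φ' - φ s| + |φ s - φ s₀| := abs_add_le _ _
        _ < ε := by linarith
  have key : ∀ L, Rep S (t 0) (φ 0) (u 0 '' C) L → Rep S (t 1) (φ 1) (u 1 '' C) L := by
    refine (isPreconnected_Icc (a := (0 : ℝ)) (b := 1)).induction₂' (fun s s' =>
      ∀ L, Rep S (t s) (φ s) (u s '' C) L → Rep S (t s') (φ s') (u s' '' C) L) ?_ ?_
      (Set.left_mem_Icc.2 zero_le_one) (Set.right_mem_Icc.2 zero_le_one)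
    · intro s₀ hs₀
      obtain ⟨L₀, hL₀⟩ := hloc s₀ hs₀
      have h0 := hL₀.self_of_nhdsWithin hs₀ hs₀
      filter_upwards [hL₀, self_mem_nhdsWithin] with s hs hsm
      have h1 := hs hsm
      constructor
      · intro L hL
        have h2 := Rep.rel hS (hcard s₀ hs₀) (hsub s₀ hs₀) h0 hL
        exact h1.mono h2.1 h2.2
      · intro L hL
        have h2 := Rep.rel hS (hcard s hsm) (hsub s hsm) h1 hL
        exact h0.mono h2.1 h2.2
    · intro x y z _ _ _ h1 h2 L hL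
      exact h2 L (h1 L hL)
  obtain ⟨L, hL⟩ := hloc 0 (Set.left_mem_Icc.2 zero_le_one)
  have h0 := hL.self_of_nhdsWithin (Set.left_mem_Icc.2 zero_le_one)
    (Set.left_mem_Icc.2 zero_le_one)
  have h1 := key L h0
  obtain ⟨ε, hε, h0⟩ := h0
  obtain ⟨ε', hε', h1⟩ := h1
  obtain ⟨h2, h3⟩ := h0 (φ 0) (by simpa using hε) v₀ F₀ l₀ hl₀
  obtain ⟨h4, h5⟩ := h1 (φ 1) (by simpa using hε') v₁ F₁ l₁ hl₁
  exact ⟨h2.trans h5, h4.trans h3⟩

/-- at a fixed point the whole lists for all directions are related by mutations -/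
theorem all_dir (hS : S.Full) {t : Fin r → ℂ} {φ φ' : ℝ} {v v' : ℂ → K} (F : Fr S t φ v)
    (F' : Fr S t φ' v') {l l' : List ℂ} (hl : IsSorted φ {x | x ∈ S.spec t} l)
    (hl' : IsSorted φ' {x | x ∈ S.spec t} l') :
    Mut S.χ (l.map v) (l'.map v') ∧ Mut S.χ (l'.map v') (l.map v) := by
  have key : ∀ n : ℕ, ∀ φ φ' : ℝ, ∀ v v' : ℂ → K, Fr S t φ v → Fr S t φ' v' → ∀ l l' : List ℂ,
      IsSorted φ {x | x ∈ S.spec t} l → IsSorted φ' {x | x ∈ S.spec t} l' → φ ≤ φ' →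
      φ' ≤ φ + n * (Real.pi / 2) + Real.pi / 2 →
      Mut S.χ (l.map v) (l'.map v') ∧ Mut S.χ (l'.map v') (l.map v) := by
    intro n
    induction n with
    | zero =>
      intro φ φ' v v' F F' l l' hl hl' h1 h2
      refine F.mut_le F' h1 ?_ (fun x hx => hx) (fun u _ x hx hxC => absurd hx hxC) hl hl'
      have := Real.pi_pos
      push_cast at h2
      linarith
    | succ n ih =>
      intro φ φ' v v' F F' l l' hl hl' h1 h2
      have hpi := Real.pi_pos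
      obtain ⟨ψ, hψ, hadm⟩ := exists_adm_spec (S.spec t) (φ + 3 * Real.pi / 4) (Real.pi / 8)
        (by positivity)
      rw [abs_lt] at hψ
      obtain ⟨w, Fw⟩ := hS.exists_fr F.card hadm
      obtain ⟨m, hm⟩ := Fw.exists_sorted (C := {x | x ∈ S.spec t}) (fun x hx => hx)
      rcases le_total φ' ψ with hle | hle
      · refine F.mut_le F' h1 ?_ (fun x hx => hx) (fun u _ x hx hxC => absurd hx hxC) hl hl'
        linarith
      · have h3 := F.mut_le Fw (by linarith) (by linarith) (C := {x | x ∈ S.spec t})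
          (fun x hx => hx) (fun u _ x hx hxC => absurd hx hxC) hl hm
        have h4 := ih ψ φ' w v' Fw F' m l' hm hl' hle (by push_cast at h2 ⊢; linarith)
        exact ⟨h3.1.trans h4.1, h4.2.trans h3.2⟩
  have hpi := Real.pi_pos
  rcases le_total φ φ' with hle | hle
  · obtain ⟨n, hn⟩ := exists_nat_ge ((φ' - φ) / (Real.pi / 2))
    rw [div_le_iff₀ (by positivity)] at hn
    exact key n φ φ' v v' F F' l l' hl hl' hle (by linarith)
  · obtain ⟨n, hn⟩ := exists_nat_ge ((φ - φ') / (Real.pi / 2))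
    rw [div_le_iff₀ (by positivity)] at hn
    exact (key n φ' φ v' v F' F l' l hl' hl hle (by linarith)).symm

/-- `L` represents all lists at `t` -/
def RepAll (S : Growth r N K) (t : Fin r → ℂ) (L : List K) : Prop :=
  ∀ φ v, Fr S t φ v → ∀ l, IsSorted φ {x | x ∈ S.spec t} l →
    Mut S.χ (l.map v) L ∧ Mut S.χ L (l.map v)

theorem repAll_of_one (hS : S.Full) {t : Fin r → ℂ} {φ : ℝ} {v : ℂ → K} (F : Fr S t φ v)
    {l : List ℂ} (hl : IsSorted φ {x | x ∈ S.spec t} l) {L : List K}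
    (h1 : Mut S.χ (l.map v) L) (h2 : Mut S.χ L (l.map v)) : RepAll S t L := by
  intro φ' v' F' l' hl'
  have h3 := all_dir hS F F' hl hl'
  exact ⟨h3.2.trans h1, h2.trans h3.1⟩

theorem RepAll.rel (hS : S.Full) {t : Fin r → ℂ} (hcard : (S.spec t).card = N) {L L' : List K}
    (h : RepAll S t L) (h' : RepAll S t L') : Mut S.χ L L' ∧ Mut S.χ L' L := by
  obtain ⟨φ, _, hadm⟩ := exists_adm_spec (S.spec t) 0 1 one_pos
  obtain ⟨v, F⟩ := hS.exists_fr hcard hadm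
  obtain ⟨l, hl⟩ := F.exists_sorted (C := {x | x ∈ S.spec t}) (fun x hx => hx)
  have h1 := h φ v F l hl
  have h2 := h' φ v F l hl
  exact ⟨h1.2.trans h2.1, h2.2.trans h1.1⟩

/-- the labels of the spectrum near a point of the separable locus -/
theorem near_labels {t₀ : Fin r → ℂ} (hcard : (S.spec t₀).card = N) {ε : ℝ} (hε : 0 < ε) :
    ∃ δ : ℝ, 0 < δ ∧ ∀ t, ‖t - t₀‖ < δ → (S.spec t).card = N ∧
      ∃ u : {x // x ∈ S.spec t₀} → ℂ, Function.Injective u ∧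
      (∀ x, x ∈ S.spec t ↔ ∃ i, u i = x) ∧ ∀ i, ‖u i - i.1‖ < ε := by
  classical
  -- the minimal distance
  have h1 : ∃ g : ℝ, 0 < g ∧ ∀ x ∈ S.spec t₀, ∀ y ∈ S.spec t₀, x ≠ y → g ≤ ‖x - y‖ := by
    by_cases hne : ((S.spec t₀ ×ˢ S.spec t₀).filter fun p => p.1 ≠ p.2).Nonempty
    · refine ⟨(((S.spec t₀ ×ˢ S.spec t₀).filter fun p => p.1 ≠ p.2)).inf' hne
        (fun p => ‖p.1 - p.2‖), ?_, ?_⟩
      · rw [Finset.lt_inf'_iff]
        intro p hp
        exact norm_pos_iff.2 (sub_ne_zero.2 (Finset.mem_filter.1 hp).2)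
      · intro x hx y hy hxy
        exact Finset.inf'_le (f := fun p : ℂ × ℂ => ‖p.1 - p.2‖)
          (b := (x, y)) (by simp [hx, hy, hxy])
    · refine ⟨1, one_pos, fun x hx y hy hxy => absurd ⟨(x, y), ?_⟩ hne⟩
      simp [hx, hy, hxy]
  obtain ⟨g, hg, hgap⟩ := h1
  obtain ⟨δ, hδ, hnear⟩ := S.spec_near t₀ hcard (min ε (g / 2)) (lt_min hε (half_pos hg))
  refine ⟨δ, hδ, fun t ht => ?_⟩
  choose! u hu hu' using hnear t ht
  have hinj : Function.Injective fun i : {x // x ∈ S.spec t₀} => u i.1 := by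
    rintro ⟨x, hx⟩ ⟨y, hy⟩ hxy
    simp only at hxy
    by_contra hne
    have hne' : x ≠ y := fun e => hne (Subtype.ext e)
    have h2 := hgap x hx y hy hne'
    have h3 : ‖x - y‖ < g := by
      calc ‖x - y‖ = ‖(u y - y) - (u x - x)‖ := by rw [hxy]; ring_nf
        _ ≤ ‖u y - y‖ + ‖u x - x‖ := norm_sub_le _ _
        _ < g := by
          have h4 := lt_of_lt_of_le (hu' x hx) (min_le_right _ _)
          have h5 := lt_of_lt_of_le (hu' y hy) (min_le_right _ _)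
          linarith
    linarith
  have hsub : (Finset.univ.image fun i : {x // x ∈ S.spec t₀} => u i.1) ⊆ S.spec t := by
    intro x hx
    obtain ⟨i, _, rfl⟩ := Finset.mem_image.1 hx
    exact hu i.1 i.2
  have hcardim : (Finset.univ.image fun i : {x // x ∈ S.spec t₀} => u i.1).card = N := by
    rw [Finset.card_image_of_injective _ hinj, Finset.card_univ, Fintype.card_coe, hcard]
  have heq : (Finset.univ.image fun i : {x // x ∈ S.spec t₀} => u i.1) = S.spec t :=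
    Finset.eq_of_subset_of_card_le hsub (by rw [hcardim]; exact S.card_le t)
  refine ⟨by rw [← heq, hcardim], fun i => u i.1, hinj, fun x => ?_, fun i => ?_⟩
  · rw [← heq]
    simp
  · exact lt_of_lt_of_le (hu' i.1 i.2) (min_le_left _ _)

theorem repAll_near (hS : S.Full) {t₀ : Fin r → ℂ} (hcard : (S.spec t₀).card = N) :
    ∃ L : List K, ∀ᶠ t in 𝓝 t₀, RepAll S t L := by
  obtain ⟨L, ε, hε, hL⟩ := loc hS hcard (ι := {x // x ∈ S.spec t₀}) (u₀ := fun i => i.1)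
    Subtype.val_injective (fun x => by simp) Set.univ 0 (fun i _ j hj => absurd trivial hj)
  obtain ⟨δ, hδ, hδ'⟩ := near_labels (S := S) hcard hε
  refine ⟨L, ?_⟩
  rw [Metric.eventually_nhds_iff]
  refine ⟨min δ ε, lt_min hδ hε, fun t ht => ?_⟩
  rw [dist_eq_norm] at ht
  obtain ⟨hc, u, hu1, hu2, hu3⟩ := hδ' t (lt_of_lt_of_le ht (min_le_left _ _))
  obtain ⟨φ, hφ, hadm⟩ := exists_adm_spec (S.spec t) 0 ε hε
  obtain ⟨v, F⟩ := hS.exists_fr hc hadm
  obtain ⟨l, hl⟩ := F.exists_sorted (C := {x | x ∈ S.spec t}) (fun x hx => hx)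
  have hset : u '' Set.univ = {x | x ∈ S.spec t} := by
    ext x
    rw [Set.image_univ, Set.mem_range]
    exact (hu2 x).symm
  have h1 := hL t (lt_of_lt_of_le ht (min_le_right _ _)) u hu1 hu2 hu3 φ hφ v F l
    (by rw [hset]; exact hl)
  exact repAll_of_one hS F hl h1.1 h1.2

/-- if the separable locus is connected, a representative at one point is one everywhere -/
theorem repAll_all (hS : S.Full) (hconn : IsPreconnected {t | (S.spec t).card = N})
    {t₀ t : Fin r → ℂ} (h₀ : (S.spec t₀).card = N) (h : (S.spec t).card = N) {L : List K}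
    (hL : RepAll S t₀ L) : RepAll S t L := by
  refine hconn.induction₂' (fun s s' => ∀ L, RepAll S s L → RepAll S s' L) ?_ ?_ h₀ h L hL
  · intro s hs
    obtain ⟨L₀, hL₀⟩ := repAll_near hS hs
    have h0 := hL₀.self_of_nhds
    filter_upwards [hL₀.filter_mono nhdsWithin_le_nhds, self_mem_nhdsWithin] with s' h1 hs'
    constructor
    · intro L hL
      have h2 := RepAll.rel hS hs h0 hL
      intro φ v F l hl
      have h3 := h1 φ v F l hl
      exact ⟨h3.1.trans h2.1, h2.2.trans h3.2⟩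
    · intro L hL
      have h2 := RepAll.rel hS hs' h1 hL
      intro φ v F l hl
      have h3 := h0 φ v F l hl
      exact ⟨h3.1.trans h2.1, h2.2.trans h3.2⟩
  · intro x y z _ _ _ h1 h2 L hL
    exact h2 L (h1 L hL)

end Pool.Agent.FLO
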