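import Pool.Agent.FLO.DMut

/-!
# The mutation lemma

Two exceptional families indexed by the same set, with two linear orders, which are triangular with
respect to each other, are related by mutations and signs.
-/

set_option autoImplicit false

namespace Pool.Agent.FLO

variable {K : Type} [AddCommGroup K] {χ : K →+ K →+ ℤ}

theorem mut_of_triangular {ι : Type} (hm hp : ι → ℝ) (Lp : List ι) :
    ∀ (Lm : List ι) (a b : ι → K), Lm.Pairwise (fun i j => hm i < hm j) →
    Lp.Pairwise (fun i j => hp i < hp j) → Lm.Perm Lp → Exc χ (Lm.map a) → Exc χ (Lp.map b) →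
    (∀ j ∈ Lm, ∃ e : ℤ, (e = 1 ∨ e = -1) ∧ b j - e • a j ∈
      AddSubgroup.closure {x | ∃ i ∈ Lm, hm j < hm i ∧ hp i < hp j ∧ x = a i}) →
    Mut χ (Lm.map a) (Lp.map b) := by
  induction Lp with
  | nil =>
    intro Lm a b _ _ hperm _ _ _
    rw [List.perm_nil] at hperm
    subst hperm
    exact Mut.refl
  | cons m Lp ih =>
    intro Lm a b hsm hsp hperm hea heb htri
    have hmem : m ∈ Lm := hperm.mem_iff.2 (by simp)
    obtain ⟨p, q, rfl⟩ := List.append_of_mem hmem
    have hperm' : (p ++ q).Perm Lp := by
      have h1 := (List.perm_middle (l₁ := p) (l₂ := q) (a := m)).symm.trans hperm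
      exact (List.perm_cons m).1 h1
    rw [List.pairwise_cons] at hsp
    have hsm' := hsm
    rw [List.pairwise_append, List.pairwise_cons] at hsm
    obtain ⟨hsp1, ⟨hmq, hsq⟩, hpm⟩ := hsm
    classical
    let c : ι → ℤ := fun i => if i ∈ p then χ (a i) (a m) else 0
    let a' : ι → K := fun i => a i - c i • a m
    have hpq : ∀ i ∈ q, i ∉ p := fun i hi hip => by
      have h1 := hpm i hip i (List.mem_cons_of_mem _ hi)
      exact lt_irrefl _ h1
    have hmp : m ∉ p := fun h => by
      have h1 := hpm m h m (by simp)
      exact lt_irrefl _ h1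
    have hmapq : q.map a' = q.map a := by
      apply List.map_congr_left
      intro i hi
      simp [a', c, hpq i hi]
    have hmapp : p.map a' = (p.map a).map (fun x => x - χ x (a m) • a m) := by
      rw [List.map_map]
      apply List.map_congr_left
      intro i hi
      simp [a', c, hi]
    -- move `a m` to the front
    have hmove : Mut χ ((p ++ m :: q).map a) (a m :: (p ++ q).map a') := by
      have h1 := mut_move (χ := χ) (p.map a) (q.map a) (a m)
      rw [List.map_append, List.map_cons, List.map_append, hmapq, hmapp]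
      simpa using h1
    have hexc := hmove.exc hea
    rw [exc_cons] at hexc
    obtain ⟨hmm, hexc', hort⟩ := hexc
    have hort' : ∀ i ∈ p ++ q, χ (a' i) (a m) = 0 := fun i hi =>
      hort _ (List.mem_map_of_mem hi)
    -- the first element
    obtain ⟨e, he, hb⟩ := htri m hmem
    have hempty : {x | ∃ i ∈ p ++ m :: q, hm m < hm i ∧ hp i < hp m ∧ x = a i} = (∅ : Set K) := by
      refine Set.eq_empty_of_forall_notMem fun x hx => ?_
      obtain ⟨i, hi, h1, h2, _⟩ := hx
      have hi' : i ∈ m :: Lp := hperm.mem_iff.1 hi
      rcases List.mem_cons.1 hi' with rfl | hi''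
      · exact absurd h1 (lt_irrefl _)
      · exact absurd (hsp.1 i hi'') (not_lt.2 h2.le)
    rw [hempty, AddSubgroup.closure_empty, AddSubgroup.mem_bot, sub_eq_zero] at hb
    have hfirst : Mut χ (a m :: (p ++ q).map a') (b m :: (p ++ q).map a') := by
      rcases he with rfl | rfl
      · rw [hb, one_smul]; exact Mut.refl
      · rw [hb, neg_smul, one_smul]; exact Mut.neg_cons _ _
    rw [List.map_cons, exc_cons] at heb
    obtain ⟨_, hebp, hebm⟩ := heb
    refine (hmove.trans hfirst).trans ?_
    rw [List.map_cons]
    refine Mut.cons _ (ih (p ++ q) a' b ?_ hsp.2 hperm' hexc' hebp ?_)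
    · rw [List.pairwise_append]
      exact ⟨hsp1, hsq, fun x hx y hy => hpm x hx y (List.mem_cons_of_mem _ hy)⟩
    · intro j hj
      have hj' : j ∈ p ++ m :: q := by
        rw [List.mem_append] at hj ⊢
        rcases hj with hj | hj
        · exact Or.inl hj
        · exact Or.inr (List.mem_cons_of_mem _ hj)
      obtain ⟨e, he, hbj⟩ := htri j hj'
      refine ⟨e, he, ?_⟩
      set S' : Set K := {x | ∃ i ∈ p ++ q, hm j < hm i ∧ hp i < hp j ∧ x = a' i} with hS'
      have hle : AddSubgroup.closure {x | ∃ i ∈ p ++ m :: q, hm j < hm i ∧ hp i < hp j ∧ x = a i} ≤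
          AddSubgroup.closure S' ⊔ AddSubgroup.zmultiples (a m) := by
        rw [AddSubgroup.closure_le]
        rintro x ⟨i, hi, h1, h2, rfl⟩
        by_cases him : i = m
        · subst him
          exact AddSubgroup.mem_sup_right (AddSubgroup.mem_zmultiples _)
        · have hi' : i ∈ p ++ q := by
            rw [List.mem_append, List.mem_cons] at hi
            rw [List.mem_append]
            tauto
          have h3 : a i = a' i + c i • a m := by simp [a']
          rw [SetLike.mem_coe, h3]
          exact AddSubgroup.add_mem_sup (AddSubgroup.subset_closure ⟨i, hi', h1, h2, rfl⟩)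
            (AddSubgroup.zsmul_mem_zmultiples _ _)
      have h4 : b j - e • a' j ∈ AddSubgroup.closure S' ⊔ AddSubgroup.zmultiples (a m) := by
        have h5 : b j - e • a' j = (b j - e • a j) + (e * c j) • a m := by
          simp only [a', smul_sub, mul_smul]
          abel
        rw [h5]
        exact add_mem (hle hbj) (AddSubgroup.mem_sup_right (AddSubgroup.zsmul_mem_zmultiples _ _))
      rw [AddSubgroup.mem_sup] at h4
      obtain ⟨s, hs, y, hy, hsy⟩ := h4
      rw [AddSubgroup.mem_zmultiples_iff] at hy
      obtain ⟨k, rfl⟩ := hy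
      have hs0 : χ s (a m) = 0 := by
        refine AddSubgroup.closure_induction (p := fun x _ => χ x (a m) = 0) ?_ ?_ ?_ ?_ hs
        · rintro x ⟨i, hi, _, _, rfl⟩
          exact hort' i hi
        · simp
        · intro x y _ _ hx hy
          rw [map_add, AddMonoidHom.add_apply, hx, hy, add_zero]
        · intro x _ hx
          rw [map_neg, AddMonoidHom.neg_apply, hx, neg_zero]
      have hbm0 : χ (b j) (a m) = 0 := by
        have h6 : χ (b j) (b m) = 0 := hebm _ (List.mem_map_of_mem (hperm'.mem_iff.1 hj))
        obtain ⟨e₀, he₀, hb₀⟩ := htri m hmem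
        rw [hempty, AddSubgroup.closure_empty, AddSubgroup.mem_bot, sub_eq_zero] at hb₀
        rw [hb₀, map_zsmul] at h6
        rcases he₀ with rfl | rfl
        · simpa using h6
        · simpa using h6
      have hk : k = 0 := by
        have h7 := congrArg (fun x => χ x (a m)) hsy
        simp only [map_add, AddMonoidHom.add_apply, map_sub, AddMonoidHom.sub_apply, map_zsmul,
          AddMonoidHom.smul_apply, hs0, hbm0, hort' j hj, hmm] at h7
        simpa using h7
      rw [hk, zero_smul, add_zero] at hsy
      rw [← hsy]
      exact hs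

end Pool.Agent.FLO
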