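import Pool.Agent.FLO.DNes

/-!
# Transport on the torus of a nested spectrum
-/

set_option autoImplicit false

open scoped BigOperators Topology
open Filter

namespace Pool.Agent.FLO

variable {r N : ℕ} {K : Type} [AddCommGroup K] {S : Growth r N K} {δ : ℝ}
  {D : Nested S.spec N δ}

theorem continuous_pt (ρ : Fin r → ℝ) : Continuous (pt ρ) := by
  refine continuous_pi fun k => ?_
  simp only [pt]
  have h : Continuous fun θ : Fin r → ℝ => ph θ k := (continuous_apply k).comp continuous_ph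
  fun_prop

/-- transport of the part of the list with the labels in `C` along a segment -/
theorem seg_transport (hS : S.Full) (hδ : IsSmall r δ) {C : Set (Lab r)} {θ₀ θ₁ : Fin r → ℝ}
    {φ₀ φ₁ : ℝ}
    (hhit : ∀ s ∈ Set.Icc (0 : ℝ) 1, ∀ m ∈ C, ∀ m' ∉ C, NoHit ((1 - s) * φ₀ + s * φ₁)
      (uu D ((1 - s) • θ₀ + s • θ₁) m' - uu D ((1 - s) • θ₀ + s • θ₁) m))
    {v₀ v₁ : ℂ → K} {l₀ l₁ : List ℂ} (F₀ : Fr S (pt D.ρ θ₀) φ₀ v₀) (F₁ : Fr S (pt D.ρ θ₁) φ₁ v₁)
    (hl₀ : IsSorted φ₀ (uu D θ₀ '' C) l₀) (hl₁ : IsSorted φ₁ (uu D θ₁ '' C) l₁) :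
    Mut S.χ (l₀.map v₀) (l₁.map v₁) ∧ Mut S.χ (l₁.map v₁) (l₀.map v₀) := by
  have hθ : Continuous fun s : ℝ => (1 - s) • θ₀ + s • θ₁ := by fun_prop
  refine transport hS (ι := Lab r) (t := fun s => pt D.ρ ((1 - s) • θ₀ + s • θ₁))
    (φ := fun s => (1 - s) * φ₀ + s * φ₁) (u := fun s => uu D ((1 - s) • θ₀ + s • θ₁)) (C := C)
    ?_ ?_ ?_ (fun s _ => D.card _) (fun s _ => uu_inj hδ _) (fun s _ => mem_spec _) hhit
    ?_ ?_ ?_ ?_
  · exact ((continuous_pt D.ρ).comp hθ).continuousOn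
  · exact (by fun_prop : Continuous fun s : ℝ => (1 - s) * φ₀ + s * φ₁).continuousOn
  · refine (continuous_pi fun m => ?_).continuousOn
    simp only [uu]
    exact D.U_cont.comp (hθ.add continuous_const)
  · simpa using F₀
  · simpa using F₁
  · simpa using hl₀
  · simpa using hl₁

/-- the window of level `k` -/
def Win (k : ℕ) (θ : Fin r → ℝ) (φ : ℝ) : Prop :=
  ∀ i : Fin r, i.val < k → |θ i - (φ - Real.pi / 2)| ≤ Real.pi / 2

/-- in the window no point outside a cluster is hit -/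
theorem win_noHit (hδ : IsSmall r δ) {k : ℕ} {θ : Fin r → ℝ} {φ : ℝ} (hw : Win k θ φ)
    {m m' : Lab r} (hm : m ∈ CL r k) (hm' : m' ∉ CL r k) :
    NoHit φ (uu D θ m' - uu D θ m) := by
  have hne : m ≠ m' := fun e => hm' (e ▸ hm)
  obtain ⟨i, hi, hlt⟩ := exists_first hne
  have hik : i.val < k := by
    by_contra hge
    apply hm'
    intro l hl
    have hli : l < i := by
      change l.val < i.val
      omega
    rw [← hlt l hli]
    exact hm l hl
  have hM : 0 < ((i.val : ℝ) + 2) * D.R i := mul_pos (by positivity) (D.R_pos i)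
  refine noHit_of hM (uu_diff (D := D) (θ := θ) hi hlt) (core_window ?_ ?_)
  · rw [Pi.add_apply, lam_zero fun l hl => hm l (lt_of_le_of_lt hl hik), add_zero]
    exact hw i hik
  · have h1 := angle_diff (θ := θ) hi hlt
    have h2 := hδ.four i
    rw [show (θ + lam m') i - (φ - Real.pi / 2) - ((θ + lam m) i - (φ - Real.pi / 2)) =
      (θ + lam m') i - (θ + lam m) i by ring]
    linarith

theorem Win.convex {k : ℕ} {θ₀ θ₁ : Fin r → ℝ} {φ₀ φ₁ : ℝ} (h₀ : Win k θ₀ φ₀) (h₁ : Win k θ₁ φ₁)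
    {s : ℝ} (hs : s ∈ Set.Icc (0 : ℝ) 1) :
    Win k ((1 - s) • θ₀ + s • θ₁) ((1 - s) * φ₀ + s * φ₁) := by
  intro i hi
  have h2 := h₀ i hi
  have h3 := h₁ i hi
  rw [Pi.add_apply, Pi.smul_apply, Pi.smul_apply, smul_eq_mul, smul_eq_mul]
  have h4 : (1 - s) * θ₀ i + s * θ₁ i - ((1 - s) * φ₀ + s * φ₁ - Real.pi / 2) =
      (1 - s) * (θ₀ i - (φ₀ - Real.pi / 2)) + s * (θ₁ i - (φ₁ - Real.pi / 2)) := by ring
  rw [h4]
  calc |(1 - s) * (θ₀ i - (φ₀ - Real.pi / 2)) + s * (θ₁ i - (φ₁ - Real.pi / 2))|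
      ≤ |(1 - s) * (θ₀ i - (φ₀ - Real.pi / 2))| + |s * (θ₁ i - (φ₁ - Real.pi / 2))| :=
        abs_add_le _ _
    _ = (1 - s) * |θ₀ i - (φ₀ - Real.pi / 2)| + s * |θ₁ i - (φ₁ - Real.pi / 2)| := by
        rw [abs_mul, abs_mul, abs_of_nonneg (by linarith [hs.2] : 0 ≤ 1 - s), abs_of_nonneg hs.1]
    _ ≤ (1 - s) * (Real.pi / 2) + s * (Real.pi / 2) :=
        add_le_add (mul_le_mul_of_nonneg_left h2 (by linarith [hs.2]))
          (mul_le_mul_of_nonneg_left h3 hs.1)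
    _ = Real.pi / 2 := by ring

/-- the lists of the cluster of level `k` on the window are related by mutations -/
theorem win_transport (hS : S.Full) (hδ : IsSmall r δ) {k : ℕ} {θ₀ θ₁ : Fin r → ℝ} {φ₀ φ₁ : ℝ}
    (h₀ : Win k θ₀ φ₀) (h₁ : Win k θ₁ φ₁) {v₀ v₁ : ℂ → K} {l₀ l₁ : List ℂ}
    (F₀ : Fr S (pt D.ρ θ₀) φ₀ v₀) (F₁ : Fr S (pt D.ρ θ₁) φ₁ v₁)
    (hl₀ : IsSorted φ₀ (clu D k θ₀) l₀) (hl₁ : IsSorted φ₁ (clu D k θ₁) l₁) :
    Mut S.χ (l₀.map v₀) (l₁.map v₁) ∧ Mut S.χ (l₁.map v₁) (l₀.map v₀) := by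
  rw [clu_eq] at hl₀ hl₁
  exact seg_transport hS hδ (fun s hs m hm m' hm' => win_noHit hδ (h₀.convex h₁ hs) hm hm')
    F₀ F₁ hl₀ hl₁

/-- frames and translations -/
theorem Fr.tr {t : Fin r → ℂ} {φ : ℝ} {v : ℂ → K} (F : Fr S t φ v) (μ : Fin r → ℤ) :
    Fr S (FLO.tr t μ) φ (fun x => S.tw (-μ) (v x)) := by
  have hinv : ∀ x, S.tw μ (S.tw (-μ) x) = x := fun x => by
    rw [← S.tw_add, add_neg_cancel, S.tw_zero]
  have hinv' : ∀ x, S.tw (-μ) (S.tw μ x) = x := fun x => by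
    rw [← S.tw_add, neg_add_cancel, S.tw_zero]
  have hsum : ∀ c : ℂ → ℤ, ∑ u ∈ S.spec t, c u • S.tw (-μ) (v u) =
      S.tw (-μ) (∑ u ∈ S.spec t, c u • v u) := fun c => by
    rw [map_sum]
    exact Finset.sum_congr rfl fun u _ => by rw [map_zsmul]
  refine ⟨?_, ?_, ?_, ?_, ?_, ?_⟩
  · rw [S.spec_tr]; exact F.card
  · rw [S.spec_tr]; exact F.adm
  · intro x
    obtain ⟨c, hc⟩ := F.gen (S.tw μ x)
    refine ⟨c, ?_⟩
    rw [S.spec_tr, hsum, ← hc, hinv']
  · rw [S.spec_tr]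
    intro u hu
    rw [S.tw_χ]; exact F.diag u hu
  · rw [S.spec_tr]
    intro u hu u' hu' h
    rw [S.tw_χ]; exact F.lower u hu u' hu' h
  · intro ψ hψ h c
    rw [S.spec_tr, hsum, S.G_tr, hinv]
    exact F.growth ψ hψ h c

theorem pt_add_dir (ρ θ : Fin r → ℝ) (k : Fin r) (z : ℤ) :
    pt ρ (θ + (2 * Real.pi * z) • dir k) = tr (pt ρ θ) (Pi.single k z) := by
  ext l
  simp only [pt, tr]
  rw [ph_add_dir, Pi.add_apply]
  by_cases h : l = k
  · subst h
    rw [Pi.single_eq_same, Pi.single_eq_same]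
    push_cast
    ring
  · rw [Pi.single_eq_of_ne h, Pi.single_eq_of_ne h]
    push_cast
    ring

/-- the list of a cluster of level `k` in the window is related by mutations to its twists with
`L_k` -/
theorem twist_inv (hS : S.Full) (hδ : IsSmall r δ) (k : Fin r) {θ : Fin r → ℝ} {φ : ℝ}
    (hw : Win k.val θ φ) {v : ℂ → K} {l : List ℂ} (F : Fr S (pt D.ρ θ) φ v)
    (hl : IsSorted φ (clu D k.val θ) l) (n : ℕ) :
    Mut S.χ (l.map v) ((l.map v).map (S.tw (Pi.single k (n : ℤ)))) ∧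
      Mut S.χ ((l.map v).map (S.tw (Pi.single k (n : ℤ)))) (l.map v) := by
  have hinv : ∀ x, S.tw (Pi.single k 1) (S.tw (-Pi.single k 1) x) = x := fun x => by
    rw [← S.tw_add, add_neg_cancel, S.tw_zero]
  -- one step
  have h1 : Mut S.χ (l.map v) ((l.map v).map (S.tw (Pi.single k 1))) ∧
      Mut S.χ ((l.map v).map (S.tw (Pi.single k 1))) (l.map v) := by
    have F' := F.tr (Pi.single k 1)
    have hθ' : pt D.ρ (θ + (2 * Real.pi * (1 : ℤ)) • dir k) = tr (pt D.ρ θ) (Pi.single k 1) :=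
      pt_add_dir _ _ _ _
    rw [← hθ'] at F'
    have hclu : clu D k.val (θ + (2 * Real.pi * (1 : ℤ)) • dir k) = clu D k.val θ := by
      refine clu_congr (fun i => ?_) (fun i hi => ?_)
      · rw [ph_add_dir, Pi.add_apply, add_sub_cancel_left]
        by_cases hik : i = k
        · subst hik
          rw [Pi.single_eq_same]
          exact ⟨1, rfl⟩
        · rw [Pi.single_eq_of_ne hik]; exact IsPer.zero
      · rw [Pi.add_apply, add_sub_cancel_left, Pi.smul_apply, dir_lt hi, smul_zero]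
        exact IsPer.zero
    have hw' : Win k.val (θ + (2 * Real.pi * (1 : ℤ)) • dir k) φ := by
      intro i hi
      rw [Pi.add_apply, Pi.smul_apply, dir_lt hi, smul_zero, add_zero]
      exact hw i hi
    have h2 := win_transport hS hδ hw hw' F F' hl (by rw [hclu]; exact hl)
    have h3 := h2.1.map (S.tw (Pi.single k 1)) (S.tw_χ _)
    have h4 := h2.2.map (S.tw (Pi.single k 1)) (S.tw_χ _)
    have h5 : (l.map fun x => S.tw (-Pi.single k 1) (v x)).map (S.tw (Pi.single k 1)) = l.map v := by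
      rw [List.map_map]
      exact List.map_congr_left fun x _ => hinv (v x)
    rw [h5] at h3 h4
    exact ⟨h4, h3⟩
  induction n with
  | zero =>
    have h6 : (l.map v).map (S.tw (Pi.single k ((0 : ℕ) : ℤ))) = l.map v := by
      rw [Nat.cast_zero, Pi.single_zero]
      conv_rhs => rw [← List.map_id (l.map v)]
      exact List.map_congr_left fun x _ => S.tw_zero x
    rw [h6]
    exact ⟨Mut.refl, Mut.refl⟩
  | succ n ih =>
    have h7 : (l.map v).map (S.tw (Pi.single k ((n + 1 : ℕ) : ℤ))) =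
        ((l.map v).map (S.tw (Pi.single k (n : ℤ)))).map (S.tw (Pi.single k 1)) := by
      have h10 : ∀ L : List K, L.map (S.tw (Pi.single k ((n + 1 : ℕ) : ℤ))) =
          (L.map (S.tw (Pi.single k (n : ℤ)))).map (S.tw (Pi.single k 1)) := by
        intro L
        rw [List.map_map]
        refine List.map_congr_left fun x _ => ?_
        rw [Function.comp_apply, ← S.tw_add, ← Pi.single_add, add_comm (1 : ℤ)]
        push_cast
        rfl
      exact h10 _
    rw [h7]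
    have h8 := ih.1.map (S.tw (Pi.single k 1)) (S.tw_χ _)
    have h9 := ih.2.map (S.tw (Pi.single k 1)) (S.tw_χ _)
    exact ⟨h1.1.trans h8, h9.trans h1.2⟩

end Pool.Agent.FLO
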