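import Pool.Agent.FLO.GGro

/-!
# FLO-GGrow: growth of combinations of solutions with exponential asymptotics
-/

set_option autoImplicit false

open scoped BigOperators Topology
open Filter

namespace Pool.Agent.FLO

private theorem gg_exp {ε : ℝ} (hε : 0 < ε) (M : ℝ) :
    ∀ᶠ s : ℝ in atBot, M ≤ Real.exp (ε * Real.exp (-s)) := by
  have h1 : Tendsto (fun s : ℝ => Real.exp (ε * Real.exp (-s))) atBot atTop :=
    Real.tendsto_exp_atTop.comp
      ((Real.tendsto_exp_atTop.comp tendsto_neg_atBot_atTop).const_mul_atTop hε)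
  exact h1.eventually_ge_atTop M

private theorem gg_smul {κ : Type} {Y : ℝ → κ → ℂ} {h : ℝ} (b : ℂ) (hY : Gro Y h) :
    Gro (fun s => b • Y s) h := by
  intro ε hε
  filter_upwards [hY (ε / 2) (by linarith), gg_exp (by linarith : 0 < ε / 2) ‖b‖] with s h1 h2 u
  have h3 : (b • Y s) u = b * Y s u := rfl
  show ‖(b • Y s) u‖ ≤ _
  rw [h3, norm_mul]
  calc ‖b‖ * ‖Y s u‖ ≤ Real.exp (ε / 2 * Real.exp (-s)) *
        Real.exp ((h + ε / 2) * Real.exp (-s)) :=
        mul_le_mul h2 (h1 u) (norm_nonneg _) (Real.exp_pos _).le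
    _ = Real.exp ((h + ε) * Real.exp (-s)) := by
        rw [← Real.exp_add]
        congr 1
        ring

private theorem gg_norm (ψ : ℝ) (u : ℂ) (s : ℝ) :
    ‖Complex.exp (u * Complex.exp (-(s + ψ * Complex.I)))‖ =
      Real.exp (ht ψ u * Real.exp (-s)) := by
  rw [Complex.norm_exp]
  congr 1
  have h1 : Complex.exp (-((s : ℂ) + ψ * Complex.I)) =
      ((Real.exp (-s) : ℝ) : ℂ) * Complex.exp (-ψ * Complex.I) := by
    rw [Complex.ofReal_exp, ← Complex.exp_add]
    congr 1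
    push_cast
    ring
  rw [h1]
  have h2 : u * (((Real.exp (-s) : ℝ) : ℂ) * Complex.exp (-ψ * Complex.I)) =
      ((Real.exp (-s) : ℝ) : ℂ) * (u * Complex.exp (-ψ * Complex.I)) := by ring
  rw [h2, Complex.re_ofReal_mul]
  unfold ht
  ring

private theorem gg_fac {κ : Type} {N : ℕ} (Y : ℝ → Matrix κ (Fin N) ℂ) (u : Fin N → ℂ)
    (ψ : ℝ) (s : ℝ) (c : Fin N → ℂ) (i : κ) :
    (Y s).mulVec c i = ∑ j, (Y s * Matrix.diagonal fun j =>
      Complex.exp (-u j * Complex.exp (-(s + ψ * Complex.I)))) i j *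
        (Complex.exp (u j * Complex.exp (-(s + ψ * Complex.I))) * c j) := by
  unfold Matrix.mulVec dotProduct
  refine Finset.sum_congr rfl fun j _ => ?_
  rw [Matrix.mul_diagonal]
  have h1 : Complex.exp (-u j * Complex.exp (-((s : ℂ) + ψ * Complex.I))) *
      Complex.exp (u j * Complex.exp (-((s : ℂ) + ψ * Complex.I))) = 1 := by
    rw [← Complex.exp_add]
    have h2 : -u j * Complex.exp (-((s : ℂ) + ψ * Complex.I)) +
        u j * Complex.exp (-((s : ℂ) + ψ * Complex.I)) = 0 := by ring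
    rw [h2, Complex.exp_zero]
  calc Y s i j * c j = Y s i j * 1 * c j := by rw [mul_one]
    _ = _ := by
      rw [← h1]
      ring

theorem gro_mono {κ : Type} {Y : ℝ → κ → ℂ} {h h' : ℝ} (hY : Gro Y h) (hh : h ≤ h') :
    Gro Y h' := by
  intro ε hε
  filter_upwards [hY ε hε] with s hs u
  exact (hs u).trans (Real.exp_le_exp.2 (mul_le_mul_of_nonneg_right (by linarith)
    (Real.exp_pos _).le))

theorem gro_mulVec {κ : Type} [Fintype κ] {Y : ℝ → κ → ℂ} {T : ℝ → Matrix κ κ ℂ} {C h : ℝ}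
    (hT : ∀ᶠ s : ℝ in atBot, ∀ i j, ‖T s i j‖ ≤ Real.exp (C * Real.exp (-s))) (hY : Gro Y h) :
    Gro (fun s => (T s).mulVec (Y s)) (h + C) := by
  intro ε hε
  filter_upwards [hT, hY (ε / 2) (by linarith), gg_exp (by linarith : 0 < ε / 2)
    (Fintype.card κ : ℝ)] with s h1 h2 h3 i
  have h4 : ‖(T s).mulVec (Y s) i‖ ≤ ∑ j : κ, Real.exp (C * Real.exp (-s)) *
      Real.exp ((h + ε / 2) * Real.exp (-s)) := by
    unfold Matrix.mulVec dotProduct
    refine (norm_sum_le _ _).trans (Finset.sum_le_sum fun j _ => ?_)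
    rw [norm_mul]
    exact mul_le_mul (h1 i j) (h2 j) (norm_nonneg _) (Real.exp_pos _).le
  refine h4.trans ?_
  rw [Finset.sum_const, Finset.card_univ, nsmul_eq_mul]
  calc (Fintype.card κ : ℝ) * (Real.exp (C * Real.exp (-s)) *
        Real.exp ((h + ε / 2) * Real.exp (-s)))
      ≤ Real.exp (ε / 2 * Real.exp (-s)) * (Real.exp (C * Real.exp (-s)) *
        Real.exp ((h + ε / 2) * Real.exp (-s))) :=
        mul_le_mul_of_nonneg_right h3 (mul_pos (Real.exp_pos _) (Real.exp_pos _)).le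
    _ = Real.exp ((h + C + ε) * Real.exp (-s)) := by
        rw [← Real.exp_add, ← Real.exp_add]
        congr 1
        ring

/-- multiplication by a nonzero constant does not change the growth -/
theorem gro_smul {κ : Type} {Y : ℝ → κ → ℂ} {h : ℝ} {a : ℂ} (ha : a ≠ 0) :
    Gro (fun s => a • Y s) h ↔ Gro Y h := by
  constructor
  · intro h1
    have h2 := gg_smul a⁻¹ h1
    have h3 : (fun s => a⁻¹ • a • Y s) = Y := by
      funext s
      rw [smul_smul, inv_mul_cancel₀ ha, one_smul]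
    rw [h3] at h2
    exact h2
  · exact gg_smul a

/-- The growth of a combination of the columns of a solution with exponential asymptotics. -/
theorem gro_iff {κ : Type} [Fintype κ] {N : ℕ} {Y : ℝ → Matrix κ (Fin N) ℂ} (u : Fin N → ℂ)
    (ψ : ℝ) {Ψ : Matrix κ (Fin N) ℂ} {L : Matrix (Fin N) κ ℂ} (hL : L * Ψ = 1)
    (hY : Tendsto (fun s : ℝ => Y s * Matrix.diagonal fun j =>
      Complex.exp (-u j * Complex.exp (-(s + ψ * Complex.I)))) atBot (𝓝 Ψ))
    (c : Fin N → ℂ) (h : ℝ) :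
    Gro (fun s => (Y s).mulVec c) h ↔ ∀ j, c j ≠ 0 → ht ψ (u j) ≤ h := by
  obtain ⟨Φ, hΦ⟩ : ∃ Φ : ℝ → Matrix κ (Fin N) ℂ, Φ = fun s : ℝ => Y s *
      Matrix.diagonal fun j => Complex.exp (-u j * Complex.exp (-(s + ψ * Complex.I))) := ⟨_, rfl⟩
  rw [← hΦ] at hY
  obtain ⟨w, hw⟩ : ∃ w : ℝ → Fin N → ℂ, w = fun (s : ℝ) j =>
      Complex.exp (u j * Complex.exp (-(s + ψ * Complex.I))) * c j := ⟨_, rfl⟩
  have hfac : ∀ s i, (Y s).mulVec c i = ∑ j, Φ s i j * w s j := by
    intro s i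
    rw [gg_fac Y u ψ s c i, hΦ, hw]
  have hwn : ∀ s j, ‖w s j‖ = Real.exp (ht ψ (u j) * Real.exp (-s)) * ‖c j‖ := by
    intro s j
    rw [hw]
    show ‖Complex.exp (u j * Complex.exp (-(s + ψ * Complex.I))) * c j‖ = _
    rw [norm_mul, gg_norm]
  have hent : ∀ i j, Tendsto (fun s => Φ s i j) atBot (𝓝 (Ψ i j)) := fun i j =>
    tendsto_pi_nhds.1 (tendsto_pi_nhds.1 hY i) j
  constructor
  · intro hG j hcj
    by_contra hlt
    have hlt' : h < ht ψ (u j) := not_le.mp hlt
    obtain ⟨ε, hεd⟩ : ∃ ε : ℝ, ε = (ht ψ (u j) - h) / 2 := ⟨_, rfl⟩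
    have hε : 0 < ε := by
      rw [hεd]
      linarith
    obtain ⟨M, hM⟩ : ∃ M : ℝ, M = 2 * ∑ a : Fin N, ∑ i : κ, ‖L a i‖ := ⟨_, rfl⟩
    have hcp : 0 < ‖c j‖ := norm_pos_iff.mpr hcj
    have hP : Tendsto (fun s => L * Φ s) atBot (𝓝 (L * Ψ)) :=
      ((continuous_const.matrix_mul continuous_id).tendsto Ψ).comp hY
    have hδ : Tendsto (fun s => ∑ a : Fin N, ∑ b : Fin N, ‖(L * Φ s) a b - (1 : Matrix _ _ ℂ) a b‖)
        atBot (𝓝 0) := by
      have h1 : Tendsto (fun s => ∑ a : Fin N, ∑ b : Fin N,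
          ‖(L * Φ s) a b - (1 : Matrix _ _ ℂ) a b‖) atBot
          (𝓝 (∑ a : Fin N, ∑ b : Fin N, ‖(L * Ψ) a b - (1 : Matrix _ _ ℂ) a b‖)) := by
        refine tendsto_finsetSum _ fun a _ => tendsto_finsetSum _ fun b _ => ?_
        exact ((tendsto_pi_nhds.1 (tendsto_pi_nhds.1 hP a) b).sub_const _).norm
      rw [hL] at h1
      simpa using h1
    have hev := (hδ.eventually (gt_mem_nhds (by norm_num : (0 : ℝ) < 1 / 2))).and
      ((hG ε hε).and (gg_exp hε (M / ‖c j‖ + 1)))
    obtain ⟨s, h1, h2, h3⟩ := hev.exists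
    have h4 : ∀ a, ‖w s a‖ ≤ ∑ i : κ, ‖L a i‖ * Real.exp ((h + ε) * Real.exp (-s)) +
        ∑ b : Fin N, ‖(L * Φ s) a b - (1 : Matrix _ _ ℂ) a b‖ * ‖w s b‖ := by
      intro a
      have h5 : w s a = ∑ i : κ, L a i * (Y s).mulVec c i -
          ∑ b : Fin N, ((L * Φ s) a b - (1 : Matrix _ _ ℂ) a b) * w s b := by
        have h6 : ∑ i : κ, L a i * (Y s).mulVec c i = ∑ b : Fin N, (L * Φ s) a b * w s b := by
          calc ∑ i : κ, L a i * (Y s).mulVec c i = ∑ i : κ, ∑ b, L a i * (Φ s i b * w s b) := by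
                refine Finset.sum_congr rfl fun i _ => ?_
                rw [hfac, Finset.mul_sum]
            _ = ∑ b, ∑ i : κ, L a i * (Φ s i b * w s b) := Finset.sum_comm
            _ = ∑ b : Fin N, (L * Φ s) a b * w s b := by
                refine Finset.sum_congr rfl fun b _ => ?_
                rw [Matrix.mul_apply, Finset.sum_mul]
                refine Finset.sum_congr rfl fun i _ => ?_
                ring
        have h7 : ∑ b : Fin N, (1 : Matrix (Fin N) (Fin N) ℂ) a b * w s b = w s a := by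
          have h8 := congrFun (Matrix.one_mulVec (w s)) a
          rw [← h8]
          rfl
        have h9 : ∑ b : Fin N, ((L * Φ s) a b - (1 : Matrix _ _ ℂ) a b) * w s b =
            ∑ b : Fin N, (L * Φ s) a b * w s b - w s a := by
          calc ∑ b : Fin N, ((L * Φ s) a b - (1 : Matrix _ _ ℂ) a b) * w s b
              = ∑ b : Fin N, ((L * Φ s) a b * w s b - (1 : Matrix _ _ ℂ) a b * w s b) :=
                Finset.sum_congr rfl fun b _ => by ring
            _ = _ := by rw [Finset.sum_sub_distrib, h7]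
        rw [h6, h9]
        ring
      rw [h5]
      refine (norm_sub_le _ _).trans (add_le_add ?_ ?_)
      · refine (norm_sum_le _ _).trans (Finset.sum_le_sum fun i _ => ?_)
        rw [norm_mul]
        exact mul_le_mul_of_nonneg_left (h2 i) (norm_nonneg _)
      · refine (norm_sum_le _ _).trans (Finset.sum_le_sum fun b _ => ?_)
        rw [norm_mul]
    obtain ⟨S, hS⟩ : ∃ S : ℝ, S = ∑ a, ‖w s a‖ := ⟨_, rfl⟩
    have hle : ∀ b, ‖w s b‖ ≤ S := fun b => by
      rw [hS]
      exact Finset.single_le_sum (f := fun a => ‖w s a‖) (fun a _ => norm_nonneg _)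
        (Finset.mem_univ b)
    have hS0 : 0 ≤ S := (norm_nonneg _).trans (hle j)
    have h10 : S ≤ M / 2 * Real.exp ((h + ε) * Real.exp (-s)) + 1 / 2 * S := by
      have h11 : S ≤ ∑ a : Fin N, (∑ i : κ, ‖L a i‖ * Real.exp ((h + ε) * Real.exp (-s)) +
          ∑ b : Fin N, ‖(L * Φ s) a b - (1 : Matrix _ _ ℂ) a b‖ * S) := by
        conv_lhs => rw [hS]
        refine Finset.sum_le_sum fun a _ => (h4 a).trans (add_le_add le_rfl
          (Finset.sum_le_sum fun b _ => mul_le_mul_of_nonneg_left (hle b) (norm_nonneg _)))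
      refine h11.trans ?_
      rw [Finset.sum_add_distrib]
      refine add_le_add ?_ ?_
      · rw [hM]
        apply le_of_eq
        rw [mul_div_cancel_left₀ _ (two_ne_zero), Finset.sum_mul]
        refine Finset.sum_congr rfl fun a _ => ?_
        rw [Finset.sum_mul]
      · have h12 : ∑ a : Fin N, ∑ b : Fin N, ‖(L * Φ s) a b - (1 : Matrix _ _ ℂ) a b‖ * S =
            (∑ a : Fin N, ∑ b : Fin N, ‖(L * Φ s) a b - (1 : Matrix _ _ ℂ) a b‖) * S := by
          rw [Finset.sum_mul]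
          refine Finset.sum_congr rfl fun a _ => ?_
          rw [Finset.sum_mul]
        rw [h12]
        exact mul_le_mul_of_nonneg_right h1.le hS0
    have h13 : S ≤ M * Real.exp ((h + ε) * Real.exp (-s)) := by linarith
    have h14 := (hle j).trans h13
    rw [hwn] at h14
    have h15 : Real.exp (ht ψ (u j) * Real.exp (-s)) =
        Real.exp (ε * Real.exp (-s)) * Real.exp ((h + ε) * Real.exp (-s)) := by
      rw [← Real.exp_add]
      congr 1
      rw [hεd]
      ring
    rw [h15] at h14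
    have h16 : Real.exp (ε * Real.exp (-s)) * ‖c j‖ ≤ M := by
      have h17 : Real.exp ((h + ε) * Real.exp (-s)) * (Real.exp (ε * Real.exp (-s)) * ‖c j‖) ≤
          Real.exp ((h + ε) * Real.exp (-s)) * M := by linarith
      exact le_of_mul_le_mul_left h17 (Real.exp_pos _)
    have h18 : (M / ‖c j‖ + 1) * ‖c j‖ ≤ M :=
      (mul_le_mul_of_nonneg_right h3 hcp.le).trans h16
    rw [add_mul, div_mul_cancel₀ _ hcp.ne'] at h18
    linarith
  · intro hc ε hε
    obtain ⟨M, hM⟩ : ∃ M : ℝ, M = ∑ i : κ, ∑ j : Fin N, (‖Ψ i j‖ + 1) * ‖c j‖ := ⟨_, rfl⟩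
    have hb : ∀ᶠ s in atBot, ∀ i j, ‖Φ s i j‖ ≤ ‖Ψ i j‖ + 1 := by
      rw [Filter.eventually_all]
      intro i
      rw [Filter.eventually_all]
      intro j
      filter_upwards [(hent i j).norm.eventually (gt_mem_nhds (lt_add_one ‖Ψ i j‖))] with s hs
      exact hs.le
    filter_upwards [hb, gg_exp hε M] with s h1 h2 i
    rw [hfac]
    refine (norm_sum_le _ _).trans ?_
    have h3 : ∀ j, ‖Φ s i j * w s j‖ ≤ (‖Ψ i j‖ + 1) * ‖c j‖ * Real.exp (h * Real.exp (-s)) := by
      intro j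
      rw [norm_mul, hwn]
      rcases eq_or_ne (c j) 0 with h0 | h0
      · rw [h0, norm_zero, mul_zero, mul_zero, mul_zero, zero_mul]
      · have h4 : Real.exp (ht ψ (u j) * Real.exp (-s)) ≤ Real.exp (h * Real.exp (-s)) :=
          Real.exp_le_exp.2 (mul_le_mul_of_nonneg_right (hc j h0) (Real.exp_pos _).le)
        calc ‖Φ s i j‖ * (Real.exp (ht ψ (u j) * Real.exp (-s)) * ‖c j‖)
            ≤ (‖Ψ i j‖ + 1) * (Real.exp (h * Real.exp (-s)) * ‖c j‖) :=
              mul_le_mul (h1 i j) (mul_le_mul_of_nonneg_right h4 (norm_nonneg _))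
                (mul_nonneg (Real.exp_pos _).le (norm_nonneg _))
                (add_nonneg (norm_nonneg _) zero_le_one)
          _ = _ := by ring
    calc ∑ j, ‖Φ s i j * w s j‖ ≤ ∑ j, (‖Ψ i j‖ + 1) * ‖c j‖ * Real.exp (h * Real.exp (-s)) :=
          Finset.sum_le_sum fun j _ => h3 j
      _ = (∑ j, (‖Ψ i j‖ + 1) * ‖c j‖) * Real.exp (h * Real.exp (-s)) := by
          rw [Finset.sum_mul]
      _ ≤ M * Real.exp (h * Real.exp (-s)) := by
          refine mul_le_mul_of_nonneg_right ?_ (Real.exp_pos _).le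
          rw [hM]
          exact Finset.single_le_sum (f := fun i => ∑ j : Fin N, (‖Ψ i j‖ + 1) * ‖c j‖)
            (fun i _ => Finset.sum_nonneg fun j _ => mul_nonneg
              (add_nonneg (norm_nonneg _) zero_le_one) (norm_nonneg _)) (Finset.mem_univ i)
      _ ≤ Real.exp (ε * Real.exp (-s)) * Real.exp (h * Real.exp (-s)) :=
          mul_le_mul_of_nonneg_right h2 (Real.exp_pos _).le
      _ = Real.exp ((h + ε) * Real.exp (-s)) := by
          rw [← Real.exp_add]
          congr 1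
          ring

end Pool.Agent.FLO
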