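import Pool.Agent.FLO.GInst
import Pool.Agent.FLO.GGrow

/-!
# FLO-GFull: the growth system of `G/B` has enough asymptotic bases
-/

set_option autoImplicit false
set_option linter.unusedSectionVars false

open scoped BigOperators Topology
open Filter

namespace Pool.Agent.FLO

open Pool.Agent.FLG Pool.Agent.FLG.Flag

/-- the roots of the characteristic polynomial of a matrix which is diagonal in a basis -/
theorem root_iff_of_diag {κ : Type} [Fintype κ] [DecidableEq κ] {N : ℕ}
    (hN : Fintype.card κ = N) {A : Matrix κ κ ℂ} {Ψ : Matrix κ (Fin N) ℂ} {u : Fin N → ℂ}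
    (h1 : A * Ψ = Ψ * Matrix.diagonal u) {L : Matrix (Fin N) κ ℂ} (h2 : L * Ψ = 1) (x : ℂ) :
    x ∈ A.charpoly.roots.toFinset ↔ ∃ j, u j = x := by
  have h3 : Ψ * L = 1 := by
    let f : κ ≃ Fin N := Fintype.equivOfCardEq (by rw [hN, Fintype.card_fin])
    have h4 : (L.submatrix id f.symm) * (Ψ.submatrix f.symm id) = 1 := by
      rw [Matrix.submatrix_mul_equiv, h2]
      exact Matrix.submatrix_one_equiv (Equiv.refl _)
    have h5 := mul_eq_one_comm.1 h4
    have h6 : (Ψ * L).submatrix f.symm f.symm = 1 := by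
      rw [Matrix.submatrix_mul Ψ L f.symm id f.symm Function.bijective_id]
      exact h5
    have h7 := congrArg (fun M => M.submatrix f f) h6
    simpa using h7
  rw [Multiset.mem_toFinset, Polynomial.mem_roots A.charpoly_monic.ne_zero, Polynomial.IsRoot.def,
    Matrix.eval_charpoly, ← Matrix.exists_mulVec_eq_zero_iff]
  constructor
  · rintro ⟨v, hv, hv0⟩
    have h8 : A.mulVec v = x • v := by
      rw [Matrix.sub_mulVec, sub_eq_zero, Matrix.scalar_apply] at hv0
      rw [← hv0]
      ext i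
      simp [Matrix.mulVec_diagonal]
    let c := L.mulVec v
    have h9 : v = Ψ.mulVec c := by
      rw [Matrix.mulVec_mulVec, h3, Matrix.one_mulVec]
    have hc : c ≠ 0 := by
      intro h
      apply hv
      rw [h9, h, Matrix.mulVec_zero]
    obtain ⟨j, hj⟩ := Function.ne_iff.1 hc
    refine ⟨j, ?_⟩
    have h10 : L.mulVec (A.mulVec v) = (Matrix.diagonal u).mulVec c := by
      rw [h9, Matrix.mulVec_mulVec c A Ψ, h1, ← Matrix.mulVec_mulVec, Matrix.mulVec_mulVec _ L Ψ, h2,
        Matrix.one_mulVec]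
    rw [h8, Matrix.mulVec_smul] at h10
    have h11 := congrFun h10 j
    rw [Matrix.mulVec_diagonal, Pi.smul_apply, smul_eq_mul] at h11
    exact (mul_right_cancel₀ hj h11).symm
  · rintro ⟨j, rfl⟩
    refine ⟨fun i => Ψ i j, ?_, ?_⟩
    · intro h
      have h4 : (L * Ψ) j j = 0 := by
        rw [Matrix.mul_apply]
        exact Finset.sum_eq_zero fun i _ => by rw [show Ψ i j = 0 from congrFun h i, mul_zero]
      rw [h2, Matrix.one_apply_eq] at h4
      exact one_ne_zero h4
    · ext i
      have h4 : (A * Ψ) i j = (Ψ * Matrix.diagonal u) i j := by rw [h1]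
      rw [Matrix.mul_diagonal, Matrix.mul_apply] at h4
      rw [Matrix.sub_mulVec, Matrix.scalar_apply, Pi.sub_apply, Matrix.mulVec_diagonal]
      show u j * Ψ i j - ∑ k, A i k * Ψ k j = 0
      rw [h4]
      ring

variable {ι V V' : Type} [Fintype ι] [AddCommGroup V] [Module ℂ V] [AddCommGroup V'] [Module ℂ V']
  {P : RootPairing ι ℂ V V'} [P.IsCrystallographic] (b : P.Base) [P.IsRootSystem] [P.IsReduced]
  [Fintype P.weylGroup] [DecidableEq P.weylGroup]
  {r : ℕ} {e : Fin r ≃ b.support} {ω : Fin r → V} (hω : IsFund b e ω)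

/-- the asymptotic basis of monodromy data -/
theorem asym_of_data (τ : Fin r → ℂ)
    (M : MonodromyData (small b (tp ω τ)) (Fintype.card P.weylGroup))
    {v : Fin (Fintype.card P.weylGroup) → KClass P} (hv : IsExceptionalBasis b v) {a : ℂ}
    (ha : a ≠ 0) (hX : ∀ w, M.Xminus w = a • (Zs b (tp ω τ) w * gammaOp b (tp ω τ) *
      (small b (tp ω τ)).twist * chernMatrix b v)) :
    IsAsym (flg b hω) τ M.φ M.u fun j => toK b (v j) where
  mem x := by
    have h := root_iff_of_diag rfl M.eigen (L := M.Ψ.transpose * (small b (tp ω τ)).pair)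
      M.normalised x
    exact h
  mono := M.ordered
  gen x := by
    obtain ⟨x, rfl⟩ := toK_surj b x
    obtain ⟨c, hc⟩ := hv.generate x
    refine ⟨c, Subtype.ext ?_⟩
    show chern b x = _
    rw [hc, AddSubgroup.val_finsetSum]
    rfl
  diag i := by
    have h : ((chiK b (toK b (v i)) (toK b (v i)) : ℤ) : ℂ) = 1 := by
      rw [chiK_toK, hv.diag]
    exact_mod_cast h
  lower i j hij := by
    have h : ((chiK b (toK b (v i)) (toK b (v j)) : ℤ) : ℂ) = 0 := by
      rw [chiK_toK, hv.lower i j hij]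
    exact_mod_cast h
  growth ψ hψ h c := by
    have h1 := gro_iff (Y := fun s : ℝ => M.Xminus (s + ψ * Complex.I)) M.u ψ
      (L := M.Ψ.transpose * (small b (tp ω τ)).pair) M.normalised
      (M.minus_asymptotics ψ ⟨by linarith [hψ.1, M.ε_pos], by linarith [hψ.2, M.ε_pos]⟩)
      (fun j => (c j : ℂ)) h
    have h2 : ∀ j, (c j : ℂ) ≠ 0 ↔ c j ≠ 0 := fun j => Int.cast_ne_zero
    simp only [h2] at h1
    rw [← h1]
    show ((∑ j, c j • toK b (v j) : Kc b) : P.weylGroup → ℂ) ∈ GF b (tp ω τ) ψ h ↔ _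
    rw [mem_GF, ← gro_smul ha]
    have h3 : (fun s : ℝ => (M.Xminus (s + ψ * Complex.I)).mulVec fun j => (c j : ℂ)) =
        fun s : ℝ => a • Fx b (tp ω τ) ((∑ j, c j • toK b (v j) : Kc b) : P.weylGroup → ℂ)
          (s + ψ * Complex.I) := by
      funext s
      rw [hX, Matrix.smul_mulVec]
      congr 1
      unfold Fx
      rw [← Matrix.mulVec_mulVec]
      congr 1
      funext u
      rw [AddSubgroup.val_finsetSum, Finset.sum_apply]
      show ∑ j, chernMatrix b v u j * (c j : ℂ) = _
      refine Finset.sum_congr rfl fun j _ => ?_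
      show chern b (v j) u * (c j : ℂ) = (c j • chern b (v j)) u
      rw [Pi.smul_apply, zsmul_eq_mul, mul_comm]
    rw [h3]

theorem const_ne (d : ℕ) : (Complex.I / (Real.sqrt (2 * Real.pi) : ℂ)) ^ d ≠ 0 := by
  refine pow_ne_zero _ (div_ne_zero Complex.I_ne_zero ?_)
  exact_mod_cast (Real.sqrt_pos.2 (by positivity)).ne'

theorem flg_full : (flg b hω).Full := by
  intro τ hcard φ hφ
  have hsep : (mul b (tp ω τ) (c₁ b)).charpoly.Separable := (card_roots_iff _).1 hcard
  have hadm : IsAdmissible (small b (tp ω τ)) φ := by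
    intro x y hx hy hne h0
    have hne0 : (mul b (tp ω τ) (c₁ b)).charpoly ≠ 0 := (Matrix.charpoly_monic _).ne_zero
    refine hφ x ?_ y ?_ hne ?_
    · exact Multiset.mem_toFinset.2 ((Polynomial.mem_roots hne0).2 hx)
    · exact Multiset.mem_toFinset.2 ((Polynomial.mem_roots hne0).2 hy)
    · unfold ht
      rw [sub_mul, Complex.sub_re, sub_eq_zero] at h0
      exact h0
  obtain ⟨M, rfl⟩ := exists_data_small' b (tp ω τ) hsep hadm
  obtain ⟨v, hv, -, -, hX⟩ := final_flag b (tp ω τ) (Zs_std b (tp ω τ)) M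
  exact ⟨M.u, _, asym_of_data b hω τ M hv (const_ne _) hX⟩

end Pool.Agent.FLO
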