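import Pool.Agent.FLO.GNestB

/-!
# FLO-GNest: from the eigenvalue branch to the nested spectrum

The values at the `(r+1)!` labels are pairwise distinct eigenvalues.
-/

set_option autoImplicit false

open scoped BigOperators Nat

namespace Pool.Agent.FLO

theorem nested_of_out {r : ℕ} (h : ∀ δ : ℝ, 0 < δ → NOut r δ) {δ : ℝ} (hδ : 0 < δ) :
    Nonempty (Nested (spE r) ((r + 1)!) δ) := by
  classical
  obtain ⟨c, hc, hfar⟩ := exp_far r
  have hr4 : (0 : ℝ) < 4 * ((r : ℝ) + 4) := by positivity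
  obtain ⟨δ', h0, h12, hd1, hd2⟩ : ∃ δ' : ℝ, 0 < δ' ∧ δ' ≤ 1 / 2 ∧
      4 * ((r : ℝ) + 4) * δ' ≤ δ ∧ 4 * ((r : ℝ) + 4) * δ' < 2 * c := by
    refine ⟨min (1 / 2) (min (δ / (4 * ((r : ℝ) + 4))) (c / (4 * ((r : ℝ) + 4)))), ?_, ?_, ?_, ?_⟩
    · exact lt_min (by norm_num) (lt_min (div_pos hδ hr4) (div_pos hc hr4))
    · exact min_le_left _ _
    · have h1 : min (1 / 2) (min (δ / (4 * ((r : ℝ) + 4))) (c / (4 * ((r : ℝ) + 4)))) ≤
          δ / (4 * ((r : ℝ) + 4)) := (min_le_right _ _).trans (min_le_left _ _)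
      calc _ ≤ 4 * ((r : ℝ) + 4) * (δ / (4 * ((r : ℝ) + 4))) :=
            mul_le_mul_of_nonneg_left h1 hr4.le
        _ = δ := by field_simp
    · have h1 : min (1 / 2) (min (δ / (4 * ((r : ℝ) + 4))) (c / (4 * ((r : ℝ) + 4)))) ≤
          c / (4 * ((r : ℝ) + 4)) := (min_le_right _ _).trans (min_le_right _ _)
      calc _ ≤ 4 * ((r : ℝ) + 4) * (c / (4 * ((r : ℝ) + 4))) :=
            mul_le_mul_of_nonneg_left h1 hr4.le
        _ = c := by field_simp
        _ < 2 * c := by linarith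
  obtain ⟨ρ, s, hρ, hs, hdec, g, gc, gp, ga, ge⟩ := h δ' h0
  let L : Fin r → ℝ := fun k => Real.log (s k)
  -- the labels
  have hlab : ∀ θ : Fin r → ℝ, ∀ m : (k : Fin r) → Fin (k.val + 2), ∃ θ' : Fin r → ℝ,
      ∀ k, ph θ' k = ph θ k + 2 * Real.pi * ((m k : ℕ) : ℤ) := fun θ m =>
    exists_shift θ fun k => ((m k : ℕ) : ℤ)
  choose lab hl using hlab
  have hper : ∀ θ m k, IsPer (ph (lab θ m) k - ph θ k) := fun θ m k =>
    ⟨((m k : ℕ) : ℤ), by rw [hl]; ring⟩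
  have hmem : ∀ θ m, uuG r g (lab θ m) ∈ spE r (pt L θ) := fun θ m =>
    uu_mem hs ge (hper θ m)
  have hinj : ∀ θ, Function.Injective fun m => uuG r g (lab θ m) := by
    intro θ m₁ m₂ he
    by_contra hne
    obtain ⟨k, hk1, d, hd0, hdl, hk2⟩ := first_diff (θ₁ := lab θ m₁) (θ₂ := lab θ m₂)
      (m₁ := m₁) (m₂ := m₂) (fun k => by
        rw [hl, hl]
        push_cast
        ring) hne
    have h1 := uu_approx (g := g) h0 h12 hρ hdec gp ga (θ := lab θ m₂) (θ' := lab θ m₁) k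
      (fun i hi => ⟨0, by rw [hk1 i hi]; simp⟩)
    have he' : uuG r g (lab θ m₁) - uuG r g (lab θ m₂) = 0 := sub_eq_zero.2 he
    rw [he', zero_sub, norm_neg, norm_mul, norm_mul, Complex.norm_real] at h1
    have h2 := hfar k.val k.isLt d _ _ hd0 hdl hk2
    have h3 : ‖(((k.val : ℝ) : ℂ) + 2)‖ = (k.val : ℝ) + 2 := by
      have : (((k.val : ℝ) : ℂ) + 2) = (((k.val : ℝ) + 2 : ℝ) : ℂ) := by push_cast; ring
      rw [this, Complex.norm_real, Real.norm_of_nonneg (by positivity)]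
    rw [h3, Real.norm_of_nonneg (hρ k).le] at h1
    have h4 : (2 : ℝ) ≤ (k.val : ℝ) + 2 := by
      have : (0 : ℝ) ≤ (k.val : ℝ) := Nat.cast_nonneg _
      linarith
    have h5 : 2 * ρ k * c ≤ ((k.val : ℝ) + 2) * ρ k * ‖Complex.exp (lab θ m₁ k * Complex.I) -
        Complex.exp (lab θ m₂ k * Complex.I)‖ :=
      mul_le_mul (mul_le_mul_of_nonneg_right h4 (hρ k).le) h2 hc.le
        (mul_nonneg (by linarith) (hρ k).le)
    have h6 : 4 * ((r : ℝ) + 4) * δ' * ρ k < 2 * c * ρ k := mul_lt_mul_of_pos_right hd2 (hρ k)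
    nlinarith
  have himg : ∀ θ, (Finset.univ.image fun m : (k : Fin r) → Fin (k.val + 2) =>
      uuG r g (lab θ m)) = spE r (pt L θ) := by
    intro θ
    refine Finset.eq_of_subset_of_card_le ?_ ?_
    · intro x hx
      obtain ⟨m, _, rfl⟩ := Finset.mem_image.1 hx
      exact hmem θ m
    · rw [Finset.card_image_of_injective _ (hinj θ), Finset.card_univ, card_box]
      exact spE_card_le _ _
  refine ⟨{
    ρ := L
    R := fun k => ρ k
    R_pos := fun k => hρ k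
    U := uuG r g
    U_cont := uu_cont gc
    U_per := fun θ θ' hp => uu_per gp hp
    card := fun θ => ?_
    mem := fun θ u => ⟨fun hu => ?_, ?_⟩
    approx := fun θ θ' k _ hi _ => ?_ }⟩
  · rw [← himg θ, Finset.card_image_of_injective _ (hinj θ), Finset.card_univ, card_box]
  · rw [← himg θ] at hu
    obtain ⟨m, _, rfl⟩ := Finset.mem_image.1 hu
    exact ⟨lab θ m, hper θ m, rfl⟩
  · rintro ⟨θ', hp, rfl⟩
    exact uu_mem hs ge hp
  · refine (uu_approx (g := g) h0 h12 hρ hdec gp ga k hi).trans ?_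
    exact mul_le_mul_of_nonneg_right hd1 (hρ k).le

end Pool.Agent.FLO
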