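import Pool.Agent.FLO.MutK
import Pool.Agent.FLO.A2
import Pool.Agent.FLO.A3
import Pool.Agent.FLO.DMut

/-!
# FLO-Lift: mutations of lists of classes and of their Chern characters
-/

set_option autoImplicit false
set_option linter.unusedSectionVars false

open scoped BigOperators

namespace Pool.Agent.FLO

open Pool.Agent.FLG Pool.Agent.FLG.Flag

theorem lex_trans {r : ℕ} {μ ν ξ : Fin r → ℤ} (h : Lex μ ν) (h' : Lex ν ξ) : Lex μ ξ := by
  obtain ⟨k, hk, hk'⟩ := h
  obtain ⟨l, hl, hl'⟩ := h'
  rcases lt_trichotomy k l with hkl | hkl | hkl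
  · exact ⟨k, fun i hi => (hk i hi).trans (hl i (hi.trans hkl)), by rw [← hl k hkl]; exact hk'⟩
  · subst hkl
    exact ⟨k, fun i hi => (hk i hi).trans (hl i hi), hk'.trans hl'⟩
  · exact ⟨l, fun i hi => (hk i (hi.trans hkl)).trans (hl i hi), by rw [hk l hkl]; exact hl'⟩

theorem lex_irrefl {r : ℕ} (μ : Fin r → ℤ) : ¬ Lex μ μ := by
  rintro ⟨k, -, hk⟩
  exact lt_irrefl _ hk

private theorem box_succ' (r m : ℕ) : box r (m + 1) =
    ((List.range (r - m + 1)).map (fun a : ℕ => (a : ℤ))).flatMap fun j : ℤ =>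
      (box r m).map fun μ => fun k => if k.val + m + 1 = r then j else μ k := by
  have h : ∀ l : List ℕ, (do let a ← l; pure (a : ℤ) : List ℤ) = l.map (fun a : ℕ => (a : ℤ)) := by
    intro l
    show l.flatMap (fun a : ℕ => [(a : ℤ)]) = _
    induction l with
    | nil => rfl
    | cons a l ih => rw [List.flatMap_cons, ih]; rfl
  rw [← h]
  rfl

/-- the box is ordered lexicographically -/
theorem box_lex {r : ℕ} : ∀ m ≤ r, (box r m).Pairwise Lex := by
  intro m
  induction m with
  | zero =>
    intro _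
    exact List.pairwise_singleton _ _
  | succ m ih =>
    intro hm
    have hm' : m ≤ r := by omega
    have hmem : ∀ μ ∈ box r m, ∀ k : Fin r, k.val + m < r → μ k = 0 := fun μ hμ =>
      ((mem_box hm' μ).1 hμ).2
    let k₀ : Fin r := ⟨r - m - 1, by omega⟩
    have hk₀ : ∀ k : Fin r, k.val + m + 1 = r ↔ k = k₀ := by
      intro k
      constructor
      · intro h
        apply Fin.ext
        show k.val = r - m - 1
        omega
      · rintro rfl
        show r - m - 1 + m + 1 = r
        omega
    rw [box_succ', List.pairwise_flatMap]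
    constructor
    · intro j _
      rw [List.pairwise_map]
      refine (ih hm').imp_of_mem fun {μ ν} hμ hν h => ?_
      obtain ⟨k, hk, hk'⟩ := h
      have hkk : ¬ k.val + m + 1 = r := by
        intro h1
        have h2 := hmem μ hμ k (by omega)
        have h3 := hmem ν hν k (by omega)
        rw [h2, h3] at hk'
        exact lt_irrefl _ hk'
      refine ⟨k, fun i hi => ?_, ?_⟩
      · show (if i.val + m + 1 = r then j else μ i) = if i.val + m + 1 = r then j else ν i
        rw [hk i hi]
      · show (if k.val + m + 1 = r then j else μ k) < if k.val + m + 1 = r then j else ν k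
        rw [if_neg hkk, if_neg hkk]
        exact hk'
    · rw [List.pairwise_map]
      refine List.pairwise_lt_range.imp fun {j j'} hjj => ?_
      intro x hx y hy
      obtain ⟨μ, hμ, rfl⟩ := List.mem_map.1 hx
      obtain ⟨ν, hν, rfl⟩ := List.mem_map.1 hy
      refine ⟨k₀, fun i hi => ?_, ?_⟩
      · have hi' : ¬ i.val + m + 1 = r := by
          rw [hk₀]
          exact hi.ne
        have hi2 : i.val + m < r := by
          have h1 : i.val < r - m - 1 := hi
          omega
        show (if i.val + m + 1 = r then (j : ℤ) else μ i) =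
          if i.val + m + 1 = r then (j' : ℤ) else ν i
        rw [if_neg hi', if_neg hi', hmem μ hμ i hi2, hmem ν hν i hi2]
      · show (if k₀.val + m + 1 = r then (j : ℤ) else μ k₀) <
          if k₀.val + m + 1 = r then (j' : ℤ) else ν k₀
        rw [if_pos ((hk₀ k₀).2 rfl), if_pos ((hk₀ k₀).2 rfl)]
        exact_mod_cast hjj

/-- the box is determined by its elements and the lexicographic order -/
theorem eq_box {r : ℕ} {B : List (Fin r → ℤ)} (h1 : B.Pairwise Lex)
    (h2 : ∀ μ, μ ∈ B ↔ ∀ k, 0 ≤ μ k ∧ μ k ≤ (k.val : ℤ) + 1) : B = box r r := by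
  have h3 := box_lex (r := r) r le_rfl
  have hn : ∀ L : List (Fin r → ℤ), L.Pairwise Lex → L.Nodup := by
    intro L hL
    refine List.Pairwise.imp (R := Lex) (fun {a c} h => ?_) hL
    rintro rfl
    exact lex_irrefl _ h
  have hp : B.Perm (box r r) := (List.perm_ext_iff_of_nodup (hn _ h1) (hn _ h3)).2 fun μ => by
    rw [h2, mem_box le_rfl]
    constructor
    · intro h
      exact ⟨h, fun k hk => absurd hk (by omega)⟩
    · exact fun h => h.1
  refine hp.eq_of_pairwise (le := Lex) ?_ h1 h3
  intro a c _ _ hac hca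
  exact absurd (lex_trans hac hca) (lex_irrefl a)

variable {ι V V' : Type} [Fintype ι] [AddCommGroup V] [Module ℂ V] [AddCommGroup V'] [Module ℂ V']
  {P : RootPairing ι ℂ V V'} [P.IsCrystallographic] (b : P.Base) [P.IsRootSystem] [P.IsReduced]
  [Fintype P.weylGroup] [DecidableEq P.weylGroup]
  {r : ℕ} {e : Fin r ≃ b.support} {ω : Fin r → V} (hω : IsFund b e ω)

private theorem toK_sub (x y : KClass P) : toK b (x - y) = toK b x - toK b y := by
  apply Subtype.ext
  exact (chHom b).map_sub x y

private theorem toK_neg (x : KClass P) : toK b (-x) = -toK b x := by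
  apply Subtype.ext
  exact (chHom b).map_neg x

private theorem toK_zsmul (m : ℤ) (x : KClass P) : toK b (m • x) = m • toK b x := by
  apply Subtype.ext
  exact (chHom b).map_zsmul m x

/-- mutations of Chern characters are Chern characters of mutations -/
theorem lift_mut {L : List (KClass P)} {M : List (Kc b)} (h : Mut (chiK b) (L.map (toK b)) M) :
    ∃ L', Mutated b L L' ∧ L'.map (toK b) = M := by
  induction h with
  | refl => exact ⟨L, Mutated.refl, rfl⟩
  | sign l₁ l₂ x _ ih =>
    obtain ⟨L', h1, h2⟩ := ih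
    obtain ⟨a, c, rfl, h3, h4⟩ := List.map_eq_append_iff.1 h2
    obtain ⟨x', c', rfl, h5, h6⟩ := List.map_eq_cons_iff.1 h4
    refine ⟨a ++ (-x') :: c', Mutated.shift a c' x' h1, ?_⟩
    rw [List.map_append, List.map_cons, h3, h6, toK_neg, h5]
  | right l₁ l₂ x y _ ih =>
    obtain ⟨L', h1, h2⟩ := ih
    obtain ⟨a, c, rfl, h3, h4⟩ := List.map_eq_append_iff.1 h2
    obtain ⟨x', c', rfl, h5, h6⟩ := List.map_eq_cons_iff.1 h4
    obtain ⟨y', c'', rfl, h7, h8⟩ := List.map_eq_cons_iff.1 h6
    have hm : euler b x' y' = (chiK b x y : ℤ) := by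
      rw [← h5, ← h7, chiK_toK]
    refine ⟨a ++ y' :: (x' - chiK b x y • y') :: c'', Mutated.right a c'' x' y' _ hm h1, ?_⟩
    rw [List.map_append, List.map_cons, List.map_cons, h3, h8, toK_sub, toK_zsmul, h5, h7]
  | left l₁ l₂ x y _ ih =>
    obtain ⟨L', h1, h2⟩ := ih
    obtain ⟨a, c, rfl, h3, h4⟩ := List.map_eq_append_iff.1 h2
    obtain ⟨x', c', rfl, h5, h6⟩ := List.map_eq_cons_iff.1 h4
    obtain ⟨y', c'', rfl, h7, h8⟩ := List.map_eq_cons_iff.1 h6
    have hm : euler b x' y' = (chiK b x y : ℤ) := by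
      rw [← h5, ← h7, chiK_toK]
    refine ⟨a ++ (y' - chiK b x y • x') :: x' :: c'', Mutated.left a c'' x' y' _ hm h1, ?_⟩
    rw [List.map_append, List.map_cons, List.map_cons, h3, h8, toK_sub, toK_zsmul, h5, h7]

theorem lineB_eq (μ : Fin r → ℤ) :
    toK b (lineB (P := P) (∑ k, (μ k : ℂ) • ω k)) = twK b hω μ (toK b oneK) := by
  classical
  have h1 : ∀ i, ∃ n : ℤ, P.coroot' i (∑ k, (μ k : ℂ) • ω k) = n := by
    intro i
    have := wt_tp b hω μ i
    rwa [tp_apply] at this
  rw [twK_toK]
  congr 1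
  unfold lineB oneK tws
  rw [dif_pos h1, Finsupp.mapDomain_single]
  congr 1
  apply Subtype.ext
  show ∑ k, (μ k : ℂ) • ω k = 0 + tp ω fun k => (μ k : ℂ)
  rw [zero_add, tp_apply]

end Pool.Agent.FLO
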