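import Pool.Agent.FLO.Defs

/-!
# FLO-GGro: growth of functions for `z → 0`
-/

set_option autoImplicit false

open scoped BigOperators Topology
open Filter

namespace Pool.Agent.FLO

/-- `limsup |z| log ‖Y‖ ≤ h` for `|z| = e^s → 0` -/
def Gro {κ : Type} (Y : ℝ → κ → ℂ) (h : ℝ) : Prop :=
  ∀ ε : ℝ, 0 < ε → ∀ᶠ s : ℝ in atBot, ∀ u, ‖Y s u‖ ≤ Real.exp ((h + ε) * Real.exp (-s))

theorem Gro.zero {κ : Type} (h : ℝ) : Gro (fun (_ : ℝ) (_ : κ) => (0 : ℂ)) h := by
  intro ε _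
  exact Eventually.of_forall fun s u => by
    rw [norm_zero]
    exact (Real.exp_pos _).le

theorem Gro.neg {κ : Type} {Y : ℝ → κ → ℂ} {h : ℝ} (hY : Gro Y h) :
    Gro (fun s u => -Y s u) h := by
  intro ε hε
  filter_upwards [hY ε hε] with s hs u
  rw [norm_neg]
  exact hs u

theorem Gro.add {κ : Type} {Y Y' : ℝ → κ → ℂ} {h : ℝ} (hY : Gro Y h) (hY' : Gro Y' h) :
    Gro (fun s u => Y s u + Y' s u) h := by
  intro ε hε
  have h1 : Tendsto (fun s : ℝ => Real.exp (-s)) atBot atTop :=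
    Real.tendsto_exp_atTop.comp tendsto_neg_atBot_atTop
  filter_upwards [hY (ε / 2) (by linarith), hY' (ε / 2) (by linarith),
    h1.eventually_ge_atTop (2 / ε * Real.log 2)] with s hs hs' hs2 u
  refine (norm_add_le _ _).trans ((add_le_add (hs u) (hs' u)).trans ?_)
  have h2 : Real.log 2 ≤ ε / 2 * Real.exp (-s) := by
    have h3 := mul_le_mul_of_nonneg_left hs2 (by linarith : (0 : ℝ) ≤ ε / 2)
    have h4 : ε / 2 * (2 / ε * Real.log 2) = Real.log 2 := by
      field_simp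
    linarith
  have h5 : (2 : ℝ) ≤ Real.exp (ε / 2 * Real.exp (-s)) := by
    rw [← Real.log_le_iff_le_exp (by norm_num)]
    exact h2
  have h6 : Real.exp ((h + ε) * Real.exp (-s)) =
      Real.exp ((h + ε / 2) * Real.exp (-s)) * Real.exp (ε / 2 * Real.exp (-s)) := by
    rw [← Real.exp_add]
    congr 1
    ring
  rw [h6, ← mul_two]
  exact mul_le_mul_of_nonneg_left h5 (Real.exp_pos _).le

end Pool.Agent.FLO
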