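import Pool.Agent.FLG.Z.Fin
import Pool.Agent.FLG.G.CommE
import Pool.Agent.FLO.GGro

/-! # FLO-GMat: the quantum Chevalley operators of `G/B`: derivative, degrees, commutation -/

set_option autoImplicit false
set_option linter.unusedSectionVars false

open scoped BigOperators Topology

namespace Pool.Agent.FLO

open Pool.Agent.FLG Pool.Agent.FLG.Flag

variable {ι V V' : Type} [Fintype ι] [AddCommGroup V] [Module ℂ V] [AddCommGroup V'] [Module ℂ V']
  {P : RootPairing ι ℂ V V'} [P.IsCrystallographic] (b : P.Base) [P.IsRootSystem] [P.IsReduced]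
  [Fintype P.weylGroup] [DecidableEq P.weylGroup]

open Classical in
/-- the quantum part -/
private noncomputable def gq (t h : V) : Matrix P.weylGroup P.weylGroup ℂ :=
  Matrix.of fun u w => ∑ i ∈ pos b, if u = w * RootPairing.weylGroup.ofIdx P i ∧
    (len b u : ℂ) + P.coroot' i (c₁ b) = len b w + 1 then
      P.coroot' i h * Complex.exp (P.coroot' i t) else 0

private theorem gm_split (t h : V) : mul b t h = cup b h + gq b t h := by
  unfold mul gq
  refine congrArg _ ?_
  ext u w
  rw [Matrix.of_apply, Matrix.of_apply]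
  refine Finset.sum_congr rfl fun i _ => ?_
  by_cases hc : u = w * RootPairing.weylGroup.ofIdx P i ∧
      (len b u : ℂ) + P.coroot' i (c₁ b) = len b w + 1
  · rw [if_pos hc, if_pos hc]
  · rw [if_neg hc, if_neg hc]

private theorem gm_app (t h : V) (u w : P.weylGroup) :
    mul b t h u w = cup b h u w + gq b t h u w := by
  rw [gm_split, Matrix.add_apply]

private theorem gm_L {i : ι} (hi : i ∈ pos b) :
    ∃ l : ℤ, 2 ≤ l ∧ P.coroot' i (c₁ b) = (l : ℂ) := by
  obtain ⟨D, ⟨m⟩⟩ := exists_model P b
  exact ⟨D.L (m.v i), RS.two_le_L (m.mem_pos.1 hi), m.ch_ctr' i⟩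

theorem cup_lin (x y : ℂ) (h h' : V) : cup b (x • h + y • h') = x • cup b h + y • cup b h' := by
  classical
  ext u w
  rw [Matrix.add_apply, Matrix.smul_apply, Matrix.smul_apply]
  unfold cup
  rw [Matrix.of_apply, Matrix.of_apply, Matrix.of_apply, smul_eq_mul, smul_eq_mul, Finset.mul_sum,
    Finset.mul_sum, ← Finset.sum_add_distrib]
  refine Finset.sum_congr rfl fun i _ => ?_
  split_ifs
  · rw [map_add, map_smul, map_smul, smul_eq_mul, smul_eq_mul]
  · rw [mul_zero, mul_zero, add_zero]

private theorem gq_lin (t : V) (x y : ℂ) (h h' : V) :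
    gq b t (x • h + y • h') = x • gq b t h + y • gq b t h' := by
  classical
  ext u w
  rw [Matrix.add_apply, Matrix.smul_apply, Matrix.smul_apply]
  unfold gq
  rw [Matrix.of_apply, Matrix.of_apply, Matrix.of_apply, smul_eq_mul, smul_eq_mul, Finset.mul_sum,
    Finset.mul_sum, ← Finset.sum_add_distrib]
  refine Finset.sum_congr rfl fun i _ => ?_
  split_ifs
  · rw [map_add, map_smul, map_smul, smul_eq_mul, smul_eq_mul]
    ring
  · rw [mul_zero, mul_zero, add_zero]

theorem mul_lin (t : V) (x y : ℂ) (h h' : V) :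
    mul b t (x • h + y • h') = x • mul b t h + y • mul b t h' := by
  rw [gm_split, gm_split, gm_split, cup_lin, gq_lin, smul_add, smul_add]
  exact add_add_add_comm _ _ _ _

theorem cup_deg {h : V} {u w : P.weylGroup} (hne : cup b h u w ≠ 0) : len b u = len b w + 1 := by
  classical
  by_contra hc
  apply hne
  unfold cup
  rw [Matrix.of_apply]
  exact Finset.sum_eq_zero fun i _ => if_neg fun h' => hc h'.2

private theorem gq_deg {t h : V} {u w : P.weylGroup} (hne : gq b t h u w ≠ 0) :
    len b u + 1 ≤ len b w := by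
  classical
  by_contra hc
  apply hne
  unfold gq
  rw [Matrix.of_apply]
  refine Finset.sum_eq_zero fun i hi => if_neg fun h' => hc ?_
  obtain ⟨l, hl, hl'⟩ := gm_L b hi
  have h1 := h'.2
  rw [hl'] at h1
  have h2 : (len b u : ℤ) + l = len b w + 1 := by exact_mod_cast h1
  omega

theorem mul_deg {t h : V} {u w : P.weylGroup} (hne : mul b t h u w ≠ 0) :
    len b u ≤ len b w + 1 := by
  rw [gm_split, Matrix.add_apply] at hne
  by_cases h1 : cup b h u w = 0
  · rw [h1, zero_add] at hne
    have := gq_deg b hne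
    omega
  · exact (cup_deg b h1).le

theorem mul_deg_eq (t h : V) {u w : P.weylGroup} (hd : len b u = len b w + 1) :
    mul b t h u w = cup b h u w := by
  rw [gm_split, Matrix.add_apply]
  by_cases h1 : gq b t h u w = 0
  · rw [h1, add_zero]
  · have := gq_deg b h1
    omega

theorem mul_comm' (t h h' : V) : mul b t h * mul b t h' = mul b t h' * mul b t h := by
  obtain ⟨D, ⟨m⟩⟩ := exists_model P b
  obtain ⟨t, rfl⟩ := m.bk_surj t
  obtain ⟨h, rfl⟩ := m.bk_surj h
  obtain ⟨h', rfl⟩ := m.bk_surj h'
  have h1 : ∀ x, mul b (m.bk t) (m.bk x) =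
      (D.E (D.ch x) t).submatrix m.f.toEquiv m.f.toEquiv := m.mul_bk t
  rw [h1, h1, Matrix.submatrix_mul_equiv, Matrix.submatrix_mul_equiv, RS.E_comm]

private theorem gm_cc (h h' : V) (u w : P.weylGroup) : (cup b h * cup b h') u w =
    if len b u = len b w + 2 then (mul b 0 h * mul b 0 h') u w else 0 := by
  rw [Matrix.mul_apply]
  split_ifs with h1
  · rw [Matrix.mul_apply]
    refine Finset.sum_congr rfl fun v _ => ?_
    by_cases h2 : len b v = len b w + 1
    · rw [mul_deg_eq b 0 h (by omega), mul_deg_eq b 0 h' h2]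
    · have h3 : cup b h' v w = 0 := by
        by_contra h4
        exact h2 (cup_deg b h4)
      rw [h3, mul_zero]
      by_contra h4
      have h5 : mul b 0 h u v ≠ 0 := fun h6 => h4 (by rw [h6, zero_mul])
      have h6 : mul b 0 h' v w ≠ 0 := fun h6 => h4 (by rw [h6, mul_zero])
      have h7 := mul_deg b h5
      have h8 := mul_deg b h6
      omega
  · refine Finset.sum_eq_zero fun v _ => ?_
    by_contra h4
    have h5 : cup b h u v ≠ 0 := fun h6 => h4 (by rw [h6, zero_mul])
    have h6 : cup b h' v w ≠ 0 := fun h6 => h4 (by rw [h6, mul_zero])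
    have h7 := cup_deg b h5
    have h8 := cup_deg b h6
    omega

theorem cup_comm' (h h' : V) : cup b h * cup b h' = cup b h' * cup b h := by
  ext u w
  rw [gm_cc, gm_cc, mul_comm']

theorem mul_cont (t h : V) (u w : P.weylGroup) :
    Continuous fun s : ℝ => mul b (t + (s : ℂ) • h) h u w := by
  classical
  have h1 : ∀ s : ℝ, mul b (t + (s : ℂ) • h) h u w = cup b h u w +
      gq b (t + (s : ℂ) • h) h u w := fun s => gm_app b _ h u w
  simp only [h1]
  refine continuous_const.add ?_
  unfold gq
  simp only [Matrix.of_apply]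
  refine continuous_finsetSum _ fun i _ => ?_
  by_cases h2 : u = w * RootPairing.weylGroup.ofIdx P i ∧
      (len b u : ℂ) + P.coroot' i (c₁ b) = len b w + 1
  · simp only [if_pos h2, map_add, map_smul, smul_eq_mul]
    refine continuous_const.mul (Complex.continuous_exp.comp (continuous_const.add ?_))
    exact Complex.continuous_ofReal.mul continuous_const
  · simp only [if_neg h2]
    exact continuous_const

theorem mul_deriv (t h : V) (u w : P.weylGroup) (s : ℝ) :
    HasDerivAt (fun s : ℝ => mul b (t + (s : ℂ) • h) (c₁ b) u w)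
      (mul b (t + (s : ℂ) • h) h u w * (1 + (len b w : ℂ) - len b u)) s := by
  classical
  have h1 : ∀ (s : ℝ) (x : V), mul b (t + (s : ℂ) • h) x u w = cup b x u w +
      gq b (t + (s : ℂ) • h) x u w := fun s x => gm_app b _ x u w
  have h2 : cup b h u w * (1 + (len b w : ℂ) - len b u) = 0 := by
    by_cases h3 : cup b h u w = 0
    · rw [h3, zero_mul]
    · rw [cup_deg b h3]
      push_cast
      ring
  have h3 : mul b (t + (s : ℂ) • h) h u w * (1 + (len b w : ℂ) - len b u) =
      0 + gq b (t + (s : ℂ) • h) h u w * (1 + (len b w : ℂ) - len b u) := by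
    rw [h1, add_mul, h2]
  rw [h3]
  simp only [h1]
  refine (hasDerivAt_const s _).add ?_
  unfold gq
  simp only [Matrix.of_apply]
  rw [Finset.sum_mul]
  refine HasDerivAt.fun_sum fun i _ => ?_
  by_cases h4 : u = w * RootPairing.weylGroup.ofIdx P i ∧
      (len b u : ℂ) + P.coroot' i (c₁ b) = len b w + 1
  · simp only [if_pos h4, map_add, map_smul, smul_eq_mul]
    have h5 : P.coroot' i (c₁ b) = 1 + (len b w : ℂ) - len b u := by
      linear_combination h4.2
    have h6 : HasDerivAt (fun s : ℝ => P.coroot' i t + (s : ℂ) * P.coroot' i h)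
        (P.coroot' i h) s := by
      have h7 := ((hasDerivAt_id s).ofReal_comp.mul_const (P.coroot' i h)).const_add
        (P.coroot' i t)
      simpa using h7
    have h8 := (h6.cexp).const_mul (P.coroot' i (c₁ b))
    refine h8.congr_deriv ?_
    rw [h5]
    ring
  · simp only [if_neg h4, zero_mul]
    exact hasDerivAt_const s _

end Pool.Agent.FLO
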