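import Pool.Agent.FLO.TA3
import Pool.Agent.FLO.GMat

/-!
# FLO-TA4: the quantum Chevalley matrices on permutations commute

By `bridge` for invertible quantum parameters, and by continuity in general.
-/

set_option autoImplicit false
set_option linter.unusedSectionVars false

open scoped BigOperators

namespace Pool.Agent.FLO

open Pool.Agent.FLG Pool.Agent.FLG.Flag Equiv

variable {ι V V' : Type} [Fintype ι] [AddCommGroup V] [Module ℂ V] [AddCommGroup V'] [Module ℂ V']
  {P : RootPairing ι ℂ V V'} [P.IsCrystallographic] (b : P.Base) [P.IsRootSystem] [P.IsReduced]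
  [Fintype P.weylGroup] [DecidableEq P.weylGroup]
  {r : ℕ} {e : Fin r ≃ b.support} {ω : Fin r → V}
  (he : ∀ i j : Fin r, P.pairing (e i) (e j) = (cA i j : ℂ)) (hω : IsFund b e ω)

private theorem ta4_congr {q q' h h' : ℕ → ℂ} (hq : ∀ k < r, q k = q' k)
    (hh : ∀ k < r, h k = h' k) : FLE.qc (r + 1) q h = FLE.qc (r + 1) q' h' := by
  funext u w
  unfold FLE.qc
  refine Finset.sum_congr rfl fun p _ => ?_
  have hp : ∀ k ∈ Finset.Ico p.1.val p.2.val, k < r := by
    intro k hk
    have h1 := (Finset.mem_Ico.1 hk).2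
    have h2 := p.2.isLt
    omega
  rw [Finset.sum_congr rfl fun k hk => hh k (hp k hk),
    Finset.prod_congr rfl fun k hk => hq k (hp k hk)]

private theorem ta4_cont (q h : ℕ → ℂ) (u w : Perm (Fin (r + 1))) :
    Continuous fun z : ℂ => FLE.qc (r + 1) (fun k => q k + z) h u w := by
  unfold FLE.qc
  refine continuous_finsetSum _ fun p _ => ?_
  by_cases h1 : p.1 < p.2 ∧ u = w * swap p.1 p.2
  · simp only [if_pos h1]
    refine continuous_const.mul (continuous_const.add ?_)
    by_cases h2 : FLE.inv u + 2 * (p.2.val - p.1.val) = FLE.inv w + 1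
    · simp only [if_pos h2]
      exact continuous_finsetProd _ fun k _ => continuous_const.add continuous_id
    · simp only [if_neg h2]
      exact continuous_const
  · simp only [if_neg h1]
    exact continuous_const

include he hω in
private theorem ta4_unit (q h h' : ℕ → ℂ) (hq : ∀ k < r, q k ≠ 0) :
    FLE.qc (r + 1) q h * FLE.qc (r + 1) q h' = FLE.qc (r + 1) q h' * FLE.qc (r + 1) q h := by
  obtain ⟨f, hf⟩ := bridge b he hω
  have key : ∀ g : ℕ → ℂ, (FLE.qc (r + 1) q g).submatrix f f =
      mul b (tp ω fun k : Fin r => Complex.log (q k)) (tp ω fun k : Fin r => g k) := by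
    intro g
    rw [hf]
    congr 1
    refine ta4_congr ?_ ?_
    · intro k hk
      rw [xt, dif_pos hk, Complex.exp_log (hq k hk)]
    · intro k hk
      rw [xt, dif_pos hk]
  have h1 : ∀ g g' : ℕ → ℂ, (FLE.qc (r + 1) q g * FLE.qc (r + 1) q g').submatrix f f =
      mul b (tp ω fun k : Fin r => Complex.log (q k)) (tp ω fun k : Fin r => g k) *
      mul b (tp ω fun k : Fin r => Complex.log (q k)) (tp ω fun k : Fin r => g' k) := by
    intro g g'
    rw [← key g, ← key g']
    exact (Matrix.submatrix_mul_equiv _ _ f f.toEquiv f).symm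
  have h2 : (FLE.qc (r + 1) q h * FLE.qc (r + 1) q h').submatrix f f =
      (FLE.qc (r + 1) q h' * FLE.qc (r + 1) q h).submatrix f f := by
    rw [h1, h1, mul_comm']
  ext u w
  have h3 := congrFun (congrFun h2 (f.symm u)) (f.symm w)
  simpa using h3

include he hω in
theorem qc_comm (q h h' : ℕ → ℂ) : FLE.qc (r + 1) q h * FLE.qc (r + 1) q h' =
    FLE.qc (r + 1) q h' * FLE.qc (r + 1) q h := by
  have hd : Dense {z : ℂ | ∀ k < r, q k + z ≠ 0} := by
    have h1 : ((fun k : ℕ => - q k) '' (Finset.range r : Set ℕ)).Countable :=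
      ((Finset.range r).finite_toSet.image _).countable
    refine (h1.dense_compl ℂ).mono ?_
    intro z hz k hk h0
    apply hz
    refine ⟨k, by simpa using hk, ?_⟩
    show - q k = z
    linear_combination - h0
  ext u w
  have hc : ∀ g g' : ℕ → ℂ, Continuous fun z : ℂ =>
      (FLE.qc (r + 1) (fun k => q k + z) g * FLE.qc (r + 1) (fun k => q k + z) g') u w := by
    intro g g'
    simp only [Matrix.mul_apply]
    exact continuous_finsetSum _ fun v _ => (ta4_cont q g u v).mul (ta4_cont q g' v w)
  have h2 := Continuous.ext_on hd (hc h h') (hc h' h) (fun z hz => by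
    show (FLE.qc (r + 1) (fun k => q k + z) h * FLE.qc (r + 1) (fun k => q k + z) h') u w =
      (FLE.qc (r + 1) (fun k => q k + z) h' * FLE.qc (r + 1) (fun k => q k + z) h) u w
    rw [ta4_unit b he hω (fun k => q k + z) h h' hz])
  have h3 := congrFun h2 0
  simpa using h3

end Pool.Agent.FLO
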