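import Pool.Agent.FLO.GConn
import Pool.Agent.FLO.GFull
import Pool.Agent.FLO.GNest
import Pool.Agent.FLO.TA4
import Pool.Agent.FLO.Lift
import Pool.Agent.FLO.DMain
import Pool.Agent.FLE.Nest

/-!
# FLO-Fin: full exceptional collections and the quantum cohomology of `Fl_(r+1)`
-/

set_option autoImplicit false
set_option linter.unusedSectionVars false

open scoped BigOperators

namespace Pool.Agent.FLO

open Pool.Agent.FLG Pool.Agent.FLG.Flag

/-- mutations do not change the subgroup generated by a list -/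
theorem Mut.closure {K : Type} [AddCommGroup K] {χ : K →+ K →+ ℤ} {L M : List K}
    (h : Mut χ L M) : AddSubgroup.closure {x | x ∈ L} ≤ AddSubgroup.closure {x | x ∈ M} := by
  induction h with
  | refl => exact le_rfl
  | sign l₁ l₂ x _ ih =>
    refine ih.trans ((AddSubgroup.closure_le _).2 fun y hy => ?_)
    have hy' : y ∈ l₁ ∨ y = x ∨ y ∈ l₂ := by simpa using hy
    have hin : ∀ z ∈ l₁ ++ (-x) :: l₂, z ∈ AddSubgroup.closure {x_1 | x_1 ∈ l₁ ++ (-x) :: l₂} :=
      fun z hz => AddSubgroup.subset_closure hz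
    rcases hy' with h1 | rfl | h1
    · exact hin y (by simp [h1])
    · have := (AddSubgroup.closure {x_1 | x_1 ∈ l₁ ++ (-y) :: l₂}).neg_mem (hin (-y) (by simp))
      simpa using this
    · exact hin y (by simp [h1])
  | right l₁ l₂ x y _ ih =>
    refine ih.trans ((AddSubgroup.closure_le _).2 fun z hz => ?_)
    have hz' : z ∈ l₁ ∨ z = x ∨ z = y ∨ z ∈ l₂ := by simpa using hz
    have hin : ∀ z ∈ l₁ ++ y :: (x - χ x y • y) :: l₂,
        z ∈ AddSubgroup.closure {x_1 | x_1 ∈ l₁ ++ y :: (x - χ x y • y) :: l₂} :=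
      fun z hz => AddSubgroup.subset_closure hz
    rcases hz' with h1 | h1 | h1 | h1
    · exact hin z (by simp [h1])
    · have h2 := AddSubgroup.add_mem _ (hin (x - χ x y • y) (by simp))
        (AddSubgroup.zsmul_mem _ (hin y (by simp)) (χ x y))
      rw [sub_add_cancel] at h2
      rw [h1]
      exact h2
    · rw [h1]
      exact hin y (by simp)
    · exact hin z (by simp [h1])
  | left l₁ l₂ x y _ ih =>
    refine ih.trans ((AddSubgroup.closure_le _).2 fun z hz => ?_)
    have hz' : z ∈ l₁ ∨ z = x ∨ z = y ∨ z ∈ l₂ := by simpa using hz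
    have hin : ∀ z ∈ l₁ ++ (y - χ x y • x) :: x :: l₂,
        z ∈ AddSubgroup.closure {x_1 | x_1 ∈ l₁ ++ (y - χ x y • x) :: x :: l₂} :=
      fun z hz => AddSubgroup.subset_closure hz
    rcases hz' with h1 | h1 | h1 | h1
    · exact hin z (by simp [h1])
    · rw [h1]
      exact hin x (by simp)
    · have h2 := AddSubgroup.add_mem _ (hin (y - χ x y • x) (by simp))
        (AddSubgroup.zsmul_mem _ (hin x (by simp)) (χ x y))
      rw [sub_add_cancel] at h2
      rw [h1]
      exact h2
    · exact hin z (by simp [h1])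

variable {ι V V' : Type} [Fintype ι] [AddCommGroup V] [Module ℂ V] [AddCommGroup V'] [Module ℂ V']
  {P : RootPairing ι ℂ V V'} [P.IsCrystallographic] (b : P.Base) [P.IsRootSystem] [P.IsReduced]
  [Fintype P.weylGroup] [DecidableEq P.weylGroup]
  {r : ℕ} {e : Fin r ≃ b.support} {ω : Fin r → V}
  (he : ∀ i j : Fin r, P.pairing (e i) (e j) = (cA i j : ℂ)) (hω : IsFund b e ω)

include he hω in
theorem spc_eq (τ : Fin r → ℂ) : spc b ω τ = spE r τ := by
  obtain ⟨f, hf⟩ := bridge b he hω
  unfold spc spE
  rw [c1_tp b he hω, hf, FLE.qc_eq]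
  have h1 : (FLE.M (r + 1) (xt fun k => Complex.exp (τ k)) (xt fun _ : Fin r => (2 : ℂ))) =
      FLE.E r fun k => if hk : k < r then Complex.exp (τ ⟨k, hk⟩) else 0 := by
    unfold FLE.E
    ext u w
    unfold FLE.M
    refine Finset.sum_congr rfl fun p _ => ?_
    have h2 : ∑ k ∈ Finset.Ico p.1.val p.2.val, xt (fun _ : Fin r => (2 : ℂ)) k =
        ∑ k ∈ Finset.Ico p.1.val p.2.val, FLE.two k := by
      refine Finset.sum_congr rfl fun k hk => ?_
      have h3 : k < r := by
        have := (Finset.mem_Ico.1 hk).2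
        have := p.2.isLt
        omega
      unfold xt FLE.two
      rw [dif_pos h3]
    rw [h2]
    rfl
  rw [h1]
  have h2 := Matrix.charpoly_reindex f.toEquiv.symm
    (FLE.E r fun k => if hk : k < r then Complex.exp (τ ⟨k, hk⟩) else 0)
  rw [← h2]
  rfl

include he in
/-- every asymptotic basis is obtained by mutations from the line bundles of the box -/
theorem mut_all {τ : Fin r → ℂ} {φ : ℝ} {u : Fin (Fintype.card P.weylGroup) → ℂ}
    {a : Fin (Fintype.card P.weylGroup) → Kc b} (h : IsAsym (flg b hω) τ φ u a) :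
    Mut (chiK b) ((box r r).map fun μ => twK b hω μ (toK b oneK)) (List.ofFn a) := by
  have hnest : ∀ δ : ℝ, 0 < δ →
      Nonempty (Nested (flg b hω).spec (Fintype.card P.weylGroup) δ) := by
    intro δ hδ
    have h1 : (flg b hω).spec = spE r := funext fun τ => spc_eq b he hω τ
    rw [h1, card_weyl b he hω]
    exact nested_of_out (FLE.nest r fun q h h' => qc_comm b he hω q h h') hδ
  obtain ⟨w, hw, hall⟩ := main (flg_full b hω) hnest (flg_conn b hω)
  obtain ⟨h1, h2⟩ := hall τ φ u a h
  have hexc : Exc (chiK b) (List.ofFn a) := by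
    constructor
    · rw [List.pairwise_ofFn]
      intro i j hij
      exact h.lower j i hij
    · intro x hx
      obtain ⟨i, rfl⟩ := (List.mem_ofFn' _ _).1 hx
      exact h.diag i
  have hexc' := h2.exc hexc
  have hgen : ∀ x : Kc b, x ∈ AddSubgroup.closure
      {y | y ∈ (box r r).map fun μ => twK b hω μ w} := by
    intro x
    refine h2.closure ?_
    obtain ⟨c, hc⟩ := h.gen x
    rw [hc]
    refine AddSubgroup.sum_mem _ fun j _ => AddSubgroup.zsmul_mem _ ?_ _
    exact AddSubgroup.subset_closure ((List.mem_ofFn' _ _).2 ⟨j, rfl⟩)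
  rcases unit_of_box b he hω hw hexc' hgen with rfl | rfl
  · exact h1
  · refine Mut.trans ?_ h1
    refine mut_of_signs (box r r) _ _ fun μ _ => Or.inr ?_
    show twK b hω μ (-toK b oneK) = -twK b hω μ (toK b oneK)
    rw [map_neg]

theorem eq_zero_of_coroot {x : V} (h : ∀ j : b.support, P.coroot' j x = 0) : x = 0 := by
  have h1 : ∀ i, P.coroot' i x = 0 := by
    intro i
    obtain ⟨f, -, -, hf⟩ := b.flip.exists_root_eq_sum_int i
    have h4 : P.coroot i = ∑ j ∈ b.support, f j • P.coroot j := hf
    have h5 : P.coroot' i x = ∑ j ∈ b.support, (f j : ℂ) * P.coroot' j x := by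
      rw [RootPairing.coroot', h4]
      rw [LinearMap.flip_apply, map_sum]
      refine Finset.sum_congr rfl fun j _ => ?_
      rw [map_zsmul, zsmul_eq_mul]
      rfl
    rw [h5]
    exact Finset.sum_eq_zero fun j hj => by rw [h ⟨j, hj⟩, mul_zero]
  have h2 : P.toLinearMap x = 0 := by
    refine LinearMap.ext_on_range (v := P.coroot) RootPairing.IsRootSystem.span_coroot_eq_top
      fun i => ?_
    rw [LinearMap.zero_apply]
    exact h1 i
  exact P.toPerfPair.injective (by rw [map_zero]; exact h2)

include hω in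
theorem tp_surj (t : V) : ∃ τ, tp ω τ = t := by
  refine ⟨fun k => P.coroot' (e k) t, ?_⟩
  rw [← sub_eq_zero]
  refine eq_zero_of_coroot b fun j => ?_
  rw [map_sub, tp_apply, map_sum, sub_eq_zero]
  have h2 : ∀ k, P.coroot' (j : ι) (P.coroot' (e k) t • ω k) =
      if e.symm j = k then P.coroot' (e k) t else 0 := by
    intro k
    rw [map_smul]
    have h3 := hω (e.symm j) k
    rw [Equiv.apply_symm_apply] at h3
    rw [h3]
    by_cases h : e.symm j = k
    · simp [h]
    · simp [h]
  rw [Finset.sum_congr rfl fun k _ => h2 k]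
  simp

include he hω in
/-- Full exceptional collections and the monodromy data of the quantum cohomology of `Fl_(r+1)`. -/
theorem final_fl (t : V) (M : MonodromyData (small b t) (Fintype.card P.weylGroup))
    {B : List (Fin r → ℤ)} (hB : B.Pairwise Lex)
    (hB' : ∀ μ, μ ∈ B ↔ ∀ k, 0 ≤ μ k ∧ μ k ≤ (k.val : ℤ) + 1) :
    ∃ v : Fin (Fintype.card P.weylGroup) → KClass P,
      Mutated b (B.map fun μ => lineB (∑ k, (μ k : ℂ) • ω k)) (List.ofFn v) ∧
      IsExceptionalBasis b v ∧
      (∀ i j, M.S i j = euler b (v i) (v j)) ∧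
      (∃ C' : Matrix P.weylGroup P.weylGroup ℂ,
        C' * (small b t).cup = (small b t).cup * C' ∧ C'.det ≠ 0 ∧
        M.C = C' * (small b t).twist * chernMatrix b v ∧
        ∀ (x y : KClass P) (w : ℂ), flatPairing M w
          ((C' * (small b t).twist).mulVec (chern b x))
          ((C' * (small b t).twist).mulVec (chern b y)) = euler b x y) ∧
      ∀ Z, IsStandard (small b t) Z → ∀ w,
        M.Xminus w = (Complex.I / (Real.sqrt (2 * Real.pi) : ℂ)) ^ (pos b).card •
          (Z w * gammaOp b t * (small b t).twist * chernMatrix b v) := by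
  obtain ⟨τ, rfl⟩ := tp_surj b hω t
  obtain ⟨v, hv, hS, hC, hX⟩ := final_flag b (tp ω τ) (Zs_std b (tp ω τ)) M
  have hasym := asym_of_data b hω τ M hv (const_ne _) hX
  have hmut := mut_all b he hω hasym
  have hL : (box r r).map (fun μ => twK b hω μ (toK b oneK)) =
      ((box r r).map fun μ => lineB (P := P) (∑ k, (μ k : ℂ) • ω k)).map (toK b) := by
    rw [List.map_map]
    exact List.map_congr_left fun μ _ => (lineB_eq b hω μ).symm
  rw [hL] at hmut
  obtain ⟨L', h1, h2⟩ := lift_mut b hmut
  have hlen : L'.length = Fintype.card P.weylGroup := by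
    have := congrArg List.length h2
    rwa [List.length_map, List.length_ofFn] at this
  let v' : Fin (Fintype.card P.weylGroup) → KClass P := fun j => L'.get (j.cast hlen.symm)
  have hL' : List.ofFn v' = L' := by
    apply List.ext_get
    · rw [List.length_ofFn, hlen]
    · intro n h3 h4
      simp [v']
  have hch : ∀ j, chern b (v' j) = chern b (v j) := by
    intro j
    have h3 : (L'.map (toK b))[j.val]'(by rw [List.length_map, hlen]; exact j.isLt) =
        (List.ofFn fun j => toK b (v j))[j.val]'(by rw [List.length_ofFn]; exact j.isLt) := by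
      simp only [h2]
    rw [List.getElem_map, List.getElem_ofFn] at h3
    exact congrArg Subtype.val h3
  have hcM : chernMatrix b v' = chernMatrix b v := by
    ext u j
    exact congrFun (hch j) u
  have heu : ∀ i j, euler b (v' i) (v' j) = euler b (v i) (v j) := fun i j =>
    euler_congr b (hch i) (hch j)
  refine ⟨v', ?_, ⟨?_, ?_, ?_, ?_⟩, ?_, ?_, ?_⟩
  · rw [hL', eq_box hB hB']
    exact h1
  · intro x
    obtain ⟨c, hc⟩ := hv.generate x
    exact ⟨c, by rw [hc]; exact Finset.sum_congr rfl fun j _ => by rw [hch]⟩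
  · have h3 : (fun j => chern b (v' j)) = fun j => chern b (v j) := funext hch
    rw [h3]
    exact hv.independent
  · intro i
    rw [heu]
    exact hv.diag i
  · intro i j hij
    rw [heu]
    exact hv.lower i j hij
  · intro i j
    rw [heu]
    exact hS i j
  · rw [hcM]
    exact hC
  · intro Z hZ w
    rw [hcM, Zs_eq b _ hZ]
    exact hX w

end Pool.Agent.FLO
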