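import Pool.Agent.FLO.GLip

/-!
# FLO-GBd: the growth is locally uniformly Lipschitz continuous in `t`
-/

set_option autoImplicit false
set_option linter.unusedSectionVars false

open scoped BigOperators Topology

namespace Pool.Agent.FLO

open Pool.Agent.FLG Pool.Agent.FLG.Flag

variable {ι V V' : Type} [Fintype ι] [AddCommGroup V] [Module ℂ V] [AddCommGroup V'] [Module ℂ V']
  {P : RootPairing ι ℂ V V'} [P.IsCrystallographic] (b : P.Base) [P.IsRootSystem] [P.IsReduced]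
  [Fintype P.weylGroup] [DecidableEq P.weylGroup] {r : ℕ} (ω : Fin r → V)

private theorem gbd_co (P : RootPairing ι ℂ V V') (ω : Fin r → V) (i : ι) (x : Fin r → ℂ) :
    ‖P.coroot' i (tp ω x)‖ ≤ (∑ j, ∑ k, ‖P.coroot' j (ω k)‖) * ‖x‖ := by
  rw [tp_apply, map_sum]
  calc ‖∑ k, P.coroot' i (x k • ω k)‖ ≤ ∑ k, ‖P.coroot' i (x k • ω k)‖ := norm_sum_le _ _
    _ ≤ ∑ k, ‖P.coroot' i (ω k)‖ * ‖x‖ := by
      refine Finset.sum_le_sum fun k _ => ?_
      rw [map_smul, smul_eq_mul, norm_mul, mul_comm]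
      exact mul_le_mul_of_nonneg_left (norm_le_pi_norm x k) (norm_nonneg _)
    _ = (∑ k, ‖P.coroot' i (ω k)‖) * ‖x‖ := by rw [Finset.sum_mul]
    _ ≤ _ := by
      refine mul_le_mul_of_nonneg_right ?_ (norm_nonneg _)
      exact Finset.single_le_sum (f := fun j => ∑ k, ‖P.coroot' j (ω k)‖)
        (fun j _ => Finset.sum_nonneg fun k _ => norm_nonneg _) (Finset.mem_univ i)

private theorem gbd_mul (t h : V) (u w : P.weylGroup) {m e : ℝ} (he : 0 ≤ m)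
    (h1 : ∀ i, ‖P.coroot' i h‖ ≤ m) (h2 : ∀ i, ‖P.coroot' i t‖ ≤ e) :
    ‖mul b t h u w‖ ≤ (pos b).card * (m * (1 + Real.exp e)) := by
  classical
  have h3 : mul b t h u w = ∑ i ∈ pos b, ((if u = w * RootPairing.weylGroup.ofIdx P i ∧
      len b u = len b w + 1 then P.coroot' i h else 0) +
      if u = w * RootPairing.weylGroup.ofIdx P i ∧ (len b u : ℂ) + P.coroot' i (c₁ b) =
        len b w + 1 then P.coroot' i h * Complex.exp (P.coroot' i t) else 0) := by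
    rw [Finset.sum_add_distrib]
    unfold mul cup
    rw [Matrix.add_apply, Matrix.of_apply, Matrix.of_apply]
    congr 1 <;> exact Finset.sum_congr rfl fun i _ => by congr
  rw [h3]
  refine (norm_sum_le _ _).trans ?_
  rw [← nsmul_eq_mul]
  refine Finset.sum_le_card_nsmul _ _ _ fun i _ => ?_
  refine (norm_add_le _ _).trans ?_
  rw [mul_add, mul_one]
  refine add_le_add ?_ ?_
  · split_ifs
    · exact h1 i
    · rw [norm_zero]
      exact he
  · split_ifs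
    · rw [norm_mul, Complex.norm_exp]
      refine mul_le_mul (h1 i) ?_ (Real.exp_pos _).le he
      exact Real.exp_le_exp.2 ((Complex.re_le_norm _).trans (h2 i))
    · rw [norm_zero]
      exact mul_nonneg he (Real.exp_pos _).le

theorem mul_bd (R : ℝ) : ∃ C : ℝ, 0 < C ∧ ∀ τ τ' : Fin r → ℂ, ‖τ‖ ≤ R → ‖τ'‖ ≤ R →
    ∀ s ∈ Set.Icc (0 : ℝ) 1, ∀ u w,
      ‖mul b (tp ω τ + (s : ℂ) • tp ω (τ' - τ)) (tp ω (τ' - τ)) u w‖ ≤ C * ‖τ' - τ‖ := by
  obtain ⟨c, hc⟩ : ∃ c : ℝ, c = ∑ j, ∑ k, ‖P.coroot' j (ω k)‖ := ⟨_, rfl⟩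
  have hc0 : 0 ≤ c := by
    rw [hc]
    exact Finset.sum_nonneg fun j _ => Finset.sum_nonneg fun k _ => norm_nonneg _
  have hp : 0 ≤ (pos b).card * (c * (1 + Real.exp (c * R))) := by positivity
  refine ⟨(pos b).card * (c * (1 + Real.exp (c * R))) + 1, by linarith, ?_⟩
  intro τ τ' hτ hτ' s hs u w
  have h1 : ∀ i, ‖P.coroot' i (tp ω (τ' - τ))‖ ≤ c * ‖τ' - τ‖ := by
    intro i
    rw [hc]
    exact gbd_co P ω i _
  have h2 : ∀ i, ‖P.coroot' i (tp ω τ + (s : ℂ) • tp ω (τ' - τ))‖ ≤ c * R := by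
    intro i
    rw [← map_smul, ← map_add]
    refine le_trans (by rw [hc]; exact gbd_co P ω i _) (mul_le_mul_of_nonneg_left ?_ hc0)
    have h3 : τ + (s : ℂ) • (τ' - τ) = ((1 - s : ℝ) : ℂ) • τ + ((s : ℝ) : ℂ) • τ' := by
      push_cast
      module
    rw [h3]
    refine (norm_add_le _ _).trans ?_
    rw [norm_smul, norm_smul, Complex.norm_real, Complex.norm_real, Real.norm_eq_abs,
      Real.norm_eq_abs, abs_of_nonneg hs.1, abs_of_nonneg (by linarith [hs.2])]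
    have h4 := mul_le_mul_of_nonneg_left hτ (by linarith [hs.2] : (0 : ℝ) ≤ 1 - s)
    have h5 := mul_le_mul_of_nonneg_left hτ' hs.1
    linarith
  refine (gbd_mul b _ _ u w (by positivity) h1 h2).trans ?_
  have h3 : 0 ≤ ‖τ' - τ‖ := norm_nonneg _
  have h4 : (pos b).card * (c * ‖τ' - τ‖ * (1 + Real.exp (c * R))) =
      (pos b).card * (c * (1 + Real.exp (c * R))) * ‖τ' - τ‖ := by ring
  rw [h4]
  nlinarith

theorem GF_lip (R : ℝ) : ∃ C : ℝ, 0 < C ∧ ∀ τ τ' : Fin r → ℂ, ‖τ‖ ≤ R → ‖τ'‖ ≤ R →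
    ∀ (ψ h : ℝ) (x : P.weylGroup → ℂ), x ∈ GF b (tp ω τ) ψ h →
      x ∈ GF b (tp ω τ') ψ (h + C * ‖τ' - τ‖) := by
  obtain ⟨C, hC0, hC⟩ := mul_bd b ω R
  have h0 : (0 : ℝ) < Fintype.card P.weylGroup := by exact_mod_cast Fintype.card_pos
  refine ⟨Fintype.card P.weylGroup * C, mul_pos h0 hC0, ?_⟩
  intro τ τ' hτ hτ' ψ h x hx
  have h1 := Fx_gro b (tp ω τ) (tp ω (τ' - τ)) (hC τ τ' hτ hτ') ψ h x hx
  have h2 : tp ω τ + tp ω (τ' - τ) = tp ω τ' := by
    rw [← map_add]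
    congr 1
    abel
  rw [h2, ← mul_assoc] at h1
  exact h1

end Pool.Agent.FLO
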