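import Pool.Agent.FLG.Z.Dense
import Pool.Agent.FLO.GMat

/-!
# FLO-GCh: Chern characters: reality, twists by line bundles, duals (proved, helper77)
-/

set_option autoImplicit false
set_option linter.unusedSectionVars false

open scoped BigOperators Topology ComplexConjugate

namespace Pool.Agent.FLO

open Pool.Agent.FLG Pool.Agent.FLG.Flag

variable {ι V V' : Type} [Fintype ι] [AddCommGroup V] [Module ℂ V] [AddCommGroup V'] [Module ℂ V']
  {P : RootPairing ι ℂ V V'} [P.IsCrystallographic] (b : P.Base) [P.IsRootSystem] [P.IsReduced]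
  [Fintype P.weylGroup] [DecidableEq P.weylGroup]

private theorem gch_cup_real (x : {μ : V // ∀ i, ∃ n : ℤ, P.coroot' i μ = n})
    (u w : P.weylGroup) : conj (cup b x.1 u w) = cup b x.1 u w := by
  unfold cup
  rw [Matrix.of_apply, map_sum]
  refine Finset.sum_congr rfl (fun i _ => ?_)
  obtain ⟨n, hn⟩ := x.2 i
  split_ifs
  · rw [hn, map_intCast]
  · exact map_zero _

private theorem gch_exp_real (x : {μ : V // ∀ i, ∃ n : ℤ, P.coroot' i μ = n})
    (u w : P.weylGroup) :
    conj (NormedSpace.exp (cup b x.1) u w) = NormedSpace.exp (cup b x.1) u w := by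
  have h1 : (cup b x.1).conjTranspose = (cup b x.1).transpose := by
    ext i j
    rw [Matrix.conjTranspose_apply, Matrix.transpose_apply]
    exact gch_cup_real b x j i
  have h2 := Matrix.exp_conjTranspose (cup b x.1)
  rw [h1, Matrix.exp_transpose] at h2
  have h3 := congrFun (congrFun h2 w) u
  rw [Matrix.conjTranspose_apply, Matrix.transpose_apply] at h3
  exact h3.symm

theorem ch_real (x : KClass P) (u : P.weylGroup) : conj (chern b x u) = chern b x u := by
  unfold chern Finsupp.sum
  rw [map_sum]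
  refine Finset.sum_congr rfl (fun ν _ => ?_)
  change conj (((x ν : ℤ) : ℂ) * NormedSpace.exp (cup b ν.1) u 1) =
    ((x ν : ℤ) : ℂ) * NormedSpace.exp (cup b ν.1) u 1
  rw [map_mul, map_intCast, gch_exp_real]

/-- the twist of a class by the line bundle `L_μ` -/
noncomputable def tws (μ : {μ : V // ∀ i, ∃ n : ℤ, P.coroot' i μ = n}) (x : KClass P) : KClass P :=
  x.mapDomain fun ν => ⟨ν.1 + μ.1, fun i => by
    obtain ⟨m, hm⟩ := ν.2 i
    obtain ⟨n, hn⟩ := μ.2 i
    exact ⟨m + n, by rw [map_add, hm, hn]; push_cast; ring⟩⟩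

/-- the dual of a class -/
noncomputable def dlK (x : KClass P) : KClass P :=
  x.mapDomain fun ν => ⟨-ν.1, fun i => by
    obtain ⟨m, hm⟩ := ν.2 i
    exact ⟨-m, by rw [map_neg, hm]; push_cast; ring⟩⟩

private theorem gch_chern (x : KClass P) (u : P.weylGroup) :
    chern b x u = x.sum fun μ m => (m : ℂ) * NormedSpace.exp (cup b μ.1) u 1 := rfl

private theorem gch_cup_add (h h' : V) : cup b (h + h') = cup b h + cup b h' := by
  have h1 := cup_lin b 1 1 h h'
  rwa [one_smul, one_smul, one_smul, one_smul] at h1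

private theorem gch_cup_neg (h : V) : cup b (-h) = -cup b h := by
  have h1 := cup_lin b (-1) 0 h h
  rwa [neg_smul, one_smul, zero_smul, add_zero, neg_smul, one_smul, zero_smul, add_zero] at h1

private theorem gch_exp_add (h h' : V) :
    NormedSpace.exp (cup b (h' + h)) = NormedSpace.exp (cup b h) * NormedSpace.exp (cup b h') := by
  rw [add_comm h' h, gch_cup_add]
  exact Matrix.exp_add_of_commute _ _ (cup_comm' b h h')

theorem ch_tws (μ : {μ : V // ∀ i, ∃ n : ℤ, P.coroot' i μ = n}) (x : KClass P) :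
    chern b (tws μ x) = (NormedSpace.exp (cup b μ.1)).mulVec (chern b x) := by
  funext u
  rw [gch_chern]
  unfold tws
  rw [Finsupp.sum_mapDomain_index]
  · unfold Matrix.mulVec dotProduct
    simp only [gch_chern]
    unfold Finsupp.sum
    simp only [Finset.mul_sum]
    rw [Finset.sum_comm]
    refine Finset.sum_congr rfl (fun ν _ => ?_)
    rw [gch_exp_add, Matrix.mul_apply, Finset.mul_sum]
    refine Finset.sum_congr rfl (fun w _ => ?_)
    ring
  · intro ν
    rw [Int.cast_zero, zero_mul]
  · intro ν m n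
    rw [Int.cast_add, add_mul]

private theorem gch_len_one : len b (1 : P.weylGroup) = 0 := by
  classical
  unfold len
  rw [Finset.card_eq_zero, Finset.filter_eq_empty_iff]
  intro i hi
  rw [map_one, not_not]
  exact (Finset.mem_filter.1 hi).2

private theorem gch_exp_neg (h : V) (u : P.weylGroup) :
    NormedSpace.exp (cup b (-h)) u 1 = (-1) ^ len b u * NormedSpace.exp (cup b h) u 1 := by
  let S : Matrix P.weylGroup P.weylGroup ℂ := Matrix.diagonal fun w => (-1) ^ len b w
  have hSS : S * S = 1 := by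
    rw [Matrix.diagonal_mul_diagonal, ← Matrix.diagonal_one]
    congr 1
    funext w
    rw [← mul_pow, neg_mul_neg, one_mul, one_pow]
  let U : (Matrix P.weylGroup P.weylGroup ℂ)ˣ := ⟨S, S, hSS, hSS⟩
  have h1 : cup b (-h) = S * cup b h * S := by
    rw [gch_cup_neg]
    ext v w
    rw [Matrix.neg_apply, Matrix.mul_diagonal, Matrix.diagonal_mul]
    by_cases hz : cup b h v w = 0
    · rw [hz]; ring
    · rw [cup_deg b hz, pow_succ]
      have h3 : ((-1 : ℂ) ^ len b w) * (-1) ^ len b w = 1 := by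
        rw [← mul_pow, neg_mul_neg, one_mul, one_pow]
      linear_combination (cup b h v w) * h3
  have h2 := Matrix.exp_units_conj U (cup b h)
  have h4 : NormedSpace.exp (cup b (-h)) = S * NormedSpace.exp (cup b h) * S := by
    rw [h1]
    exact h2
  rw [h4, Matrix.mul_diagonal, Matrix.diagonal_mul, gch_len_one, pow_zero, mul_one]

theorem ch_dlK (x : KClass P) (u : P.weylGroup) :
    chern b (dlK x) u = (-1) ^ len b u * chern b x u := by
  rw [gch_chern, gch_chern]
  unfold dlK
  rw [Finsupp.sum_mapDomain_index]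
  · unfold Finsupp.sum
    rw [Finset.mul_sum]
    refine Finset.sum_congr rfl (fun ν _ => ?_)
    change ((x ν : ℤ) : ℂ) * NormedSpace.exp (cup b (-ν.1)) u 1 =
      (-1) ^ len b u * (((x ν : ℤ) : ℂ) * NormedSpace.exp (cup b ν.1) u 1)
    rw [gch_exp_neg]
    ring
  · intro ν
    rw [Int.cast_zero, zero_mul]
  · intro ν m n
    rw [Int.cast_add, add_mul]

theorem euler_tws (μ : {μ : V // ∀ i, ∃ n : ℤ, P.coroot' i μ = n}) (x y : KClass P) :
    euler b (tws μ x) (tws μ y) = euler b x y := by
  unfold euler tws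
  rw [Finsupp.sum_mapDomain_index]
  · unfold Finsupp.sum
    refine Finset.sum_congr rfl (fun ν _ => ?_)
    have h1 := Finsupp.sum_mapDomain_index (s := y)
      (f := fun ν : {μ : V // ∀ i, ∃ n : ℤ, P.coroot' i μ = n} =>
        (⟨ν.1 + μ.1, fun i => by
          obtain ⟨m, hm⟩ := ν.2 i
          obtain ⟨n, hn⟩ := μ.2 i
          exact ⟨m + n, by rw [map_add, hm, hn]; push_cast; ring⟩⟩ :
          {μ : V // ∀ i, ∃ n : ℤ, P.coroot' i μ = n}))
      (h := fun ν' n => ((x ν : ℤ) : ℂ) * (n : ℂ) * weyl b (ν'.1 - (ν.1 + μ.1)))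
      (fun ν' => by rw [Int.cast_zero, mul_zero, zero_mul])
      (fun ν' m n => by rw [Int.cast_add]; ring)
    unfold Finsupp.sum at h1
    refine h1.trans (Finset.sum_congr rfl (fun ν' _ => ?_))
    change ((x ν : ℤ) : ℂ) * ((y ν' : ℤ) : ℂ) * weyl b ((ν'.1 + μ.1) - (ν.1 + μ.1)) =
      ((x ν : ℤ) : ℂ) * ((y ν' : ℤ) : ℂ) * weyl b (ν'.1 - ν.1)
    rw [add_sub_add_right_eq_sub]
  · intro ν
    unfold Finsupp.sum
    refine Finset.sum_eq_zero (fun ν' _ => ?_)
    beta_reduce
    rw [Int.cast_zero, zero_mul, zero_mul]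
  · intro ν m n
    unfold Finsupp.sum
    rw [← Finset.sum_add_distrib]
    refine Finset.sum_congr rfl (fun ν' _ => ?_)
    rw [Int.cast_add]
    ring

end Pool.Agent.FLO
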