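import Pool.Agent.FLG.Z.Fin
import Pool.Agent.FLO.GGro

/-!
# FLO-GDef: the solutions `F_x(t, z)` of the quantum connection of `G/B` and their growth
-/

set_option autoImplicit false
set_option linter.unusedSectionVars false

open scoped BigOperators Topology
open Filter

namespace Pool.Agent.FLO

open Pool.Agent.FLG Pool.Agent.FLG.Flag

variable {ι V V' : Type} [Fintype ι] [AddCommGroup V] [Module ℂ V] [AddCommGroup V'] [Module ℂ V']
  {P : RootPairing ι ℂ V V'} [P.IsCrystallographic] (b : P.Base) [P.IsRootSystem] [P.IsReduced]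
  [Fintype P.weylGroup] [DecidableEq P.weylGroup]

/-- the standard solution -/
noncomputable def Zs (t : V) : ℂ → Matrix P.weylGroup P.weylGroup ℂ := (exists_standard b t).choose

theorem Zs_std (t : V) : IsStandard (small b t) (Zs b t) := (exists_standard b t).choose_spec.1

theorem Zs_eq (t : V) {Z : ℂ → Matrix P.weylGroup P.weylGroup ℂ} (h : IsStandard (small b t) Z) :
    Z = Zs b t := (exists_standard b t).choose_spec.2 Z h

/-- the solution `Z(z) e^{t + πi c_1} Γ̂ (2πi)^deg x` -/
noncomputable def Fx (t : V) (x : P.weylGroup → ℂ) (w : ℂ) : P.weylGroup → ℂ :=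
  (Zs b t w * gammaOp b t * (small b t).twist).mulVec x

/-- the `x` whose solution has growth `≤ h` in the direction `ψ` -/
noncomputable def GF (t : V) (ψ h : ℝ) : AddSubgroup (P.weylGroup → ℂ) where
  carrier := {x | Gro (fun s => Fx b t x (s + ψ * Complex.I)) h}
  zero_mem' := by
    show Gro _ h
    unfold Fx
    simp only [Matrix.mulVec_zero]
    exact Gro.zero h
  add_mem' := by
    intro x y hx hy
    show Gro _ h
    unfold Fx
    simp only [Matrix.mulVec_add]
    exact Gro.add hx hy
  neg_mem' := by
    intro x hx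
    show Gro _ h
    unfold Fx
    simp only [Matrix.mulVec_neg]
    exact Gro.neg hx

theorem mem_GF {t : V} {ψ h : ℝ} {x : P.weylGroup → ℂ} :
    x ∈ GF b t ψ h ↔ Gro (fun s => Fx b t x (s + ψ * Complex.I)) h := Iff.rfl

/-- the Chern character as a homomorphism -/
noncomputable def chHom : KClass P →+ (P.weylGroup → ℂ) where
  toFun := chern b
  map_zero' := by
    funext u
    exact Finsupp.sum_zero_index
  map_add' x y := by
    funext u
    unfold chern
    rw [Pi.add_apply]
    exact Finsupp.sum_add_index' (by intro; simp) (by intro a m n; push_cast; ring)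

/-- the lattice `ch(K_0(X))` -/
noncomputable def Kc : AddSubgroup (P.weylGroup → ℂ) := (chHom b).range

theorem mem_Kc {x : P.weylGroup → ℂ} : x ∈ Kc b ↔ ∃ v : KClass P, chern b v = x := Iff.rfl

/-- the point with the coordinates `τ` in the basis `ω` of `H^2` -/
noncomputable def tp {r : ℕ} (ω : Fin r → V) : (Fin r → ℂ) →ₗ[ℂ] V :=
  Fintype.linearCombination ℂ ω

theorem tp_apply {r : ℕ} (ω : Fin r → V) (τ : Fin r → ℂ) : tp ω τ = ∑ k, τ k • ω k :=
  Fintype.linearCombination_apply ℂ _ τ

/-- `ω` is the basis of the fundamental weights, in the order `e` of the simple roots -/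
def IsFund {r : ℕ} (e : Fin r ≃ b.support) (ω : Fin r → V) : Prop :=
  ∀ i k, P.coroot' (e i) (ω k) = if i = k then 1 else 0

end Pool.Agent.FLO
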