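import Pool.Agent.FLG.Z.Dense
import Pool.Agent.FLO.GDef

/-!
# FLO-GChi: the Euler form on the lattice `ch(K_0(X))` is bilinear, nondegenerate and integral
-/

set_option autoImplicit false
set_option linter.unusedSectionVars false

open scoped BigOperators Topology ComplexConjugate

namespace Pool.Agent.FLO

open Pool.Agent.FLG Pool.Agent.FLG.Flag

/-- at most one direction of a half circle is bad -/
private theorem bad_unique {d : ℂ} (hd : d ≠ 0) {φ ψ : ℝ} (hφ : φ ∈ Set.Ico 0 Real.pi)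
    (hψ : ψ ∈ Set.Ico 0 Real.pi) (h1 : (d * Complex.exp (-φ * Complex.I)).re = 0)
    (h2 : (d * Complex.exp (-ψ * Complex.I)).re = 0) : φ = ψ := by
  have key : ∀ θ : ℝ, (d * Complex.exp (-θ * Complex.I)).re =
      d.re * Real.cos θ + d.im * Real.sin θ := by
    intro θ
    have h : (-(θ : ℂ) * Complex.I) = ((-θ : ℝ) : ℂ) * Complex.I := by push_cast; ring
    rw [h, Complex.mul_re, Complex.exp_ofReal_mul_I_re, Complex.exp_ofReal_mul_I_im, Real.cos_neg,
      Real.sin_neg]
    ring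
  rw [key] at h1 h2
  have h3 : Real.sin (φ - ψ) = 0 := by
    rw [Real.sin_sub]
    by_contra hne
    have h4 : d.re * (Real.sin φ * Real.cos ψ - Real.cos φ * Real.sin ψ) = 0 := by
      linear_combination Real.sin φ * h2 - Real.sin ψ * h1
    have h5 : d.im * (Real.sin φ * Real.cos ψ - Real.cos φ * Real.sin ψ) = 0 := by
      linear_combination Real.cos ψ * h1 - Real.cos φ * h2
    have h6 : d.re = 0 := (mul_eq_zero.1 h4).resolve_right hne
    have h7 : d.im = 0 := (mul_eq_zero.1 h5).resolve_right hne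
    exact hd (Complex.ext h6 h7)
  have h4 := (Real.sin_eq_zero_iff_of_lt_of_lt (by linarith [hφ.1, hψ.2]) (by linarith [hφ.2, hψ.1])).1 h3
  linarith

theorem exists_admS {κ : Type} [Fintype κ] [DecidableEq κ] (X : FLG.Small κ) :
    ∃ φ : ℝ, IsAdmissible X φ := by
  classical
  let R : Finset ℂ := X.mul.charpoly.roots.toFinset
  have hR : ∀ x, X.mul.charpoly.IsRoot x → x ∈ R := by
    intro x hx
    rw [Multiset.mem_toFinset, Polynomial.mem_roots (Matrix.charpoly_monic _).ne_zero]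
    exact hx
  let B : Set ℝ := ⋃ x ∈ (R : Set ℂ), ⋃ y ∈ (R : Set ℂ), {φ : ℝ | φ ∈ Set.Ico 0 Real.pi ∧ x ≠ y ∧
    ((x - y) * Complex.exp (-φ * Complex.I)).re = 0}
  have hB : B.Finite := by
    refine Set.Finite.biUnion R.finite_toSet fun x _ => Set.Finite.biUnion R.finite_toSet fun y _ => ?_
    refine Set.Subsingleton.finite ?_
    rintro φ ⟨h1, h2, h3⟩ ψ ⟨h4, h5, h6⟩
    exact bad_unique (sub_ne_zero.2 h2) h1 h4 h3 h6
  have hI : (Set.Ico 0 Real.pi).Infinite := Set.Ico_infinite Real.pi_pos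
  obtain ⟨φ, hφ, hφB⟩ := hI.exists_notMem_finite hB
  refine ⟨φ, fun x y hx hy hxy h => hφB ?_⟩
  simp only [B, Set.mem_iUnion]
  exact ⟨x, hR x hx, y, hR y hy, hφ, hxy, h⟩

variable {ι V V' : Type} [Fintype ι] [AddCommGroup V] [Module ℂ V] [AddCommGroup V'] [Module ℂ V']
  {P : RootPairing ι ℂ V V'} [P.IsCrystallographic] (b : P.Base) [P.IsRootSystem] [P.IsReduced]
  [Fintype P.weylGroup] [DecidableEq P.weylGroup]

/-- monodromy data exist at some point -/
private theorem exists_mono : ∃ t : V,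
    Nonempty (MonodromyData (small b t) (Fintype.card P.weylGroup)) := by
  obtain ⟨t, -, ht⟩ := dense_flag b 0 one_pos
  obtain ⟨φ, hφ⟩ := exists_admS (small b t)
  obtain ⟨M, -⟩ := exists_data_small' b t ht hφ
  exact ⟨t, ⟨M⟩⟩

private theorem dot_aux {κ : Type} [Fintype κ] (A B K G : Matrix κ κ ℂ) (x y : κ → ℂ) :
    dotProduct (A.mulVec (K.mulVec x)) (G.mulVec (B.mulVec (K.mulVec y))) =
      dotProduct x (((A * K).transpose * (G * (B * K))).mulVec y) := by
  have h1 : ((A * K).transpose * (G * (B * K))).mulVec y =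
      (A * K).transpose.mulVec (G.mulVec (B.mulVec (K.mulVec y))) := by
    simp only [Matrix.mulVec_mulVec]
  rw [h1, Matrix.dotProduct_mulVec x, Matrix.vecMul_transpose, Matrix.mulVec_mulVec x A K]

theorem euler_ch : ∃ Q : Matrix P.weylGroup P.weylGroup ℂ, ∀ x y : KClass P,
    euler b x y = dotProduct (chern b x) (Q.mulVec (chern b y)) := by
  obtain ⟨t, ⟨M⟩⟩ := exists_mono b
  obtain ⟨v, -, -, ⟨C', -, -, -, hC⟩, -⟩ := final_flag b t (Zs_std b t) M
  refine ⟨(zSol (small b t) M.𝒮 (0 + Real.pi * Complex.I) * (C' * (small b t).twist)).transpose *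
    ((small b t).pair * (zSol (small b t) M.𝒮 0 * (C' * (small b t).twist))), fun x y => ?_⟩
  rw [← hC x y 0]
  exact dot_aux _ _ _ _ _ _

theorem euler_nondeg {x : KClass P} (h : ∀ y, euler b y x = 0) : chern b x = 0 := by
  classical
  obtain ⟨t, ⟨M⟩⟩ := exists_mono b
  obtain ⟨v, hv, -⟩ := final_flag b t (Zs_std b t) M
  obtain ⟨Q, hQ⟩ := euler_ch b
  obtain ⟨c, hc⟩ := hv.generate x
  have h1 : ∀ y, euler b y x = ∑ j, (c j : ℂ) * euler b y (v j) := by
    intro y
    rw [hQ, hc, Matrix.mulVec_sum, dotProduct_sum]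
    refine Finset.sum_congr rfl fun j _ => ?_
    rw [hQ, ← Int.cast_smul_eq_zsmul ℂ, Matrix.mulVec_smul, dotProduct_smul, smul_eq_mul]
  have h2 : ∀ j, c j = 0 := by
    by_contra hne
    push Not at hne
    obtain ⟨j0, hj0⟩ := hne
    have hS : (Finset.univ.filter fun j => c j ≠ 0).Nonempty := ⟨j0, by simp [hj0]⟩
    obtain ⟨j, hj, hmax⟩ := Finset.exists_max_image _ id hS
    have hj' : c j ≠ 0 := (Finset.mem_filter.1 hj).2
    have h3 := h1 (v j)
    rw [h, Finset.sum_eq_single j] at h3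
    · rw [hv.diag, mul_one] at h3
      exact hj' (by exact_mod_cast h3.symm)
    · intro k _ hk
      rcases lt_or_gt_of_ne hk with hlt | hgt
      · rw [hv.lower j k hlt, mul_zero]
      · have h4 : c k = 0 := by
          by_contra hck
          exact absurd (hmax k (by simp [hck])) (not_le.2 hgt)
        rw [h4, Int.cast_zero, zero_mul]
    · intro hj
      exact absurd (Finset.mem_univ j) hj
  rw [hc]
  exact Finset.sum_eq_zero fun j _ => by rw [h2 j, zero_smul]

theorem euler_int (x y : KClass P) : ∃ m : ℤ, euler b x y = m := by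
  obtain ⟨D, ⟨m⟩⟩ := exists_model P b
  rw [← m.euler_fwd]
  obtain ⟨F, hF⟩ := RS.exists_chi (D := D)
    (RS.gkm_mul (RS.gkm_sK (RS.gkm_LR (RS.iR (m.fwd x)))) (RS.gkm_LR (RS.iR (m.fwd y))))
  have h1 := RS.eul_aR hF
  rw [RS.aR_iR, RS.aR_iR] at h1
  exact ⟨RS.aug F, by rw [← h1, RS.evK_aug]⟩

end Pool.Agent.FLO
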