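import Pool.Agent.FLO.GDef

/-!
# FLO-GCj: conjugation and monodromy of the standard solution

Conjugation: uniqueness of the standard solution; monodromy: the shape of the standard solution.
-/

set_option autoImplicit false
set_option linter.unusedSectionVars false

open scoped BigOperators Topology ComplexConjugate

namespace Pool.Agent.FLO

open Pool.Agent.FLG Pool.Agent.FLG.Flag

section aux

variable {κ : Type} [Fintype κ] [DecidableEq κ]

private theorem exp_map_conj (A : Matrix κ κ ℂ) :
    NormedSpace.exp (A.map (starRingEnd ℂ)) = (NormedSpace.exp A).map (starRingEnd ℂ) := by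
  have h1 : ∀ B : Matrix κ κ ℂ, B.map (starRingEnd ℂ) = B.conjTranspose.transpose := by
    intro B
    ext i j
    rfl
  rw [h1, h1, Matrix.exp_transpose, Matrix.exp_conjTranspose]

private theorem map_conj_mul (A B : Matrix κ κ ℂ) :
    (A * B).map (starRingEnd ℂ) = A.map (starRingEnd ℂ) * B.map (starRingEnd ℂ) :=
  Matrix.map_mul

private theorem map_conj_smul (c : ℂ) (A : Matrix κ κ ℂ) :
    (c • A).map (starRingEnd ℂ) = conj c • A.map (starRingEnd ℂ) := by
  ext i j
  simp only [Matrix.map_apply, Matrix.smul_apply, smul_eq_mul, map_mul]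

private theorem theta_conj (X : FLG.Small κ) : X.theta.map (starRingEnd ℂ) = X.theta := by
  ext i j
  simp only [FLG.Small.theta, Matrix.map_apply, Matrix.diagonal_apply]
  split_ifs
  · simp only [map_sub, map_div₀, map_natCast, map_ofNat]
  · exact map_zero _

private theorem standard_conj {X : FLG.Small κ} (hm : X.mul.map (starRingEnd ℂ) = X.mul)
    (hc : X.cup.map (starRingEnd ℂ) = X.cup) {Z : ℂ → Matrix κ κ ℂ} (h : IsStandard X Z) :
    IsStandard X fun w => (Z (conj w)).map (starRingEnd ℂ) := by
  obtain ⟨hs, M, hM, hZ⟩ := h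
  refine ⟨?_, fun z => (M (conj z)).map (starRingEnd ℂ), ?_, ?_⟩
  · intro w i j
    have h1 := (hs (conj w) i j).conj_conj
    rw [Complex.conj_conj] at h1
    have h2 : conj (((X.theta - Complex.exp (-(conj w)) • X.mul) * Z (conj w)) i j) =
        ((X.theta - Complex.exp (-w) • X.mul) * (Z (conj w)).map (starRingEnd ℂ)) i j := by
      have h3 : ((X.theta - Complex.exp (-(conj w)) • X.mul) * Z (conj w)).map (starRingEnd ℂ) =
          (X.theta - Complex.exp (-w) • X.mul) * (Z (conj w)).map (starRingEnd ℂ) := by
        rw [map_conj_mul]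
        congr 1
        rw [Matrix.map_sub _ (map_sub _), theta_conj, map_conj_smul, hm, ← Complex.exp_conj,
          map_neg, Complex.conj_conj]
      exact congrFun (congrFun h3 i) j
    rw [h2] at h1
    exact h1
  · intro i j
    have h1 : Filter.Tendsto (fun z : ℂ => conj z) (Bornology.cobounded ℂ)
        (Bornology.cobounded ℂ) := by
      rw [tendsto_norm_atTop_iff_cobounded.symm]
      simpa using tendsto_norm_cobounded_atTop (E := ℂ)
    have h2 := (Complex.continuous_conj.tendsto _).comp ((hM i j).comp h1)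
    have h3 : conj ((1 : Matrix κ κ ℂ) i j) = (1 : Matrix κ κ ℂ) i j := by
      rw [Matrix.one_apply]
      split_ifs
      · exact map_one _
      · exact map_zero _
    rw [h3] at h2
    exact h2
  · intro w
    show (Z (conj w)).map _ = _
    rw [hZ, map_conj_mul, map_conj_mul, ← exp_map_conj, ← exp_map_conj, map_conj_smul,
      map_conj_smul, theta_conj, hc, map_neg, Complex.conj_conj, Complex.exp_conj]

end aux

variable {ι V V' : Type} [Fintype ι] [AddCommGroup V] [Module ℂ V] [AddCommGroup V'] [Module ℂ V']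
  {P : RootPairing ι ℂ V V'} [P.IsCrystallographic] (b : P.Base) [P.IsRootSystem] [P.IsReduced]
  [Fintype P.weylGroup] [DecidableEq P.weylGroup]

omit [P.IsRootSystem] [P.IsReduced] [Fintype P.weylGroup] [DecidableEq P.weylGroup] in
private theorem c1_conj (i : ι) : conj (P.coroot' i (c₁ b)) = P.coroot' i (c₁ b) := by
  unfold c₁
  rw [map_sum, map_sum]
  refine Finset.sum_congr rfl fun j _ => ?_
  rw [P.root_coroot'_eq_pairing, ← P.algebraMap_pairingIn ℤ]
  exact map_intCast _ _

omit [P.IsRootSystem] [P.IsReduced] [Fintype P.weylGroup] [DecidableEq P.weylGroup] in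
private theorem cup_conj : (cup b (c₁ b)).map (starRingEnd ℂ) = cup b (c₁ b) := by
  ext u w
  simp only [cup, Matrix.map_apply, Matrix.of_apply, map_sum]
  refine Finset.sum_congr rfl fun i _ => ?_
  split_ifs
  · exact c1_conj b i
  · exact map_zero _

omit [P.IsRootSystem] [P.IsReduced] [Fintype P.weylGroup] [DecidableEq P.weylGroup] in
private theorem mul_conj' {t : V} (ht : ∀ i, (P.coroot' i t).im = 0) :
    (mul b t (c₁ b)).map (starRingEnd ℂ) = mul b t (c₁ b) := by
  unfold mul
  rw [Matrix.map_add _ (map_add _), cup_conj]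
  congr 1
  ext u w
  simp only [Matrix.map_apply, Matrix.of_apply, map_sum]
  refine Finset.sum_congr rfl fun i _ => ?_
  split_ifs
  · rw [map_mul, c1_conj, ← Complex.exp_conj, Complex.conj_eq_iff_im.2 (ht i)]
  · exact map_zero _

theorem Zs_conj {t : V} (ht : ∀ i, (P.coroot' i t).im = 0) (w : ℂ) (u v : P.weylGroup) :
    conj (Zs b t (conj w) u v) = Zs b t w u v := by
  have h := Zs_eq b t (standard_conj (X := small b t) (mul_conj' b ht) (cup_conj b)
    (Zs_std b t))
  exact congrFun (congrFun (congrFun h w) u) v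

theorem Zs_per (t : V) (w : ℂ) : Zs b t (w + 2 * Real.pi * Complex.I) =
    ((-1 : ℂ) ^ (pos b).card) • (Zs b t w *
      NormedSpace.exp (-(2 * Real.pi * Complex.I : ℂ) • cup b (c₁ b))) := by
  obtain ⟨_, M, _, hZ⟩ := Zs_std b t
  have h1 : NormedSpace.exp ((w + 2 * Real.pi * Complex.I) • (small b t).theta) =
      ((-1 : ℂ) ^ (pos b).card) • NormedSpace.exp (w • (small b t).theta) := by
    have h2 : ∀ c : ℂ, NormedSpace.exp (c • (small b t).theta) = Matrix.diagonal fun a =>
        Complex.exp (c * (((small b t).dim : ℂ) / 2 - (small b t).deg a)) := by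
      intro c
      unfold FLG.Small.theta
      rw [← Matrix.diagonal_smul, Matrix.exp_diagonal]
      congr 1
      funext a
      rw [Pi.coe_exp, ← Complex.exp_eq_exp_ℂ]
      rfl
    rw [h2, h2, ← Matrix.diagonal_smul]
    congr 1
    funext a
    show _ = (-1 : ℂ) ^ (pos b).card * _
    rw [add_mul, Complex.exp_add, mul_comm]
    congr 1
    show Complex.exp (2 * Real.pi * Complex.I * (((pos b).card : ℂ) / 2 - (len b a : ℂ))) = _
    rw [show (2 * Real.pi * Complex.I * (((pos b).card : ℂ) / 2 - (len b a : ℂ)) : ℂ) =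
      (pos b).card * (Real.pi * Complex.I) - (len b a : ℂ) * (2 * Real.pi * Complex.I) by ring,
      Complex.exp_sub, Complex.exp_nat_mul, Complex.exp_pi_mul_I, Complex.exp_nat_mul,
      Complex.exp_two_pi_mul_I, one_pow, div_one]
  have h3 : NormedSpace.exp (-(w + 2 * Real.pi * Complex.I) • (small b t).cup) =
      NormedSpace.exp (-w • (small b t).cup) *
        NormedSpace.exp (-(2 * Real.pi * Complex.I : ℂ) • cup b (c₁ b)) := by
    rw [← Matrix.exp_add_of_commute]
    · congr 1
      show _ = -w • (small b t).cup + -(2 * Real.pi * Complex.I : ℂ) • (small b t).cup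
      rw [← add_smul]
      congr 1
      ring
    · show Commute (-w • (small b t).cup) (-(2 * Real.pi * Complex.I : ℂ) • (small b t).cup)
      exact ((Commute.refl _).smul_left _).smul_right _
  rw [hZ, hZ w, h1, h3, Complex.exp_add, Complex.exp_two_pi_mul_I, mul_one, Matrix.smul_mul,
    Matrix.smul_mul, Matrix.mul_assoc, Matrix.mul_assoc, Matrix.mul_assoc]

end Pool.Agent.FLO
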