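import Pool.Agent.FLO.GInst

/-!
# FLO-GConn: the semisimple locus in `H^2` is connected
-/

set_option autoImplicit false
set_option linter.unusedSectionVars false

open scoped BigOperators Topology

namespace Pool.Agent.FLO

open Pool.Agent.FLG Pool.Agent.FLG.Flag

variable {ι V V' : Type} [Fintype ι] [AddCommGroup V] [Module ℂ V] [AddCommGroup V'] [Module ℂ V']
  {P : RootPairing ι ℂ V V'} [P.IsCrystallographic] (b : P.Base) [P.IsRootSystem] [P.IsReduced]
  [Fintype P.weylGroup] [DecidableEq P.weylGroup]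
  {r : ℕ} {e : Fin r ≃ b.support} {ω : Fin r → V} (hω : IsFund b e ω)

theorem flg_conn :
    IsPreconnected {t | ((flg b hω).spec t).card = Fintype.card P.weylGroup} := by
  refine isPreconnected_of_forall_pair fun t₀ h₀ t₁ h₁ => ?_
  let f : ℂ → Fin r → ℂ := fun z k => t₀ k + z * (t₁ k - t₀ k)
  have hf : ∀ k, Differentiable ℂ fun z => f z k := fun k => by
    show Differentiable ℂ fun z => t₀ k + z * (t₁ k - t₀ k)
    fun_prop
  have hf0 : f 0 = t₀ := by
    funext k
    simp [f]
  have hf1 : f 1 = t₁ := by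
    funext k
    simp [f]
  have hc : {z | ¬ (mul b (tp ω (f z)) (c₁ b)).charpoly.Separable}.Countable := by
    refine sep_countable (A := fun z => mul b (tp ω (f z)) (c₁ b))
      (fun i j => mul_diff b (c₁ b) i j f hf) (z₁ := 0) ?_
    show (mul b (tp ω (f 0)) (c₁ b)).charpoly.Separable
    rw [hf0]
    exact (card_roots_iff _).1 h₀
  have hpc := (hc.isPathConnected_compl_of_one_lt_rank (by
    rw [Complex.rank_real_complex]
    norm_num)).isConnected.isPreconnected
  refine ⟨f '' {z | ¬ (mul b (tp ω (f z)) (c₁ b)).charpoly.Separable}ᶜ, ?_, ?_, ?_, ?_⟩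
  · rintro _ ⟨z, hz, rfl⟩
    exact (card_roots_iff _).2 (not_not.1 hz)
  · refine ⟨0, not_not.2 ?_, hf0⟩
    show (mul b (tp ω (f 0)) (c₁ b)).charpoly.Separable
    rw [hf0]
    exact (card_roots_iff _).1 h₀
  · refine ⟨1, not_not.2 ?_, hf1⟩
    show (mul b (tp ω (f 1)) (c₁ b)).charpoly.Separable
    rw [hf1]
    exact (card_roots_iff _).1 h₁
  · refine hpc.image f ?_
    exact (continuous_pi fun k => (hf k).continuous).continuousOn

end Pool.Agent.FLO
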