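import Pool.Agent.FLO.GDyB

/-!
# FLO-GDyC: the transport for `z → ∞`
-/

set_option autoImplicit false

open scoped BigOperators Topology Nat
open Filter

namespace Pool.Agent.FLO

variable {κ : Type} [Fintype κ] [DecidableEq κ] {B : ℝ → Matrix κ κ ℂ}
  (hB : ∀ i j, Continuous fun s => B s i j) {C : ℝ}
  (hC : ∀ s ∈ Set.Icc (0 : ℝ) 1, ∀ i j, ‖B s i j‖ ≤ C) {deg : κ → ℕ} {Cl : Matrix κ κ ℂ}
  (hdeg : ∀ s i j, B s i j ≠ 0 → deg i ≤ deg j + 1)
  (hCl : ∀ s i j, deg i = deg j + 1 → B s i j = Cl i j)
  (hCl' : ∀ i j, Cl i j ≠ 0 → deg i = deg j + 1)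

include hCl' in
theorem cl_pow_deg (n : ℕ) (i j : κ) (h : (Cl ^ n) i j ≠ 0) : deg i = deg j + n := by
  induction n generalizing i j with
  | zero =>
    rw [pow_zero] at h
    by_contra hne
    apply h
    rw [Matrix.one_apply_ne]
    intro hij
    exact hne (by rw [hij, add_zero])
  | succ n ih =>
    rw [pow_succ', Matrix.mul_apply] at h
    obtain ⟨k, -, hk⟩ := Finset.exists_ne_zero_of_sum_ne_zero h
    have h1 := hCl' i k (left_ne_zero_of_mul hk)
    have h2 := ih k j (right_ne_zero_of_mul hk)
    omega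

include hB hdeg hCl hCl' in
theorem dyM_deg (n : ℕ) (s : ℝ) (i j : κ) :
    (dyM B n s i j ≠ 0 → deg i ≤ deg j + n) ∧
      (deg i = deg j + n → dyM B n s i j = (s : ℂ) ^ n / n ! * (Cl ^ n) i j) := by
  induction n generalizing s i j with
  | zero =>
    rw [dyM_zero]
    constructor
    · intro h
      by_contra hlt
      apply h
      rw [Matrix.one_apply_ne]
      intro hij
      exact hlt (by rw [hij]; omega)
    · intro _
      rw [pow_zero, pow_zero, Nat.factorial_zero, Nat.cast_one, div_one, one_mul]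
  | succ n ih =>
    have hder := fun s => dyM_deriv hB n s i j
    have hinit : dyM B (n + 1) 0 i j = 0 := by
      rw [dyM_init]
      rfl
    constructor
    · intro h
      by_contra hlt
      apply h
      have h0 : ∀ s : ℝ, (B s * dyM B n s) i j = 0 := by
        intro s
        rw [Matrix.mul_apply]
        refine Finset.sum_eq_zero fun k _ => ?_
        by_contra hk
        have h1 := hdeg s i k (left_ne_zero_of_mul hk)
        have h2 := (ih s k j).1 (right_ne_zero_of_mul hk)
        omega
      have h1 := is_const_of_deriv_eq_zero (𝕜 := ℝ) (f := fun s => dyM B (n + 1) s i j)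
        (fun s => (hder s).differentiableAt) (fun s => by rw [(hder s).deriv, h0]) s 0
      exact h1.trans hinit
    · intro hd
      have h0 : ∀ s : ℝ, (B s * dyM B n s) i j = (s : ℂ) ^ n / n ! * (Cl ^ (n + 1)) i j := by
        intro s
        rw [Matrix.mul_apply, pow_succ', Matrix.mul_apply, Finset.mul_sum]
        refine Finset.sum_congr rfl fun k _ => ?_
        by_cases hk : deg i = deg k + 1
        · rw [hCl s i k hk, (ih s k j).2 (by omega)]
          ring
        · have h2 : Cl i k = 0 := by
            by_contra h3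
            exact hk (hCl' i k h3)
          rw [h2, zero_mul, mul_zero]
          by_contra h4
          have h5 := hdeg s i k (left_ne_zero_of_mul h4)
          have h6 := (ih s k j).1 (right_ne_zero_of_mul h4)
          omega
      have hg : ∀ s : ℝ, HasDerivAt (fun s : ℝ => (s : ℂ) ^ (n + 1) / ((n + 1)! : ℕ) *
          (Cl ^ (n + 1)) i j) ((s : ℂ) ^ n / n ! * (Cl ^ (n + 1)) i j) s := by
        intro s
        have h1 : HasDerivAt (fun s : ℝ => (s : ℂ)) 1 s := (hasDerivAt_id s).ofReal_comp
        have h2 := ((h1.pow (n + 1)).div_const (((n + 1)! : ℕ) : ℂ)).mul_const ((Cl ^ (n + 1)) i j)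
        refine h2.congr_deriv ?_
        rw [Nat.factorial_succ]
        have h3 : ((n ! : ℕ) : ℂ) ≠ 0 := Nat.cast_ne_zero.2 (Nat.factorial_ne_zero n)
        have h4 : ((n : ℂ) + 1) ≠ 0 := Nat.cast_add_one_ne_zero n
        push_cast
        field_simp
      have h1 := is_const_of_deriv_eq_zero (𝕜 := ℝ) (f := fun s => dyM B (n + 1) s i j -
        (s : ℂ) ^ (n + 1) / ((n + 1)! : ℕ) * (Cl ^ (n + 1)) i j)
        (fun s => ((hder s).sub (hg s)).differentiableAt) (fun s => by
          have h5 := (hder s).sub (hg s)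
          rw [h0, sub_self] at h5
          exact h5.deriv) s 0
      have h2 : dyM B (n + 1) s i j - (s : ℂ) ^ (n + 1) / ((n + 1)! : ℕ) * (Cl ^ (n + 1)) i j =
          dyM B (n + 1) 0 i j - ((0 : ℝ) : ℂ) ^ (n + 1) / ((n + 1)! : ℕ) * (Cl ^ (n + 1)) i j := h1
      rw [hinit, Complex.ofReal_zero, zero_pow (Nat.succ_ne_zero n), zero_div, zero_mul,
        sub_zero] at h2
      exact sub_eq_zero.1 h2

include hB hC hdeg hCl hCl' in
theorem tm_lim (i j : κ) :
    Tendsto (fun z : ℂ => z ^ ((deg i : ℤ) - deg j) * TM B z⁻¹ i j) (Bornology.cobounded ℂ)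
      (𝓝 (NormedSpace.exp Cl i j)) := by
  have hD := fun n => dyM_deg hB hdeg hCl hCl' n 1 i j
  have hN := fun n => dyM_norm hB hC n i j
  -- the exponential
  have hexp : ∑' n : ℕ, ((n ! : ℂ)⁻¹ * (Cl ^ n) i j) = NormedSpace.exp Cl i j := by
    have hs : HasSum (fun n : ℕ => ((n ! : ℂ)⁻¹) • Cl ^ n) (NormedSpace.exp Cl) := by
      let _ : NormedRing (Matrix κ κ ℂ) := Matrix.linftyOpNormedRing
      let _ : NormedAlgebra ℂ (Matrix κ κ ℂ) := Matrix.linftyOpNormedAlgebra
      exact NormedSpace.exp_series_hasSum_exp' Cl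
    have hs2 := hs.map (Matrix.entryAddMonoidHom ℂ i j) (continuous_id.matrix_elem i j)
    exact hs2.tsum_eq
  rw [← hexp]
  have hlim : Tendsto (fun z : ℂ => ∑' n : ℕ, z ^ ((deg i : ℤ) - deg j) * (z⁻¹ ^ n * dyM B n 1 i j))
      (Bornology.cobounded ℂ) (𝓝 (∑' n : ℕ, ((n ! : ℂ)⁻¹ * (Cl ^ n) i j))) := by
    refine tendsto_tsum_of_dominated_convergence
      (bound := fun n : ℕ => (Fintype.card κ * C) ^ n / n !)
      (Real.summable_pow_div_factorial _) ?_ ?_
    · intro n
      have hne : ∀ᶠ z : ℂ in Bornology.cobounded ℂ, z ≠ 0 := by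
        have h1 : ({0} : Set ℂ)ᶜ ∈ Bornology.cobounded ℂ :=
          Bornology.isBounded_def.1 Bornology.isBounded_singleton
        exact h1
      rcases lt_trichotomy (deg i) (deg j + n) with h | h | h
      · have h0 : (Cl ^ n) i j = 0 := by
          by_contra h1
          have := cl_pow_deg hCl' n i j h1
          omega
        rw [h0, mul_zero]
        obtain ⟨m, hm⟩ : ∃ m : ℕ, deg j + n = deg i + (m + 1) := ⟨deg j + n - deg i - 1, by omega⟩
        have h2 : Tendsto (fun z : ℂ => z⁻¹ ^ (m + 1) * dyM B n 1 i j) (Bornology.cobounded ℂ)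
            (𝓝 0) := by
          have h3 := ((tendsto_inv₀_cobounded (α := ℂ)).pow (m + 1)).mul_const (dyM B n 1 i j)
          rw [zero_pow (Nat.succ_ne_zero m), zero_mul] at h3
          exact h3
        refine h2.congr' ?_
        filter_upwards [hne] with z hz
        rw [← mul_assoc]
        congr 1
        rw [← zpow_natCast z⁻¹ (m + 1), ← zpow_natCast z⁻¹ n, inv_zpow', inv_zpow', ← zpow_add₀ hz]
        congr 1
        push_cast
        omega
      · have h0 := (hD n).2 h
        rw [Complex.ofReal_one, one_pow, one_div] at h0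
        rw [← h0]
        refine tendsto_const_nhds.congr' ?_
        filter_upwards [hne] with z hz
        rw [← mul_assoc]
        have h2 : z ^ ((deg i : ℤ) - deg j) * z⁻¹ ^ n = 1 := by
          rw [← zpow_natCast z⁻¹ n, inv_zpow', ← zpow_add₀ hz]
          have h3 : (deg i : ℤ) - deg j + -(n : ℤ) = 0 := by omega
          rw [h3, zpow_zero]
        rw [h2, one_mul]
      · have h0 : (Cl ^ n) i j = 0 := by
          by_contra h1
          have := cl_pow_deg hCl' n i j h1
          omega
        have h1 : dyM B n 1 i j = 0 := by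
          by_contra h2
          have := (hD n).1 h2
          omega
        rw [h0, h1, mul_zero]
        simp only [mul_zero]
        exact tendsto_const_nhds
    · have h1 : ∀ᶠ z : ℂ in Bornology.cobounded ℂ, 1 ≤ ‖z‖ :=
        tendsto_norm_cobounded_atTop.eventually_ge_atTop 1
      filter_upwards [h1] with z hz n
      refine le_trans ?_ (hN n)
      by_cases h0 : dyM B n 1 i j = 0
      · rw [h0, mul_zero, mul_zero]
      · have h2 := (hD n).1 h0
        have hz0 : z ≠ 0 := by
          intro h
          rw [h, norm_zero] at hz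
          linarith
        rw [← mul_assoc, norm_mul]
        refine mul_le_of_le_one_left (norm_nonneg _) ?_
        obtain ⟨m, hm⟩ : ∃ m : ℕ, deg j + n = deg i + m := ⟨deg j + n - deg i, by omega⟩
        have h3 : z ^ ((deg i : ℤ) - deg j) * z⁻¹ ^ n = z⁻¹ ^ m := by
          rw [← zpow_natCast z⁻¹ m, ← zpow_natCast z⁻¹ n, inv_zpow', inv_zpow', ← zpow_add₀ hz0]
          congr 1
          omega
        rw [h3, norm_pow, norm_inv]
        exact pow_le_one₀ (by positivity) (inv_le_one_of_one_le₀ hz)
  refine hlim.congr fun z => ?_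
  rw [tsum_mul_left]
  rfl

end Pool.Agent.FLO
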