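import Pool.Agent.FLG.Small
import Mathlib

/-!
# FLO-GFlat: the standard solutions at two points are related by the transport

The gauge transformation by the transport `T` and the product rule.
-/

set_option autoImplicit false

open scoped BigOperators Topology
open Filter

namespace Pool.Agent.FLO

open Pool.Agent.FLG

private theorem gf_diag {κ : Type} [Fintype κ] [DecidableEq κ] (X : FLG.Small κ) (w : ℂ) :
    NormedSpace.exp (w • X.theta) =
      Matrix.diagonal fun a => Complex.exp (w * ((X.dim : ℂ) / 2 - X.deg a)) := by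
  unfold FLG.Small.theta
  rw [← Matrix.diagonal_smul, Matrix.exp_diagonal]
  congr 1
  funext a
  rw [Pi.coe_exp, Complex.exp_eq_exp_ℂ]
  rfl

theorem standard_flat {κ : Type} [Fintype κ] [DecidableEq κ] {X₀ X₁ : FLG.Small κ}
    (hdim : X₁.dim = X₀.dim) (hdeg : X₁.deg = X₀.deg) (hcup : X₁.cup = X₀.cup)
    {Cl : Matrix κ κ ℂ} (hcc : Cl * X₀.cup = X₀.cup * Cl) {T : ℂ → Matrix κ κ ℂ}
    (hT : ∀ w i j, HasDerivAt (fun w => T (Complex.exp (-w)) i j)
      (((X₀.theta - Complex.exp (-w) • X₁.mul) * T (Complex.exp (-w)) -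
        T (Complex.exp (-w)) * (X₀.theta - Complex.exp (-w) • X₀.mul)) i j) w)
    (hlim : ∀ i j, Tendsto (fun z : ℂ => z ^ ((X₀.deg i : ℤ) - X₀.deg j) * T z⁻¹ i j)
      (Bornology.cobounded ℂ) (𝓝 (NormedSpace.exp Cl i j)))
    {Z₀ : ℂ → Matrix κ κ ℂ} (hZ : IsStandard X₀ Z₀) :
    IsStandard X₁ fun w => T (Complex.exp (-w)) * Z₀ w * NormedSpace.exp (-Cl) := by
  obtain ⟨hsol, M₀, hM₀, hZM⟩ := hZ
  have hθ : X₁.theta = X₀.theta := by
    unfold FLG.Small.theta
    rw [hdim, hdeg]
  refine ⟨?_, fun z => (Matrix.of fun i j => z ^ ((X₀.deg i : ℤ) - X₀.deg j) * T z⁻¹ i j) * M₀ z *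
    NormedSpace.exp (-Cl), ?_, ?_⟩
  · intro w i j
    have hprod : HasDerivAt
        (fun w => ∑ b, (∑ a, T (Complex.exp (-w)) i a * Z₀ w a b) * NormedSpace.exp (-Cl) b j)
        (∑ b, (∑ a, (((X₀.theta - Complex.exp (-w) • X₁.mul) * T (Complex.exp (-w)) -
          T (Complex.exp (-w)) * (X₀.theta - Complex.exp (-w) • X₀.mul)) i a * Z₀ w a b +
          T (Complex.exp (-w)) i a * ((X₀.theta - Complex.exp (-w) • X₀.mul) * Z₀ w) a b)) *
          NormedSpace.exp (-Cl) b j) w :=
      HasDerivAt.fun_sum fun b _ =>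
        (HasDerivAt.fun_sum fun a _ => (hT w i a).fun_mul (hsol w a b)).mul_const _
    have hfun : (fun w => (T (Complex.exp (-w)) * Z₀ w * NormedSpace.exp (-Cl)) i j) =
        fun w => ∑ b, (∑ a, T (Complex.exp (-w)) i a * Z₀ w a b) * NormedSpace.exp (-Cl) b j := by
      funext w
      simp only [Matrix.mul_apply]
    rw [hfun]
    refine hprod.congr_deriv ?_
    have hmat : (X₁.theta - Complex.exp (-w) • X₁.mul) *
        (T (Complex.exp (-w)) * Z₀ w * NormedSpace.exp (-Cl)) =
        ((((X₀.theta - Complex.exp (-w) • X₁.mul) * T (Complex.exp (-w)) -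
          T (Complex.exp (-w)) * (X₀.theta - Complex.exp (-w) • X₀.mul)) * Z₀ w +
          T (Complex.exp (-w)) * ((X₀.theta - Complex.exp (-w) • X₀.mul) * Z₀ w))) *
          NormedSpace.exp (-Cl) := by
      rw [hθ]
      noncomm_ring
    rw [hmat, Matrix.mul_apply]
    refine Finset.sum_congr rfl fun b _ => ?_
    rw [Matrix.add_apply, Matrix.mul_apply, Matrix.mul_apply, Finset.sum_add_distrib]
  · have h1 : ∀ i j, Tendsto (fun z : ℂ =>
        ((Matrix.of fun i j => z ^ ((X₀.deg i : ℤ) - X₀.deg j) * T z⁻¹ i j) * M₀ z *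
          NormedSpace.exp (-Cl)) i j) (Bornology.cobounded ℂ)
        (𝓝 ((NormedSpace.exp Cl * 1 * NormedSpace.exp (-Cl) : Matrix κ κ ℂ) i j)) := by
      intro i j
      simp only [Matrix.mul_apply, Matrix.of_apply]
      exact tendsto_finsetSum _ fun b _ => (tendsto_finsetSum _ fun a _ =>
        (hlim i a).mul (hM₀ a b)).mul_const _
    intro i j
    have h2 : NormedSpace.exp Cl * 1 * NormedSpace.exp (-Cl) = (1 : Matrix κ κ ℂ) := by
      rw [mul_one, Matrix.exp_neg, Matrix.mul_nonsing_inv _ (Matrix.isUnit_iff_isUnit_det _ |>.mp (Matrix.isUnit_exp Cl))]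
    have h3 := h1 i j
    rw [h2] at h3
    exact h3
  · intro w
    have h1 : T (Complex.exp (-w)) * NormedSpace.exp (w • X₀.theta) =
        NormedSpace.exp (w • X₀.theta) *
          (Matrix.of fun i j => (Complex.exp w) ^ ((X₀.deg i : ℤ) - X₀.deg j) *
            T (Complex.exp w)⁻¹ i j) := by
      rw [gf_diag]
      ext i j
      rw [Matrix.mul_diagonal, Matrix.diagonal_mul, Matrix.of_apply, ← Complex.exp_neg,
        ← Complex.exp_int_mul, ← mul_assoc, ← Complex.exp_add, mul_comm]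
      congr 2
      push_cast
      ring
    have hc : Commute X₀.cup Cl := hcc.symm
    have h2 : NormedSpace.exp (-w • X₀.cup) * NormedSpace.exp (-Cl) =
        NormedSpace.exp (-Cl) * NormedSpace.exp (-w • X₀.cup) :=
      ((hc.smul_left (-w)).neg_right).exp
    show T (Complex.exp (-w)) * Z₀ w * NormedSpace.exp (-Cl) =
      NormedSpace.exp (w • X₁.theta) * ((Matrix.of fun i j =>
        (Complex.exp w) ^ ((X₀.deg i : ℤ) - X₀.deg j) * T (Complex.exp w)⁻¹ i j) *
          M₀ (Complex.exp w) * NormedSpace.exp (-Cl)) * NormedSpace.exp (-w • X₁.cup)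
    rw [hZM w, hθ, hcup]
    calc T (Complex.exp (-w)) * (NormedSpace.exp (w • X₀.theta) * M₀ (Complex.exp w) *
          NormedSpace.exp (-w • X₀.cup)) * NormedSpace.exp (-Cl)
        = (T (Complex.exp (-w)) * NormedSpace.exp (w • X₀.theta)) * M₀ (Complex.exp w) *
          (NormedSpace.exp (-w • X₀.cup) * NormedSpace.exp (-Cl)) := by
          simp only [mul_assoc]
      _ = _ := by
          rw [h1, h2]
          simp only [mul_assoc]

end Pool.Agent.FLO
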