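import Pool.Agent.FLO.GDef
import Pool.Agent.FLO.GMat
import Pool.Agent.FLO.GFlat
import Pool.Agent.FLO.GDyC
import Pool.Agent.FLO.GGrow

/-!
# FLO-GLip: the solutions `F_x(t, z)` at two points `t`
-/

set_option autoImplicit false
set_option linter.unusedSectionVars false

open scoped BigOperators Topology

namespace Pool.Agent.FLO

open Pool.Agent.FLG Pool.Agent.FLG.Flag

variable {ι V V' : Type} [Fintype ι] [AddCommGroup V] [Module ℂ V] [AddCommGroup V'] [Module ℂ V']
  {P : RootPairing ι ℂ V V'} [P.IsCrystallographic] (b : P.Base) [P.IsRootSystem] [P.IsReduced]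
  [Fintype P.weylGroup] [DecidableEq P.weylGroup]

private theorem gl_add (t h : V) : cup b (t + h) = cup b t + cup b h := by
  have h1 := cup_lin b 1 1 t h
  simpa only [one_smul] using h1

theorem gammaOp_add (t h : V) :
    gammaOp b (t + h) = NormedSpace.exp (cup b h) * gammaOp b t := by
  unfold gammaOp
  rw [← Matrix.exp_add_of_commute]
  · congr 1
    rw [gl_add]
    abel
  · have hc : ∀ x : V, Commute (cup b h) (cup b x) := fun x => cup_comm' b h x
    refine ((hc t).add_right ((hc _).smul_right _)).add_right ?_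
    refine Commute.sum_right _ _ _ fun k _ => Commute.smul_right ?_ _
    exact Commute.sum_right _ _ _ fun i _ => (hc _).pow_right k

/-- the parallel transport from `t` to `t + h` -/
theorem Fx_flat (t h : V) {C : ℝ}
    (hC : ∀ s ∈ Set.Icc (0 : ℝ) 1, ∀ u w, ‖mul b (t + (s : ℂ) • h) h u w‖ ≤ C) :
    ∃ T : ℂ → Matrix P.weylGroup P.weylGroup ℂ,
      (∀ ζ u w, ‖T ζ u w‖ ≤ Real.exp (Fintype.card P.weylGroup * C * ‖ζ‖)) ∧
      ∀ x w, Fx b (t + h) x w = (T (Complex.exp (-w))).mulVec (Fx b t x w) := by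
  obtain ⟨B, hBdef⟩ : ∃ B : ℝ → Matrix P.weylGroup P.weylGroup ℂ,
      B = fun s : ℝ => mul b (t + (s : ℂ) • h) h := ⟨_, rfl⟩
  have hB : ∀ i j, Continuous fun s => B s i j := fun i j => by
    rw [hBdef]
    exact mul_cont b t h i j
  have hC' : ∀ s ∈ Set.Icc (0 : ℝ) 1, ∀ i j, ‖B s i j‖ ≤ C := fun s hs i j => by
    rw [hBdef]
    exact hC s hs i j
  have hA : ∀ (s : ℝ) (i j : P.weylGroup),
      HasDerivAt (fun s : ℝ => mul b (t + (s : ℂ) • h) (c₁ b) i j)
        (B s i j * (1 + (((small b t).dim : ℂ) / 2 - (small b t).deg i) -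
          (((small b t).dim : ℂ) / 2 - (small b t).deg j))) s := by
    intro s i j
    have h1 := mul_deriv b t h i j s
    refine h1.congr_deriv ?_
    rw [hBdef]
    show _ = mul b (t + (s : ℂ) • h) h i j * (1 + (((small b t).dim : ℂ) / 2 - len b i) -
      (((small b t).dim : ℂ) / 2 - len b j))
    ring
  have hcomm : ∀ s : ℝ, mul b (t + (s : ℂ) • h) (c₁ b) * B s =
      B s * mul b (t + (s : ℂ) • h) (c₁ b) := fun s => by
    rw [hBdef]
    exact mul_comm' b _ _ _
  have hode := tm_ode hB hC' hA hcomm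
  have hlim := tm_lim (deg := len b) (Cl := cup b h) hB hC'
    (fun s i j hne => by
      rw [hBdef] at hne
      exact mul_deg b hne)
    (fun s i j hd => by
      rw [hBdef]
      exact mul_deg_eq b _ h hd)
    (fun i j hne => cup_deg b hne)
  have h1 : t + ((1 : ℝ) : ℂ) • h = t + h := by rw [Complex.ofReal_one, one_smul]
  have h0 : t + ((0 : ℝ) : ℂ) • h = t := by rw [Complex.ofReal_zero, zero_smul, add_zero]
  have hstd := standard_flat (X₀ := small b t) (X₁ := small b (t + h)) rfl rfl rfl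
    (Cl := cup b h) (cup_comm' b h (c₁ b)) (T := TM B)
    (fun w i j => by
      have h2 := hode w i j
      rw [h1, h0] at h2
      exact h2)
    hlim (Zs_std b t)
  have hZ := Zs_eq b (t + h) hstd
  refine ⟨TM B, fun ζ u w => tm_norm hB hC' ζ u w, fun x w => ?_⟩
  have hexp : NormedSpace.exp (-(cup b h)) * NormedSpace.exp (cup b h) = 1 := by
    rw [← Matrix.exp_add_of_commute _ _ ((Commute.refl (cup b h)).neg_left), neg_add_cancel,
      NormedSpace.exp_zero]
  unfold Fx
  rw [← hZ, gammaOp_add]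
  show (TM B (Complex.exp (-w)) * Zs b t w * NormedSpace.exp (-(cup b h)) *
    (NormedSpace.exp (cup b h) * gammaOp b t) * (small b t).twist).mulVec x = _
  rw [Matrix.mulVec_mulVec]
  congr 1
  calc TM B (Complex.exp (-w)) * Zs b t w * NormedSpace.exp (-(cup b h)) *
      (NormedSpace.exp (cup b h) * gammaOp b t) * (small b t).twist
      = TM B (Complex.exp (-w)) * Zs b t w * (NormedSpace.exp (-(cup b h)) *
        NormedSpace.exp (cup b h)) * gammaOp b t * (small b t).twist := by
        simp only [mul_assoc]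
    _ = TM B (Complex.exp (-w)) * (Zs b t w * gammaOp b t * (small b t).twist) := by
        rw [hexp, mul_one]
        simp only [mul_assoc]

theorem Fx_gro (t h : V) {C : ℝ}
    (hC : ∀ s ∈ Set.Icc (0 : ℝ) 1, ∀ u w, ‖mul b (t + (s : ℂ) • h) h u w‖ ≤ C) (ψ c : ℝ)
    (x : P.weylGroup → ℂ) (hx : x ∈ GF b t ψ c) :
    x ∈ GF b (t + h) ψ (c + Fintype.card P.weylGroup * C) := by
  obtain ⟨T, hT, hF⟩ := Fx_flat b t h hC
  rw [mem_GF] at hx ⊢
  simp only [hF]
  refine gro_mulVec (T := fun s : ℝ => T (Complex.exp (-(s + ψ * Complex.I)))) ?_ hx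
  refine Filter.Eventually.of_forall fun s i j => ?_
  have h1 := hT (Complex.exp (-(s + ψ * Complex.I))) i j
  have h2 : ‖Complex.exp (-((s : ℂ) + ψ * Complex.I))‖ = Real.exp (-s) := by
    rw [Complex.norm_exp]
    congr 1
    simp
  rw [h2] at h1
  exact h1

end Pool.Agent.FLO
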