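import Pool.Agent.FLG.Flag
import Mathlib

/-!
# FLO-GRe: the Taylor coefficients of `log Γ(1 - x)` are real
-/

set_option autoImplicit false

open scoped BigOperators Topology ComplexConjugate

namespace Pool.Agent.FLO

open Pool.Agent.FLG Pool.Agent.FLG.Flag

private theorem it_conj (f : ℂ → ℂ) (k : ℕ) :
    iteratedDeriv k (conj ∘ f ∘ conj) = conj ∘ iteratedDeriv k f ∘ conj := by
  induction k with
  | zero => rw [iteratedDeriv_zero, iteratedDeriv_zero]
  | succ k ih => rw [iteratedDeriv_succ, iteratedDeriv_succ, ih, deriv_conj_conj]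

theorem gcoeff_real (k : ℕ) : conj (gcoeff k) = gcoeff k := by
  obtain ⟨f, hf⟩ : ∃ f : ℂ → ℂ, f = fun x : ℂ => Complex.log (Complex.Gamma (1 - x)) := ⟨_, rfl⟩
  have hev : f =ᶠ[𝓝 0] (conj ∘ f ∘ conj) := by
    have h1 : ContinuousAt (fun x : ℂ => Complex.Gamma (1 - x)) 0 := by
      have h2 : ContinuousAt Complex.Gamma (1 - 0) := by
        rw [sub_zero]
        refine (Complex.differentiableAt_Gamma 1 fun m h => ?_).continuousAt
        have h3 := congrArg Complex.re h
        rw [Complex.one_re, Complex.neg_re, Complex.natCast_re] at h3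
        have h4 : (0 : ℝ) ≤ m := Nat.cast_nonneg m
        linarith
      exact ContinuousAt.comp (f := fun x : ℂ => 1 - x) (x := 0) h2
        (continuousAt_const.sub continuousAt_id)
    have h5 : ∀ᶠ x : ℂ in 𝓝 0, Complex.Gamma (1 - x) ∈ Complex.slitPlane := by
      refine h1.eventually_mem (Complex.isOpen_slitPlane.mem_nhds ?_)
      rw [sub_zero, Complex.Gamma_one]
      exact Complex.one_mem_slitPlane
    filter_upwards [h5] with x hx
    have harg : (Complex.Gamma (1 - x)).arg ≠ Real.pi := (Complex.mem_slitPlane_iff_arg.1 hx).1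
    show f x = conj (f (conj x))
    rw [hf]
    show Complex.log (Complex.Gamma (1 - x)) =
      conj (Complex.log (Complex.Gamma (1 - conj x)))
    have h6 : (1 : ℂ) - conj x = conj (1 - x) := by
      rw [map_sub, map_one]
    rw [h6, Complex.Gamma_conj, Complex.log_conj _ harg, Complex.conj_conj]
  have h7 : conj (iteratedDeriv k f 0) = iteratedDeriv k f 0 := by
    have h8 := congrFun (it_conj f k) 0
    have h9 : (conj ∘ iteratedDeriv k f ∘ conj) 0 = conj (iteratedDeriv k f (conj 0)) := rfl
    rw [h9, map_zero, ← Filter.EventuallyEq.iteratedDeriv_eq k hev] at h8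
    exact h8.symm
  unfold gcoeff
  rw [← hf, map_div₀, h7, Complex.conj_natCast]

end Pool.Agent.FLO
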