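import Pool.Agent.FLO.GCj
import Pool.Agent.FLO.GRe
import Pool.Agent.FLO.GLip

/-!
# FLO-GDual: complex conjugation at a real point `t`

`dl x = (-1)^len x` is the class of the dual.
-/

set_option autoImplicit false
set_option linter.unusedSectionVars false

open scoped BigOperators Topology ComplexConjugate

namespace Pool.Agent.FLO

open Pool.Agent.FLG Pool.Agent.FLG.Flag

variable {ι V V' : Type} [Fintype ι] [AddCommGroup V] [Module ℂ V] [AddCommGroup V'] [Module ℂ V']
  {P : RootPairing ι ℂ V V'} [P.IsCrystallographic] (b : P.Base) [P.IsRootSystem] [P.IsReduced]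
  [Fintype P.weylGroup] [DecidableEq P.weylGroup]

/-- the dual class -/
noncomputable def dl (x : P.weylGroup → ℂ) : P.weylGroup → ℂ := fun u => (-1) ^ len b u * x u

private noncomputable abbrev cjm : Matrix P.weylGroup P.weylGroup ℂ →+*
    Matrix P.weylGroup P.weylGroup ℂ := (starRingEnd ℂ).mapMatrix

private theorem cjm_apply (A : Matrix P.weylGroup P.weylGroup ℂ) (u v : P.weylGroup) :
    cjm A u v = conj (A u v) := rfl

private theorem cjm_smul (c : ℂ) (A : Matrix P.weylGroup P.weylGroup ℂ) :
    cjm (c • A) = conj c • cjm A := by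
  ext u v
  rw [Matrix.smul_apply, cjm_apply, cjm_apply, Matrix.smul_apply, smul_eq_mul, smul_eq_mul, map_mul]

private theorem cjm_exp (A : Matrix P.weylGroup P.weylGroup ℂ) :
    cjm (NormedSpace.exp A) = NormedSpace.exp (cjm A) := by
  have h1 : ∀ B : Matrix P.weylGroup P.weylGroup ℂ, cjm B = B.conjTranspose.transpose := by
    intro B
    ext u v
    rfl
  rw [h1, h1, ← Matrix.exp_conjTranspose, ← Matrix.exp_transpose]

private theorem conj_mulVec (A : Matrix P.weylGroup P.weylGroup ℂ) (x : P.weylGroup → ℂ)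
    (u : P.weylGroup) : conj (A.mulVec x u) = (cjm A).mulVec (fun v => conj (x v)) u := by
  rw [Matrix.mulVec, Matrix.mulVec, dotProduct, dotProduct, map_sum]
  exact Finset.sum_congr rfl fun v _ => map_mul _ _ _

private theorem cjm_cup {h : V} (hh : ∀ i, conj (P.coroot' i h) = P.coroot' i h) :
    cjm (cup b h) = cup b h := by
  ext u v
  rw [cjm_apply]
  unfold cup
  rw [Matrix.of_apply, map_sum]
  refine Finset.sum_congr rfl fun i _ => ?_
  split_ifs
  · exact hh i
  · exact map_zero _

private theorem root_real (i j : ι) : conj (P.coroot' j (P.root i)) = P.coroot' j (P.root i) := by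
  obtain ⟨n, hn⟩ := P.exists_value (S := ℤ) i j
  have h1 : P.coroot' j (P.root i) = (n : ℂ) := by
    rw [P.root_coroot'_eq_pairing, ← hn]
    rfl
  rw [h1]
  exact Complex.conj_eq_iff_im.2 (Complex.intCast_im n)

private theorem c_real (i : ι) : conj (P.coroot' i (c₁ b)) = P.coroot' i (c₁ b) := by
  unfold c₁
  rw [map_sum, map_sum]
  exact Finset.sum_congr rfl fun j _ => root_real j i

theorem Fx_dual {t : V} (ht : ∀ i, (P.coroot' i t).im = 0) {x : P.weylGroup → ℂ}
    (hx : ∀ u, conj (x u) = x u) (s : ℝ) (u : P.weylGroup) :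
    conj (Fx b t x (s + Real.pi * Complex.I) u) =
      (-1) ^ (pos b).card * Fx b t (dl b x) (s + Real.pi * Complex.I) u := by
  have hc : ∀ h h' : V, Commute (cup b h) (cup b h') := fun h h' => cup_comm' b h h'
  have ht' : ∀ i, conj (P.coroot' i t) = P.coroot' i t := fun i =>
    Complex.conj_eq_iff_im.2 (ht i)
  obtain ⟨E, hE⟩ : ∃ E : Matrix P.weylGroup P.weylGroup ℂ,
    E = NormedSpace.exp (-(2 * Real.pi * Complex.I : ℂ) • cup b (c₁ b)) := ⟨_, rfl⟩
  -- the standard solution
  have hZ : cjm (Zs b t (s + Real.pi * Complex.I)) = Zs b t (s - Real.pi * Complex.I) := by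
    ext u v
    rw [cjm_apply, ← Zs_conj b ht (s - Real.pi * Complex.I) u v]
    congr 2
    rw [map_sub, map_mul, Complex.conj_ofReal, Complex.conj_ofReal, Complex.conj_I]
    ring
  have hZ2 : Zs b t (s - Real.pi * Complex.I) * E =
      ((-1 : ℂ) ^ (pos b).card) • Zs b t (s + Real.pi * Complex.I) := by
    have h1 := Zs_per b t (s - Real.pi * Complex.I)
    rw [← hE] at h1
    have h2 : (s : ℂ) - Real.pi * Complex.I + 2 * Real.pi * Complex.I =
        s + Real.pi * Complex.I := by ring
    rw [h2] at h1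
    rw [h1, smul_smul, ← mul_pow, neg_one_mul, neg_neg, one_pow, one_smul]
  -- the gamma class
  have hG : cjm (gammaOp b t) = E * gammaOp b t := by
    obtain ⟨S, hS⟩ : ∃ S : Matrix P.weylGroup P.weylGroup ℂ, S =
      ∑ k ∈ Finset.Icc 1 (pos b).card, gcoeff k • ∑ i ∈ pos b, cup b (P.root i) ^ k := ⟨_, rfl⟩
    have hS1 : cjm S = S := by
      rw [hS, map_sum]
      refine Finset.sum_congr rfl fun k _ => ?_
      rw [cjm_smul, gcoeff_real, map_sum]
      congr 1
      refine Finset.sum_congr rfl fun i _ => ?_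
      rw [map_pow, cjm_cup b (root_real i)]
    have hS2 : Commute (cup b (c₁ b)) S := by
      rw [hS]
      refine Commute.sum_right _ _ _ fun k _ => Commute.smul_right ?_ _
      exact Commute.sum_right _ _ _ fun i _ => (hc _ _).pow_right k
    unfold gammaOp
    rw [← hS, cjm_exp, map_add, map_add, cjm_cup b ht', cjm_smul, cjm_cup b (c_real b), hS1, hE,
      ← Matrix.exp_add_of_commute]
    · congr 1
      have h3 : conj ((Real.pi : ℂ) * Complex.I) = -(2 * Real.pi * Complex.I) +
          Real.pi * Complex.I := by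
        rw [map_mul, Complex.conj_ofReal, Complex.conj_I]
        ring
      rw [h3, add_smul]
      abel
    · refine Commute.smul_left ?_ _
      exact Commute.add_right (Commute.add_right (hc _ _) ((hc _ _).smul_right _)) hS2
  -- the twist
  have hT : cjm (small b t).twist = (small b t).twist *
      Matrix.diagonal fun a => (-1 : ℂ) ^ len b a := by
    have h4 : (small b t).twist =
        Matrix.diagonal fun a => (2 * Real.pi * Complex.I) ^ len b a := rfl
    rw [h4, Matrix.diagonal_mul_diagonal]
    ext u v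
    rw [cjm_apply]
    by_cases huv : u = v
    · subst huv
      rw [Matrix.diagonal_apply_eq, Matrix.diagonal_apply_eq, map_pow, ← mul_pow]
      congr 1
      rw [map_mul, map_mul, Complex.conj_ofReal, Complex.conj_I, map_ofNat]
      ring
    · rw [Matrix.diagonal_apply_ne _ huv, Matrix.diagonal_apply_ne _ huv, map_zero]
  have hd : (Matrix.diagonal fun a => (-1 : ℂ) ^ len b a).mulVec x = dl b x := by
    funext v
    rw [Matrix.mulVec_diagonal]
    rfl
  have hx' : (fun v => conj (x v)) = x := funext hx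
  unfold Fx
  rw [conj_mulVec, hx', map_mul, map_mul, hZ, hG, hT, ← hd, Matrix.mulVec_mulVec]
  have h5 : Zs b t (s - Real.pi * Complex.I) * (E * gammaOp b t) *
      ((small b t).twist * Matrix.diagonal fun a => (-1 : ℂ) ^ len b a) =
      ((-1 : ℂ) ^ (pos b).card) • (Zs b t (s + Real.pi * Complex.I) * gammaOp b t *
        (small b t).twist * Matrix.diagonal fun a => (-1 : ℂ) ^ len b a) := by
    rw [← Matrix.mul_assoc (Zs b t (s - Real.pi * Complex.I)), hZ2, Matrix.smul_mul,
      Matrix.smul_mul, ← Matrix.mul_assoc]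
  rw [h5, Matrix.smul_mulVec]
  rfl

theorem dual_GF {t : V} (ht : ∀ i, (P.coroot' i t).im = 0) {x : P.weylGroup → ℂ}
    (hx : ∀ u, conj (x u) = x u) {h : ℝ} (h1 : x ∈ GF b t Real.pi h) :
    dl b x ∈ GF b t Real.pi h := by
  rw [mem_GF] at h1 ⊢
  intro ε hε
  filter_upwards [h1 ε hε] with s hs u
  have h2 := congrArg norm (Fx_dual b ht hx s u)
  rw [norm_mul, norm_pow, norm_neg, norm_one, one_pow, one_mul, RCLike.norm_conj] at h2
  rw [← h2]
  exact hs u

end Pool.Agent.FLO
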