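import Mathlib

/-!
# FLO-GDyA: the terms of the Dyson series and the zero curvature identity

The identity follows by induction: both sides agree at `0` and have the same derivative.
-/

set_option autoImplicit false

open scoped BigOperators Topology Nat

namespace Pool.Agent.FLO

variable {R : Type*} [NormedRing R] [NormedAlgebra ℝ R] [CompleteSpace R]

/-- the terms of the Dyson series of `D' = B D` -/
noncomputable def dy (B : ℝ → R) : ℕ → ℝ → R
  | 0 => fun _ => 1
  | n + 1 => fun s => ∫ σ in (0 : ℝ)..s, B σ * dy B n σ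

variable {B : ℝ → R}

omit [CompleteSpace R] in
theorem dy_zero (n : ℕ) : dy B (n + 1) 0 = 0 := by
  show ∫ σ in (0 : ℝ)..0, B σ * dy B n σ = 0
  exact intervalIntegral.integral_same

theorem dy_cont (hB : Continuous B) (n : ℕ) : Continuous (dy B n) := by
  induction n with
  | zero => exact continuous_const
  | succ n ih =>
    rw [continuous_iff_continuousAt]
    intro s
    exact ((hB.mul ih).integral_hasStrictDerivAt 0 s).hasDerivAt.continuousAt

theorem dy_deriv (hB : Continuous B) (n : ℕ) (s : ℝ) :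
    HasDerivAt (dy B (n + 1)) (B s * dy B n s) s :=
  ((hB.mul (dy_cont hB n)).integral_hasStrictDerivAt 0 s).hasDerivAt

theorem dy_norm (hB : Continuous B) {C : ℝ} (hC : ∀ s ∈ Set.Icc (0 : ℝ) 1, ‖B s‖ ≤ C) (n : ℕ) :
    ∀ s ∈ Set.Icc (0 : ℝ) 1, ‖dy B n s‖ ≤ ‖(1 : R)‖ * ((C * s) ^ n / n !) := by
  have hC0 : 0 ≤ C := (norm_nonneg (B 0)).trans (hC 0 ⟨le_rfl, zero_le_one⟩)
  induction n with
  | zero =>
    intro s _
    show ‖(1 : R)‖ ≤ _
    simp
  | succ n ih =>
    intro s hs
    show ‖∫ σ in (0 : ℝ)..s, B σ * dy B n σ‖ ≤ _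
    have h1 : ‖∫ σ in (0 : ℝ)..s, B σ * dy B n σ‖ ≤
        ∫ σ in (0 : ℝ)..s, (‖(1 : R)‖ * C ^ (n + 1) / n !) * σ ^ n := by
      refine intervalIntegral.norm_integral_le_of_norm_le hs.1 ?_
        ((continuous_const.mul (continuous_pow n)).intervalIntegrable _ _)
      refine Filter.Eventually.of_forall fun σ hσ => ?_
      have h2 : σ ∈ Set.Icc (0 : ℝ) 1 := ⟨hσ.1.le, hσ.2.trans hs.2⟩
      calc ‖B σ * dy B n σ‖ ≤ ‖B σ‖ * ‖dy B n σ‖ := norm_mul_le _ _
        _ ≤ C * (‖(1 : R)‖ * ((C * σ) ^ n / n !)) :=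
          mul_le_mul (hC σ h2) (ih σ h2) (norm_nonneg _) hC0
        _ = _ := by rw [mul_pow]; ring
    refine h1.trans (le_of_eq ?_)
    rw [intervalIntegral.integral_const_mul, integral_pow, Nat.factorial_succ]
    push_cast
    have h3 : (n ! : ℝ) ≠ 0 := by exact_mod_cast n.factorial_ne_zero
    have h4 : (n : ℝ) + 1 ≠ 0 := by positivity
    rw [mul_pow]
    field_simp
    ring

private theorem dyf_step (hB : Continuous B) {θ : R} {A : ℝ → R} {A' : ℝ → R}
    (hA : ∀ s, HasDerivAt A (A' s) s) (n : ℕ) (D : ℝ → R) {D' : ℝ → R}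
    (hD : ∀ s, HasDerivAt D (D' s) s) (h0 : A 0 * D 0 - D 0 * A 0 = 0)
    (hz : ∀ s, (n + 1) • (B s * dy B n s) + θ * (B s * dy B n s) - B s * dy B n s * θ =
      A' s * D s + A s * D' s - D' s * A 0) (s : ℝ) :
    (n + 1) • dy B (n + 1) s + θ * dy B (n + 1) s - dy B (n + 1) s * θ = A s * D s - D s * A 0 := by
  obtain ⟨F, hF⟩ : ∃ F : ℝ → R, F = fun s => (n + 1) • dy B (n + 1) s + θ * dy B (n + 1) s -
      dy B (n + 1) s * θ - (A s * D s - D s * A 0) := ⟨_, rfl⟩
  have h1 : ∀ s, HasDerivAt F 0 s := by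
    intro s
    have h2 := dy_deriv hB n s
    have h3 := (((h2.const_smul (n + 1)).add (h2.const_mul θ)).sub (h2.mul_const θ)).sub
      (((hA s).mul (hD s)).sub ((hD s).mul_const (A 0)))
    have h4 := hz s
    have e : (n + 1) • (B s * dy B n s) + θ * (B s * dy B n s) - B s * dy B n s * θ -
        (A' s * D s + A s * D' s - D' s * A 0) = 0 := by
      rw [h4, sub_self]
    rw [e] at h3
    rw [hF]
    exact h3
  have h2 : F s = F 0 :=
    is_const_of_deriv_eq_zero (fun s => (h1 s).differentiableAt) (fun s => (h1 s).deriv) s 0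
  have h3 : F 0 = 0 := by
    rw [hF]
    show (n + 1) • dy B (n + 1) 0 + θ * dy B (n + 1) 0 - dy B (n + 1) 0 * θ -
      (A 0 * D 0 - D 0 * A 0) = 0
    rw [dy_zero, h0]
    simp
  rw [h3, hF] at h2
  exact sub_eq_zero.1 h2

/-- the zero curvature identity -/
theorem dy_flat (hB : Continuous B) {θ : R} {A : ℝ → R}
    (hA : ∀ s, HasDerivAt A (B s + θ * B s - B s * θ) s) (hc : ∀ s, A s * B s = B s * A s)
    (n : ℕ) (s : ℝ) :
    (n + 1) • dy B (n + 1) s + θ * dy B (n + 1) s - dy B (n + 1) s * θ =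
      A s * dy B n s - dy B n s * A 0 := by
  induction n generalizing s with
  | zero =>
    refine dyf_step hB hA 0 (dy B 0) (D' := fun _ => 0) (fun s => hasDerivAt_const s (1 : R)) ?_ ?_ s
    · show A 0 * 1 - 1 * A 0 = 0
      rw [mul_one, one_mul, sub_self]
    · intro s
      show (0 + 1) • (B s * 1) + θ * (B s * 1) - B s * 1 * θ =
        (B s + θ * B s - B s * θ) * 1 + A s * 0 - 0 * A 0
      simp
  | succ n ih =>
    refine dyf_step hB hA (n + 1) (dy B (n + 1)) (fun s => dy_deriv hB n s) ?_ ?_ s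
    · rw [dy_zero, mul_zero, zero_mul, sub_self]
    · intro s
      have h1 := ih s
      have h2 := hc s
      have h3 : A s * (B s * dy B n s) = B s * (A s * dy B n s) := by
        rw [← mul_assoc, h2, mul_assoc]
      have h4 : A s * dy B n s = (n + 1) • dy B (n + 1) s + θ * dy B (n + 1) s -
          dy B (n + 1) s * θ + dy B n s * A 0 := by
        rw [h1]
        abel
      rw [h3, h4, add_smul (n + 1) 1, one_smul]
      simp only [mul_add, mul_sub, add_mul, sub_mul, mul_smul_comm, mul_assoc]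
      abel

end Pool.Agent.FLO
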