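import Pool.Agent.FLO.GDyA

/-!
# FLO-GDyB: the Dyson series as a function of `ζ = 1 / z`, for matrices

All sums converge absolutely by `dyM_norm`; the differential equation is `dy_flat` at `s = 1`.
-/

set_option autoImplicit false

open scoped BigOperators Topology Nat

namespace Pool.Agent.FLO

attribute [local instance] Matrix.linftyOpNormedRing Matrix.linftyOpNormedAlgebra

variable {κ : Type} [Fintype κ] [DecidableEq κ]

/-- the terms of the Dyson series of a path of matrices -/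
noncomputable def dyM (B : ℝ → Matrix κ κ ℂ) (n : ℕ) (s : ℝ) : Matrix κ κ ℂ := dy B n s

/-- the parallel transport from `s = 0` to `s = 1` as a function of `ζ = 1 / z` -/
noncomputable def TM (B : ℝ → Matrix κ κ ℂ) (ζ : ℂ) : Matrix κ κ ℂ :=
  Matrix.of fun i j => ∑' n, ζ ^ n * dyM B n 1 i j

variable {B : ℝ → Matrix κ κ ℂ} (hB : ∀ i j, Continuous fun s => B s i j) {C : ℝ}
  (hC : ∀ s ∈ Set.Icc (0 : ℝ) 1, ∀ i j, ‖B s i j‖ ≤ C)

private noncomputable def ev (i j : κ) : Matrix κ κ ℂ →L[ℝ] ℂ :=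
  LinearMap.mkContinuous
    { toFun := fun A => A i j
      map_add' := fun _ _ => rfl
      map_smul' := fun _ _ => rfl } 1 (by
    intro A
    show ‖A i j‖ ≤ 1 * ‖A‖
    rw [one_mul, Matrix.linfty_opNorm_def]
    have h1 : ‖A i j‖₊ ≤ ∑ k : κ, ‖A i k‖₊ :=
      Finset.single_le_sum (f := fun k => ‖A i k‖₊) (fun _ _ => bot_le) (Finset.mem_univ j)
    have h2 : ∑ k : κ, ‖A i k‖₊ ≤ Finset.univ.sup fun i : κ => ∑ k : κ, ‖A i k‖₊ :=
      Finset.le_sup (f := fun i : κ => ∑ k : κ, ‖A i k‖₊) (Finset.mem_univ i)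
    exact_mod_cast h1.trans h2)

private theorem entry_le (A : Matrix κ κ ℂ) (i j : κ) : ‖A i j‖ ≤ ‖A‖ := by
  rw [Matrix.linfty_opNorm_def]
  have h1 : ‖A i j‖₊ ≤ ∑ k : κ, ‖A i k‖₊ :=
    Finset.single_le_sum (f := fun k => ‖A i k‖₊) (fun _ _ => bot_le) (Finset.mem_univ j)
  have h2 : ∑ k : κ, ‖A i k‖₊ ≤ Finset.univ.sup fun i : κ => ∑ k : κ, ‖A i k‖₊ :=
    Finset.le_sup (f := fun i : κ => ∑ k : κ, ‖A i k‖₊) (Finset.mem_univ i)
  exact_mod_cast h1.trans h2

private theorem ev_apply (i j : κ) (A : Matrix κ κ ℂ) : ev i j A = A i j := rfl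

private theorem sgl (A : Matrix κ κ ℂ) :
    A = ∑ i, ∑ j, A i j • Matrix.single i j (1 : ℂ) := by
  conv_lhs => rw [Matrix.matrix_eq_sum_single A]
  refine Finset.sum_congr rfl fun i _ => Finset.sum_congr rfl fun j _ => ?_
  rw [Matrix.smul_single, smul_eq_mul, mul_one]

include hB in
private theorem cont_mat : Continuous B := by
  have h1 : B = fun s => ∑ i, ∑ j, B s i j • Matrix.single i j (1 : ℂ) := by
    funext s
    exact sgl (B s)
  rw [h1]
  exact continuous_finsetSum _ fun i _ => continuous_finsetSum _ fun j _ =>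
    (hB i j).smul continuous_const

private theorem deriv_mat {A A' : ℝ → Matrix κ κ ℂ} (s : ℝ)
    (hA : ∀ i j, HasDerivAt (fun s => A s i j) (A' s i j) s) : HasDerivAt A (A' s) s := by
  have h1 : A = fun s => ∑ i, ∑ j, A s i j • Matrix.single i j (1 : ℂ) := by
    funext s
    exact sgl (A s)
  have h2 : HasDerivAt (fun s => ∑ i, ∑ j, A s i j • Matrix.single i j (1 : ℂ))
      (∑ i, ∑ j, A' s i j • Matrix.single i j (1 : ℂ)) s := by
    refine HasDerivAt.fun_sum fun i _ => HasDerivAt.fun_sum fun j _ => ?_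
    exact (hA i j).smul_const _
  rw [← h1, ← sgl (A' s)] at h2
  exact h2

include hC in
private theorem norm_mat (s : ℝ) (hs : s ∈ Set.Icc (0 : ℝ) 1) : ‖B s‖ ≤ Fintype.card κ * C := by
  rw [Matrix.linfty_opNorm_def]
  rcases isEmpty_or_nonempty κ with h | ⟨⟨k⟩⟩
  · simp
  have hC0 : 0 ≤ C := (norm_nonneg _).trans (hC s hs k k)
  have h2 : (Finset.univ.sup fun i : κ => ∑ k : κ, ‖B s i k‖₊) ≤ Fintype.card κ * C.toNNReal := by
    refine Finset.sup_le fun i _ => ?_
    refine (Finset.sum_le_card_nsmul Finset.univ _ C.toNNReal fun j _ => ?_).trans ?_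
    · rw [← NNReal.coe_le_coe, Real.coe_toNNReal C hC0]
      exact hC s hs i j
    · rw [nsmul_eq_mul]
      exact le_rfl
  have h3 := NNReal.coe_le_coe.2 h2
  refine h3.trans (le_of_eq ?_)
  rw [NNReal.coe_mul, Real.coe_toNNReal C hC0]
  simp

/-- entrywise form of the recursion -/
theorem dyM_zero (s : ℝ) : dyM B 0 s = 1 := rfl

include hB in
theorem dyM_deriv (n : ℕ) (s : ℝ) (i j : κ) :
    HasDerivAt (fun s => dyM B (n + 1) s i j) ((B s * dyM B n s) i j) s := by
  have h1 := dy_deriv (cont_mat hB) n s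
  exact ((ev i j).hasFDerivAt.comp_hasDerivAt s h1)

theorem dyM_init (n : ℕ) : dyM B (n + 1) 0 = 0 := dy_zero n

include hB hC in
theorem dyM_norm (n : ℕ) (i j : κ) :
    ‖dyM B n 1 i j‖ ≤ (Fintype.card κ * C) ^ n / n ! := by
  have : Nonempty κ := ⟨i⟩
  have h1 := dy_norm (cont_mat hB) (C := Fintype.card κ * C) (norm_mat hC) n 1 ⟨zero_le_one, le_rfl⟩
  have h2 : ‖(1 : Matrix κ κ ℂ)‖ = 1 := norm_one
  rw [h2, one_mul, mul_one] at h1
  exact (entry_le _ i j).trans h1

include hB hC in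
private theorem term_norm (ζ : ℂ) (i j : κ) (n : ℕ) :
    ‖ζ ^ n * dyM B n 1 i j‖ ≤ (Fintype.card κ * C * ‖ζ‖) ^ n / n ! := by
  rw [norm_mul, norm_pow, mul_pow]
  have h1 := dyM_norm hB hC n i j
  calc ‖ζ‖ ^ n * ‖dyM B n 1 i j‖ ≤ ‖ζ‖ ^ n * ((Fintype.card κ * C) ^ n / n !) :=
        mul_le_mul_of_nonneg_left h1 (by positivity)
    _ = _ := by ring

private theorem exp_sum (x : ℝ) : HasSum (fun n : ℕ => x ^ n / n !) (Real.exp x) := by
  rw [Real.exp_eq_exp_ℝ]
  exact NormedSpace.expSeries_div_hasSum_exp x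

include hB hC in
theorem tm_norm (ζ : ℂ) (i j : κ) :
    ‖TM B ζ i j‖ ≤ Real.exp (Fintype.card κ * C * ‖ζ‖) :=
  tsum_of_norm_bounded (exp_sum _) (term_norm hB hC ζ i j)

include hB hC in
private theorem tm_hasSum (ζ : ℂ) (i j : κ) :
    HasSum (fun n => ζ ^ n * dyM B n 1 i j) (TM B ζ i j) :=
  (Summable.of_norm_bounded (exp_sum _).summable (term_norm hB hC ζ i j)).hasSum

include hB hC in
private theorem tm_dsum {A : ℝ → Matrix κ κ ℂ} {θ : κ → ℂ}
    (hA : ∀ s i j, HasDerivAt (fun s => A s i j) (B s i j * (1 + θ i - θ j)) s)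
    (hc : ∀ s, A s * B s = B s * A s) (ζ : ℂ) (i j : κ) :
    HasSum (fun n : ℕ => -(n : ℂ) * ζ ^ n * dyM B n 1 i j)
      (((Matrix.diagonal θ - ζ • A 1) * TM B ζ - TM B ζ * (Matrix.diagonal θ - ζ • A 0)) i j) := by
  have hAd : ∀ s, HasDerivAt A (B s + Matrix.diagonal θ * B s - B s * Matrix.diagonal θ) s := by
    intro s
    refine deriv_mat (A' := fun s => B s + Matrix.diagonal θ * B s - B s * Matrix.diagonal θ) s ?_
    intro i j
    have h := hA s i j
    have e : (B s + Matrix.diagonal θ * B s - B s * Matrix.diagonal θ) i j =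
        B s i j * (1 + θ i - θ j) := by
      rw [Matrix.sub_apply, Matrix.add_apply, Matrix.diagonal_mul, Matrix.mul_diagonal]
      ring
    show HasDerivAt (fun s => A s i j)
      ((B s + Matrix.diagonal θ * B s - B s * Matrix.diagonal θ) i j) s
    rw [e]
    exact h
  have hflat : ∀ n : ℕ, ((n : ℂ) + 1) * dyM B (n + 1) 1 i j + (θ i - θ j) * dyM B (n + 1) 1 i j =
      ∑ k, A 1 i k * dyM B n 1 k j - ∑ k, dyM B n 1 i k * A 0 k j := by
    intro n
    have h := congrFun (congrFun (dy_flat (cont_mat hB) hAd hc n 1) i) j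
    rw [Matrix.sub_apply, Matrix.add_apply, Matrix.diagonal_mul, Matrix.mul_diagonal,
      Matrix.sub_apply, Matrix.mul_apply, Matrix.mul_apply, Matrix.smul_apply] at h
    show ((n : ℂ) + 1) * dy B (n + 1) 1 i j + (θ i - θ j) * dy B (n + 1) 1 i j =
      ∑ k, A 1 i k * dy B n 1 k j - ∑ k, dy B n 1 i k * A 0 k j
    rw [← h, nsmul_eq_mul]
    push_cast
    ring
  have hT := tm_hasSum hB hC ζ
  -- the shifted sum
  have h1 : HasSum (fun n : ℕ => ζ * (∑ k, A 1 i k * (ζ ^ n * dyM B n 1 k j) -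
      ∑ k, (ζ ^ n * dyM B n 1 i k) * A 0 k j))
      (ζ * (∑ k, A 1 i k * TM B ζ k j - ∑ k, TM B ζ i k * A 0 k j)) := by
    refine HasSum.mul_left ζ (HasSum.sub ?_ ?_)
    · exact hasSum_sum fun k _ => (hT k j).mul_left (A 1 i k)
    · exact hasSum_sum fun k _ => (hT i k).mul_right (A 0 k j)
  have h2 : HasSum (fun n : ℕ => (n : ℂ) * ζ ^ n * dyM B n 1 i j +
      (θ i - θ j) * (ζ ^ n * dyM B n 1 i j))
      (ζ * (∑ k, A 1 i k * TM B ζ k j - ∑ k, TM B ζ i k * A 0 k j)) := by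
    have h3 := (hasSum_nat_add_iff (f := fun n : ℕ => (n : ℂ) * ζ ^ n * dyM B n 1 i j +
      (θ i - θ j) * (ζ ^ n * dyM B n 1 i j)) 1
      (g := ζ * (∑ k, A 1 i k * TM B ζ k j - ∑ k, TM B ζ i k * A 0 k j))).1 ?_
    · rw [Finset.sum_range_one] at h3
      have e0 : ((0 : ℕ) : ℂ) * ζ ^ 0 * dyM B 0 1 i j + (θ i - θ j) * (ζ ^ 0 * dyM B 0 1 i j) = 0 := by
        rw [dyM_zero]
        by_cases hij : i = j
        · subst hij; simp
        · simp [Matrix.one_apply_ne hij]
      rw [e0, add_zero] at h3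
      exact h3
    · refine (congrArg (fun f : ℕ → ℂ => HasSum f _) (funext fun n => ?_)).mp h1
      have h5 := hflat n
      have e3 : ∑ k, A 1 i k * (ζ ^ n * dyM B n 1 k j) =
          ζ ^ n * ∑ k, A 1 i k * dyM B n 1 k j := by
        rw [Finset.mul_sum]
        exact Finset.sum_congr rfl fun k _ => by ring
      have e4 : ∑ k, (ζ ^ n * dyM B n 1 i k) * A 0 k j =
          ζ ^ n * ∑ k, dyM B n 1 i k * A 0 k j := by
        rw [Finset.mul_sum]
        exact Finset.sum_congr rfl fun k _ => by ring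
      rw [e3, e4, ← mul_sub, ← h5, pow_succ]
      push_cast
      ring
  have h4 := ((hT i j).mul_left (θ i - θ j)).sub h2
  have e1 : (fun n : ℕ => (θ i - θ j) * (ζ ^ n * dyM B n 1 i j) - ((n : ℂ) * ζ ^ n * dyM B n 1 i j +
      (θ i - θ j) * (ζ ^ n * dyM B n 1 i j))) = fun n : ℕ => -(n : ℂ) * ζ ^ n * dyM B n 1 i j := by
    funext n
    ring
  rw [e1] at h4
  have e2 : (θ i - θ j) * TM B ζ i j -
      ζ * (∑ k, A 1 i k * TM B ζ k j - ∑ k, TM B ζ i k * A 0 k j) =
      ((Matrix.diagonal θ - ζ • A 1) * TM B ζ - TM B ζ * (Matrix.diagonal θ - ζ • A 0)) i j := by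
    have e5 : ((Matrix.diagonal θ - ζ • A 1) * TM B ζ) i j =
        θ i * TM B ζ i j - ζ * ∑ k, A 1 i k * TM B ζ k j := by
      rw [Matrix.sub_mul, Matrix.sub_apply, Matrix.diagonal_mul, Matrix.smul_mul,
        Matrix.smul_apply, Matrix.mul_apply, smul_eq_mul]
    have e6 : (TM B ζ * (Matrix.diagonal θ - ζ • A 0)) i j =
        TM B ζ i j * θ j - ζ * ∑ k, TM B ζ i k * A 0 k j := by
      rw [Matrix.mul_sub, Matrix.sub_apply, Matrix.mul_diagonal, Matrix.mul_smul,
        Matrix.smul_apply, Matrix.mul_apply, smul_eq_mul]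
    rw [Matrix.sub_apply, e5, e6]
    ring
  rw [← e2]
  exact h4

include hB hC in
theorem tm_ode {A : ℝ → Matrix κ κ ℂ} {θ : κ → ℂ}
    (hA : ∀ s i j, HasDerivAt (fun s => A s i j) (B s i j * (1 + θ i - θ j)) s)
    (hc : ∀ s, A s * B s = B s * A s) (w : ℂ) (i j : κ) :
    HasDerivAt (fun w => TM B (Complex.exp (-w)) i j)
      (((Matrix.diagonal θ - Complex.exp (-w) • A 1) * TM B (Complex.exp (-w)) -
        TM B (Complex.exp (-w)) * (Matrix.diagonal θ - Complex.exp (-w) • A 0)) i j) w := by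
  obtain ⟨c, hc'⟩ : ∃ c : ℝ, c = Fintype.card κ * C := ⟨_, rfl⟩
  obtain ⟨R, hR⟩ : ∃ R : ℝ, R = Real.exp (1 - w.re) := ⟨_, rfl⟩
  have hR0 : 0 < R := by rw [hR]; exact Real.exp_pos _
  have hd := tm_dsum hB hC hA hc (Complex.exp (-w)) i j
  rw [← hd.tsum_eq]
  refine hasDerivAt_tsum_of_isPreconnected (𝕜 := ℂ) (F := ℂ)
    (u := fun n : ℕ => (n : ℝ) * ((|c| * R) ^ n / n !))
    (g := fun (n : ℕ) (v : ℂ) => Complex.exp (-v) ^ n * dyM B n 1 i j)
    (g' := fun (n : ℕ) (v : ℂ) => -(n : ℂ) * Complex.exp (-v) ^ n * dyM B n 1 i j)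
    (t := {v : ℂ | w.re - 1 < v.re}) (y₀ := w) ?_ ?_ ?_ ?_ ?_ ?_ ?_ ?_
  · refine (summable_nat_add_iff 1).1 ?_
    refine ((exp_sum (|c| * R)).summable.mul_left (|c| * R)).congr fun n => ?_
    rw [Nat.factorial_succ]
    push_cast
    have h3 : (n ! : ℝ) ≠ 0 := by exact_mod_cast n.factorial_ne_zero
    have h4 : (n : ℝ) + 1 ≠ 0 := by positivity
    rw [pow_succ]
    field_simp
  · exact isOpen_lt continuous_const Complex.continuous_re
  · exact (convex_halfSpace_re_gt (w.re - 1)).isPreconnected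
  · intro n v _
    have h1 : HasDerivAt (fun v : ℂ => Complex.exp (-v)) (-Complex.exp (-v)) v := by
      have h := (hasDerivAt_neg v).cexp
      simpa using h
    have h2 := (h1.pow n).mul_const (dyM B n 1 i j)
    refine h2.congr_deriv ?_
    rcases n with _ | n
    · simp
    · rw [Nat.add_sub_cancel, pow_succ]
      ring
  · intro n v hv
    have h1 := dyM_norm hB hC n i j
    have h2 : ‖Complex.exp (-v)‖ ≤ R := by
      rw [Complex.norm_exp, hR]
      refine Real.exp_le_exp.2 ?_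
      have : w.re - 1 < v.re := hv
      rw [Complex.neg_re]
      linarith
    rw [norm_mul, norm_mul, norm_neg, norm_pow, Complex.norm_natCast]
    calc (n : ℝ) * ‖Complex.exp (-v)‖ ^ n * ‖dyM B n 1 i j‖
        ≤ (n : ℝ) * R ^ n * (|c| ^ n / n !) := by
          refine mul_le_mul ?_ ?_ (norm_nonneg _) (by positivity)
          · exact mul_le_mul_of_nonneg_left (pow_le_pow_left₀ (norm_nonneg _) h2 n) (by positivity)
          · refine h1.trans ?_
            rw [← hc']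
            have h6 : c ^ n ≤ |c| ^ n := by
              rw [← abs_pow]
              exact le_abs_self _
            exact div_le_div_of_nonneg_right h6 (by positivity)
      _ = _ := by rw [mul_pow]; ring
  · show w.re - 1 < w.re
    linarith
  · exact (tm_hasSum hB hC (Complex.exp (-w)) i j).summable
  · show w.re - 1 < w.re
    linarith

end Pool.Agent.FLO
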