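import Mathlib

/-!
# FLO-GSep: spectra of continuous and of holomorphic families of matrices
-/

set_option autoImplicit false

open scoped BigOperators Topology
open Filter

namespace Pool.Agent.FLO

variable {κ : Type} [Fintype κ] [DecidableEq κ]

/-- the resultant of the universal characteristic polynomial and its derivative -/
private noncomputable def ures (κ : Type) [Fintype κ] [DecidableEq κ] : MvPolynomial (κ × κ) ℂ :=
  Polynomial.resultant (Matrix.charpoly.univ ℂ κ)
    (Polynomial.derivative (Matrix.charpoly.univ ℂ κ)) (Fintype.card κ) (Fintype.card κ)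

private theorem ures_ne (A : Matrix κ κ ℂ) :
    MvPolynomial.eval (fun p : κ × κ => A p.1 p.2) (ures κ) ≠ 0 ↔ A.charpoly.Separable := by
  have h1 : (Matrix.charpoly.univ ℂ κ).map (MvPolynomial.eval fun p : κ × κ => A p.1 p.2) =
      A.charpoly := by
    have := Matrix.charpoly.univ_map_eval₂Hom κ (RingHom.id ℂ) (fun p : κ × κ => A p.1 p.2)
    exact this
  have h2 : MvPolynomial.eval (fun p : κ × κ => A p.1 p.2) (ures κ) =
      Polynomial.resultant A.charpoly (Polynomial.derivative A.charpoly)
        (Fintype.card κ) (Fintype.card κ) := by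
    unfold ures
    rw [← Polynomial.resultant_map_map, ← Polynomial.derivative_map, h1]
  have hm := A.charpoly_monic
  have hd : A.charpoly.natDegree = Fintype.card κ := A.charpoly_natDegree_eq_dim
  have hle : (Polynomial.derivative A.charpoly).natDegree ≤ Fintype.card κ := by
    refine (Polynomial.natDegree_derivative_le _).trans ?_
    rw [hd]
    exact Nat.sub_le _ _
  obtain ⟨k, hk⟩ := Nat.exists_eq_add_of_le hle
  have h3 : Polynomial.resultant A.charpoly (Polynomial.derivative A.charpoly)
      (Fintype.card κ) (Fintype.card κ) =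
      Polynomial.resultant A.charpoly (Polynomial.derivative A.charpoly) := by
    have h4 := Polynomial.resultant_add_right_deg A.charpoly (Polynomial.derivative A.charpoly)
      (Fintype.card κ) (Polynomial.derivative A.charpoly).natDegree k le_rfl
    rw [← hk, ← hd, Polynomial.coeff_natDegree, hm.leadingCoeff, one_pow, one_mul] at h4
    rw [← hd]
    exact h4
  rw [h2, h3, ← isUnit_iff_ne_zero, Polynomial.isUnit_resultant_iff_isCoprime hm]
  rfl

private theorem spl (A : Matrix κ κ ℂ) : A.charpoly.Splits := IsAlgClosed.splits _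

private theorem crd (A : Matrix κ κ ℂ) : A.charpoly.roots.card = Fintype.card κ := by
  rw [← (spl A).natDegree_eq_card_roots, A.charpoly_natDegree_eq_dim]

theorem card_roots_le (A : Matrix κ κ ℂ) : A.charpoly.roots.toFinset.card ≤ Fintype.card κ := by
  rw [← crd A]
  exact Multiset.toFinset_card_le _

theorem card_roots_iff (A : Matrix κ κ ℂ) :
    A.charpoly.roots.toFinset.card = Fintype.card κ ↔ A.charpoly.Separable := by
  rw [← crd A, Multiset.toFinset_card_eq_card_iff_nodup,
    Polynomial.nodup_roots_iff_of_splits A.charpoly_monic.ne_zero (spl A)]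

theorem spec_near {r : ℕ} {A : (Fin r → ℂ) → Matrix κ κ ℂ}
    (hA : ∀ i j, Continuous fun t => A t i j) (t₀ : Fin r → ℂ) {u₀ : ℂ}
    (h : u₀ ∈ (A t₀).charpoly.roots.toFinset) {ε : ℝ} (hε : 0 < ε) :
    ∃ δ : ℝ, 0 < δ ∧ ∀ t, ‖t - t₀‖ < δ → ∃ u ∈ (A t).charpoly.roots.toFinset, ‖u - u₀‖ < ε := by
  have hc : Continuous fun t => (A t).charpoly.eval u₀ := by
    have h1 : (fun t => (A t).charpoly.eval u₀) =
        fun t => (Matrix.scalar κ u₀ - A t).det := funext fun t => Matrix.eval_charpoly _ _
    rw [h1]
    refine Continuous.matrix_det ?_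
    refine continuous_const.sub ?_
    exact continuous_matrix hA
  have h0 : (A t₀).charpoly.eval u₀ = 0 :=
    Polynomial.isRoot_of_mem_roots (Multiset.mem_toFinset.1 h)
  have hn : 0 < Fintype.card κ := by
    rw [← crd (A t₀)]
    exact Multiset.card_pos.2 fun h2 => by
      rw [Multiset.mem_toFinset, h2] at h
      exact Multiset.notMem_zero _ h
  have h3 := (Metric.continuous_iff.1 hc) t₀ (ε ^ Fintype.card κ) (pow_pos hε _)
  obtain ⟨δ, hδ, h4⟩ := h3
  refine ⟨δ, hδ, fun t ht => ?_⟩
  have h5 := h4 t (by rw [dist_eq_norm]; exact ht)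
  rw [h0, dist_zero_right, (spl (A t)).eval_eq_prod_roots_of_monic (A t).charpoly_monic] at h5
  by_contra hcon
  push Not at hcon
  have h6 : ∀ s : Multiset ℂ, (∀ u ∈ s, ε ≤ ‖u - u₀‖) →
      ε ^ s.card ≤ ‖(s.map fun u => u₀ - u).prod‖ := by
    intro s
    induction s using Multiset.induction_on with
    | empty =>
      intro _
      rw [Multiset.card_zero, pow_zero, Multiset.map_zero, Multiset.prod_zero, norm_one]
    | cons a s ih =>
      intro hs
      rw [Multiset.card_cons, pow_succ', Multiset.map_cons, Multiset.prod_cons, norm_mul]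
      refine mul_le_mul ?_ (ih fun u hu => hs u (Multiset.mem_cons_of_mem hu))
        (pow_nonneg hε.le _) (norm_nonneg _)
      rw [norm_sub_rev]
      exact hs a (Multiset.mem_cons_self a s)
  have h7 := h6 _ fun u hu => hcon u (Multiset.mem_toFinset.2 hu)
  rw [crd] at h7
  exact absurd h5 (not_lt.2 h7)

theorem sep_countable {A : ℂ → Matrix κ κ ℂ} (hA : ∀ i j, Differentiable ℂ fun z => A z i j)
    {z₁ : ℂ} (h1 : (A z₁).charpoly.Separable) : {z | ¬ (A z).charpoly.Separable}.Countable := by
  have hd : ∀ q : MvPolynomial (κ × κ) ℂ,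
      Differentiable ℂ fun z => MvPolynomial.eval (fun p : κ × κ => A z p.1 p.2) q := by
    intro q
    induction q using MvPolynomial.induction_on with
    | C a => simp only [MvPolynomial.eval_C]; fun_prop
    | add p q hp hq =>
      simp only [map_add]
      exact hp.add hq
    | mul_X p i hp =>
      simp only [map_mul, MvPolynomial.eval_X]
      exact hp.mul (hA _ _)
  have ha : AnalyticOnNhd ℂ (fun z => MvPolynomial.eval (fun p : κ × κ => A z p.1 p.2) (ures κ))
      Set.univ := fun z _ => (hd _).analyticAt z
  have hev : ∀ x : ℂ, ∀ᶠ z in 𝓝[≠] x, (A z).charpoly.Separable := by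
    intro x
    rcases (ha x (Set.mem_univ x)).eventually_eq_zero_or_eventually_ne_zero with h | h
    · exfalso
      have h3 := ha.eqOn_zero_of_preconnected_of_eventuallyEq_zero isPreconnected_univ
        (Set.mem_univ x) h (Set.mem_univ z₁)
      exact (ures_ne (A z₁)).2 h1 h3
    · exact h.mono fun z hz => (ures_ne (A z)).1 hz
  have hco : {z | ¬ (A z).charpoly.Separable}ᶜ ∈ Filter.codiscrete ℂ := by
    unfold Filter.codiscrete
    rw [mem_codiscreteWithin_iff_forall_mem_nhdsNE]
    intro x _
    filter_upwards [hev x] with z hz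
    exact Or.inl fun h => h hz
  exact (HereditarilyLindelofSpace.isLindelof _).countable_of_isDiscrete
    (compl_mem_codiscrete_iff.1 hco).2

end Pool.Agent.FLO
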