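import Pool.Agent.FLO.GLip

/-!
# FLO-GTr: translation of `t` by `2πi μ` is the twist by the line bundle `L_μ`
-/

set_option autoImplicit false
set_option linter.unusedSectionVars false

open scoped BigOperators Topology

namespace Pool.Agent.FLO

open Pool.Agent.FLG Pool.Agent.FLG.Flag

variable {ι V V' : Type} [Fintype ι] [AddCommGroup V] [Module ℂ V] [AddCommGroup V'] [Module ℂ V']
  {P : RootPairing ι ℂ V V'} [P.IsCrystallographic] (b : P.Base) [P.IsRootSystem] [P.IsReduced]
  [Fintype P.weylGroup] [DecidableEq P.weylGroup]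

private theorem cup_smul_tr (c : ℂ) (h : V) : cup b (c • h) = c • cup b h := by
  have h1 := cup_lin b c 0 h 0
  rw [zero_smul, add_zero, zero_smul, add_zero] at h1
  exact h1

private theorem twist_eq_tr (t : V) : (small b t).twist =
    Matrix.diagonal fun a => (2 * Real.pi * Complex.I) ^ len b a := rfl

private theorem twist_unit_tr (t : V) : IsUnit (small b t).twist := by
  rw [twist_eq_tr, Matrix.isUnit_diagonal, Pi.isUnit_iff]
  intro a
  exact (pow_ne_zero _ Complex.two_pi_I_ne_zero).isUnit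

private theorem twist_cup_tr (t μ : V) : (small b t).twist * cup b μ =
    ((2 * Real.pi * Complex.I : ℂ) • cup b μ) * (small b t).twist := by
  rw [twist_eq_tr]
  ext u w
  rw [Matrix.diagonal_mul, Matrix.mul_diagonal, Matrix.smul_apply, smul_eq_mul]
  by_cases h : cup b μ u w = 0
  · rw [h]
    ring
  · rw [cup_deg b h, pow_succ]
    ring

theorem exp_cup_twist (t : V) (μ : V) :
    NormedSpace.exp (cup b ((2 * Real.pi * Complex.I : ℂ) • μ)) * (small b t).twist =
      (small b t).twist * NormedSpace.exp (cup b μ) := by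
  have hu := twist_unit_tr b t
  have hdet : IsUnit (small b t).twist.det := (Matrix.isUnit_iff_isUnit_det _).1 hu
  have h1 : cup b ((2 * Real.pi * Complex.I : ℂ) • μ) =
      (small b t).twist * cup b μ * (small b t).twist⁻¹ := by
    rw [cup_smul_tr, twist_cup_tr, Matrix.mul_assoc, Matrix.mul_nonsing_inv _ hdet, Matrix.mul_one]
  rw [h1, Matrix.exp_conj _ _ hu, Matrix.mul_assoc, Matrix.nonsing_inv_mul _ hdet, Matrix.mul_one]

theorem mul_tr (t h : V) {μ : V} (hμ : ∀ i, ∃ n : ℤ, P.coroot' i μ = n) :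
    mul b (t + (2 * Real.pi * Complex.I : ℂ) • μ) h = mul b t h := by
  unfold mul
  congr 1
  ext u w
  rw [Matrix.of_apply, Matrix.of_apply]
  refine Finset.sum_congr rfl fun i _ => ?_
  obtain ⟨n, hn⟩ := hμ i
  have h1 : Complex.exp (P.coroot' i (t + (2 * Real.pi * Complex.I : ℂ) • μ)) =
      Complex.exp (P.coroot' i t) := by
    rw [map_add, map_smul, hn, smul_eq_mul, Complex.exp_add, mul_comm _ (n : ℂ),
      Complex.exp_int_mul_two_pi_mul_I, mul_one]
  rw [h1]

theorem small_tr (t : V) {μ : V} (hμ : ∀ i, ∃ n : ℤ, P.coroot' i μ = n) :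
    small b (t + (2 * Real.pi * Complex.I : ℂ) • μ) = small b t := by
  unfold small
  rw [mul_tr b t (c₁ b) hμ]

theorem Fx_tr (t : V) {μ : V} (hμ : ∀ i, ∃ n : ℤ, P.coroot' i μ = n) (x : P.weylGroup → ℂ)
    (w : ℂ) : Fx b (t + (2 * Real.pi * Complex.I : ℂ) • μ) x w =
      Fx b t ((NormedSpace.exp (cup b μ)).mulVec x) w := by
  have hZ : Zs b (t + (2 * Real.pi * Complex.I : ℂ) • μ) = Zs b t := by
    refine Zs_eq b t ?_
    have h1 := Zs_std b (t + (2 * Real.pi * Complex.I : ℂ) • μ)
    rw [small_tr b t hμ] at h1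
    exact h1
  have hc : ∀ h h' : V, Commute (cup b h) (cup b h') := fun h h' => cup_comm' b h h'
  have hG : Commute (NormedSpace.exp (cup b ((2 * Real.pi * Complex.I : ℂ) • μ)))
      (gammaOp b t) := by
    unfold gammaOp
    refine Commute.exp (Commute.add_right (Commute.add_right (hc _ _) ((hc _ _).smul_right _)) ?_)
    refine Commute.sum_right _ _ _ fun k _ => Commute.smul_right ?_ _
    exact Commute.sum_right _ _ _ fun i _ => (hc _ _).pow_right k
  unfold Fx
  rw [hZ, small_tr b t hμ, gammaOp_add, Matrix.mulVec_mulVec, hG.eq]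
  congr 1
  rw [Matrix.mul_assoc, Matrix.mul_assoc, exp_cup_twist b t μ, ← Matrix.mul_assoc,
    ← Matrix.mul_assoc]

theorem GF_tr (t : V) {μ : V} (hμ : ∀ i, ∃ n : ℤ, P.coroot' i μ = n) (ψ h : ℝ)
    (x : P.weylGroup → ℂ) : x ∈ GF b (t + (2 * Real.pi * Complex.I : ℂ) • μ) ψ h ↔
      (NormedSpace.exp (cup b μ)).mulVec x ∈ GF b t ψ h := by
  rw [mem_GF, mem_GF]
  have h1 : (fun s : ℝ => Fx b (t + (2 * Real.pi * Complex.I : ℂ) • μ) x (s + ψ * Complex.I)) =
      fun s : ℝ => Fx b t ((NormedSpace.exp (cup b μ)).mulVec x) (s + ψ * Complex.I) := by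
    funext s
    exact Fx_tr b t hμ x _
  rw [h1]

end Pool.Agent.FLO
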