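import Pool.Agent.FLO.GDual
import Pool.Agent.FLO.GTr
import Pool.Agent.FLO.GBd
import Pool.Agent.FLO.GSep
import Pool.Agent.FLO.GChi
import Pool.Agent.FLO.GCh

/-!
# FLO-GInst: the growth system of `G/B`
-/

set_option autoImplicit false
set_option linter.unusedSectionVars false

open scoped BigOperators Topology ComplexConjugate
open Filter

namespace Pool.Agent.FLO

open Pool.Agent.FLG Pool.Agent.FLG.Flag

variable {ι V V' : Type} [Fintype ι] [AddCommGroup V] [Module ℂ V] [AddCommGroup V'] [Module ℂ V']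
  {P : RootPairing ι ℂ V V'} [P.IsCrystallographic] (b : P.Base) [P.IsRootSystem] [P.IsReduced]
  [Fintype P.weylGroup] [DecidableEq P.weylGroup]

/-- the class of `x` in `ch(K_0(X))` -/
noncomputable def toK (x : KClass P) : Kc b := ⟨chern b x, ⟨x, rfl⟩⟩

theorem toK_surj (k : Kc b) : ∃ x, toK b x = k := by
  obtain ⟨k, x, hx⟩ := k
  exact ⟨x, Subtype.ext hx⟩

/-- a representative -/
noncomputable def rep (k : Kc b) : KClass P := (toK_surj b k).choose

theorem toK_rep (k : Kc b) : toK b (rep b k) = k := (toK_surj b k).choose_spec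

theorem ch_rep (k : Kc b) : chern b (rep b k) = k := congrArg Subtype.val (toK_rep b k)

theorem euler_congr {x x' y y' : KClass P} (hx : chern b x = chern b x')
    (hy : chern b y = chern b y') : euler b x y = euler b x' y' := by
  obtain ⟨Q, hQ⟩ := euler_ch b
  rw [hQ, hQ, hx, hy]

/-- the Euler form with integral values -/
noncomputable def chiZ (x y : KClass P) : ℤ := (euler_int b x y).choose

theorem chiZ_spec (x y : KClass P) : ((chiZ b x y : ℤ) : ℂ) = euler b x y :=
  (euler_int b x y).choose_spec.symm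

/-- the Euler form on `ch(K_0(X))` -/
noncomputable def chiK : Kc b →+ Kc b →+ ℤ :=
  AddMonoidHom.mk' (fun x => AddMonoidHom.mk' (fun y => chiZ b (rep b x) (rep b y)) fun y y' => by
    obtain ⟨Q, hQ⟩ := euler_ch b
    have h : ((chiZ b (rep b x) (rep b (y + y')) : ℤ) : ℂ) =
        ((chiZ b (rep b x) (rep b y) + chiZ b (rep b x) (rep b y') : ℤ) : ℂ) := by
      push_cast
      rw [chiZ_spec, chiZ_spec, chiZ_spec, hQ, hQ, hQ, ch_rep, ch_rep, ch_rep, ch_rep,
        AddSubgroup.coe_add, Matrix.mulVec_add, dotProduct_add]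
    exact_mod_cast h) fun x x' => by
    ext y
    obtain ⟨Q, hQ⟩ := euler_ch b
    have h : ((chiZ b (rep b (x + x')) (rep b y) : ℤ) : ℂ) =
        ((chiZ b (rep b x) (rep b y) + chiZ b (rep b x') (rep b y) : ℤ) : ℂ) := by
      push_cast
      rw [chiZ_spec, chiZ_spec, chiZ_spec, hQ, hQ, hQ, ch_rep, ch_rep, ch_rep, ch_rep,
        AddSubgroup.coe_add, add_dotProduct]
    exact_mod_cast h

theorem chiK_spec (x y : Kc b) : ((chiK b x y : ℤ) : ℂ) = euler b (rep b x) (rep b y) :=
  chiZ_spec b _ _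

theorem chiK_toK (x y : KClass P) : ((chiK b (toK b x) (toK b y) : ℤ) : ℂ) = euler b x y := by
  rw [chiK_spec]
  exact euler_congr b (ch_rep b _) (ch_rep b _)

variable {r : ℕ} {e : Fin r ≃ b.support} {ω : Fin r → V} (hω : IsFund b e ω)

omit [Fintype ι] [P.IsRootSystem] [P.IsReduced] [Fintype P.weylGroup] [DecidableEq P.weylGroup] in
include hω in
/-- integral combinations of the fundamental weights are weights -/
theorem wt_tp (μ : Fin r → ℤ) (i : ι) : ∃ n : ℤ, P.coroot' i (tp ω fun k => (μ k : ℂ)) = n := by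
  have h1 : ∀ j : b.support, ∃ n : ℤ, P.coroot' j (tp ω fun k => (μ k : ℂ)) = n := by
    intro j
    refine ⟨μ (e.symm j), ?_⟩
    rw [tp_apply, map_sum]
    have h2 : ∀ k, P.coroot' (j : ι) ((μ k : ℂ) • ω k) = if e.symm j = k then (μ k : ℂ) else 0 := by
      intro k
      rw [map_smul]
      have h3 := hω (e.symm j) k
      rw [Equiv.apply_symm_apply] at h3
      rw [h3]
      by_cases h : e.symm j = k
      · simp [h]
      · simp [h]
    rw [Finset.sum_congr rfl fun k _ => h2 k]
    simp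
  obtain ⟨f, -, -, hf⟩ := b.flip.exists_root_eq_sum_int i
  have h4 : P.coroot i = ∑ j ∈ b.support, f j • P.coroot j := hf
  choose! n hn using h1
  refine ⟨∑ j : b.support, f j * n j, ?_⟩
  have h5 : P.coroot' i (tp ω fun k => (μ k : ℂ)) =
      ∑ j ∈ b.support, (f j : ℂ) * P.coroot' j (tp ω fun k => (μ k : ℂ)) := by
    rw [RootPairing.coroot', h4]
    rw [LinearMap.flip_apply, map_sum]
    refine Finset.sum_congr rfl fun j _ => ?_
    rw [map_zsmul, zsmul_eq_mul]
    rfl
  rw [h5, ← Finset.sum_coe_sort b.support]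
  push_cast
  exact Finset.sum_congr rfl fun j _ => by rw [hn]

/-- the weight with given coordinates -/
noncomputable def wt (μ : Fin r → ℤ) : {μ : V // ∀ i, ∃ n : ℤ, P.coroot' i μ = n} :=
  ⟨tp ω fun k => (μ k : ℂ), wt_tp b hω μ⟩

/-- the twist by `L_μ` -/
noncomputable def twK (μ : Fin r → ℤ) : Kc b →+ Kc b :=
  AddMonoidHom.mk' (fun x => ⟨(NormedSpace.exp (cup b (tp ω fun k => (μ k : ℂ)))).mulVec x,
    tws (wt b hω μ) (rep b x), by
      show chern b _ = _
      rw [ch_tws, ch_rep]
      rfl⟩) fun x y => by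
    apply Subtype.ext
    show (NormedSpace.exp (cup b (tp ω fun k => (μ k : ℂ)))).mulVec ((x : P.weylGroup → ℂ) + y) = _
    rw [Matrix.mulVec_add]
    rfl

theorem twK_coe (μ : Fin r → ℤ) (x : Kc b) : (twK b hω μ x : P.weylGroup → ℂ) =
    (NormedSpace.exp (cup b (tp ω fun k => (μ k : ℂ)))).mulVec x := rfl

theorem twK_toK (μ : Fin r → ℤ) (x : KClass P) :
    twK b hω μ (toK b x) = toK b (tws (wt b hω μ) x) := by
  apply Subtype.ext
  rw [twK_coe]
  exact (ch_tws b (wt b hω μ) x).symm

/-- the dual -/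
noncomputable def duK : Kc b →+ Kc b :=
  AddMonoidHom.mk' (fun x => ⟨dl b x, dlK (rep b x), by
      show chern b _ = _
      funext u
      rw [ch_dlK, ch_rep]
      rfl⟩) fun x y => by
    apply Subtype.ext
    funext u
    show (-1) ^ len b u * (((x : P.weylGroup → ℂ) + y) u) = _
    rw [Pi.add_apply, mul_add]
    rfl

theorem duK_coe (x : Kc b) : (duK b x : P.weylGroup → ℂ) = dl b x := rfl

theorem duK_toK (x : KClass P) : duK b (toK b x) = toK b (dlK x) := by
  apply Subtype.ext
  funext u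
  exact (ch_dlK b x u).symm

include hω in
theorem coroot_tp_im {τ : Fin r → ℂ} (hτ : ∀ k, (τ k).im = 0) (i : ι) :
    (P.coroot' i (tp ω τ)).im = 0 := by
  rw [tp_apply, map_sum, Complex.im_sum]
  refine Finset.sum_eq_zero fun k _ => ?_
  obtain ⟨n, hn⟩ := wt_tp b hω (Pi.single k 1) i
  have h1 : tp ω (fun j => ((Pi.single k 1 : Fin r → ℤ) j : ℂ)) = ω k := by
    rw [tp_apply, Finset.sum_eq_single k]
    · simp
    · intro j _ hj; simp [hj]
    · intro h; exact absurd (Finset.mem_univ k) h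
  rw [h1] at hn
  rw [map_smul, hn, smul_eq_mul, Complex.mul_im, hτ k]
  simp

omit [P.IsCrystallographic] [P.IsRootSystem] [P.IsReduced] [Fintype P.weylGroup] [Fintype ι]
  [DecidableEq P.weylGroup] in
theorem tp_tr (τ : Fin r → ℂ) (μ : Fin r → ℤ) :
    tp ω (tr τ μ) = tp ω τ + (2 * Real.pi * Complex.I : ℂ) • tp ω fun k => (μ k : ℂ) := by
  rw [tp_apply, tp_apply, tp_apply, Finset.smul_sum, ← Finset.sum_add_distrib]
  refine Finset.sum_congr rfl fun k _ => ?_
  rw [smul_smul, ← add_smul]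
  rfl

/-- the entries of the quantum product are entire functions of the coordinates -/
theorem mul_diff (h : V) (u w : P.weylGroup) {E : Type} [NormedAddCommGroup E]
    [NormedSpace ℂ E] (f : E → Fin r → ℂ) (hf : ∀ k, Differentiable ℂ fun z => f z k) :
    Differentiable ℂ fun z => mul b (tp ω (f z)) h u w := by
  unfold mul
  simp only [Matrix.add_apply, Matrix.of_apply]
  refine (differentiable_const _).add ?_
  refine Differentiable.fun_sum fun i _ => ?_
  split_ifs
  · refine (differentiable_const _).mul (Complex.differentiable_exp.comp ?_)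
    simp only [tp_apply, map_sum, map_smul, smul_eq_mul]
    exact Differentiable.fun_sum fun k _ => (hf k).mul (differentiable_const _)
  · exact differentiable_const _

/-- the canonical coordinates at the point with the coordinates `τ` -/
noncomputable def spc (ω : Fin r → V) (τ : Fin r → ℂ) : Finset ℂ :=
  (mul b (tp ω τ) (c₁ b)).charpoly.roots.toFinset

/-- The growth system of `G/B`. -/
noncomputable def flg : Growth r (Fintype.card P.weylGroup) (Kc b) where
  χ := chiK b
  spec := spc b ω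
  G t ψ h := (GF b (tp ω t) ψ h).comap (Kc b).subtype
  tw := twK b hω
  dual := duK b
  card_le t := card_roots_le _
  spec_near t₀ _ ε hε := by
    have key : ∀ u₀ : ℂ, ∃ δ : ℝ, 0 < δ ∧ (u₀ ∈ spc b ω t₀ → ∀ t, ‖t - t₀‖ < δ →
        ∃ u ∈ spc b ω t, ‖u - u₀‖ < ε) := by
      intro u₀
      by_cases h : u₀ ∈ spc b ω t₀
      · obtain ⟨δ, hδ, h1⟩ := spec_near (A := fun t => mul b (tp ω t) (c₁ b))
          (fun i j => (mul_diff b (ω := ω) (c₁ b) i j (fun t => t)
            (fun k => differentiable_apply k)).continuous) t₀ h hε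
        exact ⟨δ, hδ, fun _ => h1⟩
      · exact ⟨1, one_pos, fun h' => absurd h' h⟩
    choose δ hδ h1 using key
    rcases (spc b ω t₀).eq_empty_or_nonempty with h0 | h0
    · exact ⟨1, one_pos, fun t _ u₀ hu => by rw [h0] at hu; exact absurd hu (Finset.notMem_empty _)⟩
    · refine ⟨(spc b ω t₀).inf' h0 δ, (Finset.lt_inf'_iff h0).2 fun u _ => hδ u, ?_⟩
      intro t ht u₀ hu
      exact h1 u₀ hu t (lt_of_lt_of_le ht (Finset.inf'_le _ hu))
  spec_tr t μ := by
    unfold spc
    rw [tp_tr, mul_tr b _ _ (wt_tp b hω μ)]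
  tw_zero x := by
    apply Subtype.ext
    rw [twK_coe]
    have h1 : tp ω (fun k => (((0 : Fin r → ℤ) k : ℤ) : ℂ)) = 0 := by
      rw [tp_apply]
      simp
    have h2 : cup b (0 : V) = 0 := by
      have := cup_lin b 0 0 (0 : V) (0 : V)
      simpa using this
    rw [h1, h2, NormedSpace.exp_zero, Matrix.one_mulVec]
  tw_add μ ν x := by
    apply Subtype.ext
    rw [twK_coe, twK_coe, twK_coe, Matrix.mulVec_mulVec]
    have h1 : tp ω (fun k => (((μ + ν) k : ℤ) : ℂ)) =
        tp ω (fun k => (μ k : ℂ)) + tp ω fun k => (ν k : ℂ) := by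
      rw [← map_add]
      congr 1
      funext k
      simp
    have h2 : ∀ h h' : V, cup b (h + h') = cup b h + cup b h' := by
      intro h h'
      have := cup_lin b 1 1 h h'
      simpa using this
    rw [h1, h2, Matrix.exp_add_of_commute _ _ (cup_comm' b _ _)]
  tw_χ μ x y := by
    have h : ((chiK b (twK b hω μ x) (twK b hω μ y) : ℤ) : ℂ) = ((chiK b x y : ℤ) : ℂ) := by
      obtain ⟨x, rfl⟩ := toK_surj b x
      obtain ⟨y, rfl⟩ := toK_surj b y
      rw [twK_toK, twK_toK, chiK_toK, chiK_toK, euler_tws]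
    exact_mod_cast h
  G_tr t μ ψ h x := by
    show (x : P.weylGroup → ℂ) ∈ GF b (tp ω (tr t μ)) ψ h ↔
      (twK b hω μ x : P.weylGroup → ℂ) ∈ GF b (tp ω t) ψ h
    rw [tp_tr, GF_tr b _ (wt_tp b hω μ)]
    rfl
  G_lip t₀ := by
    obtain ⟨C, hC, h1⟩ := GF_lip b ω (‖t₀‖ + 1)
    refine ⟨1, C, one_pos, hC, ?_⟩
    intro t t' ht ht' ψ h x hx
    have h2 : ∀ s : Fin r → ℂ, ‖s - t₀‖ < 1 → ‖s‖ ≤ ‖t₀‖ + 1 := by
      intro s hs
      have h3 : s = t₀ + (s - t₀) := by abel
      rw [h3]
      exact (norm_add_le _ _).trans (by linarith)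
    exact h1 t t' (h2 t ht) (h2 t' ht') ψ h x hx
  dual_dual x := by
    apply Subtype.ext
    funext u
    show (-1) ^ len b u * ((-1) ^ len b u * (x : P.weylGroup → ℂ) u) = _
    rw [← mul_assoc, ← mul_pow]
    norm_num
  G_dual t ht h x hx := by
    refine dual_GF b (coroot_tp_im b hω ht) ?_ hx
    intro u
    obtain ⟨x, rfl⟩ := toK_surj b x
    exact ch_real b x u

end Pool.Agent.FLO
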