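import Pool.Agent.FLO.NOut

/-!
# FLO-GNestA: angles, phases and the number of labels
-/

set_option autoImplicit false

open scoped BigOperators Nat

namespace Pool.Agent.FLO

/-- extension of a vector by `0` -/
noncomputable def xr {r : ℕ} (θ : Fin r → ℝ) (k : ℕ) : ℝ := if hk : k < r then θ ⟨k, hk⟩ else 0

private theorem xr_of_lt {r : ℕ} (θ : Fin r → ℝ) {n : ℕ} (hn : n < r) : xr θ n = θ ⟨n, hn⟩ :=
  dif_pos hn

private theorem ph_zero {r : ℕ} (θ : Fin r → ℝ) (h : 0 < r) : ph θ ⟨0, h⟩ = 2 * θ ⟨0, h⟩ := by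
  unfold ph
  simp

private theorem ph_succ {r : ℕ} (θ : Fin r → ℝ) (n : ℕ) (h : n + 1 < r) :
    ph θ ⟨n + 1, h⟩ = ((n : ℝ) + 3) * θ ⟨n + 1, h⟩ - ((n : ℝ) + 1) * θ ⟨n, by omega⟩ := by
  unfold ph
  rw [dif_pos (Nat.succ_pos n)]
  push_cast

  ring

private theorem sum_xr {r : ℕ} (θ : Fin r → ℝ) : ∀ (n : ℕ) (hn : n < r),
    ∑ i ∈ Finset.range (n + 1), ((i : ℝ) + 1) * xr (ph θ) i =
      ((n : ℝ) + 1) * ((n : ℝ) + 2) * θ ⟨n, hn⟩ := by
  intro n
  induction n with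
  | zero =>
    intro hn
    rw [Finset.sum_range_one, xr_of_lt _ hn, ph_zero]
    push_cast
    ring
  | succ n ih =>
    intro hn
    rw [Finset.sum_range_succ, ih (by omega), xr_of_lt _ hn, ph_succ]
    push_cast
    ring

theorem thet_xr {r : ℕ} (θ : Fin r → ℝ) (k : Fin r) : thet k.val (xr (ph θ)) = θ k := by
  unfold thet
  rw [sum_xr θ k.val k.isLt, mul_div_assoc, mul_comm, div_mul_cancel₀]
  positivity

private theorem ph_thet {r : ℕ} (x : Fin r → ℝ) (k : Fin r) :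
    ph (fun j : Fin r => thet j.val (xr x)) k = x k := by
  obtain ⟨k, hk⟩ := k
  rcases k with _ | n
  · rw [ph_zero]
    simp only [thet]
    rw [Finset.sum_range_one, xr_of_lt _ hk]
    push_cast
    ring
  · rw [ph_succ]
    simp only [thet]
    rw [Finset.sum_range_succ _ (n + 1), xr_of_lt _ hk]
    push_cast
    have h1 : (n : ℝ) + 1 ≠ 0 := by positivity
    have h2 : (n : ℝ) + 2 ≠ 0 := by positivity
    have h3 : (n : ℝ) + 3 ≠ 0 := by positivity
    have h4 : (n : ℝ) + 1 + 1 ≠ 0 := by positivity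
    have h5 : (n : ℝ) + 1 + 2 ≠ 0 := by positivity
    field_simp
    ring

theorem exists_shift {r : ℕ} (θ : Fin r → ℝ) (m : Fin r → ℤ) :
    ∃ θ' : Fin r → ℝ, ∀ k, ph θ' k = ph θ k + 2 * Real.pi * m k :=
  ⟨fun j => thet j.val (xr fun k => ph θ k + 2 * Real.pi * m k), fun k => ph_thet _ k⟩

private theorem eq_of_ph {r : ℕ} {θ₁ θ₂ : Fin r → ℝ} (k : Fin r)
    (h : ∀ i ≤ k, ph θ₁ i = ph θ₂ i) : θ₁ k = θ₂ k := by
  rw [← thet_xr θ₁ k, ← thet_xr θ₂ k]
  unfold thet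
  congr 1
  refine Finset.sum_congr rfl fun i hi => ?_
  have hi2 : i < r := by
    have := Finset.mem_range.1 hi
    have := k.isLt
    omega
  rw [xr_of_lt _ hi2, xr_of_lt _ hi2, h ⟨i, hi2⟩ (by
    rw [Fin.le_def]
    have := Finset.mem_range.1 hi
    simp only
    omega)]

theorem first_diff {r : ℕ} {θ₁ θ₂ : Fin r → ℝ} {m₁ m₂ : (k : Fin r) → Fin (k.val + 2)}
    (h : ∀ k, ph θ₁ k - ph θ₂ k = 2 * Real.pi * ((m₁ k : ℕ) - (m₂ k : ℕ) : ℤ)) (hne : m₁ ≠ m₂) :
    ∃ k, (∀ i < k, θ₁ i = θ₂ i) ∧ ∃ d : ℤ, d ≠ 0 ∧ |d| < (k.val : ℤ) + 2 ∧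
      ((k.val : ℝ) + 2) * (θ₁ k - θ₂ k) = 2 * Real.pi * d := by
  by_contra hcon
  apply hne
  have key : ∀ n : ℕ, ∀ k : Fin r, k.val = n → m₁ k = m₂ k := by
    intro n
    induction n using Nat.strong_induction_on with
    | _ n ih =>
      intro k hk
      by_contra hm
      apply hcon
      have hθ : ∀ i < k, θ₁ i = θ₂ i := by
        intro i hi
        refine eq_of_ph i fun j hj => ?_
        have h1 := h j
        have hj2 : j.val < n := by
          have h3 := Fin.lt_def.1 (lt_of_le_of_lt hj hi)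
          omega
        rw [ih j.val hj2 j rfl] at h1
        push_cast at h1
        have h2 : ph θ₁ j - ph θ₂ j = 0 := by rw [h1]; ring
        linarith
      refine ⟨k, hθ, ((m₁ k : ℕ) - (m₂ k : ℕ) : ℤ), ?_, ?_, ?_⟩
      · intro h0
        apply hm
        apply Fin.ext
        omega
      · rw [abs_lt]
        have h1 := (m₁ k).isLt
        have h2 := (m₂ k).isLt
        constructor <;> omega
      · have h1 := h k
        rw [← h1]
        obtain ⟨k, hk'⟩ := k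
        rcases k with _ | n'
        · rw [ph_zero, ph_zero]
          push_cast
          ring
        · rw [ph_succ, ph_succ, hθ ⟨n', by omega⟩ (by rw [Fin.lt_def]; simp)]
          push_cast
          ring
  funext k
  exact key k.val k rfl

theorem card_box (r : ℕ) : Fintype.card ((k : Fin r) → Fin (k.val + 2)) = (r + 1)! := by
  rw [Fintype.card_pi]
  simp only [Fintype.card_fin]
  rw [Fin.prod_univ_eq_prod_range (fun k => k + 2) r]
  induction r with
  | zero => simp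
  | succ r ih => rw [Finset.prod_range_succ, ih, Nat.factorial_succ (r + 1), mul_comm]

private theorem exp_sub_pos {k : ℕ} {d : ℤ} (hd : d ≠ 0) (hdk : |d| < (k : ℤ) + 2) :
    0 < ‖Complex.exp (((2 * Real.pi * d / ((k : ℝ) + 2) : ℝ) : ℂ) * Complex.I) - 1‖ := by
  rw [norm_pos_iff, sub_ne_zero]
  intro h
  rw [Complex.exp_eq_one_iff] at h
  obtain ⟨n, hn⟩ := h
  have h1 : ((2 * Real.pi * d / ((k : ℝ) + 2) : ℝ) : ℂ) = ((n * (2 * Real.pi) : ℝ) : ℂ) := by
    have h2 : ((2 * Real.pi * d / ((k : ℝ) + 2) : ℝ) : ℂ) * Complex.I =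
        ((n * (2 * Real.pi) : ℝ) : ℂ) * Complex.I := by
      rw [hn]; push_cast; ring
    exact mul_right_cancel₀ Complex.I_ne_zero h2
  have h3 : 2 * Real.pi * d / ((k : ℝ) + 2) = n * (2 * Real.pi) := by exact_mod_cast h1
  have hk : (0 : ℝ) < (k : ℝ) + 2 := by positivity
  rw [div_eq_iff hk.ne'] at h3
  have h4 : (d : ℝ) = n * ((k : ℝ) + 2) := by
    have hpi : (2 * Real.pi) ≠ 0 := by positivity
    apply mul_left_cancel₀ hpi
    rw [h3]; ring
  have h5 : d = n * ((k : ℤ) + 2) := by exact_mod_cast h4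
  have hn0 : n ≠ 0 := by
    rintro rfl
    rw [zero_mul] at h5
    exact hd h5
  have h6 : 1 ≤ |n| := Int.one_le_abs hn0
  rw [h5, abs_mul, abs_of_nonneg (show (0 : ℤ) ≤ (k : ℤ) + 2 by omega)] at hdk
  nlinarith

theorem exp_far (r : ℕ) : ∃ c : ℝ, 0 < c ∧ ∀ k < r, ∀ (d : ℤ) (α β : ℝ), d ≠ 0 →
    |d| < (k : ℤ) + 2 → ((k : ℝ) + 2) * (α - β) = 2 * Real.pi * d →
    c ≤ ‖Complex.exp (α * Complex.I) - Complex.exp (β * Complex.I)‖ := by
  classical
  set S : Finset (ℕ × ℤ) := (Finset.range r ×ˢ Finset.Icc (-(r : ℤ) - 2) ((r : ℤ) + 2)).filter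
    fun p => p.2 ≠ 0 ∧ |p.2| < (p.1 : ℤ) + 2 with hS
  set f : ℕ × ℤ → ℝ := fun p =>
    ‖Complex.exp (((2 * Real.pi * p.2 / ((p.1 : ℝ) + 2) : ℝ) : ℂ) * Complex.I) - 1‖ with hf
  have hex : ∃ c : ℝ, 0 < c ∧ ∀ p ∈ S, c ≤ f p := by
    rcases S.eq_empty_or_nonempty with h0 | h0
    · exact ⟨1, one_pos, fun p hp => by rw [h0] at hp; exact absurd hp (Finset.notMem_empty p)⟩
    · obtain ⟨p, hp, hmin⟩ := Finset.exists_min_image S f h0
      rw [hS, Finset.mem_filter] at hp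
      exact ⟨f p, exp_sub_pos hp.2.1 hp.2.2, hmin⟩
  obtain ⟨c, hc, hc2⟩ := hex
  refine ⟨c, hc, fun k hk d α β hd hdk hαβ => ?_⟩
  have hmem : (k, d) ∈ S := by
    rw [hS, Finset.mem_filter, Finset.mem_product, Finset.mem_range, Finset.mem_Icc]
    have h1 := abs_lt.1 hdk
    refine ⟨⟨hk, ?_, ?_⟩, hd, hdk⟩ <;> simp only <;> omega
  have h1 := hc2 _ hmem
  refine h1.trans (le_of_eq ?_)
  have hk2 : (k : ℝ) + 2 ≠ 0 := by positivity
  have h2 : 2 * Real.pi * d / ((k : ℝ) + 2) = α - β := by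
    rw [div_eq_iff hk2, ← hαβ]; ring
  have h3 : Complex.exp (α * Complex.I) - Complex.exp (β * Complex.I) =
      Complex.exp (β * Complex.I) * (Complex.exp (((α - β : ℝ) : ℂ) * Complex.I) - 1) := by
    rw [mul_sub, mul_one, ← Complex.exp_add]
    congr 2
    push_cast
    ring
  rw [h3, norm_mul, Complex.norm_exp_ofReal_mul_I, one_mul, hf]
  simp only
  rw [h2]

end Pool.Agent.FLO
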