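import Pool.Agent.FLO.GNestA

/-!
# FLO-GNestB: the eigenvalue branch as a function of the angles
-/

set_option autoImplicit false

open scoped BigOperators Nat

namespace Pool.Agent.FLO

/-- the eigenvalues of `c_1` on `Fl_(r+1)` at the point with the coordinates `t` -/
noncomputable def spE (r : ℕ) (t : Fin r → ℂ) : Finset ℂ :=
  (FLE.E r fun k => if hk : k < r then Complex.exp (t ⟨k, hk⟩) else 0).charpoly.roots.toFinset

theorem spE_card_le (r : ℕ) (t : Fin r → ℂ) : (spE r t).card ≤ (r + 1)! := by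
  unfold spE
  refine (Multiset.toFinset_card_le _).trans ((Polynomial.card_roots' _).trans ?_)
  rw [Matrix.charpoly_natDegree_eq_dim, Fintype.card_perm, Fintype.card_fin]

/-- the branch as a function of the angles -/
noncomputable def uuG (r : ℕ) (g : ℕ → (ℕ → ℝ) → ℂ) (θ : Fin r → ℝ) : ℂ :=
  ∑ k ∈ Finset.range r, g k (xr (ph θ))

variable {r : ℕ} {ρ s : ℕ → ℝ} {g : ℕ → (ℕ → ℝ) → ℂ} {δ : ℝ}

private theorem xr_ph_cont : Continuous fun θ : Fin r → ℝ => xr (ph θ) := by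
  refine continuous_pi fun k => ?_
  unfold xr
  by_cases hk : k < r
  · simp only [hk, dite_true]
    unfold ph
    by_cases h0 : 0 < k
    · simp only [h0, dite_true]
      fun_prop
    · simp only [h0, dite_false]
      fun_prop
  · simp only [hk, dite_false]
    exact continuous_const

theorem uu_cont (hc : ∀ k, Continuous (g k)) : Continuous (uuG r g) := by
  unfold uuG
  exact continuous_finsetSum _ fun k _ => (hc k).comp xr_ph_cont

private theorem g_eq (hp : ∀ k x x', (∀ i ≤ k, IsPer (thet i x' - thet i x)) → g k x' = g k x)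
    {θ θ' : Fin r → ℝ} {k : ℕ} (hk : k < r)
    (h : ∀ i : Fin r, i.val ≤ k → IsPer (θ' i - θ i)) : g k (xr (ph θ')) = g k (xr (ph θ)) := by
  refine hp k _ _ fun i hi => ?_
  have hi' : i < r := lt_of_le_of_lt hi hk
  have h1 := thet_xr θ' ⟨i, hi'⟩
  have h2 := thet_xr θ ⟨i, hi'⟩
  simp only at h1 h2
  rw [h1, h2]
  exact h ⟨i, hi'⟩ hi

theorem uu_per (hp : ∀ k x x', (∀ i ≤ k, IsPer (thet i x' - thet i x)) → g k x' = g k x)
    {θ θ' : Fin r → ℝ} (h : ∀ k, IsPer (θ' k - θ k)) : uuG r g θ' = uuG r g θ := by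
  unfold uuG
  exact Finset.sum_congr rfl fun k hk => g_eq hp (Finset.mem_range.1 hk) fun i _ => h i

private theorem E_congr {q q' : ℕ → ℂ} (h : ∀ k < r, q k = q' k) : FLE.E r q = FLE.E r q' := by
  unfold FLE.E FLE.M
  funext u w
  refine Finset.sum_congr rfl fun p _ => ?_
  have e : ∏ k ∈ Finset.Ico p.1.val p.2.val, q k = ∏ k ∈ Finset.Ico p.1.val p.2.val, q' k :=
    Finset.prod_congr rfl fun k hk => h k (by
      have h1 := (Finset.mem_Ico.1 hk).2
      have h2 := p.2.isLt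
      omega)
  rw [e]

private theorem exp_of_per {x y : ℝ} (h : IsPer (x - y)) :
    Complex.exp (Complex.I * x) = Complex.exp (y * Complex.I) := by
  obtain ⟨m, hm⟩ := h
  have hx : x = y + 2 * Real.pi * m := by linarith
  rw [Complex.exp_eq_exp_iff_exists_int]
  refine ⟨m, ?_⟩
  rw [hx]
  push_cast
  ring

theorem uu_mem (hs : ∀ k, 0 < s k) (he : ∀ x : ℕ → ℝ, ∃ v : Equiv.Perm (Fin (r + 1)) → ℂ, v ≠ 0 ∧
      (FLE.E r fun k => s k * Complex.exp (Complex.I * x k)).mulVec v =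
        (∑ k ∈ Finset.range r, g k x) • v) {θ θ' : Fin r → ℝ}
    (h : ∀ k, IsPer (ph θ' k - ph θ k)) :
    uuG r g θ' ∈ spE r (pt (fun k => Real.log (s k)) θ) := by
  obtain ⟨v, hv0, hv⟩ := he (xr (ph θ'))
  have hE : (FLE.E r fun k => s k * Complex.exp (Complex.I * xr (ph θ') k)) =
      FLE.E r fun k => if hk : k < r then
        Complex.exp (pt (fun k : Fin r => Real.log (s k)) θ ⟨k, hk⟩) else 0 := by
    refine E_congr fun k hk => ?_
    simp only [hk, dite_true]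
    unfold pt xr
    simp only [hk, dite_true]
    rw [Complex.exp_add, ← Complex.ofReal_exp, Real.exp_log (hs k), exp_of_per (h ⟨k, hk⟩)]
  unfold spE
  rw [← hE, Multiset.mem_toFinset, Polynomial.mem_roots (Matrix.charpoly_monic _).ne_zero,
    Polynomial.IsRoot.def, Matrix.eval_charpoly, ← Matrix.exists_mulVec_eq_zero_iff]
  refine ⟨v, hv0, ?_⟩
  rw [Matrix.sub_mulVec, sub_eq_zero, hv, Matrix.scalar_apply]
  ext i
  simp [Matrix.mulVec_diagonal, uuG]

private theorem sum_geo (hρ : ∀ k, 0 < ρ k) (hd : ∀ k, ρ (k + 1) ≤ 1 / 2 * ρ k) (a b : ℕ)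
    (hab : a ≤ b) : ∑ i ∈ Finset.Ico a b, ρ i ≤ 2 * (ρ a - ρ b) := by
  induction b, hab using Nat.le_induction with
  | base => simp
  | succ b hab ih =>
    rw [Finset.sum_Ico_succ_top hab]
    have h1 := hd b
    have h2 := hρ b
    linarith

private theorem norm_exp_I (x : ℝ) : ‖Complex.exp (Complex.I * x)‖ = 1 := by
  rw [mul_comm, Complex.norm_exp_ofReal_mul_I]

theorem uu_approx (hδ : 0 < δ) (hδ' : δ ≤ 1 / 2) (hρ : ∀ k, 0 < ρ k)
    (hd : ∀ k, ρ (k + 1) ≤ δ * ρ k)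
    (hp : ∀ k x x', (∀ i ≤ k, IsPer (thet i x' - thet i x)) → g k x' = g k x)
    (ha : ∀ k < r, ∀ x,
      ‖g k x - ((k : ℂ) + 2) * ρ k * Complex.exp (Complex.I * thet k x)‖ ≤ δ * ρ k)
    {θ θ' : Fin r → ℝ} (k : Fin r) (h : ∀ i < k, IsPer (θ' i - θ i)) :
    ‖uuG r g θ' - uuG r g θ - ((k.val : ℝ) + 2) * ρ k *
      (Complex.exp (θ' k * Complex.I) - Complex.exp (θ k * Complex.I))‖ ≤
        4 * ((r : ℝ) + 4) * δ * ρ k := by
  have hkr := k.isLt
  have hd2 : ∀ k, ρ (k + 1) ≤ 1 / 2 * ρ k := fun k => (hd k).trans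
    (mul_le_mul_of_nonneg_right hδ' (hρ k).le)
  have e1 : uuG r g θ' - uuG r g θ = ∑ i ∈ Finset.range r, (g i (xr (ph θ')) - g i (xr (ph θ))) := by
    unfold uuG
    rw [Finset.sum_sub_distrib]
  have e2 : ∑ i ∈ Finset.range r, (g i (xr (ph θ')) - g i (xr (ph θ))) =
      ∑ i ∈ Finset.Ico k.val r, (g i (xr (ph θ')) - g i (xr (ph θ))) := by
    rw [← Finset.sum_range_add_sum_Ico _ hkr.le]
    have : ∑ i ∈ Finset.range k.val, (g i (xr (ph θ')) - g i (xr (ph θ))) = 0 := by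
      refine Finset.sum_eq_zero fun i hi => ?_
      have hi' := Finset.mem_range.1 hi
      rw [g_eq hp (lt_trans hi' hkr) fun j hj => h j (by
        rw [Fin.lt_def]; omega), sub_self]
    rw [this, zero_add]
  rw [e1, e2, Finset.sum_eq_sum_Ico_succ_bot hkr]
  have hx' := ha k.val hkr (xr (ph θ'))
  have hx := ha k.val hkr (xr (ph θ))
  rw [thet_xr] at hx hx'
  have hk1 : ‖g k.val (xr (ph θ')) - g k.val (xr (ph θ)) - ((k.val : ℝ) + 2) * ρ k *
      (Complex.exp (θ' k * Complex.I) - Complex.exp (θ k * Complex.I))‖ ≤ 2 * δ * ρ k := by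
    have e : g k.val (xr (ph θ')) - g k.val (xr (ph θ)) - ((k.val : ℝ) + 2) * ρ k *
        (Complex.exp (θ' k * Complex.I) - Complex.exp (θ k * Complex.I)) =
        (g k.val (xr (ph θ')) - ((k.val : ℂ) + 2) * ρ k * Complex.exp (Complex.I * θ' k)) -
          (g k.val (xr (ph θ)) - ((k.val : ℂ) + 2) * ρ k * Complex.exp (Complex.I * θ k)) := by
      rw [mul_comm Complex.I (θ' k : ℂ), mul_comm Complex.I (θ k : ℂ)]
      push_cast
      ring
    rw [e]
    refine (norm_sub_le _ _).trans ?_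
    linarith
  have hi1 : ∀ i ∈ Finset.Ico (k.val + 1) r, ‖g i (xr (ph θ')) - g i (xr (ph θ))‖ ≤
      2 * ((r : ℝ) + 2) * ρ i := by
    intro i hi
    have hi' := Finset.mem_Ico.1 hi
    have hb : ∀ x, ‖g i x‖ ≤ ((r : ℝ) + 2) * ρ i := by
      intro x
      have h1 := ha i hi'.2 x
      have h2 : ‖g i x‖ ≤ ‖g i x - ((i : ℂ) + 2) * ρ i * Complex.exp (Complex.I * thet i x)‖ +
          ‖((i : ℂ) + 2) * ρ i * Complex.exp (Complex.I * thet i x)‖ := by
        have := norm_add_le (g i x - ((i : ℂ) + 2) * ρ i * Complex.exp (Complex.I * thet i x))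
          (((i : ℂ) + 2) * ρ i * Complex.exp (Complex.I * thet i x))
        rwa [sub_add_cancel] at this
      have h3 : ‖((i : ℂ) + 2) * ρ i * Complex.exp (Complex.I * thet i x)‖ =
          ((i : ℝ) + 2) * ρ i := by
        rw [norm_mul, norm_mul, norm_exp_I, mul_one, Complex.norm_real, Real.norm_of_nonneg (hρ i).le]
        congr 1
        have : ((i : ℂ) + 2) = (((i : ℝ) + 2 : ℝ) : ℂ) := by push_cast; ring
        rw [this, Complex.norm_real, Real.norm_of_nonneg (by positivity)]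
      have h4 : (i : ℝ) + 1 ≤ r := by exact_mod_cast hi'.2
      have h5 := hρ i
      rw [h3] at h2
      nlinarith
    refine (norm_sub_le _ _).trans ?_
    linarith [hb (xr (ph θ')), hb (xr (ph θ))]
  have hs : ‖∑ i ∈ Finset.Ico (k.val + 1) r, (g i (xr (ph θ')) - g i (xr (ph θ)))‖ ≤
      4 * ((r : ℝ) + 2) * δ * ρ k := by
    refine (norm_sum_le_of_le _ hi1).trans ?_
    rw [← Finset.mul_sum]
    have h1 := sum_geo hρ hd2 (k.val + 1) r hkr
    have h2 := hρ r
    have h3 := hd k.val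
    have h4 : ∑ i ∈ Finset.Ico (k.val + 1) r, ρ i ≤ 2 * (δ * ρ k) := by linarith
    have h5 : (0 : ℝ) ≤ 2 * ((r : ℝ) + 2) := by positivity
    calc 2 * ((r : ℝ) + 2) * ∑ i ∈ Finset.Ico (k.val + 1) r, ρ i ≤
        2 * ((r : ℝ) + 2) * (2 * (δ * ρ k)) := mul_le_mul_of_nonneg_left h4 h5
      _ = 4 * ((r : ℝ) + 2) * δ * ρ k := by ring
  rw [add_sub_right_comm]
  refine (norm_add_le _ _).trans ?_
  have h6 : 0 < δ * ρ k := mul_pos hδ (hρ k)
  nlinarith

end Pool.Agent.FLO
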