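import Pool.Agent.FLG.Flag
import Pool.Agent.FLO.Defs

/-!
# Full exceptional collections of line bundles on `Fl_(r+1)` and their mutations, in `K_0`

If `(E, F)` are neighbours in an exceptional collection, then so are `(F, R)` and `(L, E)`, where the
mutations `R`, `L` have the classes `± ([E] - χ(E, F) [F])` and `± ([F] - χ(E, F) [E])` in `K_0(X)`; a
shift `E[1]` has the class `-[E]`. All these operations preserve full exceptional collections.
-/

set_option autoImplicit false

open scoped BigOperators

namespace Pool.Agent.FLO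

open Pool.Agent.FLG Pool.Agent.FLG.Flag

variable {ι V V' : Type} [Fintype ι] [AddCommGroup V] [Module ℂ V] [AddCommGroup V'] [Module ℂ V']
  {P : RootPairing ι ℂ V V'} (b : P.Base)

/-- the sequences of classes obtained from the sequence `L` by mutations and shifts -/
inductive Mutated (L : List (KClass P)) : List (KClass P) → Prop
  | refl : Mutated L L
  | shift (l₁ l₂ : List (KClass P)) (x : KClass P) : Mutated L (l₁ ++ x :: l₂) →
      Mutated L (l₁ ++ (-x) :: l₂)
  | right (l₁ l₂ : List (KClass P)) (x y : KClass P) (m : ℤ) : euler b x y = m →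
      Mutated L (l₁ ++ x :: y :: l₂) → Mutated L (l₁ ++ y :: (x - m • y) :: l₂)
  | left (l₁ l₂ : List (KClass P)) (x y : KClass P) (m : ℤ) : euler b x y = m →
      Mutated L (l₁ ++ x :: y :: l₂) → Mutated L (l₁ ++ (y - m • x) :: x :: l₂)

open Classical in
/-- the class of the line bundle `L_μ` -/
noncomputable def lineB (μ : V) : KClass P :=
  if h : ∀ i, ∃ n : ℤ, P.coroot' i μ = n then Finsupp.single ⟨μ, h⟩ 1 else 0

/-- the lexicographic order of exponents -/
def Lex {r : ℕ} (μ ν : Fin r → ℤ) : Prop := ∃ k, (∀ i < k, μ i = ν i) ∧ μ k < ν k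

end Pool.Agent.FLO
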