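import Pool.Agent.FLG.LenS
import Pool.Agent.FLE.Defs

/-!
# FLO-TA1: the Weyl group of a root system of type `A_r` is the symmetric group

`D : RS r'` is a root system in coordinates, `σ : Fin r ≃ Fin r'` an enumeration of the simple roots with the
Cartan matrix `cA` of type `A`. `vv σ a c` is the vector `ε_a - ε_c = ∑_{a ≤ k < c} α_(σ k)`.

The action on these vectors identifies the Weyl group with the symmetric group.
-/

set_option autoImplicit false

open scoped BigOperators

namespace Pool.Agent.FLO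

open Pool.Agent.FLG Equiv

/-- the Cartan matrix of type `A` -/
def cA (i j : ℕ) : ℤ := if i = j then 2 else if i = j + 1 ∨ j = i + 1 then -1 else 0

variable {r r' : ℕ} {D : RS r'} (σ : Fin r ≃ Fin r')

/-- `ε_a - ε_c` -/
def vv (a c : Fin (r + 1)) : Fin r' → ℤ := fun k =>
  (if (σ.symm k).val < c.val then 1 else 0) - (if (σ.symm k).val < a.val then 1 else 0)

theorem vv_al (i : Fin r) : vv σ i.castSucc i.succ = RS.al (σ i) := by
  funext k
  simp only [vv, RS.al, Pi.single_apply, Fin.val_succ, Fin.val_castSucc]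
  have h : (k = σ i) ↔ ((σ.symm k).val = i.val) := by
    rw [← Fin.ext_iff, Equiv.symm_apply_eq]
  rw [if_congr h rfl rfl]
  split_ifs <;> omega

theorem vv_neg (a c : Fin (r + 1)) : vv σ c a = -vv σ a c := by
  funext k
  simp [vv]

theorem vv_inj {a c a' c' : Fin (r + 1)} (hac : a ≠ c) (h : vv σ a c = vv σ a' c') :
    a = a' ∧ c = c' := by
  have key : ∀ j : ℕ, j < r →
      ((if j < c.val then 1 else 0) - (if j < a.val then 1 else 0) : ℤ) =
        (if j < c'.val then 1 else 0) - (if j < a'.val then 1 else 0) := by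
    intro j hj
    have h1 := congrFun h (σ ⟨j, hj⟩)
    simp only [vv, Equiv.symm_apply_apply] at h1
    exact h1
  have h1 : ∀ j : ℕ, j < r → ((a.val ≤ j ∧ j < c.val) ↔ (a'.val ≤ j ∧ j < c'.val)) := by
    intro j hj
    have := key j hj
    split_ifs at this <;> omega
  have h2 : ∀ j : ℕ, j < r → ((c.val ≤ j ∧ j < a.val) ↔ (c'.val ≤ j ∧ j < a'.val)) := by
    intro j hj
    have := key j hj
    split_ifs at this <;> omega
  have hne : a.val ≠ c.val := fun h => hac (Fin.ext h)
  have ha := a.isLt
  have hc := c.isLt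
  have ha' := a'.isLt
  have hc' := c'.isLt
  rw [Fin.ext_iff, Fin.ext_iff]
  rcases lt_or_gt_of_ne hne with h3 | h3
  · have k1 := h1 a.val (by omega)
    have k2 := h1 (c.val - 1) (by omega)
    have k3 : a'.val ≤ a.val ∧ c.val ≤ c'.val := by omega
    have k4 := h1 a'.val (by omega)
    have k5 := h1 (c'.val - 1) (by omega)
    omega
  · have k1 := h2 c.val (by omega)
    have k2 := h2 (a.val - 1) (by omega)
    have k3 : c'.val ≤ c.val ∧ a.val ≤ a'.val := by omega
    have k4 := h2 c'.val (by omega)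
    have k5 := h2 (a'.val - 1) (by omega)
    omega

private theorem sum_range_cA (i c : ℕ) : ∑ j ∈ Finset.range c, cA i j =
    (if c = i + 1 then 1 else 0) - (if c = i then 1 else 0) + (if i = 0 then 1 else 0) := by
  induction c with
  | zero =>
    rw [Finset.sum_range_zero, if_neg (Nat.succ_ne_zero i).symm, if_congr (eq_comm (a := 0)) rfl rfl]
    ring
  | succ c ih =>
    rw [Finset.sum_range_succ, ih]
    unfold cA
    split_ifs <;> omega

private theorem sum_fin (i c : ℕ) (hc : c ≤ r) :
    ∑ j : Fin r, cA i j.val * (if j.val < c then 1 else 0) =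
      (if c = i + 1 then 1 else 0) - (if c = i then 1 else 0) + (if i = 0 then 1 else 0) := by
  rw [← sum_range_cA, ← Finset.sum_range (fun j => cA i j * (if j < c then 1 else 0))]
  have h : ∑ j ∈ Finset.range c, cA i j =
      ∑ j ∈ Finset.range c, cA i j * (if j < c then 1 else 0) :=
    Finset.sum_congr rfl fun j hj => by rw [if_pos (Finset.mem_range.1 hj), mul_one]
  rw [h]
  symm
  apply Finset.sum_subset
  · intro j hj
    rw [Finset.mem_range] at hj ⊢
    omega
  · intro j _ hj
    rw [Finset.mem_range] at hj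
    rw [if_neg hj, mul_zero]

private theorem sw (i : Fin r) (x : Fin (r + 1)) (m : ℕ) :
    (if m < (swap i.castSucc i.succ x).val then 1 else 0 : ℤ) =
      (if m < x.val then 1 else 0) -
        ((if x.val = i.val + 1 then 1 else 0) - (if x.val = i.val then 1 else 0)) *
          (if m = i.val then 1 else 0) := by
  by_cases h1 : x = i.castSucc
  · rw [h1, swap_apply_left, Fin.val_succ, Fin.val_castSucc]
    split_ifs <;> omega
  · by_cases h2 : x = i.succ
    · rw [h2, swap_apply_right, Fin.val_succ, Fin.val_castSucc]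
      split_ifs <;> omega
    · rw [swap_apply_of_ne_of_ne h1 h2]
      have h3 : x.val ≠ i.val := fun h => h1 (Fin.ext (by rw [h, Fin.val_castSucc]))
      have h4 : x.val ≠ i.val + 1 := fun h => h2 (Fin.ext (by rw [h, Fin.val_succ]))
      rw [if_neg h3, if_neg h4]
      ring

theorem rt_s_vv (hA : ∀ i j : Fin r, D.co (RS.al (σ i)) (σ j) = cA i j) (i : Fin r)
    (a c : Fin (r + 1)) : D.rt (D.s (σ i)) (vv σ a c) =
      vv σ (swap i.castSucc i.succ a) (swap i.castSucc i.succ c) := by
  have h0 : dotProduct (D.co (RS.al (σ i))) (vv σ a c) =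
      (((if c.val = i.val + 1 then 1 else 0) - (if c.val = i.val then 1 else 0)) -
        ((if a.val = i.val + 1 then 1 else 0) - (if a.val = i.val then 1 else 0)) : ℤ) := by
    unfold dotProduct
    rw [← Equiv.sum_comp σ]
    have h1 : ∀ j : Fin r, D.co (RS.al (σ i)) (σ j) * vv σ a c (σ j) =
        cA i j * (if j.val < c.val then 1 else 0) - cA i j * (if j.val < a.val then 1 else 0) := by
      intro j
      rw [hA i j]
      simp only [vv, Equiv.symm_apply_apply]
      ring
    rw [Finset.sum_congr rfl fun j _ => h1 j, Finset.sum_sub_distrib,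
      sum_fin i.val c.val (Nat.lt_succ_iff.1 c.isLt), sum_fin i.val a.val (Nat.lt_succ_iff.1 a.isLt)]
    ring
  unfold RS.s
  rw [RS.rt_refl (D.al_mem (σ i)), h0]
  funext k
  have h2 : RS.al (σ i) k = if (σ.symm k).val = i.val then (1 : ℤ) else 0 := by
    have h : (k = σ i) ↔ ((σ.symm k).val = i.val) := by
      rw [← Fin.ext_iff, Equiv.symm_apply_eq]
    simp only [RS.al, Pi.single_apply]
    rw [if_congr h rfl rfl]
  rw [Pi.sub_apply, Pi.smul_apply, smul_eq_mul, h2]
  simp only [vv]
  rw [sw i a, sw i c]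
  ring

theorem exists_perm (hA : ∀ i j : Fin r, D.co (RS.al (σ i)) (σ j) = cA i j) (w : D.W) :
    ∃ π : Perm (Fin (r + 1)), ∀ a c, D.rt w (vv σ a c) = vv σ (π a) (π c) := by
  have hw : w ∈ Subgroup.closure (Set.range fun i => D.refl (Pi.single i 1)) := by
    rw [D.gen]
    exact Subgroup.mem_top w
  induction hw using Subgroup.closure_induction with
  | mem x hx =>
    obtain ⟨i, hi⟩ := hx
    refine ⟨swap (σ.symm i).castSucc (σ.symm i).succ, fun a c => ?_⟩
    have h := rt_s_vv σ hA (σ.symm i) a c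
    rw [Equiv.apply_symm_apply] at h
    rw [← hi]
    exact h
  | one => exact ⟨1, fun a c => by rw [D.rt_one]; rfl⟩
  | mul x y _ _ hx hy =>
    obtain ⟨p, hp⟩ := hx
    obtain ⟨q, hq⟩ := hy
    exact ⟨p * q, fun a c => by rw [D.rt_mul, hq, hp]; rfl⟩
  | inv x _ hx =>
    obtain ⟨p, hp⟩ := hx
    refine ⟨p⁻¹, fun a c => ?_⟩
    have h := hp (p⁻¹ a) (p⁻¹ c)
    have h1 : ∀ b, p (p⁻¹ b) = b := fun b => p.apply_symm_apply b
    rw [h1, h1] at h
    rw [← h, D.rt_inv_rt]

theorem exists_elt (hA : ∀ i j : Fin r, D.co (RS.al (σ i)) (σ j) = cA i j)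
    (π : Perm (Fin (r + 1))) : ∃ w : D.W, ∀ a c, D.rt w (vv σ a c) = vv σ (π a) (π c) := by
  have hp : π ∈ Submonoid.closure (Set.range fun i : Fin r => swap i.castSucc i.succ) := by
    rw [Equiv.Perm.mclosure_swap_castSucc_succ]
    exact Submonoid.mem_top π
  induction hp using Submonoid.closure_induction with
  | mem x hx =>
    obtain ⟨i, hi⟩ := hx
    refine ⟨D.s (σ i), fun a c => ?_⟩
    rw [← hi]
    exact rt_s_vv σ hA i a c
  | one => exact ⟨1, fun a c => by rw [D.rt_one]; rfl⟩
  | mul x y _ _ hx hy =>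
    obtain ⟨u, hu⟩ := hx
    obtain ⟨v, hv⟩ := hy
    exact ⟨u * v, fun a c => by rw [D.rt_mul, hv, hu]; rfl⟩

theorem exists_fA (hA : ∀ i j : Fin r, D.co (RS.al (σ i)) (σ j) = cA i j) :
    ∃ f : D.W ≃* Perm (Fin (r + 1)), ∀ w a c, D.rt w (vv σ a c) = vv σ (f w a) (f w c) := by
  choose f hf using exists_perm σ hA
  have huniq : ∀ p q : Perm (Fin (r + 1)), (∀ a c, vv σ (p a) (p c) = vv σ (q a) (q c)) →
      p = q := by
    intro p q h
    rcases Nat.eq_zero_or_pos r with h0 | h0
    · subst h0
      ext1 a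
      have h1 : ∀ b : Fin (0 + 1), b = 0 := fun b => Fin.ext (by omega)
      rw [h1 (p a), h1 (q a)]
    · have : Nontrivial (Fin (r + 1)) := Fin.nontrivial_iff_two_le.2 (by omega)
      ext1 a
      obtain ⟨c, hc⟩ := exists_ne a
      exact (vv_inj σ (fun h' => hc (p.injective h').symm) (h a c)).1
  have hmul : ∀ u v, f (u * v) = f u * f v := by
    intro u v
    apply huniq
    intro a c
    rw [← hf, D.rt_mul, hf, hf]
    rfl
  have hbij : Function.Bijective (MonoidHom.mk' f hmul) := by
    constructor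
    · intro u v huv
      have huv' : f u = f v := huv
      apply D.ext_rt
      intro k
      have hk := vv_al σ (σ.symm k)
      rw [Equiv.apply_symm_apply] at hk
      rw [← hk, hf, hf, huv']
    · intro p
      obtain ⟨w, hw⟩ := exists_elt σ hA p
      refine ⟨w, ?_⟩
      change f w = p
      apply huniq
      intro a c
      rw [← hf, hw]
  exact ⟨MulEquiv.ofBijective (MonoidHom.mk' f hmul) hbij, fun w a c => hf w a c⟩

end Pool.Agent.FLO
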