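import Pool.Agent.FLO.TA1
import Pool.Agent.FLG.LenA

/-!
# FLO-TA2: positive roots, reflections, lengths and coroots in type `A`
-/

set_option autoImplicit false

open scoped BigOperators

namespace Pool.Agent.FLO

open Pool.Agent.FLG Equiv

variable {r r' : ℕ} {D : RS r'} (σ : Fin r ≃ Fin r')
  (hA : ∀ i j : Fin r, D.co (RS.al (σ i)) (σ j) = cA i j)
  {f : D.W ≃* Perm (Fin (r + 1))} (hf : ∀ w a c, D.rt w (vv σ a c) = vv σ (f w a) (f w c))

private theorem t2_ap (a c : Fin (r + 1)) (i : Fin r) : vv σ a c (σ i) =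
    (if i.val < c.val then 1 else 0) - (if i.val < a.val then 1 else 0) := by
  unfold vv
  rw [Equiv.symm_apply_apply]

private theorem t2_nn {a c : Fin (r + 1)} (h : a < c) (k : Fin r') : 0 ≤ vv σ a c k := by
  unfold vv
  rw [Fin.lt_def] at h
  split_ifs <;> omega

private theorem t2_perm {n : ℕ} {x y a c : Fin n} (hxy : x ≠ y) (hac : a ≠ c) :
    ∃ π : Perm (Fin n), π x = a ∧ π y = c := by
  refine ⟨swap (swap x a y) c * swap x a, ?_, ?_⟩
  · rw [Perm.mul_apply, swap_apply_left, swap_apply_of_ne_of_ne ?_ hac]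
    intro h
    have h1 : swap x a x = swap x a y := by
      rw [swap_apply_left]
      exact h
    exact hxy ((swap x a).injective h1)
  · rw [Perm.mul_apply, swap_apply_left]

include hf in
private theorem t2_elt {a c : Fin (r + 1)} (hac : a ≠ c) : ∃ (w : D.W) (i : Fin r),
    f w i.castSucc = a ∧ f w i.succ = c ∧ D.rt w (RS.al (σ i)) = vv σ a c := by
  have hr : 0 < r := by
    by_contra h0
    apply hac
    apply Fin.ext
    have h1 := a.isLt
    have h2 := c.isLt
    omega
  obtain ⟨π, h1, h2⟩ := t2_perm (x := (⟨0, hr⟩ : Fin r).castSucc) (y := (⟨0, hr⟩ : Fin r).succ)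
    Fin.castSucc_lt_succ.ne hac
  refine ⟨f.symm π, ⟨0, hr⟩, ?_, ?_, ?_⟩
  · rw [MulEquiv.apply_symm_apply]
    exact h1
  · rw [MulEquiv.apply_symm_apply]
    exact h2
  · rw [← vv_al, hf, MulEquiv.apply_symm_apply, h1, h2]

include hf in
private theorem t2_pos {a c : Fin (r + 1)} (hac : a < c) : vv σ a c ∈ D.Pos := by
  obtain ⟨w, i, -, -, h3⟩ := t2_elt σ hf hac.ne
  refine RS.mem_Pos.2 ⟨?_, t2_nn σ hac⟩
  rw [← h3]
  exact RS.rt_mem D |>.2 (D.al_mem _)

include hf in
private theorem t2_not {a c : Fin (r + 1)} (hac : a < c) : vv σ c a ∉ D.Pos := by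
  rw [vv_neg]
  exact RS.neg_not_pos (t2_pos σ hf hac)

include hA hf in
private theorem t2_s (i : Fin r) : f (D.s (σ i)) = swap i.castSucc i.succ := by
  have key : ∀ a c, a ≠ c → f (D.s (σ i)) a = swap i.castSucc i.succ a := by
    intro a c hac
    have h1 := hf (D.s (σ i)) a c
    rw [rt_s_vv σ hA] at h1
    exact ((vv_inj σ (fun h => hac ((swap _ _).injective h)) h1).1).symm
  apply Equiv.ext
  intro a
  by_cases ha : a = i.castSucc
  · exact key a i.succ (by rw [ha]; exact Fin.castSucc_lt_succ.ne)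
  · exact key a i.castSucc ha

private theorem t2_fin {M : Type*} [AddCommMonoid M] (g : ℕ → M) {n a c : ℕ} (hc : c ≤ n) :
    ∑ k : Fin n, (if a ≤ k.val ∧ k.val < c then g k.val else 0) =
      ∑ k ∈ Finset.Ico a c, g k := by
  rw [Fin.sum_univ_eq_sum_range (fun k => if a ≤ k ∧ k < c then g k else 0) n,
    ← Finset.sum_filter]
  refine Finset.sum_congr ?_ fun _ _ => rfl
  ext k
  rw [Finset.mem_filter, Finset.mem_range, Finset.mem_Ico]
  omega

private theorem t2_tel (H : ℕ → ℤ) {a c : ℕ} (h : a ≤ c) :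
    ∑ k ∈ Finset.Ico a c, (H (k + 1) - H k) = H c - H a := by
  induction c, h using Nat.le_induction with
  | base => rw [Finset.Ico_self, Finset.sum_empty, sub_self]
  | succ c hc ih =>
    rw [Finset.sum_Ico_succ_top hc, ih]
    ring

private theorem t2_sw {n : ℕ} {a c : Fin n} (hac : a < c) (z : Fin n) :
    (if a.val < (swap a c z).val then 1 else 0 : ℤ) =
      (if a.val < z.val then 1 else 0) + (if z.val = a.val then 1 else 0) -
        (if z.val = c.val then 1 else 0) := by
  rw [Fin.lt_def] at hac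
  by_cases h1 : z = a
  · subst h1
    rw [swap_apply_left, if_pos hac, if_neg (lt_irrefl _), if_pos rfl, if_neg hac.ne]
    norm_num
  · by_cases h2 : z = c
    · subst h2
      rw [swap_apply_right, if_neg (lt_irrefl _), if_pos hac, if_neg hac.ne', if_pos rfl]
      norm_num
    · rw [swap_apply_of_ne_of_ne h1 h2, if_neg (fun h => h1 (Fin.ext h)),
        if_neg (fun h => h2 (Fin.ext h))]
      ring

include hA hf in
theorem mem_pos_iff (x : Fin r' → ℤ) : x ∈ D.Pos ↔ ∃ a c, a < c ∧ x = vv σ a c := by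
  have _ := hA
  constructor
  · intro hx
    obtain ⟨w, k, rfl⟩ := RS.exists_al (RS.mem_of_pos hx)
    obtain ⟨i, rfl⟩ := σ.surjective k
    rw [← vv_al, hf] at hx ⊢
    refine ⟨_, _, ?_, rfl⟩
    rcases lt_trichotomy (f w i.castSucc) (f w i.succ) with h | h | h
    · exact h
    · exact absurd ((f w).injective h) Fin.castSucc_lt_succ.ne
    · exact absurd hx (t2_not σ hf h)
  · rintro ⟨a, c, hac, rfl⟩
    exact t2_pos σ hf hac

include hA hf in
theorem len_inv (w : D.W) : D.len w = FLE.inv (f w) := by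
  unfold RS.len FLE.inv
  symm
  refine Finset.card_bij (fun p _ => vv σ p.1 p.2) ?_ ?_ ?_
  · intro p hp
    obtain ⟨-, h1, h2⟩ := Finset.mem_filter.1 hp
    rw [Finset.mem_filter, hf]
    exact ⟨t2_pos σ hf h1, t2_not σ hf h2⟩
  · intro p hp q hq h
    obtain ⟨-, h1, -⟩ := Finset.mem_filter.1 hp
    obtain ⟨h2, h3⟩ := vv_inj σ h1.ne h
    exact Prod.ext h2 h3
  · intro x hx
    obtain ⟨h1, h2⟩ := Finset.mem_filter.1 hx
    obtain ⟨a, c, hac, rfl⟩ := (mem_pos_iff σ hA hf x).1 h1
    refine ⟨(a, c), Finset.mem_filter.2 ⟨Finset.mem_univ _, hac, ?_⟩, rfl⟩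
    rw [hf] at h2
    rcases lt_trichotomy (f w a) (f w c) with h | h | h
    · exact absurd (t2_pos σ hf h) h2
    · exact absurd ((f w).injective h) hac.ne
    · exact h

include hA hf in
theorem f_refl {a c : Fin (r + 1)} (hac : a < c) : f (D.refl (vv σ a c)) = swap a c := by
  obtain ⟨w, i, h1, h2, h3⟩ := t2_elt σ hf hac.ne
  rw [← h3, RS.refl_rt w (D.al_mem _)]
  show f (w * D.s (σ i) * w⁻¹) = _
  rw [map_mul, map_mul, t2_s σ hA hf, map_inv, ← Equiv.swap_apply_apply, h1, h2]

include hA hf in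
private theorem t2_dot {a c : Fin (r + 1)} (hac : a < c) (j : Fin r) :
    D.co (vv σ a c) (σ j) = (if j.val + 1 = c.val then 1 else 0) -
      (if j.val + 1 = a.val then 1 else 0) - (if j.val = c.val then 1 else 0) +
        (if j.val = a.val then 1 else 0) := by
  have h1 := RS.rt_refl (RS.mem_of_pos (t2_pos σ hf hac)) (RS.al (σ j))
  rw [RS.dot_al, ← vv_al σ j, hf, f_refl σ hA hf hac] at h1
  have hac' := Fin.lt_def.1 hac
  have ha : a.val < r := by
    have := c.isLt
    omega
  have h2 := congrFun h1 (σ ⟨a.val, ha⟩)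
  rw [Pi.sub_apply, Pi.smul_apply, smul_eq_mul, t2_ap, t2_ap, t2_ap] at h2
  simp only [] at h2
  rw [t2_sw hac, t2_sw hac, if_pos hac', if_neg (lt_irrefl _), sub_zero, mul_one] at h2
  simp only [Fin.val_succ, Fin.val_castSucc] at h2
  linarith

include hA hf in
theorem co_vv {a c : Fin (r + 1)} (hac : a < c) : D.co (vv σ a c) =
    ∑ k : Fin r, if a.val ≤ k.val ∧ k.val < c.val then D.co (RS.al (σ k)) else 0 := by
  funext k
  obtain ⟨j, rfl⟩ := σ.surjective k
  have hac' := Fin.lt_def.1 hac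
  have h1 : (∑ k : Fin r, if a.val ≤ k.val ∧ k.val < c.val then D.co (RS.al (σ k)) else 0) (σ j) =
      ∑ k : Fin r, if a.val ≤ k.val ∧ k.val < c.val then cA k.val j.val else 0 := by
    rw [Finset.sum_apply]
    refine Finset.sum_congr rfl fun k _ => ?_
    by_cases hk : a.val ≤ k.val ∧ k.val < c.val
    · rw [if_pos hk, if_pos hk, hA]
    · rw [if_neg hk, if_neg hk, Pi.zero_apply]
  rw [h1, t2_fin (fun k => cA k j.val) (by have := c.isLt; omega), t2_dot σ hA hf hac]
  have h2 : ∀ k ∈ Finset.Ico a.val c.val, cA k j.val =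
      ((fun z : ℕ => (if j.val + 1 = z then 1 else 0 : ℤ) - (if j.val = z then 1 else 0)) (k + 1) -
        (fun z : ℕ => (if j.val + 1 = z then 1 else 0 : ℤ) - (if j.val = z then 1 else 0)) k) := by
    intro k _
    unfold cA
    simp only []
    split_ifs <;> omega
  rw [Finset.sum_congr rfl h2]
  refine Eq.trans ?_ (t2_tel (fun z : ℕ => (if j.val + 1 = z then 1 else 0 : ℤ) -
    (if j.val = z then 1 else 0)) hac'.le).symm
  ring

include hA hf in
theorem ch_vv {a c : Fin (r + 1)} (hac : a < c) (h : Fin r' → ℂ) {g : ℕ → ℂ}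
    (hg : ∀ k : Fin r, g k = D.ch h (RS.al (σ k))) :
    D.ch h (vv σ a c) = ∑ k ∈ Finset.Ico a.val c.val, g k := by
  have hac' := Fin.lt_def.1 hac
  have h1 : D.ch h (vv σ a c) =
      ∑ k : Fin r, if a.val ≤ k.val ∧ k.val < c.val then g k.val else 0 := by
    unfold RS.ch
    rw [co_vv σ hA hf hac]
    have h2 : ∀ j, h j * (((∑ k : Fin r, if a.val ≤ k.val ∧ k.val < c.val then
        D.co (RS.al (σ k)) else 0) j : ℤ) : ℂ) = ∑ k : Fin r,
        if a.val ≤ k.val ∧ k.val < c.val then h j * (D.co (RS.al (σ k)) j : ℂ) else 0 := by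
      intro j
      rw [Finset.sum_apply, Int.cast_sum, Finset.mul_sum]
      refine Finset.sum_congr rfl fun k _ => ?_
      by_cases hk : a.val ≤ k.val ∧ k.val < c.val
      · rw [if_pos hk, if_pos hk]
      · rw [if_neg hk, if_neg hk, Pi.zero_apply, Int.cast_zero, mul_zero]
    rw [Finset.sum_congr rfl fun j _ => h2 j, Finset.sum_comm]
    refine Finset.sum_congr rfl fun k _ => ?_
    by_cases hk : a.val ≤ k.val ∧ k.val < c.val
    · simp only [if_pos hk]
      exact (hg k).symm
    · simp only [if_neg hk, Finset.sum_const_zero]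
  rw [h1, t2_fin g (by have := c.isLt; omega)]

include hA hf in
theorem L_vv {a c : Fin (r + 1)} (hac : a < c) : D.L (vv σ a c) = 2 * (c.val - a.val : ℤ) := by
  have hac' := Fin.lt_def.1 hac
  have h1 : D.L (vv σ a c) =
      ∑ k : Fin r, if a.val ≤ k.val ∧ k.val < c.val then (2 : ℤ) else 0 := by
    unfold RS.L
    rw [co_vv σ hA hf hac]
    unfold dotProduct
    simp only [Finset.sum_apply, Finset.sum_mul]
    rw [Finset.sum_comm]
    refine Finset.sum_congr rfl fun k _ => ?_
    by_cases hk : a.val ≤ k.val ∧ k.val < c.val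
    · simp only [if_pos hk]
      exact RS.L_al (D := D) (σ k)
    · simp only [if_neg hk, Pi.zero_apply, zero_mul, Finset.sum_const_zero]
  rw [h1, t2_fin (fun _ => (2 : ℤ)) (by have := c.isLt; omega), Finset.sum_const, Nat.card_Ico,
    nsmul_eq_mul, Nat.cast_sub hac'.le]
  ring

end Pool.Agent.FLO
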