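import Pool.Agent.FLO.TA2
import Pool.Agent.FLO.GInst

/-!
# FLO-TA3: the quantum Chevalley operators of `Fl_(r+1)` on permutations

The model in coordinates of `FLG` and the isomorphism `exists_fA`.
-/

set_option autoImplicit false
set_option linter.unusedSectionVars false

open scoped BigOperators Nat

namespace Pool.Agent.FLO

open Pool.Agent.FLG Pool.Agent.FLG.Flag Equiv

/-- a function on `Fin r` as a function on `ℕ` -/
def xt {r : ℕ} (h : Fin r → ℂ) (k : ℕ) : ℂ := if hk : k < r then h ⟨k, hk⟩ else 0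

variable {ι V V' : Type} [Fintype ι] [AddCommGroup V] [Module ℂ V] [AddCommGroup V'] [Module ℂ V']
  {P : RootPairing ι ℂ V V'} [P.IsCrystallographic] (b : P.Base) [P.IsRootSystem] [P.IsReduced]
  [Fintype P.weylGroup] [DecidableEq P.weylGroup]
  {r : ℕ} {e : Fin r ≃ b.support} {ω : Fin r → V}
  (he : ∀ i j : Fin r, P.pairing (e i) (e j) = (cA i j : ℂ)) (hω : IsFund b e ω)

/-- a model of `P` with the Cartan matrix of type `A` -/
private structure Mo (ω : Fin r → V) {r' : ℕ} (D : RS r') (m : IsModel P b D)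
    (σ : Fin r ≃ Fin r') : Prop where
  hA : ∀ i j : Fin r, D.co (RS.al (σ i)) (σ j) = cA i j
  hco : ∀ (h : Fin r → ℂ) (k : Fin r), D.ch (m.s (tp ω h)) (RS.al (σ k)) = h k
  he : ∀ k, ∃ j, (m.e (σ j) : ι) = m.e k

private theorem cA_symm (i j : ℕ) : cA i j = cA j i := by
  unfold cA
  by_cases h : i = j
  · subst h; rfl
  · have h' : ¬ j = i := fun h1 => h h1.symm
    rw [if_neg h, if_neg h']
    exact if_congr Or.comm rfl rfl

include he hω in
private theorem exists_mo : ∃ (D : RS b.support.card) (m : IsModel P b D)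
    (σ : Fin r ≃ Fin b.support.card), Mo b ω D m σ := by
  obtain ⟨D, ⟨m⟩⟩ := exists_model P b
  have h0 : ∀ k, m.e ((e.trans m.e.symm) k) = e k := fun k => by
    rw [Equiv.trans_apply, Equiv.apply_symm_apply]
  refine ⟨D, m, e.trans m.e.symm, ?_, ?_, ?_⟩
  · intro i j
    rw [← m.v_e, m.co, h0, h0]
    apply Int.cast_injective (α := ℂ)
    have h1 : ((P.pairingIn ℤ (e j) (e i) : ℤ) : ℂ) = P.pairing (e j) (e i) :=
      P.algebraMap_pairingIn ℤ _ _
    rw [h1, he, cA_symm]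
  · intro h k
    rw [← m.v_e, m.ch_s, h0, tp_apply, map_sum, Finset.sum_eq_single k]
    · rw [map_smul, hω k k, if_pos rfl, smul_eq_mul, mul_one]
    · intro j _ hj
      rw [map_smul, hω k j, if_neg (Ne.symm hj), smul_zero]
    · intro hk
      exact absurd (Finset.mem_univ k) hk
  · intro k
    exact ⟨(e.trans m.e.symm).symm k, by rw [Equiv.apply_symm_apply]⟩

private theorem xt_lt (h : Fin r → ℂ) (k : Fin r) : xt h k = h k := by
  unfold xt
  rw [dif_pos k.isLt]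

private theorem ch_tp {r' : ℕ} {D : RS r'} {m : IsModel P b D} {σ : Fin r ≃ Fin r'}
    (M : Mo b ω D m σ) {f : D.W ≃* Perm (Fin (r + 1))}
    (hf : ∀ w a c, D.rt w (vv σ a c) = vv σ (f w a) (f w c)) {a c : Fin (r + 1)} (hac : a < c)
    (h : Fin r → ℂ) : D.ch (m.s (tp ω h)) (vv σ a c) = ∑ k ∈ Finset.Ico a.val c.val, xt h k :=
  ch_vv σ M.hA hf hac _ fun k => by rw [M.hco, xt_lt]

private theorem qq_tp {r' : ℕ} {D : RS r'} {m : IsModel P b D} {σ : Fin r ≃ Fin r'}
    (M : Mo b ω D m σ) {f : D.W ≃* Perm (Fin (r + 1))}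
    (hf : ∀ w a c, D.rt w (vv σ a c) = vv σ (f w a) (f w c)) {a c : Fin (r + 1)} (hac : a < c)
    (τ : Fin r → ℂ) : RS.qq (m.s (tp ω τ)) (D.co (vv σ a c)) =
      ∏ k ∈ Finset.Ico a.val c.val, xt (fun k => Complex.exp (τ k)) k := by
  have h1 : RS.qq (m.s (tp ω τ)) (D.co (vv σ a c)) =
      Complex.exp (D.ch (m.s (tp ω τ)) (vv σ a c)) := rfl
  rw [h1, ch_tp b M hf hac, Complex.exp_sum]
  refine Finset.prod_congr rfl fun k hk => ?_
  have h2 : k < r := by
    have := (Finset.mem_Ico.1 hk).2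
    have := c.isLt
    omega
  unfold xt
  rw [dif_pos h2, dif_pos h2]

private theorem E_tp {r' : ℕ} {D : RS r'} {m : IsModel P b D} {σ : Fin r ≃ Fin r'}
    (M : Mo b ω D m σ) {f : D.W ≃* Perm (Fin (r + 1))}
    (hf : ∀ w a c, D.rt w (vv σ a c) = vv σ (f w a) (f w c)) (τ h : Fin r → ℂ) (u w : D.W) :
    D.E (D.ch (m.s (tp ω h))) (m.s (tp ω τ)) u w =
      FLE.qc (r + 1) (xt fun k => Complex.exp (τ k)) (xt h) (f u) (f w) := by
  classical
  unfold RS.E FLE.qc
  rw [Matrix.of_apply]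
  have h1 : ∀ p : Fin (r + 1) × Fin (r + 1),
      (if p.1 < p.2 ∧ f u = f w * swap p.1 p.2 then
        (∑ k ∈ Finset.Ico p.1.val p.2.val, xt h k) *
          ((if FLE.inv (f u) = FLE.inv (f w) + 1 then 1 else 0) +
            (if FLE.inv (f u) + 2 * (p.2.val - p.1.val) = FLE.inv (f w) + 1 then
              ∏ k ∈ Finset.Ico p.1.val p.2.val, xt (fun k => Complex.exp (τ k)) k else 0))
        else 0) = if p.1 < p.2 then (if f u = f w * swap p.1 p.2 then
        (∑ k ∈ Finset.Ico p.1.val p.2.val, xt h k) *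
          ((if FLE.inv (f u) = FLE.inv (f w) + 1 then 1 else 0) +
            (if FLE.inv (f u) + 2 * (p.2.val - p.1.val) = FLE.inv (f w) + 1 then
              ∏ k ∈ Finset.Ico p.1.val p.2.val, xt (fun k => Complex.exp (τ k)) k else 0))
        else 0) else 0 := fun p => by
    by_cases h2 : p.1 < p.2 <;> by_cases h3 : f u = f w * swap p.1 p.2 <;> simp [h2, h3]
  symm
  rw [Finset.sum_congr rfl fun p _ => h1 p,
    ← Finset.sum_filter (p := fun p : Fin (r + 1) × Fin (r + 1) => p.1 < p.2)]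
  refine Finset.sum_bij (fun p _ => vv σ p.1 p.2) ?_ ?_ ?_ ?_
  · intro p hp
    exact (mem_pos_iff σ M.hA hf _).2 ⟨p.1, p.2, (Finset.mem_filter.1 hp).2, rfl⟩
  · intro p hp p' _ hpp
    obtain ⟨e1, e2⟩ := vv_inj σ (Finset.mem_filter.1 hp).2.ne hpp
    exact Prod.ext e1 e2
  · intro x hx
    obtain ⟨a, c, hac, rfl⟩ := (mem_pos_iff σ M.hA hf _).1 hx
    exact ⟨(a, c), Finset.mem_filter.2 ⟨Finset.mem_univ _, hac⟩, rfl⟩
  · intro p hp
    have hac : p.1 < p.2 := (Finset.mem_filter.1 hp).2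
    have hac' : p.1.val < p.2.val := hac
    have h2 : (f u = f w * swap p.1 p.2) ↔ u = w * D.refl (vv σ p.1 p.2) := by
      rw [← f_refl σ M.hA hf hac, ← map_mul]
      exact f.injective.eq_iff
    have h3 : (FLE.inv (f u) = FLE.inv (f w) + 1) ↔ D.len u = D.len w + 1 := by
      rw [len_inv σ M.hA hf, len_inv σ M.hA hf]
    have h4 : (FLE.inv (f u) + 2 * (p.2.val - p.1.val) = FLE.inv (f w) + 1) ↔
        (D.len u : ℤ) + D.L (vv σ p.1 p.2) = D.len w + 1 := by
      rw [len_inv σ M.hA hf, len_inv σ M.hA hf, L_vv σ M.hA hf hac]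
      omega
    rw [← ch_tp b M hf hac h, ← qq_tp b M hf hac τ]
    simp only [h2, h3, h4]

include he hω in
theorem bridge : ∃ f : P.weylGroup ≃* Perm (Fin (r + 1)), ∀ τ h : Fin r → ℂ,
    mul b (tp ω τ) (tp ω h) =
      (FLE.qc (r + 1) (xt fun k => Complex.exp (τ k)) (xt h)).submatrix f f := by
  obtain ⟨D, m, σ, M⟩ := exists_mo b he hω
  obtain ⟨f, hf⟩ := exists_fA σ M.hA
  refine ⟨m.f.trans f, fun τ h => ?_⟩
  rw [← m.bk_s (tp ω τ), ← m.bk_s (tp ω h), m.mul_bk]
  ext u w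
  rw [Matrix.submatrix_apply, Matrix.submatrix_apply, E_tp b M hf]
  rfl

include he hω in
theorem c1_tp : c₁ b = tp ω fun _ => 2 := by
  obtain ⟨D, m, σ, M⟩ := exists_mo b he hω
  have h1 : ∀ k, P.coroot' (m.e k) (c₁ b - tp ω fun _ => 2) = 0 := by
    intro k
    obtain ⟨j, hj⟩ := M.he k
    have h2 := M.hco (fun _ => 2) j
    rw [← m.v_e, m.ch_s, hj] at h2
    rw [map_sub, h2, m.ch_ctr', m.v_e, RS.L_al]
    norm_num
  have h2 : P.toLinearMap (c₁ b - tp ω fun _ => 2) = 0 := by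
    refine LinearMap.ext_on_range (v := P.coroot)
      RootPairing.IsRootSystem.span_coroot_eq_top fun i => ?_
    rw [m.cof i, map_sum, LinearMap.zero_apply]
    refine Finset.sum_eq_zero fun k _ => ?_
    rw [map_zsmul]
    have h3 : P.toLinearMap (c₁ b - tp ω fun _ => 2) (P.coroot (m.e k)) = 0 := h1 k
    rw [h3, smul_zero]
  have h3 : Function.Injective P.toLinearMap := P.toLinearMap.toPerfPair.injective
  have h4 := h3 (h2.trans (map_zero P.toLinearMap).symm)
  exact sub_eq_zero.1 h4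

include he hω in
theorem root_int {a c : ℕ} (hac : a < c) (hc : c ≤ r) : ∃ i ∈ pos b, ∀ τ : Fin r → ℂ,
    P.coroot' i (tp ω τ) = ∑ k ∈ Finset.Ico a c, xt τ k := by
  obtain ⟨D, m, σ, M⟩ := exists_mo b he hω
  obtain ⟨f, hf⟩ := exists_fA σ M.hA
  have hac' : (⟨a, by omega⟩ : Fin (r + 1)) < ⟨c, by omega⟩ := hac
  have h1 := (mem_pos_iff σ M.hA hf _).2 ⟨_, _, hac', rfl⟩
  obtain ⟨i, hi⟩ := (m.range_v _).1 (RS.mem_of_pos h1)
  refine ⟨i, m.mem_pos.2 (by rw [hi]; exact h1), fun τ => ?_⟩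
  rw [← m.ch_s, hi, ch_tp b M hf hac']

include he hω in
theorem card_weyl : Fintype.card P.weylGroup = (r + 1)! := by
  obtain ⟨f, -⟩ := bridge b he hω
  rw [Fintype.card_congr f.toEquiv, Fintype.card_perm, Fintype.card_fin]

end Pool.Agent.FLO
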